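import Pool.Agent.W_448j6_h22.KbJ

/-!
MP_448cb3_co, G2, case B, window `j`: the values of the sites, the bad doubles of a part.
-/

namespace Pool.Agent.GaussPoset.EK

set_option linter.unusedSectionVars false

open Finset Win St Polynomial Wd Win.W4

universe u

variable {P : Type u} [Fintype P] [PartialOrder P] [DecidableEq P] {r i j : ℕ}

variable {m m' : ℕ} {x x' : ℕ → P} {c c' : ℕ → ℤ} {β β' : ℤ} {t : Tops P}

variable {K : Finset P} {psi : P → P} {Y V : P → P} {w v : P}

/-- a row without defects is natural -/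
lemma RowB.nat_of (h : NJ P r j) (B : RowB P j t m x c β) (h0 : ∀ k, k < m → c k = 0)
    (hβ : β = 0) : NatT j (t : P) := by
  have H := h.g.H
  have key : ∀ a b, a < b → b ≤ m → ucv (x a) (x b) = dcv (x a) (x b) := by
    intro a b hab hb
    have hne : x a ≠ x b := fun q => by
      have := B.row.inj a b (by omega) hb q
      omega
    have e1 := B.row.df a b hab hb
    rw [Df_pair H (B.row.lev_x a (by omega)) hne, hβ] at e1
    have e2 : (dcv (x a) (x b) : ℤ) - ucv (x a) (x b) = 0 := by
      rw [e1]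
      split_ifs
      · exact h0 a (by omega)
      · rfl
      · rfl
    have : (ucv (x a) (x b) : ℤ) = dcv (x a) (x b) := by linarith
    exact_mod_cast this
  intro v v' hv hv' hvt hvt' hne
  obtain ⟨a, ha, rfl⟩ := B.row.surj v hv ((RowB.topOf_iff h hv).2 hvt)
  obtain ⟨b, hb, rfl⟩ := B.row.surj v' hv' ((RowB.topOf_iff h hv').2 hvt')
  rcases Nat.lt_trichotomy a b with h1 | h1 | h1
  · exact key a b h1 hb
  · rw [h1] at hne
    exact absurd rfl hne
  · rw [StB_ucv_comm, StB_dcv_comm]
    exact key b a h1 ha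

/-- two descriptions of the same row -/
theorem RowB.same (h : NJ P r j) (hj : 2 ≤ j) (B : RowB P j t m x c β)
    (B' : RowB P j t m' x' c' β') :
    m' = m ∧ ((∀ k, k ≤ m → x' k = x k) ∨ (∀ k, k ≤ m → x' k = x (m - k))) ∧
      (2 ≤ m → β' = β) := by
  classical
  obtain ⟨lo, hi, e, C⟩ := Cp.comp_exists h.g.H t.2 h.g.hr h.g.good
  obtain ⟨h1, h2⟩ := B.orient h hj C
  obtain ⟨h3, h4⟩ := B'.orient h hj C
  have hm : m' = m := by omega
  subst hm
  have hor : (∀ k, k ≤ m' → x' k = x k) ∨ (∀ k, k ≤ m' → x' k = x (m' - k)) := by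
    rcases h2 with h2 | h2 <;> rcases h4 with h4 | h4
    · left
      intro k hk
      rw [h4 k hk, h2 k hk]
    · right
      intro k hk
      rw [h4 k hk, h2 (m' - k) (by omega), show lo j + (m' - k) = hi j - k by omega]
    · right
      intro k hk
      rw [h4 k hk, h2 (m' - k) (by omega), show hi j - (m' - k) = lo j + k by omega]
    · left
      intro k hk
      rw [h4 k hk, h2 k hk]
  refine ⟨rfl, hor, fun hm2 => ?_⟩
  have e1 := B.row.df 0 m' (by omega) le_rfl
  have e2 := B'.row.df 0 m' (by omega) le_rfl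
  rw [if_neg (by omega), if_pos ⟨rfl, rfl⟩] at e1 e2
  rw [← e1, ← e2]
  rcases hor with h5 | h5
  · rw [h5 0 (by omega), h5 m' le_rfl]
  · rw [h5 0 (by omega), h5 m' le_rfl, Nat.sub_zero, Nat.sub_self, pair_comm]

/-- the bad doubles are in the rotated rows with at least four sites -/
theorem RowB.bad (h : NJ P r j) (hj : 2 ≤ j) (B : RowB P j t m x c β) {y : P}
    (hy : BadR P j y) (ht : topOf y = t) : 3 ≤ m ∧ β = 1 := by
  obtain ⟨m', x', c', β', B', h3, hb, -⟩ := hy
  rw [ht] at B'
  obtain ⟨h1, -, h2⟩ := B.same h hj B'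
  have := h2 (by omega)
  exact ⟨by omega, by rw [← this, hb]⟩

/-- the values in a part with two unmatched elements -/
theorem sa_K5 (h : NJ P r j) (R : Red P j K psi)
    (Q : K5 r j K psi (cext (j + 1) (topOf : P → Tops P) t) w v) (T : Finset P) :
    sa j (topOf : P → Tops P) K T t =
      (if Disjoint (uc w) T then 1 else 0) - (if Disjoint (dc v) T then 1 else 0) := by
  classical
  have lw := Q.lw0
  have lv := Q.lv0
  have wK : w ∈ K := (Q.hK w Q.wC).2 (Or.inl rfl)
  have vK : v ∈ K := (Q.hK v Q.vC).2 (Or.inr rfl)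
  have wd : w ∈ dbL P j := by
    rcases mem_union.1 (R.sub wK) with h1 | h1
    · exact h1
    · have := (mem_dbU.1 h1).1
      omega
  have vd : v ∈ dbU P j := by
    rcases mem_union.1 (R.sub vK) with h1 | h1
    · have := (mem_dbL.1 h1).1
      omega
    · exact h1
  have tw : topOf w = t := mem_cext.1 Q.wC w le_rfl (by omega)
  have tv : topOf v = t := mem_cext.1 Q.vC v le_rfl (by omega)
  have hne : w ≠ v := Q.ne
  rw [sa_eq]
  have e1 : K.filter (fun k => topOf k = t ∧ Disjoint (ns j k) T) =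
      ({w, v} : Finset P).filter (fun k => Disjoint (ns j k) T) := by
    ext k
    rw [mem_filter, mem_filter, mem_insert, mem_singleton]
    constructor
    · rintro ⟨h1, h2, h3⟩
      have hl : lev k ≤ j + 1 := by
        rcases mem_union.1 (R.sub h1) with h4 | h4
        · exact (mem_dbL.1 h4).1.le
        · have := (mem_dbU.1 h4).1
          omega
      exact ⟨(Q.hK k (mem_cext_of_le h.split hl h2)).1 h1, h3⟩
    · rintro ⟨h1 | h1, h2⟩
      · subst h1
        exact ⟨wK, tw, h2⟩
      · subst h1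
        exact ⟨vK, tv, h2⟩
  rw [e1, sum_filter, sum_pair hne, sgn_low wd, sgn_upp vd, ns_L wd, ns_U vd]
  split_ifs <;> norm_num

/-- a natural part has the values 0 -/
lemma sa_nat (h : NJ P r j) (R : Red P j K psi) (hn : NatT j (t : P)) (T : Finset P) :
    sa j (topOf : P → Tops P) K T t = 0 := by
  refine paO_sa_none fun k hk ht => ?_
  exfalso
  have hl : lev k ≤ j + 1 := by
    rcases mem_union.1 (R.sub hk) with h4 | h4
    · exact (mem_dbL.1 h4).1.le
    · have := (mem_dbU.1 h4).1
      omega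
  exact NJ.nat_K h R hn k (mem_cext_of_le h.split hl ht) hk

lemma dis_pair {a b q : P} : Disjoint ({a, b} : Finset P) {q} ↔ q ≠ a ∧ q ≠ b := by
  rw [disjoint_singleton_right, mem_insert, mem_singleton]
  tauto

section own

variable (h : NJ P r j) (hj : 2 ≤ j) (R : Red P j K psi) (hY : YV j Y V)

include h hj R hY

/-- a natural part -/
theorem NJ.own_nat (B : RowB P j t m x c β) (h0 : ∀ k, k < m → c k = 0) (hb : β = 0) :
    PA j K Y V t + PB j K Y V t ≤ TT j t := by
  classical
  have hjr : j ≤ r := by have := h.hr; omega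
  have hn := B.nat_of h h0 hb
  have a1 : PA j K Y V t = 0 := NJ.PA_zero h hj R hY fun y hy ht => by
    have := (B.bad h hj hy ht).2
    omega
  have a2 : PB j K Y V t = 0 := NJ.PB_zero h hj R hY B fun q _ _ => by rw [sa_nat h R hn]
  have Q := NJ.nat4 h hj R hn
  have hs : Small j (topOf : P → Tops P) t := by
    rcases B.small h.g.H h.split with h2 | h2
    · exact h2
    · exfalso
      obtain ⟨h3, -, h4, -⟩ := h2
      rw [h0 0 (by omega)] at h4
      norm_num at h4
  have hw : wv j (cext (j + 1) (topOf : P → Tops P) t) = 0 := by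
    unfold wv I2.w3
    have h2 := Q.prof.mid 3 (by norm_num)
    apply I2.coeff_zero_of_dvd
      (a := (st j (cext (j + 1) (topOf : P → Tops P) t)).card + 1) _ (by omega)
    rw [pow_succ', pow_two, mul_assoc]
    exact mul_dvd_mul_left _ h2
  have hF := NJ.nat_F h hj hn
  rw [a1, a2, NJ.TT_small h hj R hs]
  unfold W4.Tv Lv I2.Q4
  unfold Fn at hF
  have hw' := hw
  unfold wv at hw'
  rw [hw, hw']
  linarith

/-- the pattern [DL] with three sites -/
theorem NJ.own_dl2 (B : RowB P j t 2 x c β) (hβ : β = 0) (c0 : c 0 = 1) (c1 : c 1 = -1) :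
    PA j K Y V t + PB j K Y V t ≤ TT j t := by
  classical
  obtain ⟨w, v, D⟩ := NJ.dl2 h hj R B hβ c0 c1
  have W := D.W
  have n02 : x 0 ≠ x 2 := W.ne (by omega) (by omega) (by omega)
  have n01 : x 0 ≠ x 1 := W.ne (by omega) (by omega) (by omega)
  have n12 : x 1 ≠ x 2 := W.ne (by omega) (by omega) (by omega)
  have a1 : PA j K Y V t = 0 := NJ.PA_zero h hj R hY fun y hy ht => by
    have := (B.bad h hj hy ht).2
    omega
  have a2 := NJ.PB_le h hj R hY B (q0 := 2) (b := 1) le_rfl fun q hq hq1 => by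
    have hq3 : q = 0 ∨ q = 1 ∨ q = 2 := by omega
    rw [sa_K5 h R D.Q, D.hw, D.hv] at hq1 ⊢
    rcases hq3 with rfl | rfl | rfl
    · rw [if_neg (by rw [dis_pair]; tauto), if_pos (by rw [dis_pair]; exact ⟨n01, n02⟩)] at hq1
      norm_num at hq1
    · rw [if_neg (by rw [dis_pair]; tauto), if_neg (by rw [dis_pair]; tauto)] at hq1
      norm_num at hq1
    · rw [if_pos (by rw [dis_pair]; exact ⟨n02.symm, n12.symm⟩), if_neg (by rw [dis_pair]; tauto)]
      exact ⟨rfl, by norm_num⟩
  have hs : Small j (topOf : P → Tops P) t := by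
    rcases B.small h.g.H h.split with h2 | h2
    · exact h2
    · have := h2.1
      omega
  have := D.T_ge
  rw [a1, NJ.TT_small h hj R hs]
  linarith

/-- the pattern R with three sites -/
theorem NJ.own_r2 (B : RowB P j t 2 x c β) (hβ : β = 1) (c0 : c 0 = -1) (c1 : c 1 = 0) :
    PA j K Y V t + PB j K Y V t ≤ TT j t := by
  classical
  obtain ⟨w, v, D⟩ := NJ.r2 h hj R B hβ c0 c1
  have W := D.W
  have n02 : x 0 ≠ x 2 := W.ne (by omega) (by omega) (by omega)
  have n01 : x 0 ≠ x 1 := W.ne (by omega) (by omega) (by omega)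
  have n12 : x 1 ≠ x 2 := W.ne (by omega) (by omega) (by omega)
  have a1 : PA j K Y V t = 0 := NJ.PA_zero h hj R hY fun y hy ht => by
    have := (B.bad h hj hy ht).1
    omega
  have a2 := NJ.PB_le h hj R hY B (q0 := 1) (b := 1) le_rfl fun q hq hq1 => by
    have hq3 : q = 0 ∨ q = 1 ∨ q = 2 := by omega
    rw [sa_K5 h R D.Q, D.hw, D.hv] at hq1 ⊢
    rcases hq3 with rfl | rfl | rfl
    · rw [if_neg (by rw [dis_pair]; tauto), if_neg (by rw [dis_pair]; tauto)] at hq1
      norm_num at hq1
    · rw [if_pos (by rw [dis_pair]; exact ⟨n12, n01.symm⟩), if_neg (by rw [dis_pair]; tauto)]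
      exact ⟨rfl, by norm_num⟩
    · rw [if_neg (by rw [dis_pair]; tauto),
        if_pos (by rw [dis_pair]; exact ⟨n02.symm, n12.symm⟩)] at hq1
      norm_num at hq1
  have hs : Small j (topOf : P → Tops P) t := by
    rcases B.small h.g.H h.split with h2 | h2
    · exact h2
    · have := h2.1
      omega
  have := D.T_ge
  rw [a1, NJ.TT_small h hj R hs]
  linarith

/-- the pattern [DL], at least four sites -/
theorem NJ.own_dl (B : RowB P j t m x c β) (hm : 3 ≤ m) (hβ : β = 0) (c0 : c 0 = 1)
    (c1 : c 1 = -1) (c2 : ∀ k, 2 ≤ k → k < m → c k = 0)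
    (hT : 2 * ((pen (x 2)).card : ℤ) ≤ W4.Tv j (cext (j + 1) (topOf : P → Tops P) t)) :
    PA j K Y V t + PB j K Y V t ≤ TT j t := by
  classical
  obtain ⟨w, v, D⟩ := NJ.dlg h hj R B hm hβ c0 c1 c2
  have W := D.W
  have hne : ∀ k l, k ≤ m → l ≤ m → k ≠ l → x k ≠ x l := fun k l hk hl hkl =>
    W.ne hk hl hkl
  have a1 : PA j K Y V t = 0 := NJ.PA_zero h hj R hY fun y hy ht => by
    have := (B.bad h hj hy ht).2
    omega
  have a2 := NJ.PB_le h hj R hY B (q0 := 2) (b := 1) le_rfl fun q hq hq1 => by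
    rw [sa_K5 h R D.Q, D.hw, D.hv] at hq1 ⊢
    have hq3 : q = 0 ∨ q = 1 ∨ q = 2 ∨ 3 ≤ q := by omega
    rcases hq3 with rfl | rfl | rfl | hq3
    · rw [if_neg (by rw [dis_pair]; tauto), if_pos (by
        rw [dis_pair]
        exact ⟨hne 0 1 (by omega) (by omega) (by omega), hne 0 2 (by omega) (by omega) (by omega)⟩)]
        at hq1
      norm_num at hq1
    · rw [if_neg (by rw [dis_pair]; tauto), if_neg (by rw [dis_pair]; tauto)] at hq1
      norm_num at hq1
    · rw [if_pos (by
        rw [dis_pair]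
        exact ⟨hne 2 0 (by omega) (by omega) (by omega), hne 2 1 (by omega) (by omega) (by omega)⟩),
        if_neg (by rw [dis_pair]; tauto)]
      exact ⟨rfl, by norm_num⟩
    · rw [if_pos (by
        rw [dis_pair]
        exact ⟨hne q 0 hq (by omega) (by omega), hne q 1 hq (by omega) (by omega)⟩),
        if_pos (by
        rw [dis_pair]
        exact ⟨hne q 1 hq (by omega) (by omega), hne q 2 hq (by omega) (by omega)⟩)] at hq1
      norm_num at hq1
  have hs : Small j (topOf : P → Tops P) t := by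
    rcases B.small h.g.H h.split with h2 | h2
    · exact h2
    · exfalso
      obtain ⟨h3, -, -, -, h4, -⟩ := h2
      rw [c2 (m - 2) (by omega) (by omega)] at h4
      norm_num at h4
  rw [a1, NJ.TT_small h hj R hs]
  linarith

end own

end Pool.Agent.GaussPoset.EK
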