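import Pool.Agent.W_448j6_h22.KbG
import Pool.Agent.W_448kf_h15.KfM

/-!
MP_448cb3_co, G2, case B, window `j`: the frames of the patterns [DL] and R for the rows of case B,
`w32` free.
-/

namespace Pool.Agent.GaussPoset.EK

set_option linter.unusedSectionVars false

open Finset Win St Polynomial Wd Win.W4
open Pool.Agent.GaussPoset.Win.SO (PN vp)

universe u

variable {P : Type u} [Fintype P] [PartialOrder P] [DecidableEq P] {r i j : ℕ}

variable {m : ℕ} {x : ℕ → P} {c : ℕ → ℤ} {β : ℤ} {t : Tops P}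

variable {K : Finset P} {psi : P → P}

/-- the pattern [DL] at the left end of a row of case B, at least four sites -/
theorem NJ.dlg (h : NJ P r j) (hj : 2 ≤ j) (R : Red P j K psi) (B : RowB P j t m x c β)
    (hm : 3 ≤ m) (hβ : β = 0) (c0 : c 0 = 1) (c1 : c 1 = -1) (c2 : ∀ k, 2 ≤ k → k < m → c k = 0) :
    ∃ w v, DLg r j K psi (cext (j + 1) (topOf : P → Tops P) t) w v m x := by
  have H := h.g.H
  have W := NJ.prow h hj B (by omega)
  have d0 : Df j {x 0, x 1} = 1 := by
    rw [B.row.df 0 1 (by omega) (by omega), if_pos rfl]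
    exact c0
  have d1 : Df j {x 1, x 2} = -1 := by
    rw [B.row.df 1 2 (by omega) (by omega), if_pos rfl]
    exact c1
  obtain ⟨w, wK, wd, ew⟩ := R.exL d0
  obtain ⟨v, vK, vd, ev⟩ := R.exU d1
  have hall : ∀ y ∈ K, topOf y = t → ns j y = {x 0, x 1} ∨ ns j y = {x 1, x 2} := by
    intro y hyK ht
    obtain ⟨p, q, h3, h4, h5, h6⟩ := B.row.pair R H h.split hyK ht
    rcases h6 with ⟨h6, h7⟩ | ⟨-, -, -, h7⟩
    · have hp2 : p = 0 ∨ p = 1 := by
        by_contra h8
        exact h7 (c2 p (by omega) (by omega))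
      rcases hp2 with rfl | rfl
      · left; rw [h5, h6]
      · right; rw [h5, h6]
    · exact absurd hβ h7
  have Q : K5 r j K psi (cext (j + 1) (topOf : P → Tops P) t) w v :=
    NJ.k5 h hj R B d0 d1 wK vK wd vd ew ev (p := 0) (q := 1) (by omega) (by omega)
      (mem_insert_self _ _) (mem_insert_self _ _) hall
  refine ⟨w, v, W, Q, hm, ew, ev, ?_⟩
  intro k l hkl hl
  have h1 := B.dcv_x H hkl hl
  by_cases h2 : l = k + 1
  · rw [if_pos h2] at h1 ⊢
    by_cases h3 : k = 0
    · subst h3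
      rw [c0] at h1
      rw [if_pos rfl]
      omega
    · rw [if_neg h3]
      by_cases h4 : k = 1
      · subst h4
        rw [c1] at h1
        rw [if_pos rfl]
        omega
      · rw [if_neg h4]
        rw [c2 k (by omega) (by omega)] at h1
        omega
  · rw [if_neg h2, hβ] at h1
    rw [if_neg h2]
    split_ifs at h1 <;> omega

/-- the pattern R with four sites -/
theorem NJ.rg (h : NJ P r j) (hj : 2 ≤ j) (R : Red P j K psi) (B : RowB P j t 3 x c β)
    (hβ : β = 1) (c0 : c 0 = -1) (c1 : c 1 = 0) (c2 : c 2 = 0) (hx : x 4 = x 0) :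
    ∃ w v, Rg r j K psi (cext (j + 1) (topOf : P → Tops P) t) w v x := by
  have H := h.g.H
  have W := NJ.prow h hj B (by omega)
  have d0 : Df j {x 3, x 0} = 1 := by
    rw [pair_comm, B.row.df 0 3 (by omega) (by omega), if_neg (by omega), if_pos ⟨rfl, rfl⟩]
    exact hβ
  have d1 : Df j {x 0, x 1} = -1 := by
    rw [B.row.df 0 1 (by omega) (by omega), if_pos rfl]
    exact c0
  obtain ⟨w, wK, wd, ew⟩ := R.exL d0
  obtain ⟨v, vK, vd, ev⟩ := R.exU d1
  have hall : ∀ y ∈ K, topOf y = t → ns j y = {x 3, x 0} ∨ ns j y = {x 0, x 1} := by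
    intro y hyK ht
    obtain ⟨p, q, h3, h4, h5, h6⟩ := B.row.pair R H h.split hyK ht
    rcases h6 with ⟨h6, h7⟩ | ⟨h6, h8, -, -⟩
    · have hp : p = 0 := by
        have hp3 : p = 0 ∨ p = 1 ∨ p = 2 := by omega
        rcases hp3 with rfl | rfl | rfl
        · rfl
        · exact absurd c1 h7
        · exact absurd c2 h7
      subst hp
      right; rw [h5, h6]
    · subst h6
      subst h8
      left; rw [h5, pair_comm]
  have Q : K5 r j K psi (cext (j + 1) (topOf : P → Tops P) t) w v :=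
    NJ.k5 h hj R B d0 d1 wK vK wd vd ew ev (p := 3) (q := 0) (by omega) (by omega)
      (mem_insert_self _ _) (mem_insert_self _ _) hall
  have hends := B.ends (by rw [hβ]; norm_num)
  refine ⟨w, v, W, Q, hx, ew, ev, ?_, hends.1, hends.2⟩
  intro k l hkl hl
  have h1 := B.dcv_x H hkl hl
  by_cases h2 : l = k + 1
  · rw [if_pos h2] at h1 ⊢
    have hk3 : k = 0 ∨ k = 1 ∨ k = 2 := by omega
    rcases hk3 with rfl | rfl | rfl
    · rw [c0] at h1
      rw [if_pos rfl]
      omega
    · rw [c1] at h1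
      rw [if_neg (by omega)]
      omega
    · rw [c2] at h1
      rw [if_neg (by omega)]
      omega
  · rw [if_neg h2, hβ] at h1
    rw [if_neg h2]
    split_ifs at h1 ⊢ <;> omega

/-- the pattern [DL] with three sites -/
theorem NJ.dl2 (h : NJ P r j) (hj : 2 ≤ j) (R : Red P j K psi) (B : RowB P j t 2 x c β)
    (hβ : β = 0) (c0 : c 0 = 1) (c1 : c 1 = -1) :
    ∃ w v, DL2 r j K psi (cext (j + 1) (topOf : P → Tops P) t) w v x := by
  have H := h.g.H
  have W := NJ.prow h hj B (by omega)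
  have d0 : Df j {x 0, x 1} = 1 := by
    rw [B.row.df 0 1 (by omega) (by omega), if_pos rfl]
    exact c0
  have d1 : Df j {x 1, x 2} = -1 := by
    rw [B.row.df 1 2 (by omega) (by omega), if_pos rfl]
    exact c1
  obtain ⟨w, wK, wd, ew⟩ := R.exL d0
  obtain ⟨v, vK, vd, ev⟩ := R.exU d1
  have hall : ∀ y ∈ K, topOf y = t → ns j y = {x 0, x 1} ∨ ns j y = {x 1, x 2} := by
    intro y hyK ht
    obtain ⟨p, q, h3, h4, h5, h6⟩ := B.row.pair R H h.split hyK ht
    rcases h6 with ⟨h6, h7⟩ | ⟨-, -, -, h7⟩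
    · have hp2 : p = 0 ∨ p = 1 := by omega
      rcases hp2 with rfl | rfl
      · left; rw [h5, h6]
      · right; rw [h5, h6]
    · exact absurd hβ h7
  have Q : K5 r j K psi (cext (j + 1) (topOf : P → Tops P) t) w v :=
    NJ.k5 h hj R B d0 d1 wK vK wd vd ew ev (p := 0) (q := 1) (by omega) (by omega)
      (mem_insert_self _ _) (mem_insert_self _ _) hall
  have h01 := B.dcv_x H (k := 0) (l := 1) (by omega) (by omega)
  have h12 := B.dcv_x H (k := 1) (l := 2) (by omega) (by omega)
  have h02 := B.dcv_x H (k := 0) (l := 2) (by omega) (by omega)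
  rw [if_pos rfl, c0] at h01
  rw [if_pos rfl, c1] at h12
  rw [if_neg (by omega), if_pos ⟨rfl, rfl⟩, hβ] at h02
  exact ⟨w, v, W, Q, ew, ev, by omega, by omega, by omega⟩

/-- the pattern R with three sites -/
theorem NJ.r2 (h : NJ P r j) (hj : 2 ≤ j) (R : Red P j K psi) (B : RowB P j t 2 x c β)
    (hβ : β = 1) (c0 : c 0 = -1) (c1 : c 1 = 0) :
    ∃ w v, R2 r j K psi (cext (j + 1) (topOf : P → Tops P) t) w v x := by
  have H := h.g.H
  have W := NJ.prow h hj B (by omega)
  have d0 : Df j {x 2, x 0} = 1 := by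
    rw [pair_comm, B.row.df 0 2 (by omega) (by omega), if_neg (by omega), if_pos ⟨rfl, rfl⟩]
    exact hβ
  have d1 : Df j {x 0, x 1} = -1 := by
    rw [B.row.df 0 1 (by omega) (by omega), if_pos rfl]
    exact c0
  obtain ⟨w, wK, wd, ew⟩ := R.exL d0
  obtain ⟨v, vK, vd, ev⟩ := R.exU d1
  have hall : ∀ y ∈ K, topOf y = t → ns j y = {x 2, x 0} ∨ ns j y = {x 0, x 1} := by
    intro y hyK ht
    obtain ⟨p, q, h3, h4, h5, h6⟩ := B.row.pair R H h.split hyK ht
    rcases h6 with ⟨h6, h7⟩ | ⟨h6, h8, -, -⟩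
    · have hp : p = 0 := by
        have hp3 : p = 0 ∨ p = 1 := by omega
        rcases hp3 with rfl | rfl
        · rfl
        · exact absurd c1 h7
      subst hp
      right; rw [h5, h6]
    · subst h6
      subst h8
      left; rw [h5, pair_comm]
  have Q : K5 r j K psi (cext (j + 1) (topOf : P → Tops P) t) w v :=
    NJ.k5 h hj R B d0 d1 wK vK wd vd ew ev (p := 2) (q := 0) (by omega) (by omega)
      (mem_insert_self _ _) (mem_insert_self _ _) hall
  have hends := B.ends (by rw [hβ]; norm_num)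
  have h01 := B.dcv_x H (k := 0) (l := 1) (by omega) (by omega)
  have h12 := B.dcv_x H (k := 1) (l := 2) (by omega) (by omega)
  have h02 := B.dcv_x H (k := 0) (l := 2) (by omega) (by omega)
  rw [if_pos rfl, c0] at h01
  rw [if_pos rfl, c1] at h12
  rw [if_neg (by omega), if_pos ⟨rfl, rfl⟩, hβ] at h02
  exact ⟨w, v, W, Q, ew, ev, by omega, by omega, by omega, hends.1, hends.2⟩

end Pool.Agent.GaussPoset.EK
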