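import Pool.Agent.W_448j6_h22.KcL

/-!
MP_448cb3_co, G2, case B, window `j`: the triangle: the coefficient (4,2) is at most two.
-/

namespace Pool.Agent.GaussPoset.Win.W4

set_option linter.unusedSectionVars false

open Finset
open Pool.Agent.GaussPoset.Win.SO (LowD UppD val_gen coef_units)

universe u

variable {P : Type u} [Fintype P] [PartialOrder P] [DecidableEq P] {r i : ℕ}
variable {e : P → ℕ} {C : Finset P} {x0 x1 x2 v1 v2 w w' p u : P}

/-- the configuration of an upper element -/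
noncomputable def cfu (x0 x2 v1 v2 w : P) (u : P) : P → ℕ :=
  if dc u = {v1, v2} then fun z => if z = u then 2 else if z = v1 ∨ z = v2 then 1 else 0
  else if dc u = {v1} then
    fun z => if z = u then 1 else if z = x0 ∨ z = v1 ∨ z = w then 1 else 0
  else fun z => if z = u then 1 else if z = x2 ∨ z = v2 ∨ z = w then 1 else 0

namespace Tri

variable (T : Tri r i C x0 x1 x2 v1 v2 w w' p)
include T

/-- the lower covers of an upper element -/
lemma dc_upp (hu : u ∈ uc v1 ∪ uc v2) :
    lev u + 2 = i ∧ u ∈ C ∧ (dc u = {v1, v2} ∨ dc u = {v1} ∨ dc u = {v2}) := by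
  have H := T.H
  have lv1 := T.lv1
  have lv2 := T.lv2
  have huC : u ∈ C := by
    rcases mem_union.1 hu with h | h
    · exact T.hC.up T.mV1 (mem_uc.1 h)
    · exact T.hC.up T.mV2 (mem_uc.1 h)
  have hlu : lev u + 2 = i := by
    rcases mem_union.1 hu with h | h
    · have := lev_cov H (mem_uc.1 h)
      omega
    · have := lev_cov H (mem_uc.1 h)
      omega
  refine ⟨hlu, huC, ?_⟩
  have hsub : dc u ⊆ {v1, v2} := by
    intro y hy
    have hl := lev_cov H (mem_dc.1 hy)
    have hyC := T.hC.dn huC (by omega) (mem_dc.1 hy)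
    have l0 := T.l0
    have l1 := T.l1
    have l2 := T.l2
    have lw := T.lw
    have lw' := T.lw'
    have lp := T.lp
    rw [mem_insert, mem_singleton]
    rcases T.cases_C hyC with h | h | h | h | h | h | h | h | h | h
    · rw [h] at hl; omega
    · rw [h] at hl; omega
    · rw [h] at hl; omega
    · exact Or.inl h
    · exact Or.inr h
    · rw [h] at hl; omega
    · rw [h] at hl; omega
    · rw [h] at hl; omega
    · omega
    · omega
  have hne : (dc u).Nonempty := by
    rcases mem_union.1 hu with h | h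
    · exact ⟨v1, mem_dc.2 (mem_uc.1 h)⟩
    · exact ⟨v2, mem_dc.2 (mem_uc.1 h)⟩
  by_cases a1 : v1 ∈ dc u
  · by_cases a2 : v2 ∈ dc u
    · left
      refine Finset.Subset.antisymm hsub ?_
      intro y hy
      rw [mem_insert, mem_singleton] at hy
      rcases hy with rfl | rfl <;> assumption
    · right; left
      ext y
      rw [mem_singleton]
      constructor
      · intro hy
        have := hsub hy
        rw [mem_insert, mem_singleton] at this
        rcases this with h | h
        · exact h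
        · rw [h] at hy
          exact absurd hy a2
      · rintro rfl
        exact a1
  · right; right
    obtain ⟨y0, hy0⟩ := hne
    have h2 : v2 ∈ dc u := by
      have := hsub hy0
      rw [mem_insert, mem_singleton] at this
      rcases this with h | h
      · rw [h] at hy0
        exact absurd hy0 a1
      · rw [← h]; exact hy0
    ext y
    rw [mem_singleton]
    constructor
    · intro hy
      have := hsub hy
      rw [mem_insert, mem_singleton] at this
      rcases this with h | h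
      · rw [h] at hy
        exact absurd hy a1
      · exact h
    · rintro rfl
      exact h2

/-- the eight values -/
lemma vl_neg8 {l : List ℕ} (hl : l ∈ negs8) : vl i C (cfg x0 x1 x2 v1 v2 w w' p l) = -1 := by
  by_cases h6 : l ∈ negs
  · exact T.vl_neg h6
  obtain ⟨h0, h1, h2, h3, h4, h5, h6', h7⟩ := T.cfg_vals l
  have key : ∀ z, z ≠ x0 ∧ z ≠ x1 ∧ z ≠ x2 ∧ z ≠ v1 ∧ z ≠ v2 ∧ z ≠ w ∧ z ≠ w' ∧ z ≠ p →
      cfg x0 x1 x2 v1 v2 w w' p l z = 0 := by
    intro z h
    refine cfg_zero l ?_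
    simp only [mem_insert, mem_singleton]
    tauto
  have hl2 : l = [1, 0, 0, 1, 0, 1, 1, 0] ∨ l = [0, 0, 1, 0, 1, 1, 1, 0] := by
    unfold negs8 at hl
    unfold negs at h6
    simp only [List.mem_cons, List.not_mem_nil, or_false] at hl h6
    tauto
  rcases hl2 with hl | hl
  · rw [hl] at h0 h1 h2 h3 h4 h5 h6' h7 key ⊢
    refine T.neg_three h0 h3 h5 h6' fun z g1 g2 g3 g4 => ?_
    by_cases k1 : z = x1
    · rw [k1]; exact h1
    by_cases k2 : z = x2
    · rw [k2]; exact h2
    by_cases k3 : z = v2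
    · rw [k3]; exact h4
    by_cases k5 : z = p
    · rw [k5]; exact h7
    exact key z ⟨g1, k1, k2, g2, k3, g3, g4, k5⟩
  · rw [hl] at h0 h1 h2 h3 h4 h5 h6' h7 key ⊢
    refine T.rev.neg_three h2 h4 h5 h6' fun z g1 g2 g3 g4 => ?_
    by_cases k1 : z = x1
    · rw [k1]; exact h1
    by_cases k2 : z = x0
    · rw [k2]; exact h0
    by_cases k3 : z = v1
    · rw [k3]; exact h3
    by_cases k5 : z = p
    · rw [k5]; exact h7
    exact key z ⟨k2, k1, g1, k3, g2, g3, g4, k5⟩

/-- the value of the configuration of an upper element -/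
lemma vl_cfu (hu : u ∈ uc v1 ∪ uc v2) : vl i C (cfu x0 x2 v1 v2 w u) = -1 ∧
    cfu x0 x2 v1 v2 w u ∈ C.piAntidiag 4 ∧ 1 ≤ cfu x0 x2 v1 v2 w u u ∧
    ∀ z, lev z + 2 = i → z ≠ u → cfu x0 x2 v1 v2 w u z = 0 := by
  classical
  obtain ⟨lu, huC, hdc⟩ := T.dc_upp hu
  have l0 := T.l0
  have l1 := T.l1
  have l2 := T.l2
  have lw := T.lw
  have lv1 := T.lv1
  have lv2 := T.lv2
  have q : ∀ {a b : P}, lev a ≠ lev b → a ≠ b := fun h h1 => h (by rw [h1])
  have n1 : v1 ≠ u := q (by omega)
  have n2 : v2 ≠ u := q (by omega)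
  have n3 : x0 ≠ u := q (by omega)
  have n4 : x2 ≠ u := q (by omega)
  have n5 : w ≠ u := q (by omega)
  have n6 : x0 ≠ v1 := q (by omega)
  have n7 : x0 ≠ w := q (by omega)
  have n8 : v1 ≠ w := q (by omega)
  have n9 : x2 ≠ v2 := q (by omega)
  have n10 : x2 ≠ w := q (by omega)
  have n11 : v2 ≠ w := q (by omega)
  have hv1v2 : ({v1} : Finset P) ≠ {v1, v2} := by
    intro h
    have : v2 ∈ ({v1} : Finset P) := by rw [h]; simp
    rw [mem_singleton] at this
    exact T.nv this.symm
  have hv2v2 : ({v2} : Finset P) ≠ {v1, v2} := by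
    intro h
    have : v1 ∈ ({v2} : Finset P) := by rw [h]; simp
    rw [mem_singleton] at this
    exact T.nv this
  have hv2v1 : ({v2} : Finset P) ≠ {v1} := by
    intro h
    have : v2 ∈ ({v1} : Finset P) := by rw [← h]; simp
    rw [mem_singleton] at this
    exact T.nv this.symm
  have four : ∀ (f : P → ℕ) (a b c d : P), a ≠ b → a ≠ c → a ≠ d → b ≠ c → b ≠ d → c ≠ d →
      a ∈ C → b ∈ C → c ∈ C → d ∈ C → f a + f b + f c + f d = 4 →
      (∀ z, z ≠ a → z ≠ b → z ≠ c → z ≠ d → f z = 0) → f ∈ C.piAntidiag 4 := by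
    intro f a b c d ab ac ad bc bd cd ha hb hc hd hsum hz
    rw [mem_piAntidiag]
    constructor
    · have s1 : ({a, b, c, d} : Finset P) ⊆ C := by
        intro z hz
        simp only [mem_insert, mem_singleton] at hz
        rcases hz with rfl | rfl | rfl | rfl <;> assumption
      rw [← sum_subset s1 fun z _ hz' => ?_, sum_insert, sum_insert, sum_pair cd, ← hsum]
      · ring
      · simp only [mem_insert, mem_singleton]
        push Not
        exact ⟨bc, bd⟩
      · simp only [mem_insert, mem_singleton]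
        push Not
        exact ⟨ab, ac, ad⟩
      · simp only [mem_insert, mem_singleton] at hz'
        push Not at hz'
        exact hz z hz'.1 hz'.2.1 hz'.2.2.1 hz'.2.2.2
    · intro z hz'
      by_contra hC
      refine hz' (hz z ?_ ?_ ?_ ?_)
      · rintro rfl; exact hC ha
      · rintro rfl; exact hC hb
      · rintro rfl; exact hC hc
      · rintro rfl; exact hC hd
  rcases hdc with hd | hd | hd
  · obtain ⟨f, hf⟩ : ∃ f, f = cfu x0 x2 v1 v2 w u := ⟨_, rfl⟩
    have hf' : f = fun z => if z = u then 2 else if z = v1 ∨ z = v2 then 1 else 0 := by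
      rw [hf]
      unfold cfu
      rw [if_pos hd]
    have f1 : f u = 2 := by rw [hf']; simp
    have f2 : f v1 = 1 := by rw [hf']; simp [n1]
    have f3 : f v2 = 1 := by rw [hf']; simp [n2]
    have fz : ∀ z, z ≠ v1 → z ≠ v2 → z ≠ u → f z = 0 := by
      intro z h1 h2 h3
      rw [hf']
      simp [h1, h2, h3]
    rw [← hf]
    refine ⟨T.neg_five hd f2 f3 f1 fz, ?_, by omega, ?_⟩
    · refine four f u v1 v2 x0 n1.symm n2.symm n3.symm T.nv n6.symm (q (by omega)) huC T.mV1 T.mV2
        T.mC0 ?_ fun z g1 g2 g3 _ => fz z g2 g3 g1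
      rw [f1, f2, f3, fz x0 n6 (q (by omega)) n3]
    · intro z hz hzu
      exact fz z (by rintro rfl; omega) (by rintro rfl; omega) hzu
  · obtain ⟨f, hf⟩ : ∃ f, f = cfu x0 x2 v1 v2 w u := ⟨_, rfl⟩
    have hf' : f = fun z => if z = u then 1 else if z = x0 ∨ z = v1 ∨ z = w then 1 else 0 := by
      rw [hf]
      unfold cfu
      rw [if_neg (by rw [hd]; exact hv1v2), if_pos hd]
    have f1 : f u = 1 := by rw [hf']; simp
    have f2 : f v1 = 1 := by rw [hf']; simp
    have f3 : f x0 = 1 := by rw [hf']; simp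
    have f4 : f w = 1 := by rw [hf']; simp
    have fz : ∀ z, z ≠ x0 → z ≠ v1 → z ≠ w → z ≠ u → f z = 0 := by
      intro z h1 h2 h3 h4
      rw [hf']
      simp [h1, h2, h3, h4]
    rw [← hf]
    refine ⟨T.neg_four hd f3 f2 f4 f1 fz, ?_, by omega, ?_⟩
    · refine four f u v1 x0 w n1.symm n3.symm n5.symm n6.symm n8 n7 huC T.mV1 T.mC0
        T.mW ?_ fun z g1 g2 g3 g4 => fz z g3 g2 g4 g1
      rw [f1, f2, f3, f4]
    · intro z hz hzu
      exact fz z (by rintro rfl; omega) (by rintro rfl; omega) (by rintro rfl; omega) hzu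
  · obtain ⟨f, hf⟩ : ∃ f, f = cfu x0 x2 v1 v2 w u := ⟨_, rfl⟩
    have hf' : f = fun z => if z = u then 1 else if z = x2 ∨ z = v2 ∨ z = w then 1 else 0 := by
      rw [hf]
      unfold cfu
      rw [if_neg (by rw [hd]; exact hv2v2), if_neg (by rw [hd]; exact hv2v1)]
    have f1 : f u = 1 := by rw [hf']; simp
    have f2 : f v2 = 1 := by rw [hf']; simp
    have f3 : f x2 = 1 := by rw [hf']; simp
    have f4 : f w = 1 := by rw [hf']; simp
    have fz : ∀ z, z ≠ x2 → z ≠ v2 → z ≠ w → z ≠ u → f z = 0 := by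
      intro z h1 h2 h3 h4
      rw [hf']
      simp [h1, h2, h3, h4]
    rw [← hf]
    refine ⟨T.rev.neg_four hd f3 f2 f4 f1 fz, ?_, by omega, ?_⟩
    · refine four f u v2 x2 w n2.symm n4.symm n5.symm n9.symm n11 n10 huC T.mV2 T.mC2
        T.mW ?_ fun z g1 g2 g3 g4 => fz z g3 g2 g4 g1
      rw [f1, f2, f3, f4]
    · intro z hz hzu
      exact fz z (by rintro rfl; omega) (by rintro rfl; omega) (by rintro rfl; omega) hzu

/-- the number of the configurations of positive value -/
lemma card_pos_le : ((C.piAntidiag 4).filter (fun e => 0 < vl i C e)).card ≤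
    10 + (uc v1 ∪ uc v2).card := by
  classical
  obtain ⟨S1, hS1⟩ : ∃ S : Finset (P → ℕ), S = (C.piAntidiag 4).filter
    (fun e => tup e x0 x1 x2 v1 v2 w w' p ∈ tens ∧
      ∀ g : P, (i + 2 ≤ lev g ∨ lev g + 2 ≤ i) → e g = 0) := ⟨_, rfl⟩
  obtain ⟨S2, hS2⟩ : ∃ S : Finset (P → ℕ), S = (uc v1 ∪ uc v2).image
    (fun g z => if z = g ∨ z = x1 ∨ z = v1 ∨ z = v2 then 1 else 0) := ⟨_, rfl⟩
  have hsub : (C.piAntidiag 4).filter (fun e => 0 < vl i C e) ⊆ S1 ∪ S2 := by
    intro e he
    rw [mem_filter] at he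
    rw [mem_union]
    rcases T.pos_cases he.1 he.2 with h | ⟨h1, h2, h3, g, hg, hg1, h0⟩
    · left
      rw [hS1, mem_filter]
      exact ⟨he.1, h⟩
    · right
      rw [hS2, mem_image]
      refine ⟨g, hg, ?_⟩
      funext z
      by_cases k : z = g ∨ z = x1 ∨ z = v1 ∨ z = v2
      · rw [if_pos k]
        rcases k with rfl | rfl | rfl | rfl <;> omega
      · rw [if_neg k]
        push Not at k
        exact (h0 z k.1 k.2.1 k.2.2.1 k.2.2.2).symm
  have c1 : S1.card ≤ 10 := by
    rw [← tens_card]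
    refine card_le_card_of_injOn (fun e => tup e x0 x1 x2 v1 v2 w w' p) ?_ ?_
    · intro e he
      rw [hS1, mem_coe, mem_filter] at he
      exact mem_coe.2 (List.mem_toFinset.2 he.2.1)
    · intro e he e' he' hee
      rw [hS1, mem_coe, mem_filter] at he he'
      obtain ⟨s1, -⟩ := energy_C he.1
      obtain ⟨s2, -⟩ := energy_C he'.1
      simp only [tup, tcd, List.cons.injEq] at hee
      obtain ⟨g0, g1, g2, g3, g4, g5, g6, g7, -⟩ := hee
      funext z
      by_cases hC : z ∈ C
      · rcases T.cases_C hC with h5 | h5 | h5 | h5 | h5 | h5 | h5 | h5 | h5 | h5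
        · rw [h5]; exact g0
        · rw [h5]; exact g1
        · rw [h5]; exact g2
        · rw [h5]; exact g3
        · rw [h5]; exact g4
        · rw [h5]; exact g5
        · rw [h5]; exact g6
        · rw [h5]; exact g7
        · rw [he.2.2 z (Or.inl h5), he'.2.2 z (Or.inl h5)]
        · rw [he.2.2 z (Or.inr h5), he'.2.2 z (Or.inr h5)]
      · rw [s1 z hC, s2 z hC]
  have c2 : S2.card ≤ (uc v1 ∪ uc v2).card := by
    rw [hS2]
    exact card_image_le
  have h1 := card_le_card hsub
  have h2 := card_union_le S1 S2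
  omega

/-- THE SUM of the values -/
theorem sum_vl_two : ∑ e ∈ C.piAntidiag 4, vl i C e ≤ 2 := by
  classical
  obtain ⟨N1, hN1⟩ : ∃ S : Finset (P → ℕ), S = negs8.toFinset.image
    (fun l => cfg x0 x1 x2 v1 v2 w w' p l) := ⟨_, rfl⟩
  obtain ⟨N2, hN2⟩ : ∃ S : Finset (P → ℕ), S = (uc v1 ∪ uc v2).image
    (fun u => cfu x0 x2 v1 v2 w u) := ⟨_, rfl⟩
  have hlen : ∀ l ∈ negs8, l.length = 8 := by decide
  have hsum : ∀ l ∈ negs8, l.getD 0 0 + l.getD 1 0 + l.getD 2 0 + l.getD 3 0 + l.getD 4 0 +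
      l.getD 5 0 + l.getD 6 0 + l.getD 7 0 = 4 := by decide
  have hc1 : N1.card = 8 := by
    rw [hN1, card_image_of_injOn, negs8_card]
    intro l hl l' hl' hll
    have h1 := T.tup_cfg (hlen l (List.mem_toFinset.1 (mem_coe.1 hl)))
    have h2 := T.tup_cfg (hlen l' (List.mem_toFinset.1 (mem_coe.1 hl')))
    simp only at hll
    rw [← h1, ← h2, hll]
  have hc2 : N2.card = (uc v1 ∪ uc v2).card := by
    rw [hN2, card_image_of_injOn]
    intro u hu u' hu' huu
    obtain ⟨-, -, a1, a2⟩ := T.vl_cfu (mem_coe.1 hu)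
    obtain ⟨-, -, b1, b2⟩ := T.vl_cfu (mem_coe.1 hu')
    simp only at huu
    by_contra hne
    have h1 := b2 u (T.dc_upp (mem_coe.1 hu)).1 hne
    rw [← huu] at h1
    omega
  have hdj : Disjoint N1 N2 := by
    rw [disjoint_left]
    intro e h1 h2
    rw [hN1, mem_image] at h1
    rw [hN2, mem_image] at h2
    obtain ⟨l, hl, rfl⟩ := h1
    obtain ⟨u, hu, h3⟩ := h2
    obtain ⟨-, -, a1, -⟩ := T.vl_cfu hu
    have h4 := T.dc_upp hu
    rw [h3] at a1
    have h5 : u ∉ ({x0, x1, x2, v1, v2, w, w', p} : Finset P) := by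
      have hi := T.hi
      have l0 := T.l0
      have l1 := T.l1
      have l2 := T.l2
      have lw := T.lw
      have lw' := T.lw'
      have lp := T.lp
      have lv1 := T.lv1
      have lv2 := T.lv2
      have lu := h4.1
      simp only [mem_insert, mem_singleton]
      rintro (h | h | h | h | h | h | h | h) <;> rw [h] at lu <;> omega
    rw [cfg_zero l h5] at a1
    omega
  obtain ⟨N, hN⟩ : ∃ N, N = N1 ∪ N2 := ⟨_, rfl⟩
  have hNc : N.card = 8 + (uc v1 ∪ uc v2).card := by
    rw [hN, card_union_of_disjoint hdj, hc1, hc2]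
  have hNA : N ⊆ C.piAntidiag 4 := by
    intro e he
    rw [hN, mem_union] at he
    rcases he with he | he
    · rw [hN1, mem_image] at he
      obtain ⟨l, hl, rfl⟩ := he
      exact T.cfg_mem (hsum l (List.mem_toFinset.1 hl))
    · rw [hN2, mem_image] at he
      obtain ⟨u, hu, rfl⟩ := he
      exact (T.vl_cfu hu).2.1
  have hNv : ∀ e ∈ N, vl i C e = -1 := by
    intro e he
    rw [hN, mem_union] at he
    rcases he with he | he
    · rw [hN1, mem_image] at he
      obtain ⟨l, hl, rfl⟩ := he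
      exact T.vl_neg8 (List.mem_toFinset.1 hl)
    · rw [hN2, mem_image] at he
      obtain ⟨u, hu, rfl⟩ := he
      exact (T.vl_cfu hu).1
  have hpt : ∀ e ∈ C.piAntidiag 4,
      vl i C e ≤ (if 0 < vl i C e then 1 else 0) - (if e ∈ N then 1 else 0) := by
    intro e he
    obtain ⟨hs, hE⟩ := energy_C he
    by_cases h1 : e ∈ N
    · rw [hNv e h1, if_pos h1]
      norm_num
    · rw [if_neg h1, sub_zero]
      by_cases h2 : 0 < vl i C e
      · rw [if_pos h2]
        exact vl_le_one T.H T.part hs T.card_st fun ⟨a1, a2, a3, a4, a5, a6⟩ =>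
          T.no_three hs hE a1 a2 a3 a4 a5 a6
      · rw [if_neg h2]
        omega
  have h1 := sum_le_sum hpt
  rw [sum_sub_distrib, sum_boole, sum_boole] at h1
  have h2 : (C.piAntidiag 4).filter (fun e => e ∈ N) = N := by
    ext e
    rw [mem_filter]
    exact ⟨fun h => h.2, fun h => ⟨hNA h, h⟩⟩
  rw [h2, hNc] at h1
  have h3 := T.card_pos_le
  have h4 : (((C.piAntidiag 4).filter (fun e => 0 < vl i C e)).card : ℤ) ≤
      10 + ((uc v1 ∪ uc v2).card : ℤ) := by
    exact_mod_cast h3
  push_cast at h1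
  linarith

/-- the coefficient (4,2) -/
theorem be4_two : I2.be 4 (st i C).card (ZS i C) ≤ 2 := by
  have h1 : I2.be 4 (st i C).card (ZS i C) = ∑ e ∈ C.piAntidiag 4, vl i C e := by
    unfold I2.be
    rw [coeff_ZS]
    unfold ZC
    rw [mul_sum, map_sum]
    rfl
  rw [h1]
  exact T.sum_vl_two

end Tri

/-- THE SECOND BOUND for the triangle -/
theorem Tri.own2 {ι : Type*} [DecidableEq ι] {κ : P → ι} {a : ι} {K : Finset P} {psi : P → P}
    (T : Tri r i (cext (i + 1) κ a) x0 x1 x2 v1 v2 w w' p) (hq : K2.NoQ P (i + 2))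
    (hg : ∀ m, m + 1 = i → Good P m) (hκ : Split (i + 1) κ) (R : EK.Red P i K psi) :
    1 ≤ - I2.al 2 (I2.bb i (i + 1) κ a) (I2.VV i (i + 1) κ a) +
      2 * I2.Q4 (I2.bb i (i + 1) κ a) (I2.VV i (i + 1) κ a) +
      13 * I2.w3 (I2.bb i (i + 1) κ a) (I2.VV i (i + 1) κ a) := by
  have h1 : I2.w3 (st i (cext (i + 1) κ a)).card (ZS i (cext (i + 1) κ a)) = -3 :=
    T.w3_eq hq hg hκ R
  have h2 := T.c1
  have h3 := T.be4_two
  unfold I2.Q4 I2.bb I2.VV
  rw [h1, h2]
  obtain ⟨A, hA⟩ : ∃ A, A = I2.al 2 (st i (cext (i + 1) κ a)).card (ZS i (cext (i + 1) κ a)) :=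
    ⟨_, rfl⟩
  obtain ⟨B, hB⟩ : ∃ B, B = I2.be 4 (st i (cext (i + 1) κ a)).card (ZS i (cext (i + 1) κ a)) :=
    ⟨_, rfl⟩
  rw [← hB] at h3 ⊢
  rw [← hA]
  have h4 : 0 ≤ A * (2 * A - 1) := by
    rcases le_or_gt A 0 with h | h
    · exact mul_nonneg_of_nonpos_of_nonpos h (by linarith)
    · exact mul_nonneg h.le (by linarith)
  linarith

end Pool.Agent.GaussPoset.Win.W4
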