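import Pool.Agent.W_448j6_h22.KcJ
import Pool.Agent.W_448j6_h22.KcM

/-!
MP_448cb3_co, G2, case B, window `j`: the triangle: the functional `- F2 + 2 F4 + 13 F3`.
-/

namespace Pool.Agent.GaussPoset.EK

set_option linter.unusedSectionVars false

open Finset Win St Polynomial Wd Win.W4

universe u

variable {P : Type u} [Fintype P] [PartialOrder P] [DecidableEq P] {r j : ℕ}
variable {x : ℕ → P} {c : ℕ → ℤ} {t : Tops P}

/-- THE SECOND BOUND OF THE TRIANGLE -/
theorem NJ.tri_own2 (h : NJ P r j) (hj : 2 ≤ j) (B : RowB P j t 2 x c 2) (c0 : c 0 = -1)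
    (c1 : c 1 = -1) :
    1 ≤ - I2.al 2 (I2.bb j (j + 1) (topOf : P → Tops P) t)
        (I2.VV j (j + 1) (topOf : P → Tops P) t) +
      2 * I2.Q4 (I2.bb j (j + 1) (topOf : P → Tops P) t)
        (I2.VV j (j + 1) (topOf : P → Tops P) t) +
      13 * I2.w3 (I2.bb j (j + 1) (topOf : P → Tops P) t)
        (I2.VV j (j + 1) (topOf : P → Tops P) t) := by
  obtain ⟨K, psi, R⟩ := exists_red P j
  obtain ⟨v1, v2, w, w', p, T⟩ := NJ.tri h hj B c0 c1
  exact T.own2 (NJ.noQ h hj) (fun m hm => h.g.good m (by omega)) h.split R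

/-- (3,2) of the triangle -/
theorem NJ.tri_w3 (h : NJ P r j) (hj : 2 ≤ j) (B : RowB P j t 2 x c 2) (c0 : c 0 = -1)
    (c1 : c 1 = -1) : I2.w3 (I2.bb j (j + 1) (topOf : P → Tops P) t)
        (I2.VV j (j + 1) (topOf : P → Tops P) t) = -3 := by
  obtain ⟨K, psi, R⟩ := exists_red P j
  obtain ⟨v1, v2, w, w', p, T⟩ := NJ.tri h hj B c0 c1
  exact T.w3_eq (NJ.noQ h hj) (fun m hm => h.g.good m (by omega)) h.split R

end Pool.Agent.GaussPoset.EK
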