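import Pool.Agent.W_448w4_h10.LC
import Pool.Agent.W_448p_h97.PcA

/-!
MP_448cb3_co, G2, case B, window `j`: the component with a lower and an upper unmatched double which share a site:
the coefficient (1,0) and the form without the hypothesis `w32 = 0`.
-/

namespace Pool.Agent.GaussPoset.Win.W4

set_option linter.unusedSectionVars false

open Finset
open Pool.Agent.GaussPoset.Win.So (IV IV_chi IV_Fe)
open Pool.Agent.GaussPoset.Win.SO (LowD UppD val_gen PN vp con on)

universe u

variable {P : Type u} [Fintype P] [PartialOrder P] [DecidableEq P] {r i : ℕ}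
variable {e f : P → ℕ} {psi : P → P} {C K : Finset P} {w v : P}

lemma coeff_one_xx_sq : PowerSeries.coeff 1 (xx ^ 2 : A) = -2 := by
  have h : (xx ^ 2 : A) = dd * (dd - 2) + 1 := by unfold xx; ring
  rw [h, map_add]
  have h1 : PowerSeries.coeff 1 (dd * (dd - 2) : A) = PowerSeries.coeff 0 (dd - 2 : A) := by
    unfold dd
    exact PowerSeries.coeff_succ_X_mul 0 _
  rw [h1, map_sub]
  have h2 : PowerSeries.coeff 0 (dd : A) = 0 := by unfold dd; simp
  have h3 : PowerSeries.coeff 0 (2 : A) = 2 := by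
    rw [PowerSeries.coeff_zero_eq_constantCoeff_apply]
    exact map_ofNat (PowerSeries.constantCoeff (R := ℤ)) 2
  have h4 : PowerSeries.coeff 1 (1 : A) = 0 := by
    rw [PowerSeries.coeff_one, if_neg one_ne_zero]
  rw [h2, h3, h4]
  norm_num

lemma coeff_one_xi : PowerSeries.coeff 1 (xi : A) = -1 := by
  unfold xi
  rw [map_neg, PowerSeries.coeff_mk]

/-- label one on a double near element, second coefficient -/
lemma single_dbl (H : Gr P r) (hi : 1 ≤ i) (hi2 : i + 1 ≤ r) (hC : Part (i + 1) C) {x : P}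
    (hx : x ∈ near P i) (hxC : x ∈ C) (h2 : (nz i x).card = 2) :
    lc (st i C).card 0 (tC i C (Pi.single x 1)) = if lev x = i + 1 then -2 else -1 := by
  have hir : i ≤ r := by omega
  have hS : Sc i (0 : P → ℕ) := fun x _ => rfl
  have hs : Spt C (0 : P → ℕ) := fun x _ => rfl
  obtain ⟨a1, a2, h1, h2', o0, c0⟩ := hS.val (C := C) H hi hi2
  have hT : x ∉ Tch i (0 : P → ℕ) := by
    rw [hS.tch H]; exact notMem_empty x
  have hdis : Disjoint (AL i (0 : P → ℕ)) (AU i (0 : P → ℕ)) := by
    rw [h1]; exact disjoint_empty_left _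
  have ht : tC i C (0 : P → ℕ) = dd ^ (st i C).card := by
    have D : LowD i (0 : P → ℕ) (∅ : Finset P) ∅ ∅ := SO.low_none H fun z hz => rfl
    have D' : UppD i (0 : P → ℕ) (∅ : Finset P) ∅ ∅ := SO.upp_none H hir fun z hz => rfl
    have e1 := D.AL_eq
    have e2 := D'.AU_eq
    unfold tC cw
    rw [e1, e2, if_pos (disjoint_empty_left _), if_pos ⟨D.adm, D'.adm⟩, D.aL_eq, D'.aU_eq,
      D.pL_eq, D'.pU_eq, card_empty]
    simp
  have hk : kz i (0 : P → ℕ) x 1 = nz i x := kz_eq_iff.2 fun y _ => by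
    show (0 : ℕ) < 1
    omega
  have hKO : KO i (0 : P → ℕ) x = ∅ ∧ KP i (0 : P → ℕ) x = ∅ := by
    unfold KO KP
    rw [h1, h2']
    exact ⟨ite_self _, ite_self _⟩
  have key := (add_near H hir hC hs hdis hx hxC hT rfl 1).2
    (by rw [hKO.2]; exact disjoint_empty_right _)
  rw [hKO.1, sdiff_empty, hk, h2, zero_add, ht] at key
  have hf : fz i (0 : P → ℕ) x 1 = if lev x = i + 1 then dd else xi * dd := by
    unfold fz
    rw [if_pos hk]
  rw [hf] at key
  unfold lc
  rw [pow_zero, one_mul]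
  have hsh : ∀ Y : A, PowerSeries.coeff (st i C).card Y =
      PowerSeries.coeff ((st i C).card + 1) (dd * Y : A) := by
    intro Y
    unfold dd
    exact (PowerSeries.coeff_succ_X_mul _ _).symm
  have hpo : ∀ Y : A, PowerSeries.coeff ((st i C).card + 1) (Y * dd ^ (st i C).card : A) =
      PowerSeries.coeff 1 Y := by
    intro Y
    rw [mul_comm, add_comm]
    unfold dd
    exact PowerSeries.coeff_X_pow_mul Y (st i C).card 1
  rw [hsh]
  by_cases hl : lev x = i + 1
  · rw [if_pos hl] at key ⊢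
    have hg : gz i x = xx := by unfold gz; rw [if_pos hl]
    rw [hg] at key
    have k2 : dd * tC i C (Pi.single x 1) = xx ^ 2 * dd ^ (st i C).card := by
      refine dd_cancel ?_
      linear_combination key
    rw [k2, hpo, coeff_one_xx_sq]
  · rw [if_neg hl] at key ⊢
    have hg : gz i x = 1 := by unfold gz; rw [if_neg hl]
    rw [hg] at key
    have k2 : dd * tC i C (Pi.single x 1) = xi * dd ^ (st i C).card := by
      refine dd_cancel ?_
      linear_combination key
    rw [k2, hpo, coeff_one_xi]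

section

variable (Q : K5 r i K psi C w v) {p q s : P} (hw : uc w = {p, q}) (hv : dc v = {q, s})
  (hpq : p ≠ q) (hqs : q ≠ s) (hps : p ≠ s)
include Q hw hv hpq hqs hps

/-- THE COEFFICIENT (1,0) -/
theorem K5.c1 : I2.c1 (st i C).card (ZS i C) = (st i C).card + Vc i K C - 3 := by
  classical
  obtain ⟨hw2, hv2, hq, hq'⟩ := Q.cards hw hv hpq hqs hps
  have hS : Sc i (0 : P → ℕ) := fun x _ => rfl
  have hs : Spt C (0 : P → ℕ) := fun x _ => rfl
  obtain ⟨a1, a2, h1, h2, o0, c0⟩ := hS.val (C := C) Q.H Q.hi Q.hi2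
  have h0 : I2.c1 (st i C).card (ZS i C) = lc (st i C).card 0 (ZC i C 1) := by
    unfold I2.c1 lc
    rw [coeff_ZS, pow_zero, one_mul]
  have hac : ∀ x : P, ∀ a, Ac i (0 : P → ℕ) x a := fun x a =>
    Or.inr (by rw [hS.tch Q.H]; exact notMem_empty x)
  have hsp : ∀ x ∈ C, Spt C (Pi.single x 1 : P → ℕ) := by
    intro x hx y hy
    rw [Pi.single_apply, if_neg]
    rintro rfl
    exact hy hx
  -- the labels on w and v
  have j1 : lc (st i C).card 0 (Jx i K psi C w v 0 0 1 0) = -1 := by
    unfold Jx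
    rw [if_pos ⟨hac _ _, hac _ _⟩, Pi.single_zero, add_zero, zero_add,
      JK_zero Q.H Q.hir Q.part (hsp v Q.vC),
      single_dbl Q.H Q.hi Q.hi2 Q.hC Q.nv Q.vC hv2, if_neg (by have := Q.lv0; omega)]
  have j2 : lc (st i C).card 0 (Jx i K psi C w v 0 1 0 0) = -2 := by
    unfold Jx
    rw [if_pos ⟨hac _ _, hac _ _⟩, Pi.single_zero, add_zero, zero_add,
      JK_zero Q.H Q.hir Q.part (hsp w Q.wC),
      single_dbl Q.H Q.hi Q.hi2 Q.hC Q.nw Q.wC hw2, if_pos Q.lw0]
  -- the matched near elements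
  have j3 : lc (st i C).card 0 (Jx i K psi C w v 0 0 0 1) = Vc i K C := by
    unfold Jx
    rw [if_pos ⟨hac _ _, hac _ _⟩, Pi.single_zero, Pi.single_zero, add_zero, zero_add]
    rw [JK_one Q.H Q.hi Q.hi2 Q.hM Q.hC hs (fun _ _ => rfl)
      (by rw [h1]; exact disjoint_empty_left _) o0, c0, mul_one,
      om_killed (e := (0 : P → ℕ)) Q.H Q.hi Q.hi2 Q.hM Q.hC (fun y _ => rfl)
        (fun x hx hn => absurd (hS.RK Q.H hx) hn), h1, h2, union_empty, sum_empty, add_zero]
    have : mm i K C (∅ : Finset P) = 0 := by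
      unfold mm
      rw [Nat.cast_eq_zero, card_eq_zero, filter_eq_empty_iff]
      rintro x hx ⟨hd, hsub⟩
      have := (dbL_nz hd).2
      rw [subset_empty.1 hsub] at this
      simp at this
    rw [this, sub_zero]
  -- the sites
  have j4 : ∑ e ∈ Co i K psi C 1, lc (st i C).card 0 (Jx i K psi C w v e 0 0 0) =
      (st i C).card := by
    have h4 : ∑ e ∈ (st i C).image (fun f => (Pi.single f 1 : P → ℕ)),
        lc (st i C).card 0 (Jx i K psi C w v e 0 0 0) =
        ∑ e ∈ Co i K psi C 1, lc (st i C).card 0 (Jx i K psi C w v e 0 0 0) := by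
      refine sum_subset ?_ ?_
      · intro e he
        obtain ⟨f, hf, rfl⟩ := mem_image.1 he
        have hf' := mem_st.1 hf
        have hSf : Sc i (Pi.single f 1 : P → ℕ) := by
          intro x hx
          rw [Pi.single_apply, if_neg]
          rintro rfl
          exact hx hf'.2
        refine mem_Co.2 ⟨?_, ?_, hSf.core Q.H⟩
        · simp
        · intro x hx
          rw [Pi.single_apply, if_neg]
          rintro rfl
          exact hx hf'.1
      · intro e he hn
        rcases Q.Co1_cases hw hv hpq hqs hps he with ⟨f, hf, rfl⟩ | hz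
        · exact absurd (mem_image.2 ⟨f, hf, rfl⟩) hn
        · rw [hz, lc_zero]
    rw [← h4, sum_image]
    · have : ∀ f ∈ st i C, lc (st i C).card 0
          (Jx i K psi C w v (Pi.single f 1 : P → ℕ) 0 0 0) = 1 := by
        intro f hf
        have hf' := mem_st.1 hf
        have hSf : Sc i (Pi.single f 1 : P → ℕ) := by
          intro x hx
          rw [Pi.single_apply, if_neg]
          rintro rfl
          exact hx hf'.2
        have hsf : Spt C (Pi.single f 1 : P → ℕ) := by
          intro x hx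
          rw [Pi.single_apply, if_neg]
          rintro rfl
          exact hx hf'.1
        rw [Q.Jx0 (hSf.core Q.H) hsf]
        exact (hSf.val (C := C) Q.H Q.hi Q.hi2).2.2.2.2.2
      rw [sum_congr rfl this]
      simp
    · intro f _ g _ hfg
      have := congrFun (show (Pi.single f 1 : P → ℕ) = Pi.single g 1 from hfg) f
      rw [Pi.single_eq_same, Pi.single_apply] at this
      by_contra hne
      rw [if_neg hne] at this
      omega
  rw [h0, Q.lc_ZC, sum_range_succ, sum_range_one]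
  have e1 : ∀ e : P → ℕ, ∑ p ∈ antidiagonal (1 - 0), ∑ t ∈ antidiagonal p.2,
      lc (st i C).card 0 (Jx i K psi C w v e p.1 t.1 t.2) =
      lc (st i C).card 0 (Jx i K psi C w v e 0 0 1) +
        (lc (st i C).card 0 (Jx i K psi C w v e 0 1 0) +
          lc (st i C).card 0 (Jx i K psi C w v e 1 0 0)) := fun e =>
    anti1 (fun a b m => lc (st i C).card 0 (Jx i K psi C w v e a b m))
  have e2 : ∀ e : P → ℕ, ∑ p ∈ antidiagonal (1 - 1), ∑ t ∈ antidiagonal p.2,
      lc (st i C).card 0 (Jx i K psi C w v e p.1 t.1 t.2) =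
      lc (st i C).card 0 (Jx i K psi C w v e 0 0 0) := fun e =>
    anti0 (fun a b m => lc (st i C).card 0 (Jx i K psi C w v e a b m))
  rw [sum_congr rfl fun e _ => e1 e, sum_congr rfl fun e _ => e2 e, j4, Co_zero Q.H,
    sum_singleton, j1, j2, j3]
  ring

/-- THE SUM over the pendants: `1 + w32` -/
theorem K5.w3 : I2.w3 (st i C).card (ZS i C) =
    ∑ z ∈ PN i C, vp i z * (Nx i w z - Nx i v z) - 1 := by
  rw [← Q.be3_raw hw hv hpq hqs hps]
  unfold I2.w3 lc
  rw [coeff_ZS]

/-- THE FORM of the component, `w32` free -/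
theorem K5.form_gen : I2.Q4 (st i C).card (ZS i C) =
      ∑ q ∈ M4 i C, vp i q.1 * vp i q.2 + 2 * ((Z4 i C).card - (T4 i C).card : ℤ) + 6 -
      2 * ∑ z ∈ Z4 i C, tz i z * (Nx i w z - Nx i v z) -
      ∑ z ∈ PN i C, vp i z * (ch i C z * (Nx i w z - Nx i v z) + 2 * (Mx i w z - Mx i v z)) -
      2 * ∑ z ∈ PN i C, vp i z * (Nx i w z * (dg i K C p + Ds i K C (sit i z) {p, q}) -
        Nx i v z * (dg i K C s + Ds i K C (sit i z) {q, s})) +
      2 * (dg i K C p + dg i K C s + dg i K C q - 2 * mm i K C {p, q}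
        - 2 * mm i K C {q, s} - mm i K C {p, s}) +
      2 * (∑ z ∈ PN i C, vp i z) *
        (dg i K C p - dg i K C s - mm i K C {p, q} + mm i K C {q, s}) +
      (dg i K C p - dg i K C s - mm i K C {p, q} + mm i K C {q, s}) ^ 2 +
      2 * I2.w3 (st i C).card (ZS i C) * (4 - dg i K C q) := by
  obtain ⟨hw2, hv2, hq, hq'⟩ := Q.cards hw hv hpq hqs hps
  have nw := Q.nzw hw hv hpq hqs hps
  have nv := Q.nzv hw hv hpq hqs hps
  have hb : 1 ≤ (st i C).card := by
    obtain ⟨l1, l2, l3⟩ := Q.lpq hw hv hpq hqs hps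
    obtain ⟨m1, m2, m3⟩ := Q.memC hw hv hpq hqs hps
    exact card_pos.2 ⟨p, mem_st.2 ⟨m1, l1⟩⟩
  unfold I2.Q4
  rw [Q.c1 hw hv hpq hqs hps, Q.w3 hw hv hpq hqs hps, Q.be4 hw hv hpq hqs hps,
    Q.be4_raw hw hv hpq hqs hps hb, Q.al2 hw hv hpq hqs hps]
  have e1 : ∑ z ∈ PN i C, vp i z * (Nx i w z * (1 + Dg i K C (sit i z ∪ nz i w)) -
      Nx i v z * (1 + Dg i K C (sit i z ∪ nz i v))) =
      (1 + Vc i K C + dg i K C q) * ∑ z ∈ PN i C, vp i z * (Nx i w z - Nx i v z) +
      ∑ z ∈ PN i C, vp i z * (Nx i w z * (dg i K C p + Ds i K C (sit i z) {p, q}) -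
        Nx i v z * (dg i K C s + Ds i K C (sit i z) {q, s})) := by
    rw [mul_sum, ← sum_add_distrib]
    refine sum_congr rfl fun z _ => ?_
    have a1 : Nx i w z * (1 + Dg i K C (sit i z ∪ nz i w)) =
        Nx i w z * (1 + (Vc i K C + (dg i K C p + dg i K C q) + Ds i K C (sit i z) {p, q})) := by
      unfold Nx
      by_cases h : Disjoint (nz i w) (sit i z)
      · rw [Dg_split Q hw hv hpq hqs hps h, nw, sum_pair hpq]
      · rw [if_neg h, zero_mul, zero_mul]
    have a2 : Nx i v z * (1 + Dg i K C (sit i z ∪ nz i v)) =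
        Nx i v z * (1 + (Vc i K C + (dg i K C q + dg i K C s) + Ds i K C (sit i z) {q, s})) := by
      unfold Nx
      by_cases h : Disjoint (nz i v) (sit i z)
      · rw [Dg_split Q hw hv hpq hqs hps h, nv, sum_pair hqs]
      · rw [if_neg h, zero_mul, zero_mul]
    rw [a1, a2]
    ring
  have e2 : ∑ z ∈ PN i C, vp i z * ((2 * ((st i C).card - 8) + ch i C z) *
      (Nx i w z - Nx i v z) + 2 * (Mx i w z - Mx i v z)) =
      2 * ((st i C).card - 8) * ∑ z ∈ PN i C, vp i z * (Nx i w z - Nx i v z) +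
      ∑ z ∈ PN i C, vp i z * (ch i C z * (Nx i w z - Nx i v z) + 2 * (Mx i w z - Mx i v z)) := by
    rw [mul_sum, ← sum_add_distrib]
    exact sum_congr rfl fun z _ => by ring
  have e3 := pairs_split i C
  rw [e1, e2]
  linear_combination e3

end

end Pool.Agent.GaussPoset.Win.W4
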