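import Pool.Agent.W_448j6_h22.KaQ

/-!
**Level 6, the late words with two elements on the level 3** (MP_448cb3_co, `j = 6`): no pendant
below the end of the long chain, no element below both ends, no pendant below `(6, 1)`; nothing on
the level 7 below a quadric.
-/

namespace Pool.Agent.GaussPoset.J6

set_option linter.unusedSectionVars false

open Polynomial Finset Dd J8 J10 Wd Cl Sg

universe u

section

variable {P : Type u} [Fintype P] [PartialOrder P] [DecidableEq P] {r : ℕ}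

/-- elements of level 7 below a quadric are pendants of cost 4 -/
lemma quad7 {t : Tops P} {lo hi : ℕ → ℕ} {e : ℕ → ℕ → P} (h : Wd.NJ P r 6)
    (C : Cp.Comp 6 (t : P) lo hi e) (Q : QRows 6 3 lo hi) {z : P} (hz : z ≤ (t : P))
    (hl : lev z = 7) : cK 1 z = 4 := by
  classical
  have hQ : QInf 3 3 t := Q.inf (m := 3) C (by norm_num)
  have hup := low_up (t := t) (m := 3) h.g
  obtain ⟨x, hzx⟩ := ex_cov7 hl
  obtain ⟨hxt, hxl, -⟩ := cov7 h C hz hl hzx
  have hpend : Pend z x := by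
    refine ⟨hzx, fun y hzy => ?_⟩
    obtain ⟨hyt, hyl, -⟩ := cov7 h C hz hl hzy
    exact le_antisymm (hQ.bot y hyt (by omega) x hxt (by omega))
      (hQ.bot x hxt (by omega) y hyt (by omega))
  have hpr := quad_prof hQ hxt (by omega) hup (by norm_num)
  have q : ∀ l, 3 ≤ l → l ≤ 6 → nab l x = 1 + Fi.gD (List.replicate 3 0 ++ [1]) (6 - l) := by
    intro l h5 h6
    have := hpr (6 - l) (by omega)
    rw [show 2 * 3 - (6 - l) = l by omega] at this
    exact this
  have p4 : nab 4 x = 1 := by rw [q 4 (by norm_num) (by norm_num)]; rfl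
  have p5 : nab 5 x = 1 := by rw [q 5 (by norm_num) (by norm_num)]; rfl
  have p6 : nab 6 x = 1 := by rw [q 6 (by norm_num) (by norm_num)]; rfl
  have hn : ∀ k, k ≤ 6 → nab k z = nab k x := fun k hk => nab_pend hpend (by omega)
  have n7 : nab 7 z = 1 := by
    have := nab_self (z := z)
    rwa [hl] at this
  unfold cK
  rw [hn 4 (by norm_num), hn 5 (by norm_num), hn 6 le_rfl, n7, p4, p5, p6]
  norm_num

/-- the late shapes with two elements on the level 3 -/
lemma late3_cases {t : Tops P} {lo hi : ℕ → ℕ} {e : ℕ → ℕ → P}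
    (C : Cp.Comp 6 (t : P) lo hi e) (S : Wd.Shape 6 lo hi) (hF : ¬ Wd.F1 lo hi)
    (h2 : hi 2 = 0) (h3 : lo 3 < hi 3) : QRows 6 3 lo hi ∨ ∃ n, Rw n lo hi := by
  rcases S with h1 | ⟨h1, g2⟩ | ⟨h0, g2⟩ | ⟨h0, -, -⟩ | ⟨-, h1⟩ | ⟨a, h0, h1, g2, g3, -, h4⟩
  · have := h1 3 (by norm_num)
    omega
  · have := C.hi_step 1 (by norm_num)
    norm_num at this
    omega
  · have := g2.hi 2 (by norm_num)
    norm_num at this
    omega
  · omega
  · exact absurd h1 hF
  · rcases Nat.lt_or_ge 3 a with ha | ha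
    · have := g2 3 ha
      omega
    · obtain rfl : a = 3 := by omega
      have D : LateD 6 3 lo hi := ⟨h0, h1, g2, g3, h4⟩
      rcases h4 with ⟨-, g4⟩ | g4
      · left
        have hq := D.quad C g4
        refine ⟨g2, g3, ?_⟩
        intro k hk hk2
        have := hq (k - 3) (by omega) (by omega)
        rwa [show 3 + (k - 3) = k by omega] at this
      · exact Or.inr (exists_rw C g2 g3 g4)

/-- **Level 6, words with two elements on the level 3.** -/
theorem late6 {lo hi : Tops P → ℕ → ℕ} {e : Tops P → ℕ → ℕ → P} (h : Wd.NJ P r 6)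
    (C : ∀ t : Tops P, Cp.Comp 6 (t : P) (lo t) (hi t) (e t))
    (S : ∀ t, Wd.Shape 6 (lo t) (hi t)) (t : Tops P) (h2 : hi t 2 = 0) (h3 : lo t 3 < hi t 3) :
    (QRows 6 3 (lo t) (hi t) ∧ ∀ z, z ≤ (t : P) → lev z ≠ 7) ∨
    ((∃ n, Rw n (lo t) (hi t)) ∧ (∀ z, ¬ Pend z (e t 6 3)) ∧
      (lo t 6 = 0 → ∀ z, z ⋖ e t 6 0 → z ⋖ e t 6 3 → False) ∧
      (lo t 6 ≤ 1 → ∀ z, ¬ Pend z (e t 6 1))) := by
  classical
  have A := stageA h C S t
  rcases late3_cases (C t) (S t) (NJ_no_six h C S t) h2 h3 with Q | ⟨n, R⟩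
  · left
    refine ⟨Q, fun z hz hl => ?_⟩
    exact A.quad Q z hz hl (quad7 h (C t) Q hz hl)
  · right
    obtain ⟨v5, v6, hv⟩ := R.vals
    refine ⟨⟨n, R⟩, A.tail n R, ?_, ?_⟩
    · intro h0 z hz0 hz3
      obtain rfl : n = 14 := by omega
      obtain ⟨hl, hzt⟩ := lev7_of h (C t) (s := 3) (by omega) (by omega) hz3
      refine A.r03 R z hl ?_
      have h4 : Cvs (cW (e t)) (Nat.lor (2 ^ 13) (2 ^ 10)) z := by
        refine cvs_two (a := 13) (b := 10) hz0 hz3 fun y hy => ?_
        refine uc_pair h.g.H hz0 hz3 ?_ hy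
        intro hh
        have := (C t).inj 6 0 3 le_rfl (by omega) (by omega) (by omega) (by omega) hh
        omega
      exact h4
    · intro h0
      exact stageB h C S t R (by omega)

end

end Pool.Agent.GaussPoset.J6
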