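import Pool.Agent.W_448j8_h67.JaG
import Pool.Agent.W_448wd_h84.WdO

/-!
Level 6, window 3: data of one component, the ladder data (MP_448cb3_co, `j = 6`).
-/

namespace Pool.Agent.GaussPoset.J6

set_option linter.unusedSectionVars false

open Polynomial Finset Dd J8

universe u

variable {P : Type u} [Fintype P] [PartialOrder P] [DecidableEq P] {r : ℕ}

/-- the cost of an element of level 7 with the label `k` -/
noncomputable def cK (k : ℕ) (z : P) : ℕ :=
  min k 1 * nab 4 z + min k 2 * nab 5 z + min k 3 * nab 6 z + min k 4 * nab 7 z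

lemma cK_mono {k : ℕ} {z y : P} (h : z ≤ y) : cK k y ≤ cK k z := by
  unfold cK
  have h4 := Nat.mul_le_mul_left (min k 1) (nab_mono (l := 4) h)
  have h5 := Nat.mul_le_mul_left (min k 2) (nab_mono (l := 5) h)
  have h6 := Nat.mul_le_mul_left (min k 3) (nab_mono (l := 6) h)
  have h7 := Nat.mul_le_mul_left (min k 4) (nab_mono (l := 7) h)
  omega

lemma cst7 {h : P → ℕ} {z : P} (hl : lev z = 7) : cst 3 h z = cK (h z) z := by
  rw [cst_eq, hl]
  unfold cK
  simp only [Finset.sum_range_succ, Finset.sum_range_zero]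
  norm_num

lemma cst8 {h : P → ℕ} {z : P} (hl : lev z = 8) : cst 3 h z = cK (h z) z + min (h z) 5 := by
  have h8 : nab 8 z = 1 := by
    have := nab_self (z := z)
    rwa [hl] at this
  rw [cst_eq, hl]
  unfold cK
  simp only [Finset.sum_range_succ, Finset.sum_range_zero, h8]
  norm_num

/-- data of one component: natural elements `Y` of level 7, energies below `n`, costs at least
`m` except for the elements described by `G` -/
structure TD6 (t : Tops P) (b n m : ℕ) (Y : Finset P) (θ : P → ℕ) (B : P → Prop)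
    (G : ℕ → P → Prop) : Prop where
  b_one : 1 ≤ b
  Ylev : ∀ y ∈ Y, lev y = 7
  Yle : ∀ y ∈ Y, y ≤ (t : P)
  c7 : ∀ z, z ≤ (t : P) → lev z = 7 → z ∉ Y → ∀ h, (∃ x, z ⋖ x ∧ h = θ x + 1) →
    (∀ x, z ⋖ x → h ≤ θ x + 1) → m ≤ cK h z ∨ G h z
  c8 : ∀ y ∈ Y, m ≤ cK (θ y + 1) y + min (θ y + 1) 5
  data : ∀ N : Tops P → Finset P, NatSys N → (∀ s : Tops P, lowPart 6 (s : P) ⊆ N s) →
    N t = lowPart 6 (t : P) ∪ Y → ∀ θ' B', (∀ x ∈ N t, θ' x = θ x) →
    (∀ x ∈ N t, (B' x ↔ B x)) → CompDataL (unnat N) topOf t 3 b n θ' B'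

/-- the natural sets -/
noncomputable def N6 (Y : Tops P → Finset P) (t : Tops P) : Finset P := lowPart 6 (t : P) ∪ Y t

/-- the thresholds -/
noncomputable def th6 (θ : Tops P → P → ℕ) (x : P) : ℕ := θ (topOf x) x

/-- the base elements -/
def B6 (Y : Tops P → Finset P) (B : Tops P → P → Prop) (x : P) : Prop :=
  x ∉ unnat (N6 Y) ∧ B (topOf x) x

/-- the labels -/
noncomputable def h6 (Y : Tops P → Finset P) (θ : Tops P → P → ℕ) : P → ℕ :=
  hcan (unnat (N6 Y)) (th6 θ)

/-- the context at level 6 -/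
structure C6 (P : Type u) [Fintype P] [PartialOrder P] [DecidableEq P] (r n m : ℕ)
    (b : Tops P → ℕ) (Y : Tops P → Finset P) (θ : Tops P → P → ℕ)
    (B : Tops P → P → Prop) (G : ℕ → P → Prop) : Prop where
  nj : Wd.NJ P r 6
  sum_b : ∑ t, b t = (lv P 3).card
  td : ∀ t, TD6 t (b t) n m (Y t) (θ t) (B t) G

section

variable {n m : ℕ} {b : Tops P → ℕ} {Y : Tops P → Finset P} {θ : Tops P → P → ℕ}
  {B : Tops P → P → Prop} {G : ℕ → P → Prop}

/-- elements of level at most 7 below one top -/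
lemma nj_top (h : Wd.NJ P r 6) {x y : P} (hx : lev x ≤ 7) (hxy : x ≤ y) : topOf x = topOf y := by
  by_contra hne
  exact h.nj (z := x) (by omega) ⟨(topOf x : P), (topOf y : P), (topOf x).2, (topOf y).2,
    fun h' => hne (Subtype.ext h'), le_topOf x, hxy.trans (le_topOf y)⟩

lemma nj_top' (h : Wd.NJ P r 6) {x : P} {t : Tops P} (hx : lev x ≤ 7) (hxt : x ≤ (t : P)) :
    topOf x = t := by
  have h1 := nj_top h hx hxt
  rw [h1]
  by_contra hne
  exact h.nj (z := (t : P)) (by rw [t.2]; omega) ⟨(topOf (t : P) : P), (t : P),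
    (topOf (t : P)).2, t.2, fun h' => hne (Subtype.ext h'), le_topOf _, le_rfl⟩

lemma low6 (Y : Tops P → Finset P) (t : Tops P) : lowPart 6 (t : P) ⊆ N6 Y t :=
  Finset.subset_union_left

lemma C6.sys (W : C6 P r n m b Y θ B G) : NatSys (N6 Y) where
  up := by
    intro t x hx y hxy
    unfold N6 at hx ⊢
    rw [mem_union] at hx ⊢
    have hxt : x ≤ (t : P) := by
      rcases hx with hx | hx
      · exact (mem_lowPart.mp hx).1
      · exact (W.td t).Yle x hx
    have hxl : lev x ≤ 7 := by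
      rcases hx with hx | hx
      · have := (mem_lowPart.mp hx).2
        omega
      · have := (W.td t).Ylev x hx
        omega
    rcases eq_or_lt_of_le hxy with h | h
    · rw [← h]
      exact hx
    · left
      rw [mem_lowPart]
      have h1 := lev_strictAnti h
      refine ⟨?_, by omega⟩
      have h2 := nj_top W.nj (x := x) hxl hxy
      have h3 := nj_top' W.nj (x := x) hxl hxt
      rw [← h3, h2]
      exact le_topOf y
  le_t := by
    intro t x hx
    unfold N6 at hx
    rw [mem_union] at hx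
    rcases hx with hx | hx
    · exact (mem_lowPart.mp hx).1
    · exact (W.td t).Yle x hx

lemma C6.lev7 (_W : C6 P r n m b Y θ B G) {x : P} (hx : x ∈ unnat (N6 Y)) : 6 < lev x := by
  by_contra hcon
  exact mem_unnat.mp hx (topOf x) (low6 Y _ (mem_lowPart.mpr ⟨le_topOf x, by omega⟩))

lemma C6.nat6 (W : C6 P r n m b Y θ B G) {x : P} (hx : lev x ≤ 6) : x ∉ unnat (N6 Y) :=
  fun h => by
    have := W.lev7 h
    omega

/-- natural elements -/
lemma C6.nat_cases (W : C6 P r n m b Y θ B G) {x : P} (hx : x ∉ unnat (N6 Y)) :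
    lev x ≤ 6 ∨ x ∈ Y (topOf x) := by
  have h1 : x ∈ N6 Y (topOf x) := W.sys.mem_iff.mpr ⟨hx, rfl⟩
  unfold N6 at h1
  rw [mem_union, mem_lowPart] at h1
  rcases h1 with h1 | h1
  · exact Or.inl h1.2
  · exact Or.inr h1

/-- the data of the components -/
lemma C6.data (W : C6 P r n m b Y θ B G) (t : Tops P) :
    CompDataL (unnat (N6 Y)) topOf t 3 (b t) n (th6 θ) (B6 Y B) := by
  have HN := W.sys
  refine (W.td t).data (N6 Y) HN (low6 Y) rfl _ _ ?_ ?_
  · intro x hx
    unfold th6
    rw [HN.topOf_eq hx]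
  · intro x hx
    unfold B6
    rw [HN.topOf_eq hx]
    exact and_iff_right (HN.mem_iff.mp hx).1

/-- **The ladder data.** -/
lemma C6.lad (W : C6 P r n m b Y θ B G) :
    Lad 3 n (unnat (N6 Y)) b (th6 θ) (B6 Y B) where
  gr := W.nj.g.H.gradedBelow
  low := W.sys.lower
  lev := fun x hx => by
    have := W.lev7 hx
    omega
  cp := W.sys.cp
  base := fun x hx h => h.1 hx
  data := W.data

/-- **The boundary elements.** -/
theorem C6.kind (W : C6 P r n m b Y θ B G) {z : P} (hz : z ∈ bdR (unnat (N6 Y))) :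
    m ≤ cst 3 (h6 Y θ) z ∨ (lev z = 7 ∧ cst 3 (h6 Y θ) z = cK (h6 Y θ z) z ∧
      G (h6 Y θ z) z) := by
  classical
  have H := W.nj.g.H
  obtain ⟨x, hx, hzx, hh⟩ := hcan_spec (θ := th6 θ) hz
  have hh' : h6 Y θ z = θ (topOf x) x + 1 := hh
  have hzR := (mem_filter.mp hz).1
  have hz7 := W.lev7 hzR
  have hzl := (H.covBy_iff.mp hzx).2
  rcases W.nat_cases hx with h1 | h1
  · -- level 7
    have hlz : lev z = 7 := by omega
    have hc := cst7 (h := h6 Y θ) hlz
    have hzx' : topOf z = topOf x := nj_top W.nj (by omega) hzx.1.le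
    have hzt : z ≤ (topOf x : P) := by rw [← hzx']; exact le_topOf z
    have hzY : z ∉ Y (topOf x) := fun h => mem_unnat.mp hzR (topOf x) (by
      unfold N6
      rw [mem_union]
      exact Or.inr h)
    have hle : ∀ y, z ⋖ y → h6 Y θ z ≤ θ (topOf x) y + 1 := by
      intro y hzy
      have hyl := (H.covBy_iff.mp hzy).2
      have h3 := hcan_le (θ := th6 θ) (W.nat6 (x := y) (by omega)) hzy
      have h4 : topOf y = topOf x := by
        rw [← hzx']
        exact (nj_top W.nj (by omega) hzy.1.le).symm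
      unfold th6 at h3
      rw [h4] at h3
      exact h3
    rcases (W.td (topOf x)).c7 z hzt hlz hzY (h6 Y θ z) ⟨x, hzx, hh'⟩ hle with h2 | h2
    · left
      rw [hc]
      exact h2
    · exact Or.inr ⟨hlz, hc, h2⟩
  · -- level 8
    left
    have hx7 := (W.td (topOf x)).Ylev x h1
    have hlz : lev z = 8 := by omega
    rw [cst8 hlz, hh']
    have h2 := (W.td (topOf x)).c8 x h1
    have h3 := cK_mono (k := θ (topOf x) x + 1) hzx.1.le
    omega

/-- the boundary elements of level 7 -/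
lemma C6.mem_bd (W : C6 P r n m b Y θ B G) {t : Tops P} {z x : P} (hzx : z ⋖ x)
    (hx : x ≤ (t : P)) (hl : lev z = 7) (hzY : z ∉ Y t) :
    z ∈ bdR (unnat (N6 Y)) ∧ h6 Y θ z ≤ θ t x + 1 ∧
      ∃ y, z ⋖ y ∧ y ≤ (t : P) ∧ lev y = 6 ∧ h6 Y θ z = θ t y + 1 := by
  classical
  have H := W.nj.g.H
  have hxl := (H.covBy_iff.mp hzx).2
  have hxt : topOf x = t := nj_top' W.nj (by omega) hx
  have hzt : topOf z = t := (nj_top W.nj (by omega) hzx.1.le).trans hxt
  have hzR : z ∈ unnat (N6 Y) := by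
    rw [mem_unnat]
    intro s hs
    have h1 := W.sys.topOf_eq hs
    have h2 : s = t := h1.symm.trans hzt
    subst h2
    unfold N6 at hs
    rw [mem_union, mem_lowPart] at hs
    rcases hs with hs | hs
    · have := hs.2
      omega
    · exact hzY hs
  have hzb : z ∈ bdR (unnat (N6 Y)) := by
    unfold bdR
    rw [mem_filter]
    exact ⟨hzR, x, W.nat6 (by omega), hzx⟩
  refine ⟨hzb, ?_, ?_⟩
  · have h3 := hcan_le (θ := th6 θ) (W.nat6 (x := x) (by omega)) hzx
    unfold th6 at h3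
    rw [hxt] at h3
    exact h3
  · obtain ⟨y, hy, hzy, hh⟩ := hcan_spec (θ := th6 θ) hzb
    have hyl := (H.covBy_iff.mp hzy).2
    have hyt : topOf y = t := (nj_top W.nj (by omega) hzy.1.le).symm.trans hzt
    refine ⟨y, hzy, by rw [← hyt]; exact le_topOf y, by omega, ?_⟩
    have hh' : h6 Y θ z = θ (topOf y) y + 1 := hh
    rw [hh', hyt]

end

end Pool.Agent.GaussPoset.J6
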