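import Pool.Agent.W_448j6_h22.KaC

/-!
Level 6: the elements of level 7 (MP_448cb3_co, `j = 6`).
-/

namespace Pool.Agent.GaussPoset.J6

set_option linter.unusedSectionVars false

open Polynomial Finset Dd J8

universe u

variable {P : Type u} [Fintype P] [PartialOrder P] [DecidableEq P] {r : ℕ}
variable {t : Tops P} {lo hi : ℕ → ℕ} {e : ℕ → ℕ → P}

/-- the covers of an element of level 7 -/
lemma cov7 (h : Wd.NJ P r 6) (C : Cp.Comp 6 (t : P) lo hi e) {z x : P} (hz : z ≤ (t : P))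
    (hl : lev z = 7) (hzx : z ⋖ x) : x ≤ (t : P) ∧ lev x = 6 ∧
      ∃ s, lo 6 ≤ s ∧ s ≤ hi 6 ∧ x = e 6 s := by
  have hx := (h.g.H.covBy_iff.mp hzx).2
  have hxl : lev x = 6 := by omega
  have h1 := nj_top h (x := z) (by omega) hzx.1.le
  have h2 := nj_top' h (x := z) (by omega) hz
  have hxt : x ≤ (t : P) := by
    rw [← h2, h1]
    exact le_topOf x
  obtain ⟨s, s1, s2, s3⟩ := C.surj x hxt (by omega)
  rw [hxl] at s1 s2 s3
  exact ⟨hxt, hxl, s, s1, s2, s3.symm⟩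

/-- an element of level 7 has a cover -/
lemma ex_cov7 {z : P} (hl : lev z = 7) : ∃ x, z ⋖ x := by
  have h1 : z < (topOf z : P) := lt_of_le_of_ne (le_topOf z) (by
    intro h
    have h2 := (topOf z).2
    rw [← h] at h2
    omega)
  obtain ⟨v, hv, -⟩ := Hul.exists_cov h1
  exact ⟨v, hv⟩

/-- two cells of the last row with a common child -/
lemma pair7 (h : Wd.NJ P r 6) (C : Cp.Comp 6 (t : P) lo hi e) {a b : ℕ} (ha : lo 6 ≤ a)
    (hab : a < b) (hb : b ≤ hi 6) {z : P} (hza : z ⋖ e 6 a) (hzb : z ⋖ e 6 b) :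
    b = a + 1 ∨ (a = lo 6 ∧ b = hi 6 ∧ (Win.uc (e 6 (lo 6))).card = 1 ∧
      (Win.uc (e 6 (hi 6))).card = 1) := by
  classical
  obtain ⟨c, β, -, h2, h3, -⟩ := h.pieces (by norm_num) C
  by_cases hb1 : b = a + 1
  · exact Or.inl hb1
  right
  have h4 := h2 a b ha hab hb
  rw [if_neg hb1] at h4
  have hd : 1 ≤ dcv (e 6 a) (e 6 b) := by
    unfold dcv
    exact Finset.card_pos.mpr ⟨z, mem_filter.mpr ⟨mem_univ _, hza, hzb⟩⟩
  have hu : ucv (e 6 a) (e 6 b) = 0 := by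
    unfold ucv
    rw [Finset.card_eq_zero, Finset.filter_eq_empty_iff]
    rintro y - ⟨g1, g2⟩
    obtain ⟨s, s1, s2, s3, rfl⟩ := (C.toWin.uc_iff h.g t.2 (k := 5) (by norm_num) ha
      (hab.le.trans hb)).1 g1
    obtain ⟨s', s1', s2', s3', s4'⟩ := (C.toWin.uc_iff h.g t.2 (k := 5) (by norm_num)
      (ha.trans hab.le) hb).1 g2
    have := C.inj 5 s s' (by norm_num) s1 s2 s1' s2' s4'.symm
    omega
  rw [hu] at h4
  by_cases hc : a = lo 6 ∧ b = hi 6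
  · rw [if_pos hc] at h4
    have h5 : β ≠ 0 := by
      rw [← h4]
      push_cast
      omega
    exact ⟨hc.1, hc.2, h3 h5⟩
  · rw [if_neg hc] at h4
    push_cast at h4
    omega

/-- the elements of level 7 -/
theorem own7 (h : Wd.NJ P r 6) (C : Cp.Comp 6 (t : P) lo hi e) {z : P} (hz : z ≤ (t : P))
    (hl : lev z = 7) : (∃ s, lo 6 ≤ s ∧ s ≤ hi 6 ∧ Pend z (e 6 s)) ∨
      ∃ a b, lo 6 ≤ a ∧ a < b ∧ b ≤ hi 6 ∧ z ⋖ e 6 a ∧ z ⋖ e 6 b ∧
        (∀ y, z ⋖ y → y = e 6 a ∨ y = e 6 b) ∧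
        (b = a + 1 ∨ (a = lo 6 ∧ b = hi 6 ∧ (Win.uc (e 6 (lo 6))).card = 1 ∧
          (Win.uc (e 6 (hi 6))).card = 1)) := by
  obtain ⟨x, hzx⟩ := ex_cov7 hl
  obtain ⟨hxt, hxl, s, s1, s2, hs⟩ := cov7 h C hz hl hzx
  by_cases hp : ∀ y, z ⋖ y → y = x
  · left
    exact ⟨s, s1, s2, by rw [← hs]; exact ⟨hzx, hp⟩⟩
  right
  push Not at hp
  obtain ⟨y, hzy, hyx⟩ := hp
  obtain ⟨hyt, hyl, s', s1', s2', hs'⟩ := cov7 h C hz hl hzy
  have hne : s ≠ s' := by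
    rintro rfl
    exact hyx (hs'.trans hs.symm)
  have hpair : ∀ v, z ⋖ v → v = x ∨ v = y := fun v hv =>
    uc_pair h.g.H hzx hzy (Ne.symm hyx) hv
  rcases Nat.lt_or_gt_of_ne hne with h1 | h1
  · rw [hs] at hzx
    rw [hs'] at hzy
    refine ⟨s, s', s1, h1, s2', hzx, hzy, ?_, pair7 h C s1 h1 s2' hzx hzy⟩
    rw [← hs, ← hs']
    exact hpair
  · rw [hs] at hzx
    rw [hs'] at hzy
    refine ⟨s', s, s1', h1, s2, hzy, hzx, ?_, pair7 h C s1' h1 s2 hzy hzx⟩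
    rw [← hs, ← hs']
    exact fun v hv => (hpair v hv).symm

/-- one cover of the cell `(6, s)` -/
lemma single6 (h : Wd.NJ P r 6) (C : Cp.Comp 6 (t : P) lo hi e) {s : ℕ} (h1 : lo 6 ≤ s)
    (h2 : s ≤ hi 6) (hs : (Win.uc (e 6 s)).card = 1) : s ≤ lo 5 ∨ hi 5 < s := by
  by_contra hcon
  push Not at hcon
  have h3 : (Win.uc (e 6 s)).card = 2 :=
    (C.toWin.uc_two h.g t.2 (k := 5) (by norm_num) h1 h2).mpr ⟨hcon.1, hcon.2⟩
  omega

/-- two covers of the cell `(6, s)` -/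
lemma double6 (h : Wd.NJ P r 6) (C : Cp.Comp 6 (t : P) lo hi e) {s : ℕ} (h1 : lo 6 ≤ s)
    (h2 : s ≤ hi 6) (h3 : lo 5 < s) (h4 : s ≤ hi 5) : (Win.uc (e 6 s)).card = 2 :=
  (C.toWin.uc_two h.g t.2 (k := 5) (by norm_num) h1 h2).mpr ⟨h3, h4⟩

end Pool.Agent.GaussPoset.J6
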