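import Pool.Agent.W_448j6_h22.KaD
import Pool.Agent.W_448s8f_h61.TK

/-!
Level 6, window 3: light components and quadrics (MP_448cb3_co, `j = 6`).
-/

namespace Pool.Agent.GaussPoset.J6

set_option linter.unusedSectionVars false

open Polynomial Finset Dd J8

universe u

variable {P : Type u} [Fintype P] [PartialOrder P] [DecidableEq P] {r : ℕ}
variable {t : Tops P} {lo hi : ℕ → ℕ} {e : ℕ → ℕ → P}

/-- the elements of level 7 below `t` -/
noncomputable def Y7 (t : Tops P) : Finset P := by
  classical exact univ.filter (fun y => y ≤ (t : P) ∧ lev y = 7)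

lemma mem_Y7 {y : P} : y ∈ Y7 t ↔ y ≤ (t : P) ∧ lev y = 7 := by
  classical
  unfold Y7
  simp

/-- elements of level at most 7 are below one top -/
lemma only7 (h : Wd.NJ P r 6) {x : P} (hx : x ≤ (t : P)) (hl : lev x ≤ 7) : x ∈ onlyB t := by
  rw [mem_onlyB]
  intro s hs hxs
  by_contra hne
  exact h.nj (z := x) (by omega) ⟨s, (t : P), hs, t.2, hne, hxs, hx⟩

/-- light components -/
theorem tdLight (h : Wd.NJ P r 6) (C : Cp.Comp 6 (t : P) lo hi e) (h3 : lo 3 = hi 3) {n m : ℕ}
    (hm : m ≤ 15) (G : ℕ → P → Prop) :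
    TD6 t (hi 3 - lo 3 + 1) n m (Y7 t) (fun x => lev x - 3) (fun _ => False) G where
  b_one := by omega
  Ylev := fun y hy => (mem_Y7.mp hy).2
  Yle := fun y hy => (mem_Y7.mp hy).1
  c7 := fun z hz hl hzY => absurd (mem_Y7.mpr ⟨hz, hl⟩) hzY
  c8 := by
    intro y hy
    have hl := (mem_Y7.mp hy).2
    have h4 := one_le_nab (z := y) (l := 4) (by omega)
    have h5 := one_le_nab (z := y) (l := 5) (by omega)
    have h6 := one_le_nab (z := y) (l := 6) (by omega)
    have h7 := one_le_nab (z := y) (l := 7) (by omega)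
    unfold cK
    simp only [hl]
    norm_num
    omega
  data := by
    intro N HN hlow hN θ' B' hθ hB
    have H := exists_light (t := t) C h.g.H h.g.good h.g.H.gradedBelow (i := 3) (by norm_num)
    rw [show hi 3 - lo 3 + 1 = 1 by omega]
    refine compL_nat HN H ?_ (fun x _ hx => absurd hx (by simp)) hθ hB n
    intro x hx
    rw [hN, mem_union, mem_lowPart, mem_Y7] at hx
    rcases hx with hx | hx
    · exact only7 h hx.1 (by omega)
    · exact only7 h hx.1 (by omega)

/-- quadrics -/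
theorem tdQuad (h : Wd.NJ P r 6) (C : Cp.Comp 6 (t : P) lo hi e) (Q : QRows 6 3 lo hi) {n m : ℕ}
    {G : ℕ → P → Prop} (hG : ∀ z ≤ (t : P), lev z = 7 → nab 3 z = 2 → nab 4 z = 1 →
      cK 1 z = 4 → m ≤ cK 1 z ∨ G 1 z) :
    TD6 t (hi 3 - lo 3 + 1) n m ∅ (fun _ => 0) (fun x => x ∈ lowPart 6 (t : P)) G := by
  classical
  have hQ : QInf 3 3 t := Q.inf (m := 3) C (by norm_num)
  have hup := low_up (t := t) (m := 3) h.g
  have hN := natTop_quad (by norm_num) (dvd_W_Qd 3) hQ (fun x hx y hxy => hup x y hxy hx)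
  have h3 := Q.at'
  have hb : hi 3 - lo 3 + 1 = 2 := by omega
  have hprof : ∀ x, x ≤ (t : P) → lev x = 6 → nab 3 x = 2 ∧ nab 4 x = 1 ∧ nab 5 x = 1 ∧
      nab 6 x = 1 := by
    intro x hx hl
    have hpr := quad_prof hQ hx (by omega) hup (by norm_num)
    have q : ∀ l, 3 ≤ l → l ≤ 6 → nab l x = 1 + Fi.gD (List.replicate 3 0 ++ [1]) (6 - l) := by
      intro l h5 h6
      have := hpr (6 - l) (by omega)
      rw [show 2 * 3 - (6 - l) = l by omega] at this
      exact this
    refine ⟨?_, ?_, ?_, ?_⟩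
    · rw [q 3 le_rfl (by norm_num)]; rfl
    · rw [q 4 (by norm_num) (by norm_num)]; rfl
    · rw [q 5 (by norm_num) (by norm_num)]; rfl
    · rw [q 6 (by norm_num) (by norm_num)]; rfl
  rw [hb]
  constructor
  · norm_num
  · exact fun y hy => absurd hy (Finset.notMem_empty _)
  · exact fun y hy => absurd hy (Finset.notMem_empty _)
  · rintro z hz hl - k ⟨x, hzx, hk⟩ -
    have hk1 : k = 1 := hk
    subst hk1
    obtain ⟨hxt, hxl, -⟩ := cov7 h C hz hl hzx
    have hpend : Pend z x := by
      refine ⟨hzx, fun y hzy => ?_⟩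
      obtain ⟨hyt, hyl, -⟩ := cov7 h C hz hl hzy
      exact le_antisymm (hQ.bot y hyt (by omega) x hxt (by omega))
        (hQ.bot x hxt (by omega) y hyt (by omega))
    obtain ⟨p3, p4, p5, p6⟩ := hprof x hxt hxl
    have hn : ∀ k, k ≤ 6 → nab k z = nab k x := fun k hk =>
      nab_pend hpend (by omega)
    have n7 : nab 7 z = 1 := by
      have := nab_self (z := z)
      rwa [hl] at this
    refine hG z hz hl (by rw [hn 3 (by norm_num), p3]) (by rw [hn 4 (by norm_num), p4]) ?_
    unfold cK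
    rw [hn 4 (by norm_num), hn 5 (by norm_num), hn 6 le_rfl, n7, p4, p5, p6]
    norm_num
  · exact fun y hy => absurd hy (Finset.notMem_empty _)
  · intro N HN hlow hN' θ' B' hθ hB
    refine compL_nat HN hN ?_ ?_ hθ hB n
    · intro x hx
      rw [hN', Finset.union_empty] at hx
      exact hx
    · intro x hx _
      rw [hN', Finset.union_empty]
      exact hx

end Pool.Agent.GaussPoset.J6
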