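import Pool.Agent.W_448j6_h22.KaD
import Pool.Agent.W_448j8_h67.JaH

/-!
Level 6, window 3: rectangle-like components, the costs (MP_448cb3_co, `j = 6`).
-/

namespace Pool.Agent.GaussPoset.J6

set_option linter.unusedSectionVars false

open Polynomial Finset Dd J8

universe u

variable {P : Type u} [Fintype P] [PartialOrder P] [DecidableEq P] {r : ℕ}
variable {t : Tops P} {lo hi : ℕ → ℕ} {e : ℕ → ℕ → P}

/-- the cost grows with the label -/
lemma cK_le {k k' : ℕ} (h : k ≤ k') (z : P) : cK k z ≤ cK k' z := by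
  unfold cK
  have h1 := Nat.mul_le_mul_right (nab 4 z) (show min k 1 ≤ min k' 1 by omega)
  have h2 := Nat.mul_le_mul_right (nab 5 z) (show min k 2 ≤ min k' 2 by omega)
  have h3 := Nat.mul_le_mul_right (nab 6 z) (show min k 3 ≤ min k' 3 by omega)
  have h4 := Nat.mul_le_mul_right (nab 7 z) (show min k 4 ≤ min k' 4 by omega)
  omega

/-- lower bounds for the cost -/
lemma cK_ge {k : ℕ} {z : P} {a b c : ℕ} (hl : lev z = 7) (h4 : a ≤ nab 4 z) (h5 : b ≤ nab 5 z)
    (h6 : c ≤ nab 6 z) : min k 1 * a + min k 2 * b + min k 3 * c + min k 4 ≤ cK k z := by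
  have h7 : nab 7 z = 1 := by
    have := nab_self (z := z)
    rwa [hl] at this
  unfold cK
  have g4 := Nat.mul_le_mul_left (min k 1) h4
  have g5 := Nat.mul_le_mul_left (min k 2) h5
  have g6 := Nat.mul_le_mul_left (min k 3) h6
  rw [h7]
  omega

/-- an element of level 7 has an element of each level above it -/
lemma one7 {z : P} (hl : lev z = 7) : 1 ≤ nab 4 z ∧ 1 ≤ nab 5 z ∧ 1 ≤ nab 6 z :=
  ⟨one_le_nab (by omega), one_le_nab (by omega), one_le_nab (by omega)⟩

section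

variable {b : ℕ} {Nc : Finset P} {co : P → ℕ × ℕ}

/-- thresholds on the level 6 -/
lemma thR6 {x : P} (hl : lev x = 6) : thR 3 b Nc co x = 3 ∨
    thR 3 b Nc co x = ((co x).1 - (b - 1)) + ((co x).2 - 3) := by
  unfold thR
  split_ifs with hj
  · left; omega
  · right; rfl

/-- above an element which is not below the cell `(3, 3)` -/
lemma rect_extra6 (C : Chart (t : P) (fun _ => True) Nc co) {x x' : P} (hx : x ∈ Nc)
    (hx' : x' ∈ Nc) (hcx : co x = (3, 3)) (hlx' : lev x' = 6) (hne : x ≠ x') {l : ℕ}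
    (h4 : 4 ≤ l) (h6 : l ≤ 6) : ∃ u, x' ≤ u ∧ lev u = l ∧ ¬ x ≤ u := by
  have hl := C.lev x' hx'
  have hne' : co x' ≠ (3, 3) := fun h => hne (C.inj x hx x' hx' (by rw [hcx, h]))
  have key : 4 ≤ (co x').1 ∨ 4 ≤ (co x').2 := by
    by_contra hcon
    push Not at hcon
    exact hne' (Prod.ext (by simp only; omega) (by simp only; omega))
  rcases key with hk | hk
  · obtain ⟨u, hu, hcu⟩ := C.low x' hx' (min l (co x').1, l - min l (co x').1)
      ⟨by simp only; omega, by simp only; omega⟩ trivial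
    refine ⟨u, ?_, ?_, ?_⟩
    · rw [C.le_iff x' hx' u hu, hcu]
      exact ⟨by simp only; omega, by simp only; omega⟩
    · rw [C.lev u hu, hcu]
      simp only
      omega
    · rw [C.le_iff x hx u hu, hcu, hcx]
      rintro ⟨h1, -⟩
      simp only at h1
      omega
  · obtain ⟨u, hu, hcu⟩ := C.low x' hx' (l - min l (co x').2, min l (co x').2)
      ⟨by simp only; omega, by simp only; omega⟩ trivial
    refine ⟨u, ?_, ?_, ?_⟩
    · rw [C.le_iff x' hx' u hu, hcu]
      exact ⟨by simp only; omega, by simp only; omega⟩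
    · rw [C.lev u hu, hcu]
      simp only
      omega
    · rw [C.le_iff x hx u hu, hcu, hcx]
      rintro ⟨-, h1⟩
      simp only at h1
      omega

/-- two different elements below the cell `(3, 3)` and another one -/
lemma rect_three (C : Chart (t : P) (fun _ => True) Nc co) {x y z : P} (hx : x ∈ Nc)
    (hy : y ∈ Nc) (hcx : co x = (3, 3)) (hly : lev y = 6) (hne : x ≠ y) (hzx : z ⋖ x)
    (hzy : z ⋖ y) : 4 ≤ nab 4 z ∧ 3 ≤ nab 5 z ∧ 2 ≤ nab 6 z := by
  have key : ∀ l, 4 ≤ l → l ≤ 6 → nab l x + 1 ≤ nab l z := by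
    intro l h4 h6
    obtain ⟨u, hu1, hu2, hu3⟩ := rect_extra6 C hx hy hcx hly hne h4 h6
    exact nab_extra hzx.1.le (hzy.1.le.trans hu1) hu2 hu3
  have c : ∀ l, 4 ≤ l → l ≤ 6 → nab l x + (l - 3) = min l 3 + 1 := by
    intro l h4 h6
    rw [nab_chart C hx l]
    have := card_cellsAt_true (l := l) (p := co x) (by rw [hcx]; simp only; omega)
    rw [hcx] at this
    rw [hcx]
    exact this
  have k4 := key 4 le_rfl (by norm_num)
  have k5 := key 5 (by norm_num) (by norm_num)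
  have k6 := key 6 (by norm_num) le_rfl
  have c4 := c 4 le_rfl (by norm_num)
  have c5 := c 5 (by norm_num) (by norm_num)
  have c6 := c 6 (by norm_num) le_rfl
  norm_num at c4 c5 c6
  omega

/-- a pendant of a rectangle-like component is below an end -/
lemma rect_pend (h : Wd.NJ P r 6) (C : Cp.Comp 6 (t : P) lo hi e) (S : RectShape 6 lo hi)
    (R : RectNat 6 3 t b Nc co) {z x : P} (hx : x ≤ (t : P)) (hl : lev x = 6) (hp : Pend z x) :
    co x = (0, 6) ∨ co x = (6, 0) := by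
  have hxN : x ∈ Nc := R.strip (mem_lowPart.mpr ⟨hx, hl.le⟩)
  have hlc := R.chart.lev x hxN
  by_cases h1 : 1 ≤ (co x).1 ∧ 1 ≤ (co x).2
  · exact (rectShape_no_pendant (i := 5) h.g (by norm_num) t.2 C S hl hx
      (chart_inner_uc R.chart h.g.H hxN h1.1 h1.2) hp.1 hp.2).elim
  · rcases Nat.eq_zero_or_pos (co x).1 with h2 | h2
    · exact Or.inl (Prod.ext h2 (by simp only; omega))
    · have h3 : (co x).2 = 0 := by
        by_contra h4
        exact h1 ⟨h2, by omega⟩
      exact Or.inr (Prod.ext (by simp only; omega) h3)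

/-- **the costs of a rectangle-like component.** -/
theorem rect_c7 (h : Wd.NJ P r 6) (C : Cp.Comp 6 (t : P) lo hi e) (S : RectShape 6 lo hi)
    (R : RectNat 6 3 t b Nc co) {z : P} (hz : z ≤ (t : P)) (hl : lev z = 7) {k : ℕ}
    (hk : ∃ x, z ⋖ x ∧ k = thR 3 b Nc co x + 1) :
    13 ≤ cK k z ∨ ((∃ x, Pend z x) ∧ 10 ≤ cK k z) ∨
      ((∃ F ∈ Nc, co F = (3, 3) ∧ z ⋖ F) ∧ 10 ≤ cK k z) := by
  classical
  obtain ⟨x, hzx, rfl⟩ := hk
  obtain ⟨hxt, hxl, -⟩ := cov7 h C hz hl hzx
  have hxN : x ∈ Nc := R.strip (mem_lowPart.mpr ⟨hxt, hxl.le⟩)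
  have hlc := R.chart.lev x hxN
  have hb := R.b_le
  have hb2 := R.b_two
  obtain ⟨o4, o5, o6⟩ := one7 hl
  by_cases hp : ∀ y, z ⋖ y → y = x
  · right; left
    refine ⟨⟨x, hzx, hp⟩, ?_⟩
    have h3 : 3 ≤ thR 3 b Nc co x := by
      have h4 := thR6 (b := b) (Nc := Nc) (co := co) hxl
      rcases rect_pend h C S R hxt hxl ⟨hzx, hp⟩ with h5 | h5
      · rw [h5] at h4
        simp only at h4
        omega
      · rw [h5] at h4
        simp only at h4
        omega
    have h5 := cK_ge (k := 4) hl o4 o5 o6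
    have h6 := cK_le (k := 4) (k' := thR 3 b Nc co x + 1) (by omega) z
    norm_num at h5
    omega
  push Not at hp
  obtain ⟨y, hzy, hyx⟩ := hp
  obtain ⟨hyt, hyl, -⟩ := cov7 h C hz hl hzy
  have hyN : y ∈ Nc := R.strip (mem_lowPart.mpr ⟨hyt, hyl.le⟩)
  have n6 : 2 ≤ nab 6 z := two_le_nab hzx.1.le hzy.1.le hxl hyl (Ne.symm hyx)
  rcases Nat.lt_or_ge (thR 3 b Nc co x) 3 with h3 | h3
  swap
  · left
    have h5 := cK_ge (k := 4) hl o4 o5 n6
    have h6 := cK_le (k := 4) (k' := thR 3 b Nc co x + 1) (by omega) z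
    norm_num at h5
    omega
  have h4 := (thR6 (b := b) (Nc := Nc) (co := co) hxl).resolve_left (by omega)
  have hin : 1 ≤ (co x).1 ∧ 1 ≤ (co x).2 := by omega
  have g4 : nab 4 x + (4 - (co x).2) = min 4 (co x).1 + 1 := by
    rw [nab_chart R.chart hxN 4]
    exact card_cellsAt_true (by omega)
  have g5 : nab 5 x + (5 - (co x).2) = min 5 (co x).1 + 1 := by
    rw [nab_chart R.chart hxN 5]
    exact card_cellsAt_true (by omega)
  have m4 := nab_mono (l := 4) hzx.1.le
  have m5 := nab_mono (l := 5) hzx.1.le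
  have h5 : thR 3 b Nc co x = 0 ∨ thR 3 b Nc co x = 1 ∨ thR 3 b Nc co x = 2 := by omega
  rcases h5 with h5 | h5 | h5
  · -- the cell `(3, 3)`
    right; right
    have hc : co x = (3, 3) := by
      rw [h5] at h4
      exact Prod.ext (by simp only; omega) (by simp only; omega)
    obtain ⟨q4, q5, q6⟩ := rect_three R.chart hxN hyN hc hyl (Ne.symm hyx) hzx hzy
    refine ⟨⟨x, hxN, hc, hzx⟩, ?_⟩
    have h6 := cK_ge (k := thR 3 b Nc co x + 1) hl q4 q5 q6
    rw [h5] at h6 ⊢
    norm_num at h6 ⊢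
    omega
  · left
    have h6 := cK_ge (k := thR 3 b Nc co x + 1) (a := 3) (b := 2) (c := 2) hl (by omega) (by omega)
      n6
    rw [h5] at h6 ⊢
    norm_num at h6 ⊢
    omega
  · left
    have h6 := cK_ge (k := thR 3 b Nc co x + 1) (a := 2) (b := 2) (c := 2) hl (by omega) (by omega)
      n6
    rw [h5] at h6 ⊢
    norm_num at h6 ⊢
    omega

end

/-- the data `RectNat` -/
lemma exists_R6 (h : Wd.NJ P r 6) (C : Cp.Comp 6 (t : P) lo hi e)
    (h1 : lo 1 = 0 ∧ hi 1 = 1) (S : RectShape 6 lo hi) (hlt : lo 3 < hi 3) :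
    ∃ Nc co, RectNat 6 3 t (hi 3 - lo 3 + 1) Nc co ∧
      ((∀ x ∈ lowPart 6 (t : P), co x = ccoord lo hi e x) ∨
        ∀ x ∈ lowPart 6 (t : P), co x = swp (ccoord lo hi e) x) :=
  exists_rect C h.g.H h.g.good h.g.H.gradedBelow S (i := 3) (by norm_num) hlt

end Pool.Agent.GaussPoset.J6
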