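import Pool.Agent.W_448j6_h22.KaF

/-!
Level 6, window 3: rectangle-like components, second stage (MP_448cb3_co, `j = 6`).
-/

namespace Pool.Agent.GaussPoset.J6

set_option linter.unusedSectionVars false

open Polynomial Finset Dd J8

universe u

variable {P : Type u} [Fintype P] [PartialOrder P] [DecidableEq P] {r : ℕ}
variable {t : Tops P} {lo hi : ℕ → ℕ} {e : ℕ → ℕ → P}

/-- the natural elements of level 7: the pendants and the elements below the cell `(3, 3)` -/
noncomputable def Yr (t : Tops P) (Nc : Finset P) (co : P → ℕ × ℕ) : Finset P := by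
  classical exact univ.filter (fun y => y ≤ (t : P) ∧ lev y = 7 ∧
    ((∃ x, Pend y x) ∨ ∃ F ∈ Nc, co F = (3, 3) ∧ y ⋖ F))

lemma mem_Yr {Nc : Finset P} {co : P → ℕ × ℕ} {y : P} : y ∈ Yr t Nc co ↔ y ≤ (t : P) ∧
    lev y = 7 ∧ ((∃ x, Pend y x) ∨ ∃ F ∈ Nc, co F = (3, 3) ∧ y ⋖ F) := by
  classical
  unfold Yr
  simp

/-- the thresholds -/
noncomputable def thB (b : ℕ) (Nc : Finset P) (co : P → ℕ × ℕ) (x : P) : ℕ := by
  classical exact if lev x = 7 ∧ x ∉ natR Nc co then 1 else thR 3 b Nc co x

section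

variable {b : ℕ} {Nc : Finset P} {co : P → ℕ × ℕ}

lemma thB_nat {x : P} (hx : x ∈ natR Nc co) : thB b Nc co x = thR 3 b Nc co x := by
  unfold thB
  rw [if_neg fun h => h.2 hx]

lemma thB_low {x : P} (hx : lev x ≤ 6) : thB b Nc co x = thR 3 b Nc co x := by
  unfold thB
  rw [if_neg fun h => by omega]

/-- the thresholds of the elements of level 7 -/
lemma thR7 (hb : b ≤ 4) (C : Chart (t : P) (fun _ => True) Nc co) {y : P}
    (hy : y ∈ natR Nc co) (hl : lev y = 7) : 1 ≤ thR 3 b Nc co y := by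
  unfold thR
  split_ifs with hj
  · omega
  · have hyN : y ∈ Nc := by
      rcases mem_natR.mp hy with h1 | h1 | h1
      · exact h1
      · exact absurd (Or.inl h1) hj
      · exact absurd (Or.inr h1) hj
    have := C.lev y hyN
    omega

/-- a pendant is natural, with a high threshold -/
lemma pend_nat (h : Wd.NJ P r 6) (C : Cp.Comp 6 (t : P) lo hi e) (S : RectShape 6 lo hi)
    (R : RectNat 6 3 t b Nc co) {y x : P} (hy : y ≤ (t : P)) (hl : lev y = 7) (hp : Pend y x) :
    y ∈ natR Nc co ∧ thR 3 b Nc co y = 4 := by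
  classical
  have H := h.g.H
  obtain ⟨hxt, hxl, -⟩ := cov7 h C hy hl hp.1
  have hxN : x ∈ Nc := R.strip (mem_lowPart.mpr ⟨hxt, hxl.le⟩)
  have hb := R.b_le
  have hrow := R.rows
  have key : ∀ co' : P → ℕ × ℕ, Chart (t : P) (fun _ => True) Nc co' →
      MaxChart (fun _ => True) Nc co' → co' x = (0, 6) → y ∉ junk (fun _ => True) Nc co' →
      y ∈ Nc ∧ co' y = (0, 7) := by
    intro co' C' M' hcx hJ
    by_cases hyN : y ∈ Nc
    · refine ⟨hyN, ?_⟩
      have h1 := (chart_cov C' H hyN hxN).mp hp.1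
      rw [hcx] at h1
      unfold Prd at h1
      simp only at h1
      rcases h1 with h1 | h1
      · exfalso
        obtain ⟨v, hv, hcv⟩ := C'.low y hyN (1, 5) ⟨by simp only; omega, by simp only; omega⟩
          trivial
        have h2 : y ⋖ v := by
          rw [chart_cov C' H hyN hv, hcv]
          exact Or.inr ⟨by simp only; omega, by simp only; omega⟩
        have h3 := hp.2 v h2
        rw [h3, hcx] at hcv
        exact absurd hcv (by decide)
      · exact Prod.ext (by simp only; omega) (by simp only; omega)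
    · exact (row0_pendant rowS_true C' M' H hyN hJ hxN hp.1 hp.2 (by rw [hcx]) trivial).elim
  unfold thR
  by_cases hj : y ∈ junk (fun _ => True) Nc co ∨ y ∈ junk (fun _ => True) Nc (swp co)
  · rw [if_pos hj, hl]
    exact ⟨mem_natR.mpr (Or.inr hj), rfl⟩
  · rw [if_neg hj]
    push Not at hj
    rcases rect_pend h C S R hxt hxl hp with h5 | h5
    · obtain ⟨h6, h7⟩ := key co R.chart R.max h5 hj.1
      refine ⟨mem_natR.mpr (Or.inl h6), ?_⟩
      rw [h7]
      simp only
      omega
    · have h5' : swp co x = (0, 6) := by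
        unfold swp
        rw [h5]
      obtain ⟨h6, h7⟩ := key (swp co) R.chart.swap R.max.swap h5' hj.2
      refine ⟨mem_natR.mpr (Or.inl h6), ?_⟩
      have h8 : (co y).2 = 0 ∧ (co y).1 = 7 := by
        have h9 := h7
        unfold swp at h9
        rw [Prod.mk.injEq] at h9
        exact h9
      rw [h8.1, h8.2]
      rcases hrow with h9 | h9
      · omega
      · have := h9 y h6
        omega

/-- the second cover of an element below the cell `(3, 3)` -/
lemma rect_G (h : Wd.NJ P r 6) (C : Cp.Comp 6 (t : P) lo hi e)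
    (S : RectShape 6 lo hi) (R : RectNat 6 3 t b Nc co)
    (hco : (∀ x ∈ lowPart 6 (t : P), co x = ccoord lo hi e x) ∨
        ∀ x ∈ lowPart 6 (t : P), co x = swp (ccoord lo hi e) x) {y F : P} (hy : y ≤ (t : P))
    (hl : lev y = 7) (hF : F ∈ Nc) (hcF : co F = (3, 3)) (hyF : y ⋖ F) :
    ∃ G ∈ Nc, y ⋖ G ∧ lev G = 6 ∧ F ≠ G ∧ (co G = (2, 4) ∨ co G = (4, 2)) := by
  classical
  have H := h.g.H
  have hFt := R.chart.le_t F hF
  have hFl : lev F = 6 := by
    have := R.chart.lev F hF
    rw [hcF] at this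
    exact this
  have hF2 : (Win.uc F).card = 2 :=
    chart_inner_uc R.chart H hF (by rw [hcF]; norm_num) (by rw [hcF]; norm_num)
  have hcoe : ∀ s, lo 6 ≤ s → s ≤ hi 6 → co (e 6 s) = (s, 6 - s) ∨ co (e 6 s) = (6 - s, s) := by
    intro s s1 s2
    have hm : e 6 s ∈ lowPart 6 (t : P) := mem_lowPart.mpr ⟨C.le_t 6 s le_rfl s1 s2,
      (C.lev_e 6 s le_rfl s1 s2).le⟩
    have h1 : ccoord lo hi e (e 6 s) = (s, 6 - s) := by
      unfold ccoord
      rw [scoord_e C le_rfl s1 s2, C.lev_e 6 s le_rfl s1 s2]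
    rcases hco with h2 | h2
    · left
      rw [h2 _ hm, h1]
    · right
      rw [h2 _ hm]
      unfold swp
      rw [h1]
  rcases own7 h C hy hl with ⟨s, s1, s2, hp⟩ | ⟨a, c, a1, a2, a3, ha, hc, -, hac⟩
  · exfalso
    have h1 : F = e 6 s := hp.2 F hyF
    exact rectShape_no_pendant (i := 5) h.g (by norm_num) t.2 C S hFl hFt hF2 hyF
      (fun v hv => by rw [hp.2 v hv, h1])
  · have hne : e 6 a ≠ e 6 c := fun hh => by
      have := C.inj 6 a c le_rfl a1 (by omega) (by omega) a3 hh
      omega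
    have hla := C.lev_e 6 a le_rfl a1 (by omega)
    have hlc := C.lev_e 6 c le_rfl (by omega) a3
    have hma : e 6 a ∈ Nc := R.strip (mem_lowPart.mpr ⟨C.le_t 6 a le_rfl a1 (by omega), hla.le⟩)
    have hmc : e 6 c ∈ Nc := R.strip (mem_lowPart.mpr ⟨C.le_t 6 c le_rfl (by omega) a3, hlc.le⟩)
    have ca := hcoe a a1 (by omega)
    have cc := hcoe c (by omega) a3
    rcases uc_pair H ha hc hne hyF with h1 | h1
    · rw [h1] at hcF hF2
      have ha3 : a = 3 := by
        rcases ca with g | g
        · rw [g, Prod.mk.injEq] at hcF; omega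
        · rw [g, Prod.mk.injEq] at hcF; omega
      rcases hac with h2 | ⟨h2, -, h3, -⟩
      · refine ⟨e 6 c, hmc, hc, hlc, by rw [h1]; exact hne, ?_⟩
        have hc4 : c = 4 := by omega
        rw [hc4] at cc ⊢
        exact cc.symm
      · rw [h2] at hF2
        omega
    · rw [h1] at hcF hF2
      have hc3 : c = 3 := by
        rcases cc with g | g
        · rw [g, Prod.mk.injEq] at hcF; omega
        · rw [g, Prod.mk.injEq] at hcF; omega
      rcases hac with h2 | ⟨-, h2, -, h3⟩
      · refine ⟨e 6 a, hma, ha, hla, by rw [h1]; exact hne.symm, ?_⟩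
        have ha2 : a = 2 := by omega
        rw [ha2] at ca ⊢
        exact ca
      · rw [h2] at hF2
        omega

/-- the costs of a twin -/
lemma twin_sum {y1 : P} (hl : lev y1 = 7) (h4 : 4 ≤ nab 4 y1) (h5 : 3 ≤ nab 5 y1)
    (h6 : 2 ≤ nab 6 y1) :
    (13 ≤ ∑ y, (by classical exact if y1 ≤ y then lev y - 3 else 0)) ∧
    (12 ≤ ∑ y, (by classical exact if y1 < y then min (1 + 1) (lev y - 3) else 0)) := by
  classical
  have hc : ∀ k, cst 3 (fun _ => k) y1 = cK k y1 := fun k => cst7 hl
  constructor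
  · have h1 : cst 3 (fun _ => 4) y1 ≤ ∑ y, (if y1 ≤ y then lev y - 3 else 0) := by
      unfold cst
      refine Finset.sum_le_sum fun y _ => ?_
      unfold ez
      split_ifs with h
      · exact min_le_right _ _
      · exact le_rfl
    rw [hc] at h1
    have h2 := cK_ge (k := 4) hl h4 h5 h6
    norm_num at h2
    refine le_trans ?_ h1
    omega
  · have h1 : cst 3 (fun _ => 2) y1 ≤
        ∑ y, (if y1 < y then min (1 + 1) (lev y - 3) else 0) + 2 := by
      unfold cst
      have e1 : ∑ x, ez 3 (fun _ => 2) y1 x =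
          ∑ x ∈ univ.erase y1, ez 3 (fun _ => 2) y1 x + ez 3 (fun _ => 2) y1 y1 := by
        rw [Finset.sum_erase_add _ _ (mem_univ y1)]
      have e2 : ez 3 (fun _ => 2) y1 y1 = 2 := by
        unfold ez
        rw [if_pos le_rfl, hl]
        norm_num
      rw [e1, e2]
      refine Nat.add_le_add_right ?_ 2
      refine le_trans (Finset.sum_le_sum (g := fun y => if y1 < y then min (1 + 1) (lev y - 3)
        else 0) fun y hy => ?_) (Finset.sum_le_univ_sum_of_nonneg fun _ => Nat.zero_le _)
      unfold ez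
      by_cases h : y1 ≤ y
      · rw [if_pos h, if_pos (lt_of_le_of_ne h (Ne.symm (Finset.ne_of_mem_erase hy)))]
      · rw [if_neg h]
        exact Nat.zero_le _
    rw [hc] at h1
    have h2 := cK_ge (k := 2) hl h4 h5 h6
    norm_num at h2
    have h3 : 14 ≤ cK 2 y1 := by omega
    have h4 := h3.trans h1
    exact Nat.le_of_add_le_add_right (b := 2) h4

end

end Pool.Agent.GaussPoset.J6
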