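import Pool.Agent.W_448j6_h22.KaG
import Pool.Agent.W_448j8_h67.JaK

/-!
Level 6, window 3: rectangle-like components, second stage, the data (MP_448cb3_co, `j = 6`).
-/

namespace Pool.Agent.GaussPoset.J6

set_option linter.unusedSectionVars false

open Polynomial Finset Dd J8

universe u

variable {P : Type u} [Fintype P] [PartialOrder P] [DecidableEq P] {r : ℕ}
variable {t : Tops P} {lo hi : ℕ → ℕ} {e : ℕ → ℕ → P}
variable {b : ℕ} {Nc : Finset P} {co : P → ℕ × ℕ}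

/-- an element of level 7 below the cell `(3, 3)` which is not natural has a natural twin -/
lemma rect_twin (h : Wd.NJ P r 6) (C : Cp.Comp 6 (t : P) lo hi e)
    (S : RectShape 6 lo hi) (R : RectNat 6 3 t b Nc co)
    (hco : (∀ x ∈ lowPart 6 (t : P), co x = ccoord lo hi e x) ∨
        ∀ x ∈ lowPart 6 (t : P), co x = swp (ccoord lo hi e) x) {y F : P} (hy : y ≤ (t : P))
    (hl : lev y = 7) (hF : F ∈ Nc) (hcF : co F = (3, 3)) (hyF : y ⋖ F) (hyN : y ∉ natR Nc co) :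
    ∃ y1 ∈ Nc, y1 ⋖ F ∧ y1 ≠ y ∧ lev y1 = 7 ∧ (∀ v, y1 < v ↔ y < v) ∧
      thR 3 b Nc co y1 = 1 ∧ 4 ≤ nab 4 y1 ∧ 3 ≤ nab 5 y1 ∧ 2 ≤ nab 6 y1 := by
  classical
  have H := h.g.H
  have C' := R.chart
  obtain ⟨G, hG, hyG, hGl, hFG, hcG⟩ := rect_G h C S R hco hy hl hF hcF hyF
  have hyNc : y ∉ Nc := fun h' => hyN (mem_natR.mpr (Or.inl h'))
  have hb4 : b = 4 := by
    have h1 := R.b_le
    rcases R.rows with h2 | h2
    · omega
    · have h3 := h2 F hF
      rw [hcF] at h3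
      simp only at h3
      omega
  have main : ∀ y1 ∈ Nc, (co y1 = (3, 4) ∨ co y1 = (4, 3)) → y1 ⋖ F → y1 ⋖ G → y1 ≠ y →
      lev y1 = 7 ∧ (∀ v, y1 < v ↔ y < v) ∧ thR 3 b Nc co y1 = 1 ∧ 4 ≤ nab 4 y1 ∧
      3 ≤ nab 5 y1 ∧ 2 ≤ nab 6 y1 := by
    intro y1 hy1 hc1 g1 g2 g3
    have hl1 : lev y1 = 7 := by
      have h0 := C'.lev y1 hy1
      rcases hc1 with h1 | h1 <;> rw [h1] at h0 <;> exact h0
    refine ⟨hl1, ?_, ?_, rect_three C' hF hG hcF hGl hFG g1 g2⟩
    · refine up_of_cov fun w => ?_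
      constructor
      · intro hw
        rcases uc_pair H g1 g2 hFG hw with h1 | h1
        · rw [h1]; exact hyF
        · rw [h1]; exact hyG
      · intro hw
        rcases uc_pair H hyF hyG hFG hw with h1 | h1
        · rw [h1]; exact g1
        · rw [h1]; exact g2
    · unfold thR
      have hj1 : y1 ∉ junk (fun _ => True) Nc co := not_junk C' hy1 (by
        rcases hc1 with h1 | h1 <;> rw [h1] <;> norm_num)
      have hj2 : y1 ∉ junk (fun _ => True) Nc (swp co) := not_junk C'.swap hy1 (by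
        rw [swp_fst]
        rcases hc1 with h1 | h1 <;> rw [h1] <;> norm_num)
      rw [if_neg (by rw [not_or]; exact ⟨hj1, hj2⟩), hb4]
      rcases hc1 with h1 | h1 <;> (rw [h1]; norm_num)
  rcases hcG with hcG | hcG
  · obtain ⟨y1, hy1, hc1, g1, g2, g3⟩ := max_pair C' R.max H hyNc hF hG hyF hyG
      (s := 2) (c := 3) hcF hcG trivial
    obtain ⟨m1, m2, m3, m4⟩ := main y1 hy1 (Or.inl hc1) g1 g2 g3
    exact ⟨y1, hy1, g1, g3, m1, m2, m3, m4⟩
  · obtain ⟨y1, hy1, hc1, g1, g2, g3⟩ := max_pair C' R.max H hyNc hG hF hyG hyF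
      (s := 3) (c := 2) hcG hcF trivial
    obtain ⟨m1, m2, m3, m4⟩ := main y1 hy1 (Or.inr hc1) g2 g1 g3
    exact ⟨y1, hy1, g2, g3, m1, m2, m3, m4⟩

/-- **The data, second stage.** -/
theorem rect_dataB (h : Wd.NJ P r 6) (C : Cp.Comp 6 (t : P) lo hi e)
    (S : RectShape 6 lo hi) (R : RectNat 6 3 t b Nc co)
    (hco : (∀ x ∈ lowPart 6 (t : P), co x = ccoord lo hi e x) ∨
        ∀ x ∈ lowPart 6 (t : P), co x = swp (ccoord lo hi e) x) {N : Tops P → Finset P}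
    (HN : NatSys N) (hlow : ∀ s : Tops P, lowPart 6 (s : P) ⊆ N s)
    (hN : N t = lowPart 6 (t : P) ∪ Yr t Nc co) {θ' : P → ℕ} {B' : P → Prop}
    (hθ : ∀ x ∈ N t, θ' x = thB b Nc co x)
    (hB : ∀ x ∈ N t, (B' x ↔ x ∈ Nc ∧ co x = (b - 1, 3))) :
    CompDataL (unnat N) topOf t 3 b 13 θ' B' := by
  classical
  have H := h.g.H
  have C' := R.chart
  have hR := R.natTop H.gradedBelow (by norm_num)
  have hbase : ∀ x ∈ natR Nc co, (x ∈ Nc ∧ co x = (b - 1, 3)) → x ∈ N t := by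
    rintro x - ⟨hx, hcx⟩
    rw [hN, mem_union, mem_lowPart]
    refine Or.inl ⟨C'.le_t x hx, ?_⟩
    rw [C'.lev x hx, hcx]
    have := R.b_le
    simp only
    omega
  have hN' : ∀ x, x ∈ N t ↔ x ∈ lowPart 6 (t : P) ∨ x ∈ Yr t Nc co := by
    intro x
    rw [hN, mem_union]
  have hlN : ∀ x ∈ lowPart 6 (t : P), x ∈ natR Nc co := fun x hx =>
    mem_natR.mpr (Or.inl (R.strip hx))
  by_cases hsub : ∀ y ∈ Yr t Nc co, y ∈ natR Nc co
  · -- no additional element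
    have hsub' : ∀ x ∈ N t, x ∈ natR Nc co := by
      intro x hx
      rcases (hN' x).mp hx with h1 | h1
      · exact hlN x h1
      · exact hsub x h1
    refine compL_nat HN hR hsub' hbase ?_ hB 13
    intro x hx
    rw [hθ x hx, thB_nat (hsub' x hx)]
  · -- one additional twin
    push Not at hsub
    obtain ⟨y2, hy2, hy2N⟩ := hsub
    obtain ⟨hy2t, hy2l, hy2c⟩ := mem_Yr.mp hy2
    rcases hy2c with ⟨x, hp⟩ | ⟨F, hF, hcF, hyF⟩
    · exact absurd (pend_nat h C S R hy2t hy2l hp).1 hy2N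
    obtain ⟨y1, hy1, g1, g2, g3, g4, g5, g6, g7, g8⟩ :=
      rect_twin h C S R hco hy2t hy2l hF hcF hyF hy2N
    have hy1R : y1 ∈ natR Nc co := mem_natR.mpr (Or.inl hy1)
    have hY1 : y1 ∈ Yr t Nc co := mem_Yr.mpr ⟨C'.le_t y1 hy1, g3, Or.inr ⟨F, hF, hcF, g1⟩⟩
    have hY2 : ∀ y ∈ Yr t Nc co, y ∈ natR Nc co ∨ y = y2 := by
      intro y hy
      obtain ⟨hyt, hyl, hyc⟩ := mem_Yr.mp hy
      rcases hyc with ⟨x, hp⟩ | ⟨F', hF', hcF', hyF'⟩
      · exact Or.inl (pend_nat h C S R hyt hyl hp).1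
      · have hFF : F' = F := C'.inj F' hF' F hF (by rw [hcF', hcF])
        rw [hFF] at hyF'
        by_contra hcon
        push Not at hcon
        exact Win.dc_three H hyF' g1 hyF (fun h' => hcon.1 (by rw [h']; exact hy1R)) hcon.2 g2
    refine compL_twin (y1 := y1) (y2 := y2) HN (by norm_num) hlow hR ?_ ?_ hbase ?_ ?_
      hy1R hy2N ?_ ?_ ?_ ?_ ?_ ?_
    · intro x hx
      rcases (hN' x).mp hx with h1 | h1
      · exact Or.inl (hlN x h1)
      · exact hY2 x h1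
    · intro x hx hl
      exact hlN x (mem_lowPart.mpr ⟨hx, hl⟩)
    · exact (hN' y1).mpr (Or.inr hY1)
    · exact (hN' y2).mpr (Or.inr hy2)
    · intro x hx hne
      rw [hθ x hx]
      rcases (hN' x).mp hx with h1 | h1
      · exact thB_low (mem_lowPart.mp h1).2
      · exact thB_nat ((hY2 x h1).resolve_right hne)
    · rw [hθ y2 ((hN' y2).mpr (Or.inr hy2))]
      unfold thB
      rw [if_pos ⟨hy2l, hy2N⟩]
    · intro x hx _
      exact hB x hx
    · intro h'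
      have h1 := ((hB y2 ((hN' y2).mpr (Or.inr hy2))).mp h').1
      exact hy2N (mem_natR.mpr (Or.inl h1))
    · have hts := twin_sum g3 g6 g7 g8
      refine ⟨g2, g4, ?_, ?_, ?_, ?_, ?_⟩
      · simp only [if_neg g2, g5]
        norm_num
      · simp only [if_neg g2, g5, if_true]
      · simp only [if_neg g2, g5, g3]
        norm_num
      · simp only [if_neg g2, g5]
        have := hts.1
        omega
      · simp only [if_neg g2, g5]
        have := hts.2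
        omega
    · omega

/-- rectangle-like components, second stage -/
theorem tdRectB (h : Wd.NJ P r 6) (C : Cp.Comp 6 (t : P) lo hi e)
    (h1 : lo 1 = 0 ∧ hi 1 = 1) (S : RectShape 6 lo hi) (hlt : lo 3 < hi 3) (G : ℕ → P → Prop) :
    ∃ Y θ B, TD6 t (hi 3 - lo 3 + 1) 13 13 Y θ B G := by
  classical
  obtain ⟨Nc, co, R, hco⟩ := exists_R6 h C h1 S hlt
  have H := h.g.H
  refine ⟨Yr t Nc co, thB (hi 3 - lo 3 + 1) Nc co,
    fun x => x ∈ Nc ∧ co x = (hi 3 - lo 3 + 1 - 1, 3), ?_⟩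
  constructor
  · omega
  · exact fun y hy => (mem_Yr.mp hy).2.1
  · exact fun y hy => (mem_Yr.mp hy).1
  · intro z hz hl hzY k hk _
    left
    obtain ⟨x, hzx, hkx⟩ := hk
    obtain ⟨hxt, hxl, -⟩ := cov7 h C hz hl hzx
    rw [thB_low hxl.le] at hkx
    rcases rect_c7 h C S R hz hl ⟨x, hzx, hkx⟩ with h2 | ⟨h2, -⟩ | ⟨h2, -⟩
    · exact h2
    · exact absurd (mem_Yr.mpr ⟨hz, hl, Or.inl h2⟩) hzY
    · exact absurd (mem_Yr.mpr ⟨hz, hl, Or.inr h2⟩) hzY
  · intro y hy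
    obtain ⟨hyt, hyl, hyc⟩ := mem_Yr.mp hy
    obtain ⟨o4, o5, o6⟩ := one7 hyl
    rcases hyc with ⟨x, hp⟩ | ⟨F, hF, hcF, hyF⟩
    · obtain ⟨h2, h3⟩ := pend_nat h C S R hyt hyl hp
      rw [thB_nat h2, h3]
      have h4 := cK_ge (k := 4 + 1) hyl o4 o5 o6
      norm_num at h4 ⊢
      omega
    · obtain ⟨G', hG, hyG, hGl, hFG, -⟩ := rect_G h C S R hco hyt hyl hF hcF hyF
      obtain ⟨q4, q5, q6⟩ := rect_three R.chart hF hG hcF hGl hFG hyF hyG
      have hone : 1 ≤ thB (hi 3 - lo 3 + 1) Nc co y := by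
        by_cases hyN : y ∈ natR Nc co
        · rw [thB_nat hyN]
          exact thR7 (by have := R.b_le; omega) R.chart hyN hyl
        · unfold thB
          rw [if_pos ⟨hyl, hyN⟩]
      have h4 := cK_ge (k := 2) hyl q4 q5 q6
      have h5 := cK_le (k := 2) (k' := thB (hi 3 - lo 3 + 1) Nc co y + 1) (by omega) y
      norm_num at h4
      have h6 : 2 ≤ min (thB (hi 3 - lo 3 + 1) Nc co y + 1) 5 := by omega
      omega
  · intro N HN hlow hN θ' B' hθ hB
    exact rect_dataB h C S R hco HN hlow hN hθ hB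

end Pool.Agent.GaussPoset.J6
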