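import Pool.Agent.W_448j6_h22.KaF
import Pool.Agent.W_448sd_h84.SdK

/-!
Level 6, window 3: stair-like components (MP_448cb3_co, `j = 6`).
-/

namespace Pool.Agent.GaussPoset.J6

set_option linter.unusedSectionVars false

open Polynomial Finset Dd J8

universe u

variable {P : Type u} [Fintype P] [PartialOrder P] [DecidableEq P] {r : ℕ}
variable {t : Tops P} {lo hi : ℕ → ℕ} {e : ℕ → ℕ → P}

/-- no pendants below the fold end -/
lemma fold_pen (h : Wd.NJ P r 6) (C : Cp.Comp 6 (t : P) lo hi e) (S : StairShape 6 lo hi)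
    (h3 : lo 3 = 0) {z : P} (hz : Pend z (e 6 3)) : False := by
  classical
  have s0 := C.lo_step 2 (by norm_num)
  have s1 := C.lo_step 3 (by norm_num)
  have s2 := C.hi_step 2 (by norm_num)
  have e1 := S.hi 1 (by norm_num)
  have e2 := S.hi 2 (by norm_num)
  have e3 := S.hi 3 (by norm_num)
  have e4 := S.hi 4 (by norm_num)
  have e5 := S.hi 5 (by norm_num)
  have e6 := S.hi 6 (by norm_num)
  norm_num at s0 s1 s2 e1 e2 e3 e4 e5 e6
  have St : Wd.Stair lo hi 6 := ⟨S.lo, S.hi⟩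
  have hf : Wd.fuw lo hi 4 = 0 := by
    refine St.fuw_zero (by norm_num) (by norm_num) fun _ => ?_
    norm_num
    omega
  obtain ⟨-, hR, -⟩ := h.FL_eq (i := 4) (by norm_num) C
  obtain ⟨hF, -, -⟩ := h.law (i := 4) (by norm_num) (by norm_num) C
  have hpd : Win.pdR lo hi 4 := by
    refine ⟨?_, ?_, ?_⟩
    · norm_num
      omega
    · norm_num
      omega
    · omega
  have hF0 : Win.FL 4 (Wd.SS 4 t) = ∅ := by
    rw [← Finset.card_eq_zero, hF]
    exact hf
  have h1 := hR hpd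
  rw [hF0, show 4 + 2 = 6 from rfl, e6] at h1
  have h2 : Win.uc z = {e 6 3} := by
    ext v
    rw [Win.mem_uc, mem_singleton]
    exact ⟨fun hv => hz.2 v hv, fun hv => by rw [hv]; exact hz.1⟩
  exact absurd (h1 (Wd.mem_pen_of_uc h2)) (Finset.notMem_empty _)

section

variable {Nc : Finset P} {co : P → ℕ × ℕ}

/-- thresholds on the level 6 -/
lemma thS6 {x : P} (hl : lev x = 6) : thS 3 Nc co x = 3 ∨
    thS 3 Nc co x = ((co x).1 - 2) + ((co x).2 - 3) := by
  unfold thS
  split_ifs with hj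
  · left; omega
  · right; rfl

/-- the data of the strip -/
structure StR (t : Tops P) (lo hi : ℕ → ℕ) (e : ℕ → ℕ → P) (Nc : Finset P)
    (co : P → ℕ × ℕ) : Prop where
  S : StairShape 6 lo hi
  h3 : lo 3 = 0
  R : StairNat 6 3 t Nc co
  co_eq : ∀ x ∈ lowPart 6 (t : P), co x = ccoord lo hi e x

/-- the cell of an element of level 6 -/
lemma StR.mem (T : StR t lo hi e Nc co) {x : P} (hx : x ≤ (t : P)) (hl : lev x = 6) :
    x ∈ Nc ∧ (co x).1 + (co x).2 = 6 ∧ (co x).1 ≤ (co x).2 := by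
  have h1 : x ∈ Nc := T.R.strip (mem_lowPart.mpr ⟨hx, hl.le⟩)
  have h2 := T.R.chart.lev x h1
  exact ⟨h1, by omega, T.R.chart.mem x h1⟩

/-- a pendant of a stair is below the straight end -/
lemma StR.pend (T : StR t lo hi e Nc co) (h : Wd.NJ P r 6) (C : Cp.Comp 6 (t : P) lo hi e)
    {z x : P} (hx : x ≤ (t : P)) (hl : lev x = 6) (hp : Pend z x) : co x = (0, 6) := by
  classical
  have hm : x ∈ lowPart 6 (t : P) := mem_lowPart.mpr ⟨hx, hl.le⟩
  have h2 := Win.uc_card_le h.g.H x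
  have h1 : 1 ≤ (Win.uc x).card := by
    rw [Wd.uc_card_nab h.g.H (by omega)]
    exact one_le_nab (by omega)
  rcases (show (Win.uc x).card = 1 ∨ (Win.uc x).card = 2 by omega) with h3 | h3
  · rcases sd_single h.g le_rfl C T.S hl hx h3 with ⟨h4, h5⟩ | ⟨-, h5⟩
    · rw [T.co_eq x hm, h5]
      unfold ccoord
      have hh : (0 : ℕ) ≤ hi 6 := Nat.zero_le _
      rw [scoord_e C le_rfl (by omega) hh, C.lev_e 6 0 le_rfl (by omega) hh]
    · exfalso
      rw [h5] at hp
      exact fold_pen h C T.S T.h3 hp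
  · exfalso
    obtain ⟨h4, -⟩ := sd_stair_pen h le_rfl C T.S hl hx h3 hp
    rw [← T.co_eq x hm] at h4
    have := (T.mem hx hl).2.1
    omega

/-- **the costs of a stair-like component.** -/
theorem StR.c7 (T : StR t lo hi e Nc co) (h : Wd.NJ P r 6) (C : Cp.Comp 6 (t : P) lo hi e)
    {z : P} (hz : z ≤ (t : P)) (hl : lev z = 7) {k : ℕ}
    (hk : ∃ x, z ⋖ x ∧ k = thS 3 Nc co x + 1) :
    13 ≤ cK k z ∨ ((∃ x, Pend z x) ∧ 10 ≤ cK k z) := by
  classical
  obtain ⟨x, hzx, rfl⟩ := hk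
  obtain ⟨hxt, hxl, -⟩ := cov7 h C hz hl hzx
  obtain ⟨hxN, hlc, hS⟩ := T.mem hxt hxl
  have C' := T.R.chart
  obtain ⟨o4, o5, o6⟩ := one7 hl
  by_cases hp : ∀ y, z ⋖ y → y = x
  · right
    refine ⟨⟨x, hzx, hp⟩, ?_⟩
    have h3 : 3 ≤ thS 3 Nc co x := by
      have h4 := thS6 (Nc := Nc) (co := co) hxl
      rw [T.pend h C hxt hxl ⟨hzx, hp⟩] at h4
      simp only at h4
      omega
    have h5 := cK_ge (k := 4) hl o4 o5 o6
    have h6 := cK_le (k := 4) (k' := thS 3 Nc co x + 1) (by omega) z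
    norm_num at h5
    omega
  left
  push Not at hp
  obtain ⟨y, hzy, hyx⟩ := hp
  obtain ⟨hyt, hyl, -⟩ := cov7 h C hz hl hzy
  obtain ⟨hyN, hyc, hyS⟩ := T.mem hyt hyl
  have n6 : 2 ≤ nab 6 z := two_le_nab hzx.1.le hzy.1.le hxl hyl (Ne.symm hyx)
  rcases Nat.lt_or_ge (thS 3 Nc co x) 3 with h3 | h3
  swap
  · have h5 := cK_ge (k := 4) hl o4 o5 n6
    have h6 := cK_le (k := 4) (k' := thS 3 Nc co x + 1) (by omega) z
    norm_num at h5
    omega
  have h4 := (thS6 (Nc := Nc) (co := co) hxl).resolve_left (by omega)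
  have g4 : nab 4 x + (4 - (co x).2) = min (4 / 2) (co x).1 + 1 := by
    rw [nab_chart C' hxN 4]
    exact card_cellsAt_shift hS (by omega)
  have g5 : nab 5 x + (5 - (co x).2) = min (5 / 2) (co x).1 + 1 := by
    rw [nab_chart C' hxN 5]
    exact card_cellsAt_shift hS (by omega)
  norm_num at g4 g5
  have m4 := nab_mono (l := 4) hzx.1.le
  have m5 := nab_mono (l := 5) hzx.1.le
  have h5 : thS 3 Nc co x = 1 ∨ thS 3 Nc co x = 2 := by omega
  rcases h5 with h5 | h5
  · -- next to the fold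
    have h6 : 3 ≤ nab 4 z ∧ 2 ≤ nab 5 z := by
      rcases (show (co x).1 = 2 ∨ (co x).1 = 3 by omega) with h7 | h7
      · omega
      · -- the fold end
        have hc : co x = (3, 3) := Prod.ext h7 (by simp only; omega)
        have hcy : 4 ≤ (co y).2 := by
          by_contra hcon
          exact hyx (C'.inj y hyN x hxN (by
            rw [hc]
            exact Prod.ext (by simp only; omega) (by simp only; omega)))
        have key : ∀ l, 4 ≤ l → l ≤ 5 → nab l x + 1 ≤ nab l z := by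
          intro l l4 l5
          obtain ⟨u, hu, hcu⟩ := C'.low y hyN (l - min l (co y).2, min l (co y).2)
            ⟨by simp only; omega, by simp only; omega⟩ (by simp only; omega)
          refine nab_extra hzx.1.le (hzy.1.le.trans ((C'.le_iff y hyN u hu).mpr ?_)) ?_ ?_
          · rw [hcu]
            exact ⟨by simp only; omega, by simp only; omega⟩
          · rw [C'.lev u hu, hcu]
            simp only
            omega
          · rw [C'.le_iff x hxN u hu, hcu, hc]
            rintro ⟨-, h8⟩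
            simp only at h8
            omega
        have k4 := key 4 le_rfl (by norm_num)
        have k5 := key 5 (by norm_num) le_rfl
        omega
    have h7 := cK_ge (k := thS 3 Nc co x + 1) hl h6.1 h6.2 n6
    rw [h5] at h7 ⊢
    norm_num at h7 ⊢
    omega
  · have h7 := cK_ge (k := thS 3 Nc co x + 1) (a := 2) (b := 2) (c := 2) hl (by omega)
      (by omega) n6
    rw [h5] at h7 ⊢
    norm_num at h7 ⊢
    omega

/-- a pendant is natural, with a high threshold -/
lemma StR.pend_nat (T : StR t lo hi e Nc co) (h : Wd.NJ P r 6) (C : Cp.Comp 6 (t : P) lo hi e)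
    {y x : P} (hy : y ≤ (t : P)) (hl : lev y = 7) (hp : Pend y x) :
    y ∈ natS Nc co ∧ thS 3 Nc co y = 4 := by
  classical
  have H := h.g.H
  have C' := T.R.chart
  obtain ⟨hxt, hxl, -⟩ := cov7 h C hy hl hp.1
  obtain ⟨hxN, -, -⟩ := T.mem hxt hxl
  have hcx := T.pend h C hxt hxl hp
  unfold thS
  by_cases hj : y ∈ junk (fun c => c.1 ≤ c.2) Nc co
  · rw [if_pos hj, hl]
    exact ⟨mem_natS.mpr (Or.inr hj), rfl⟩
  · rw [if_neg hj]
    by_cases hyN : y ∈ Nc
    · refine ⟨mem_natS.mpr (Or.inl hyN), ?_⟩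
      have h1 := (chart_cov C' H hyN hxN).mp hp.1
      rw [hcx] at h1
      unfold Prd at h1
      simp only at h1
      rcases h1 with h1 | h1
      · exfalso
        obtain ⟨v, hv, hcv⟩ := C'.low y hyN (1, 5) ⟨by simp only; omega, by simp only; omega⟩
          (by norm_num)
        have h2 : y ⋖ v := by
          rw [chart_cov C' H hyN hv, hcv]
          exact Or.inr ⟨by simp only; omega, by simp only; omega⟩
        have h3 := hp.2 v h2
        rw [h3, hcx] at hcv
        exact absurd hcv (by decide)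
      · omega
    · exact (row0_pendant rowS_shift C' T.R.max H hyN hj hxN hp.1 hp.2 (by rw [hcx])
        (by rw [hcx]; norm_num)).elim

end

/-- the chart of a stair -/
lemma exists_StR (h : Wd.NJ P r 6) (C : Cp.Comp 6 (t : P) lo hi e) (S : StairShape 6 lo hi)
    (h3 : lo 3 = 0) : ∃ Nc co, StR t lo hi e Nc co := by
  obtain ⟨Nc, co, R, hco⟩ := exists_stair' C h.g.H h.g.good h.g.H.gradedBelow S (i := 3)
    (by norm_num) h3
  exact ⟨Nc, co, S, h3, R, hco⟩

/-- the pendants of level 7 -/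
noncomputable def Yp (t : Tops P) : Finset P := by
  classical exact univ.filter (fun y => y ≤ (t : P) ∧ lev y = 7 ∧ ∃ x, Pend y x)

lemma mem_Yp {y : P} : y ∈ Yp t ↔ y ≤ (t : P) ∧ lev y = 7 ∧ ∃ x, Pend y x := by
  classical
  unfold Yp
  simp

/-- **stair-like components**, both stages -/
theorem tdStair (h : Wd.NJ P r 6) (C : Cp.Comp 6 (t : P) lo hi e) (S : StairShape 6 lo hi)
    (h3 : lo 3 = 0) (n : ℕ) {m : ℕ} (hm : m ≤ 13) (G : ℕ → P → Prop) :
    ∃ Y θ B, TD6 t (hi 3 - lo 3 + 1) n m Y θ B G := by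
  classical
  obtain ⟨Nc, co, T⟩ := exists_StR h C S h3
  have H := h.g.H
  have hR := T.R.natTop H.gradedBelow (by norm_num) (by norm_num)
  have e3 := S.hi 3 (by norm_num)
  norm_num at e3
  have hsub : ∀ x, x ∈ lowPart 6 (t : P) ∪ Yp t → x ∈ natS Nc co := by
    intro x hx
    rcases mem_union.mp hx with hx | hx
    · exact mem_natS.mpr (Or.inl (T.R.strip hx))
    · obtain ⟨h1, h2, v, hv⟩ := mem_Yp.mp hx
      exact (T.pend_nat h C h1 h2 hv).1
  refine ⟨Yp t, thS 3 Nc co, fun x => x ∈ Nc ∧ co x = (2 * (3 / 2), 3), ?_⟩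
  constructor
  · omega
  · exact fun y hy => (mem_Yp.mp hy).2.1
  · exact fun y hy => (mem_Yp.mp hy).1
  · intro z hz hl hzY k hk _
    left
    rcases T.c7 h C hz hl hk with h2 | ⟨h2, -⟩
    · omega
    · exact absurd (mem_Yp.mpr ⟨hz, hl, h2⟩) hzY
  · intro y hy
    obtain ⟨hyt, hyl, x, hp⟩ := mem_Yp.mp hy
    obtain ⟨o4, o5, o6⟩ := one7 hyl
    rw [(T.pend_nat h C hyt hyl hp).2]
    have h4 := cK_ge (k := 4 + 1) hyl o4 o5 o6
    norm_num at h4 ⊢
    omega
  · intro N HN hlow hN θ' B' hθ hB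
    have h4 := compL_nat (n0 := n) HN hR (fun x hx => hsub x (by rw [← hN]; exact hx)) ?_ hθ hB
    · have h5 : hi 3 - lo 3 + 1 = 3 / 2 + 1 := by
        rw [e3, h3]
      rw [h5]
      exact h4
    · rintro x - ⟨hx, hcx⟩
      rw [hN, mem_union, mem_lowPart]
      refine Or.inl ⟨T.R.chart.le_t x hx, ?_⟩
      rw [T.R.chart.lev x hx, hcx]
      norm_num

end Pool.Agent.GaussPoset.J6
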