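import Pool.Agent.W_448j6_h22.KaD
import Pool.Agent.W_448j10_h67.JbD
import Pool.Agent.W_448cl_h67.ClM

/-!
Level 6: the late words with two elements on the level 3, coded (MP_448cb3_co, `j = 6`).
-/

namespace Pool.Agent.GaussPoset.J6

set_option linter.unusedSectionVars false

open Polynomial Finset Dd J8 J10 Wd Cl

universe u

/-- the words of level 6 -/
def wE : List Ltr := [OC, CO, CO]

/-- the words of level 6 -/
def wA : List Ltr := [OC, OO, CO]

/-- the words of level 6 -/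
def wB : List Ltr := [OC, OO, OO]

lemma late6_words : ∀ w ∈ lateW 3, w.length = 3 → w = wE ∨ w = wA ∨ w = wB := by
  decide +kernel

/-! ### a coded strip, the cells in any order -/

/-- the check of a strip with `n` cells, levels at most `J` -/
def stChk (n J : ℕ) (los his ll sl cv : ℕ → ℕ) : Bool :=
  ((List.range n).all fun a => (List.range n).all fun b => (cv a).testBit b ==
    (Nat.beq (ll b + 1) (ll a) && (Nat.beq (sl b) (sl a) || Nat.beq (sl b + 1) (sl a)))) &&
  ((List.range n).all fun a => (List.range n).all fun b =>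
    !(Nat.beq (ll a) (ll b) && Nat.beq (sl a) (sl b)) || Nat.beq a b) &&
  ((List.range n).all fun a => Nat.ble (ll a) J && Nat.ble (los (ll a)) (sl a) &&
    Nat.ble (sl a) (his (ll a))) &&
  ((List.range (J + 1)).all fun k => (List.range (his k + 1)).all fun s => Nat.blt s (los k) ||
    (List.range n).any fun a => Nat.beq (ll a) k && Nat.beq (sl a) s)

section

variable {P : Type u} [Fintype P] [PartialOrder P] [DecidableEq P]
variable {r j n : ℕ} {t : P} {lo hi : ℕ → ℕ} {e : ℕ → ℕ → P}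
variable {los his ll sl cv : ℕ → ℕ}

/-- the strip of a component is coded -/
theorem st_cod (h : stChk n j los his ll sl cv = true) (C : Cp.Comp j t lo hi e) (H : Gr P r)
    (hg : ∀ l, l < j → Win.Good P l) (ht : lev t = 0)
    (hlo : ∀ k, k ≤ j → lo k = los k) (hhi : ∀ k, k ≤ j → hi k = his k) :
    Cod n cv ll (fun a => e (ll a) (sl a)) ∧
      ∀ x, x ∈ lowPart j t ↔ ∃ a < n, e (ll a) (sl a) = x := by
  unfold stChk at h
  simp only [Bool.and_eq_true, List.all_eq_true, List.mem_range] at h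
  obtain ⟨⟨⟨h1, h2⟩, h3⟩, h4⟩ := h
  have hlev : ∀ a < n, ll a ≤ j := fun a ha => ble_iff.mp (h3 a ha).1.1
  have hrow : ∀ a < n, lo (ll a) ≤ sl a ∧ sl a ≤ hi (ll a) := fun a ha => by
    rw [hlo _ (hlev a ha), hhi _ (hlev a ha)]
    exact ⟨ble_iff.mp (h3 a ha).1.2, ble_iff.mp (h3 a ha).2⟩
  have hl : ∀ a < n, GaussPoset.lev (e (ll a) (sl a)) = ll a := fun a ha =>
    C.lev_e _ _ (hlev a ha) (hrow a ha).1 (hrow a ha).2
  have hcov : ∀ a < n, ∀ b < n, (cv a).testBit b = true ↔
      (ll b + 1 = ll a ∧ (sl b = sl a ∨ sl b + 1 = sl a)) := by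
    intro a ha b hb
    have := h1 a ha b hb
    rw [beq_iff_eq] at this
    rw [this, Bool.and_eq_true, Bool.or_eq_true, beq_iff, beq_iff, beq_iff]
  have hsurj : ∀ k ≤ j, ∀ s, los k ≤ s → s ≤ his k → ∃ a < n, ll a = k ∧ sl a = s := by
    intro k hk s hs1 hs2
    have := h4 k (by omega) s (by omega)
    rw [Bool.or_eq_true, List.any_eq_true] at this
    rcases this with h7 | ⟨a, ha, h7⟩
    · rw [Nat.blt_eq] at h7
      omega
    · rw [Bool.and_eq_true, beq_iff, beq_iff] at h7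
      exact ⟨a, List.mem_range.mp ha, h7.1, h7.2⟩
  refine ⟨⟨?_, ?_, hl⟩, ?_⟩
  · intro a ha b hb hab
    have e1 : ll a = ll b := by
      rw [← hl a ha, ← hl b hb]
      exact congrArg GaussPoset.lev hab
    have h5 := hrow a ha
    have h6 := hrow b hb
    have h7 := hlev b hb
    have e2 : sl a = sl b := by
      rw [e1] at h5
      refine C.inj (ll b) _ _ h7 h5.1 h5.2 h6.1 h6.2 ?_
      have hab' : e (ll a) (sl a) = e (ll b) (sl b) := hab
      rwa [e1] at hab'
    have := h2 a ha b hb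
    rw [beq_iff.mpr e1, beq_iff.mpr e2] at this
    exact beq_iff.mp (by simpa using this)
  · intro a ha y
    have h5 := hrow a ha
    have h6 := hlev a ha
    constructor
    · intro hy
      have h0 : 1 ≤ ll a := by
        rw [← hl a ha]
        have := lev_strictAnti hy.1
        omega
      obtain ⟨k, hk⟩ : ∃ k, ll a = k + 1 := ⟨ll a - 1, by omega⟩
      rw [hk] at hy h5
      obtain ⟨s', g1, g2, g3, g4⟩ := C.cov_up H hg ht (by omega) h5.1 h5.2 hy
      obtain ⟨b, hb, g5, g6⟩ := hsurj k (by omega) s' (by rw [← hlo k (by omega)]; exact g1)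
        (by rw [← hhi k (by omega)]; exact g2)
      refine ⟨b, hb, ?_, ?_⟩
      · rw [hcov a ha b hb]
        omega
      · rw [g5, g6, g3]
    · rintro ⟨b, hb, g1, rfl⟩
      rw [hcov a ha b hb] at g1
      have g2 := hrow b hb
      have g3 := C.cov (ll b) (sl a) (sl b) (by omega) (by rw [g1.1]; exact h5.1)
        (by rw [g1.1]; exact h5.2) g2.1 g2.2
      rw [g1.1] at g3
      exact g3.mpr g1.2
  · intro x
    constructor
    · intro hx
      rw [mem_lowPart] at hx
      obtain ⟨s, g1, g2, g3⟩ := C.surj x hx.1 hx.2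
      obtain ⟨a, ha, g4, g5⟩ := hsurj (GaussPoset.lev x) hx.2 s (by rw [← hlo _ hx.2]; exact g1)
        (by rw [← hhi _ hx.2]; exact g2)
      exact ⟨a, ha, by rw [g4, g5, g3]⟩
    · rintro ⟨a, ha, rfl⟩
      rw [mem_lowPart, hl a ha]
      exact ⟨C.le_t _ _ (hlev a ha) (hrow a ha).1 (hrow a ha).2, hlev a ha⟩

end

/-! ### the three words -/

/-- the levels of the cells -/
def Wlv : List ℕ := [0, 1, 2, 3, 3, 4, 4, 5, 5, 6, 6, 5, 6, 6]

/-- the coordinates of the cells -/
def Wsl : List ℕ := [0, 0, 0, 0, 1, 0, 1, 1, 2, 2, 3, 0, 1, 0]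

/-- the covers of the cells -/
def Wcv : List ℕ := [0, 1, 2, 4, 4, 8, 24, 96, 64, 384, 256, 32, 2176, 2048]

/-- the cells above -/
def Wum : List ℕ := [1, 3, 7, 15, 23, 47, 95, 255, 351, 1023, 1375, 2095, 6399, 10287]

/-- the left ends -/
def Wlo (n : ℕ) : List ℕ :=
  if n = 11 then [0, 0, 0, 0, 0, 1, 2] else if n = 13 then [0, 0, 0, 0, 0, 0, 1] else
    [0, 0, 0, 0, 0, 0, 0]

/-- the right ends -/
def Whi : List ℕ := [0, 0, 0, 1, 1, 2, 3]

/-- the rows of the word with `n` cells -/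
structure Rw (n : ℕ) (lo hi : ℕ → ℕ) : Prop where
  hn : n = 11 ∨ n = 13 ∨ n = 14
  hlo : ∀ k, k ≤ 6 → lo k = (Wlo n).getD k 0
  hhi : ∀ k, k ≤ 6 → hi k = Whi.getD k 0

/-- the cells -/
def cW {P : Type u} (e : ℕ → ℕ → P) (a : ℕ) : P := e (Wlv.getD a 0) (Wsl.getD a 0)

section

variable {P : Type u} [Fintype P] [PartialOrder P] [DecidableEq P]
variable {r n : ℕ} {t : Tops P} {lo hi : ℕ → ℕ} {e : ℕ → ℕ → P}

lemma rows_tab : ∀ p ∈ [(11, wE), (13, wA), (14, wB)], ∀ k < 7,
    losW 3 p.2 k = (Wlo p.1).getD k 0 ∧ hisW 3 p.2 k = Whi.getD k 0 := by decide +kernel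

/-- the rows of a late word -/
theorem exists_rw (C : Cp.Comp 6 (t : P) lo hi e) (h2 : ∀ k, k < 3 → lo k = 0 ∧ hi k = 0)
    (h3 : lo 3 = 0 ∧ hi 3 = 1) (h4 : word lo hi 3 (6 - 3) ∈ lateW 3) : ∃ n, Rw n lo hi := by
  have key : ∀ n w, (n, w) ∈ [(11, wE), (13, wA), (14, wB)] → word lo hi 3 (6 - 3) = w →
      ∃ n, Rw n lo hi := by
    intro n w hp hw
    have hl : w.length = 3 := by rw [← hw, word_length]
    have D : WordD 6 3 w lo hi := ⟨h2, h3, by rw [hw, show 6 - 3 = w.length by omega,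
      List.take_length]⟩
    obtain ⟨r1, r2⟩ := D.rows C
    refine ⟨n, ?_, ?_, ?_⟩
    · simp only [List.mem_cons, Prod.mk.injEq, List.not_mem_nil, or_false] at hp
      omega
    · intro k hk
      rw [r1 k hk]
      exact (rows_tab (n, w) hp k (by omega)).1
    · intro k hk
      rw [r2 k hk]
      exact (rows_tab (n, w) hp k (by omega)).2
  rcases late6_words _ h4 (by rw [word_length]) with h5 | h5 | h5
  · exact key 11 wE (by simp) h5
  · exact key 13 wA (by simp) h5
  · exact key 14 wB (by simp) h5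

lemma st_tab : ∀ n ∈ [11, 13, 14], stChk n 6 (fun k => (Wlo n).getD k 0)
    (fun k => Whi.getD k 0) (fun a => Wlv.getD a 0) (fun a => Wsl.getD a 0)
    (fun a => Wcv.getD a 0) = true := by decide +kernel

lemma Rw.mem (R : Rw n lo hi) : n ∈ [11, 13, 14] := by
  rcases R.hn with h | h | h <;> rw [h] <;> simp

/-- the strip is coded -/
theorem Rw.cod (R : Rw n lo hi) (h : Wd.NJ P r 6) (C : Cp.Comp 6 (t : P) lo hi e) :
    Cod n (fun a => Wcv.getD a 0) (fun a => Wlv.getD a 0) (cW e) ∧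
      ∀ x, x ∈ lowPart 6 (t : P) ↔ ∃ a < n, cW e a = x :=
  st_cod (st_tab n R.mem) C h.g.H h.g.good t.2 R.hlo R.hhi

end

end Pool.Agent.GaussPoset.J6
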