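import Pool.Agent.W_448j6_h22.KaJ

/-!
Level 6: the elements of level 7 below a late word, their masks (MP_448cb3_co, `j = 6`).
-/

namespace Pool.Agent.GaussPoset.J6

set_option linter.unusedSectionVars false

open Polynomial Finset Dd J8 J10 Wd Cl

universe u

section

variable {P : Type u} [Fintype P] [PartialOrder P] [DecidableEq P]
variable {N J0 : ℕ} {cv lv um : ℕ → ℕ} {c : ℕ → P}

/-- the number of elements of a level above an element whose covers are coded -/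
theorem nab_of (C : CodM N J0 cv lv c) (hcv : ∀ a < N, cv a < 2 ^ a)
    (hum : ∀ a < N, um a = Nat.lor (2 ^ a) (orM um N (cv a))) {z : P} {m : ℕ}
    (hm : Sm m J0) (hz : Cvs c m z) {l : ℕ} (hl : l < GaussPoset.lev z) :
    nab l z = ((range N).filter (fun b => ((orM um N m).testBit b = true ∧
      J0.testBit b = true) ∧ lv b = l)).card := by
  classical
  have hlt : ∀ y, z < y ↔ ∃ b, ((orM um N m).testBit b = true ∧ J0.testBit b = true) ∧
      c b = y := by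
    intro y
    constructor
    · intro h
      obtain ⟨v, hv, hvy⟩ := Hul.exists_cov h
      obtain ⟨a, hab, rfl⟩ := (hz v).mp hv
      obtain ⟨b, hb, rfl⟩ := C.above (hm a hab) hvy
      exact ⟨b, ⟨(orM_testBit _ _ _ _).mpr ⟨a, bit_lt C.lt (hm a hab), hab,
        (C.le_iff hcv hum (hm a hab) hb).mp hvy⟩, hb⟩, rfl⟩
    · rintro ⟨b, ⟨hbit, hb⟩, rfl⟩
      obtain ⟨a, ha, hab, h1⟩ := (orM_testBit _ _ _ _).mp hbit
      exact ((hz (c a)).mpr ⟨a, hab, rfl⟩).lt.trans_le ((C.le_iff hcv hum (hm a hab) hb).mpr h1)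
  unfold nab
  symm
  refine Finset.card_bij (fun b _ => c b) ?_ ?_ ?_
  · intro b hb
    rw [mem_filter, mem_range] at hb
    rw [mem_filter, mem_lv, C.lev b hb.2.1.2]
    exact ⟨hb.2.2, ((hlt _).mpr ⟨b, hb.2.1, rfl⟩).le⟩
  · intro b hb b' hb' h
    rw [mem_filter, mem_range] at hb hb'
    exact C.inj b hb.2.1.2 b' hb'.2.1.2 h
  · intro y hy
    rw [mem_filter, mem_lv] at hy
    have hne : z < y := lt_of_le_of_ne hy.2 (by
      rintro rfl
      omega)
    obtain ⟨b, hb, rfl⟩ := (hlt y).mp hne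
    refine ⟨b, mem_filter.mpr ⟨mem_range.mpr (bit_lt C.lt hb.2), hb, ?_⟩, rfl⟩
    rw [← C.lev b hb.2]
    exact hy.1

end

/-- the number of cells of the level `l` above the cells of `μ` -/
def cn (n μ l : ℕ) : ℕ :=
  ((range 14).filter (fun b => ((orM (fun a => Wum.getD a 0) 14 μ).testBit b = true ∧
    (2 ^ n - 1).testBit b = true) ∧ Wlv.getD b 0 = l)).card

/-- the cost of an element of level 7 with the mask `μ` and the label `k` -/
def cc (k n μ : ℕ) : ℕ :=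
  min k 1 * cn n μ 4 + min k 2 * cn n μ 5 + min k 3 * cn n μ 6 + min k 4

/-- the masks of the possible elements of level 7 -/
def mL (n : ℕ) : List ℕ :=
  if n = 11 then [1024, 512, 1536] else if n = 13 then [1024, 512, 4096, 1536, 4608] else
    [1024, 512, 4096, 8192, 1536, 4608, 12288, 9216]

section

variable {P : Type u} [Fintype P] [PartialOrder P] [DecidableEq P]
variable {r n : ℕ} {t : Tops P} {lo hi : ℕ → ℕ} {e : ℕ → ℕ → P}

lemma W_lt : ∀ a < 14, Wcv.getD a 0 < 2 ^ a := by decide +kernel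

lemma W_um : ∀ a < 14, Wum.getD a 0 =
    Nat.lor (2 ^ a) (orM (fun a => Wum.getD a 0) 14 (Wcv.getD a 0)) := by decide +kernel

lemma Rw.le14 (R : Rw n lo hi) : n ≤ 14 := by
  rcases R.hn with h | h | h <;> omega

lemma Rw.ge11 (R : Rw n lo hi) : 11 ≤ n := by
  rcases R.hn with h | h | h <;> omega

/-- the code of the strip -/
theorem Rw.base (R : Rw n lo hi) (h : Wd.NJ P r 6) (C : Cp.Comp 6 (t : P) lo hi e) :
    CodM 14 (2 ^ n - 1) (fun a => Wcv.getD a 0) (fun a => Wlv.getD a 0) (cW e) := by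
  obtain ⟨h1, h2⟩ := R.cod h C
  exact (Cx.ofCod h1 R.le14 (fun _ _ => rfl) (fun _ _ => rfl)
    (fun a ha => W_lt a (by have := R.le14; omega)) h2).cod

lemma two_bit {n a : ℕ} : (2 ^ n - 1).testBit a = true ↔ a < n := by
  rw [Nat.testBit_two_pow_sub_one]
  simp

lemma sm_lt {μ n : ℕ} (h : μ < 2 ^ n) : Sm μ (2 ^ n - 1) := fun a ha =>
  two_bit.mpr (bit_lt h ha)

/-- the numbers of elements above an element with the mask `μ` -/
theorem Rw.nab (R : Rw n lo hi) (h : Wd.NJ P r 6) (C : Cp.Comp 6 (t : P) lo hi e) {z : P}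
    {μ : ℕ} (hl : lev z = 7) (hμ : μ < 2 ^ n) (hz : Cvs (cW e) μ z) {l : ℕ} (h6 : l ≤ 6) :
    GaussPoset.nab l z = cn n μ l :=
  nab_of (R.base h C) W_lt W_um (sm_lt hμ) hz (by omega)

/-- the cost of an element with the mask `μ` -/
theorem Rw.cost (R : Rw n lo hi) (h : Wd.NJ P r 6) (C : Cp.Comp 6 (t : P) lo hi e) {z : P}
    {μ : ℕ} (hl : lev z = 7) (hμ : μ < 2 ^ n) (hz : Cvs (cW e) μ z) (k : ℕ) :
    cK k z = cc k n μ := by
  have h7 : GaussPoset.nab 7 z = 1 := by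
    have := nab_self (z := z)
    rwa [hl] at this
  unfold cK cc
  rw [R.nab h C hl hμ hz (by norm_num), R.nab h C hl hμ hz (by norm_num),
    R.nab h C hl hμ hz le_rfl, h7, Nat.mul_one]

/-- the mask of a pendant -/
lemma cvs_one {z : P} {a : ℕ} (hz : Pend z (cW e a)) : Cvs (cW e) (2 ^ a) z := by
  intro y
  constructor
  · intro hy
    exact ⟨a, Nat.testBit_two_pow_self, (hz.2 y hy).symm⟩
  · rintro ⟨b, hb, rfl⟩
    have h5 : a = b := by
      by_contra hne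
      rw [Nat.testBit_two_pow_of_ne hne] at hb
      exact absurd hb (by simp)
    rw [← h5]
    exact hz.1

/-- the mask of an element with two covers -/
lemma cvs_two {z : P} {a b : ℕ} (ha : z ⋖ cW e a) (hb : z ⋖ cW e b)
    (h : ∀ y, z ⋖ y → y = cW e a ∨ y = cW e b) : Cvs (cW e) (Nat.lor (2 ^ a) (2 ^ b)) z := by
  intro y
  constructor
  · intro hy
    rcases h y hy with h1 | h1
    · exact ⟨a, bit_lor.mpr (Or.inl Nat.testBit_two_pow_self), h1.symm⟩
    · exact ⟨b, bit_lor.mpr (Or.inr rfl), h1.symm⟩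
  · rintro ⟨d, hd, rfl⟩
    rcases bit_lor.mp hd with h1 | h1
    · have h5 : a = d := by
        by_contra hne
        rw [Nat.testBit_two_pow_of_ne hne] at h1
        exact absurd h1 (by simp)
      rw [← h5]
      exact ha
    · rw [h1]
      exact hb

lemma cW13 : cW e 13 = e 6 0 := rfl

lemma cW12 : cW e 12 = e 6 1 := rfl

lemma cW9 : cW e 9 = e 6 2 := rfl

lemma cW10 : cW e 10 = e 6 3 := rfl

/-- the values of the rows -/
lemma Rw.vals (R : Rw n lo hi) : hi 5 = 2 ∧ hi 6 = 3 ∧ ((n = 11 ∧ lo 5 = 1 ∧ lo 6 = 2) ∨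
    (n = 13 ∧ lo 5 = 0 ∧ lo 6 = 1) ∨ (n = 14 ∧ lo 5 = 0 ∧ lo 6 = 0)) := by
  refine ⟨R.hhi 5 (by norm_num), R.hhi 6 le_rfl, ?_⟩
  have l5 := R.hlo 5 (by norm_num)
  have l6 := R.hlo 6 le_rfl
  rcases R.hn with h | h | h
  · left
    rw [h] at l5 l6
    exact ⟨h, l5, l6⟩
  · right; left
    rw [h] at l5 l6
    exact ⟨h, l5, l6⟩
  · right; right
    rw [h] at l5 l6
    exact ⟨h, l5, l6⟩

/-- **The masks of the elements of level 7.** -/
theorem Rw.mask (R : Rw n lo hi) (h : Wd.NJ P r 6) (C : Cp.Comp 6 (t : P) lo hi e) {z : P}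
    (hz : z ≤ (t : P)) (hl : lev z = 7) : ∃ μ ∈ mL n, Cvs (cW e) μ z := by
  obtain ⟨v5, v6, hv⟩ := R.vals
  rcases own7 h C hz hl with ⟨s, s1, s2, hp⟩ | ⟨a, b, a1, a2, a3, ha, hb, hab, hc⟩
  · have key : ∀ k, cW e k = e 6 s → Cvs (cW e) (2 ^ k) z := fun k hk => by
      rw [← hk] at hp
      exact cvs_one hp
    rcases (show s = 0 ∨ s = 1 ∨ s = 2 ∨ s = 3 by omega) with rfl | rfl | rfl | rfl
    · rcases hv with ⟨-, -, h6⟩ | ⟨-, -, h6⟩ | ⟨hn, -, h6⟩
      · omega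
      · omega
      · exact ⟨8192, by rw [hn]; decide, key 13 cW13⟩
    · rcases hv with ⟨-, -, h6⟩ | ⟨hn, -, h6⟩ | ⟨hn, -, h6⟩
      · omega
      · exact ⟨4096, by rw [hn]; decide, key 12 cW12⟩
      · exact ⟨4096, by rw [hn]; decide, key 12 cW12⟩
    · rcases hv with ⟨hn, -, h6⟩ | ⟨hn, -, h6⟩ | ⟨hn, -, h6⟩
      · exact ⟨512, by rw [hn]; decide, key 9 cW9⟩
      · exact ⟨512, by rw [hn]; decide, key 9 cW9⟩
      · exact ⟨512, by rw [hn]; decide, key 9 cW9⟩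
    · rcases hv with ⟨hn, -, h6⟩ | ⟨hn, -, h6⟩ | ⟨hn, -, h6⟩
      · exact ⟨1024, by rw [hn]; decide, key 10 cW10⟩
      · exact ⟨1024, by rw [hn]; decide, key 10 cW10⟩
      · exact ⟨1024, by rw [hn]; decide, key 10 cW10⟩
  · have key : ∀ k k', cW e k = e 6 a → cW e k' = e 6 b →
        Cvs (cW e) (Nat.lor (2 ^ k) (2 ^ k')) z := fun k k' hk hk' => by
      rw [← hk] at ha hab
      rw [← hk'] at hb hab
      exact cvs_two ha hb hab
    have h02 : ¬ (a = 0 ∧ b = 2) := by omega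
    have h13 : ¬ (a = 1 ∧ b = 3) := by
      rintro ⟨rfl, rfl⟩
      rcases hc with hc | ⟨hc1, -, hc2, -⟩
      · omega
      · have h6 : lo 5 = 0 := by omega
        have h7 : (Win.uc (e 6 1)).card = 2 := double6 h C a1 (by omega) (by omega) (by omega)
        rw [← hc1] at hc2
        omega
    rcases (show (a = 0 ∧ b = 1) ∨ (a = 1 ∧ b = 2) ∨ (a = 2 ∧ b = 3) ∨ (a = 0 ∧ b = 3) by omega)
      with ⟨rfl, rfl⟩ | ⟨rfl, rfl⟩ | ⟨rfl, rfl⟩ | ⟨rfl, rfl⟩
    · rcases hv with ⟨-, -, h6⟩ | ⟨-, -, h6⟩ | ⟨hn, -, h6⟩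
      · omega
      · omega
      · exact ⟨12288, by rw [hn]; decide, key 13 12 cW13 cW12⟩
    · rcases hv with ⟨-, -, h6⟩ | ⟨hn, -, h6⟩ | ⟨hn, -, h6⟩
      · omega
      · exact ⟨4608, by rw [hn]; decide, key 12 9 cW12 cW9⟩
      · exact ⟨4608, by rw [hn]; decide, key 12 9 cW12 cW9⟩
    · rcases hv with ⟨hn, -, h6⟩ | ⟨hn, -, h6⟩ | ⟨hn, -, h6⟩
      · exact ⟨1536, by rw [hn]; decide, key 9 10 cW9 cW10⟩
      · exact ⟨1536, by rw [hn]; decide, key 9 10 cW9 cW10⟩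
      · exact ⟨1536, by rw [hn]; decide, key 9 10 cW9 cW10⟩
    · rcases hv with ⟨-, -, h6⟩ | ⟨-, -, h6⟩ | ⟨hn, -, h6⟩
      · omega
      · omega
      · exact ⟨9216, by rw [hn]; decide, key 13 10 cW13 cW10⟩

lemma mL_lt : ∀ n ∈ [11, 13, 14], ∀ μ ∈ mL n, μ < 2 ^ n := by decide +kernel

/-- the masks determine the elements above -/
lemma cvs_inj (R : Rw n lo hi) (h : Wd.NJ P r 6) (C : Cp.Comp 6 (t : P) lo hi e) {z : P}
    {μ μ' : ℕ} (h1 : μ < 2 ^ n) (h2 : μ' < 2 ^ n) (hz : Cvs (cW e) μ z)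
    (hz' : Cvs (cW e) μ' z) : μ = μ' := by
  have key : ∀ μ μ', μ < 2 ^ n → μ' < 2 ^ n → Cvs (cW e) μ z → Cvs (cW e) μ' z → ∀ a,
      μ.testBit a = true → μ'.testBit a = true := by
    intro μ μ' h1 h2 hz hz' a ha
    obtain ⟨b, hb, hab⟩ := (hz' _).mp ((hz _).mpr ⟨a, ha, rfl⟩)
    have := (R.base h C).inj b (sm_lt h2 b hb) a (sm_lt h1 a ha) hab
    rw [← this]
    exact hb
  refine Nat.eq_of_testBit_eq fun a => ?_
  rw [Bool.eq_iff_iff]
  exact ⟨key μ μ' h1 h2 hz hz' a, key μ' μ h2 h1 hz' hz a⟩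

end

end Pool.Agent.GaussPoset.J6
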