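import Pool.Agent.W_448j6_h22.KaK

/-!
Level 6: the words with elements of level 7, coded (MP_448cb3_co, `j = 6`).
-/

namespace Pool.Agent.GaussPoset.J6

set_option linter.unusedSectionVars false

open Polynomial Finset Dd J8 J10 Wd Cl Sg

universe u

section

variable {P : Type u} [Fintype P] [PartialOrder P] [DecidableEq P]
variable {r n : ℕ} {t : Tops P} {lo hi : ℕ → ℕ} {e : ℕ → ℕ → P}

/-- the elements of level 7 with the mask `μ` -/
noncomputable def tY (n : ℕ) (e : ℕ → ℕ → P) (μ : ℕ) : Finset P := by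
  classical exact univ.filter (fun z => lev z = 7 ∧ μ < 2 ^ n ∧ Cvs (cW e) μ z)

lemma mem_tY {μ : ℕ} {z : P} : z ∈ tY n e μ ↔ lev z = 7 ∧ μ < 2 ^ n ∧ Cvs (cW e) μ z := by
  classical
  unfold tY
  simp

lemma tY_card (H : Gr P r) {μ a : ℕ} (ha : μ.testBit a = true) : (tY n e μ).card ≤ 2 := by
  classical
  refine (Finset.card_le_card ?_).trans (Win.dc_card_le H (cW e a))
  intro z hz
  rw [Win.mem_dc]
  exact ((mem_tY.mp hz).2.2 _).mpr ⟨a, ha, rfl⟩

/-- the natural elements of level 7 -/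
noncomputable def YW (n : ℕ) (e : ℕ → ℕ → P) (m1 m2 m3 : ℕ) : Finset P :=
  tY n e m1 ∪ (tY n e m2 ∪ tY n e m3)

lemma mem_YW {m1 m2 m3 : ℕ} {z : P} : z ∈ YW n e m1 m2 m3 ↔ ∃ μ, (μ = m1 ∨ μ = m2 ∨ μ = m3) ∧
    z ∈ tY n e μ := by
  unfold YW
  rw [mem_union, mem_union]
  constructor
  · rintro (h | h | h)
    · exact ⟨m1, Or.inl rfl, h⟩
    · exact ⟨m2, Or.inr (Or.inl rfl), h⟩
    · exact ⟨m3, Or.inr (Or.inr rfl), h⟩
  · rintro ⟨μ, rfl | rfl | rfl, h⟩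
    · exact Or.inl h
    · exact Or.inr (Or.inl h)
    · exact Or.inr (Or.inr h)

/-- the code of a stage extends the code of the strip -/
structure Stg (cv lv : ℕ → ℕ) (m1 m2 m3 : ℕ) : Prop where
  cv0 : ∀ a < 14, cv a = Wcv.getD a 0
  lv0 : ∀ a < 14, lv a = Wlv.getD a 0
  c1 : cv 14 = m1 ∧ cv 15 = m1
  c2 : cv 16 = m2 ∧ cv 17 = m2
  c3 : cv 18 = m3 ∧ cv 19 = m3
  l7 : lv 14 = 7 ∧ lv 15 = 7 ∧ lv 16 = 7 ∧ lv 17 = 7 ∧ lv 18 = 7 ∧ lv 19 = 7
  ne : m1 ≠ m2 ∧ m1 ≠ m3 ∧ m2 ≠ m3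
  lt : m1 < 2 ^ 14 ∧ m2 < 2 ^ 14 ∧ m3 < 2 ^ 14
  ex : (∃ a, m1.testBit a = true) ∧ (∃ a, m2.testBit a = true) ∧ ∃ a, m3.testBit a = true

variable {cv lv um th : ℕ → ℕ} {m1 m2 m3 : ℕ}

/-- one type of cells is added -/
theorem insT {J : ℕ} {c : ℕ → P} {S : Finset P} (C : Cx 20 J cv lv c S) (H : Gr P r)
    (hJ : ∀ a < n, J.testBit a = true) (hc : ∀ a < n, c a = cW e a) {k k' μ : ℕ}
    (hk : k < 20) (hk' : k' < 20) (hne : k ≠ k') (hkJ : J.testBit k = false)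
    (hkJ' : J.testBit k' = false) (hm : cv k = μ) (hm' : cv k' = μ) (hl : lv k = 7)
    (hl' : lv k' = 7) (ha : ∃ a, μ.testBit a = true) (hS : ∀ z ∈ tY n e μ, z ∉ S) :
    ∃ (c' : ℕ → P) (J' : ℕ), (∀ a, J.testBit a = true → c' a = c a) ∧
      Cx 20 J' cv lv c' (S ∪ tY n e μ) ∧ (∀ a, J.testBit a = true → J'.testBit a = true) ∧
      ∀ a, J'.testBit a = true → J.testBit a = true ∨ a = k ∨ a = k' := by
  classical
  by_cases hμ : μ < 2 ^ n
  · obtain ⟨a, ha⟩ := ha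
    obtain ⟨c', J', h1, h2, h3⟩ := C.ins2 hk hk' hne hkJ hkJ' hm hm' hl hl'
      (fun a ha => hJ a (bit_lt hμ ha)) (T := tY n e μ) (tY_card H ha) hS
      (fun z hz => ⟨(mem_tY.mp hz).1, (mem_tY.mp hz).2.2.congr fun a ha => hc a (bit_lt hμ ha)⟩)
    refine ⟨c', J', h1, h2, ?_, ?_⟩
    · intro a ha
      rcases h3 with ⟨-, h3⟩ | ⟨z, -, h3, -⟩ | ⟨z, z', -, -, h3, -⟩
      · rw [h3]; exact ha
      · rw [h3]; exact bit_lor.mpr (Or.inl ha)
      · rw [h3]; exact bit_lor.mpr (Or.inl (bit_lor.mpr (Or.inl ha)))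
    · intro a ha
      rcases h3 with ⟨-, h3⟩ | ⟨z, -, h3, -⟩ | ⟨z, z', -, -, h3, -⟩
      · rw [h3] at ha
        exact Or.inl ha
      · rw [h3] at ha
        rcases bit_lor.mp ha with h4 | h4
        · exact Or.inl h4
        · exact Or.inr (Or.inl h4)
      · rw [h3] at ha
        rcases bit_lor.mp ha with h4 | h4
        · rcases bit_lor.mp h4 with h5 | h5
          · exact Or.inl h5
          · exact Or.inr (Or.inl h5)
        · exact Or.inr (Or.inr h4)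
  · have h1 : tY n e μ = ∅ := by
      rw [Finset.eq_empty_iff_forall_notMem]
      intro z hz
      exact hμ (mem_tY.mp hz).2.1
    refine ⟨c, J, fun _ _ => rfl, ?_, fun _ h => h, fun _ h => Or.inl h⟩
    rw [h1, Finset.union_empty]
    exact C

/-- **The code of a word with its natural elements of level 7.** -/
theorem exists_cx (T : Stg cv lv m1 m2 m3) (R : Rw n lo hi) (h : Wd.NJ P r 6)
    (C : Cp.Comp 6 (t : P) lo hi e) : ∃ (c : ℕ → P) (J : ℕ),
      Cx 20 J cv lv c (lowPart 6 (t : P) ∪ YW n e m1 m2 m3) ∧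
      (∀ a < n, J.testBit a = true ∧ c a = cW e a) ∧
      ∀ a, J.testBit a = true → a < n ∨ 14 ≤ a := by
  classical
  have hn := R.le14
  have hn' := R.ge11
  obtain ⟨h1, h2⟩ := R.cod h C
  have C0 : Cx 20 (2 ^ n - 1) cv lv (cW e) (lowPart 6 (t : P)) :=
    Cx.ofCod h1 (by omega) (fun a ha => T.cv0 a (by omega)) (fun a ha => T.lv0 a (by omega))
      (fun a ha => by rw [T.cv0 a (by omega)]; exact W_lt a (by omega)) h2
  have f0 : ∀ k, n ≤ k → (2 ^ n - 1).testBit k = false := by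
    intro k hk
    rw [Bool.eq_false_iff]
    intro hcon
    have := two_bit.mp hcon
    omega
  have hlow : ∀ μ, ∀ z ∈ tY n e μ, z ∉ lowPart 6 (t : P) := by
    intro μ z hz hz'
    have h3 := (mem_tY.mp hz).1
    have h4 := (mem_lowPart.mp hz').2
    omega
  have hdis : ∀ μ μ', μ ≠ μ' → ∀ z ∈ tY n e μ, z ∉ tY n e μ' := by
    intro μ μ' hne z hz hz'
    rw [mem_tY] at hz hz'
    exact hne (cvs_inj R h C hz.2.1 hz'.2.1 hz.2.2 hz'.2.2)
  obtain ⟨c1, J1, g1, C1, k1, l1⟩ := insT C0 h.g.H (n := n) (e := e)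
    (fun a ha => two_bit.mpr ha) (fun _ _ => rfl) (k := 14) (k' := 15) (by norm_num)
    (by norm_num) (by norm_num) (f0 _ (by omega)) (f0 _ (by omega)) T.c1.1 T.c1.2 T.l7.1
    T.l7.2.1 T.ex.1 (hlow m1)
  have f1 : ∀ k, 16 ≤ k → J1.testBit k = false := by
    intro k hk
    rw [Bool.eq_false_iff]
    intro hcon
    rcases l1 k hcon with h3 | h3 | h3
    · rw [f0 k (by omega)] at h3
      exact absurd h3 (by simp)
    · omega
    · omega
  obtain ⟨c2, J2, g2, C2, k2, l2⟩ := insT C1 h.g.H (n := n) (e := e)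
    (fun a ha => k1 a (two_bit.mpr ha)) (fun a ha => g1 a (two_bit.mpr ha)) (k := 16) (k' := 17)
    (by norm_num) (by norm_num) (by norm_num) (f1 _ (by omega)) (f1 _ (by omega)) T.c2.1 T.c2.2
    T.l7.2.2.1 T.l7.2.2.2.1 T.ex.2.1 (fun z hz => by
      rw [mem_union, not_or]
      exact ⟨hlow m2 z hz, hdis m2 m1 T.ne.1.symm z hz⟩)
  have f2 : ∀ k, 18 ≤ k → J2.testBit k = false := by
    intro k hk
    rw [Bool.eq_false_iff]
    intro hcon
    rcases l2 k hcon with h3 | h3 | h3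
    · rw [f1 k (by omega)] at h3
      exact absurd h3 (by simp)
    · omega
    · omega
  obtain ⟨c3, J3, g3, C3, k3, l3⟩ := insT C2 h.g.H (n := n) (e := e)
    (fun a ha => k2 a (k1 a (two_bit.mpr ha)))
    (fun a ha => (g2 a (k1 a (two_bit.mpr ha))).trans (g1 a (two_bit.mpr ha)))
    (k := 18) (k' := 19)
    (by norm_num) (by norm_num) (by norm_num) (f2 _ (by omega)) (f2 _ (by omega)) T.c3.1 T.c3.2
    T.l7.2.2.2.2.1 T.l7.2.2.2.2.2 T.ex.2.2 (fun z hz => by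
      rw [mem_union, mem_union, not_or, not_or]
      exact ⟨⟨hlow m3 z hz, hdis m3 m1 T.ne.2.1.symm z hz⟩, hdis m3 m2 T.ne.2.2.symm z hz⟩)
  refine ⟨c3, J3, ?_, ?_, ?_⟩
  · unfold YW
    rw [← Finset.union_assoc, ← Finset.union_assoc]
    exact C3
  · intro a ha
    have q := two_bit.mpr ha
    exact ⟨k3 a (k2 a (k1 a q)), (g3 a (k2 a (k1 a q))).trans ((g2 a (k1 a q)).trans (g1 a q))⟩
  · intro a ha
    rcases l3 a ha with h3 | h3 | h3
    · rcases l2 a h3 with h4 | h4 | h4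
      · rcases l1 a h4 with h5 | h5 | h5
        · exact Or.inl (two_bit.mp h5)
        · omega
        · omega
      · omega
      · omega
    · omega
    · omega

/-- the facts of a certificate -/
structure Cert (cv lv um th : ℕ → ℕ) (Us : List ℕ) (L : List Ent) (w : ℕ) : Prop where
  us : UsOK 20 cv Us
  pol : polD 20 (2 ^ 80) 12 Us 3 (L.map Prod.snd) = true
  mst : mstC 20 12 3 lv Us 1375 L = true
  th : thChk 20 3 10 lv cv um th = true
  bm : bmC 20 3 10 1375 lv um = true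
  rch : ∀ y ∈ L, w ≤ rch y

/-- the tables of the costs -/
structure Tab (cv th : ℕ → ℕ) (m1 m2 m3 m : ℕ) (bad : List ℕ) : Prop where
  t7 : ∀ n ∈ [11, 13, 14], ∀ μ ∈ mL n, (μ = m1 ∨ μ = m2 ∨ μ = m3) ∨ μ ∈ bad ∨
    ∀ b < 14, μ.testBit b = true → (∀ b' < 14, μ.testBit b' = true → th b ≤ th b') →
      m ≤ cc (th b + 1) n μ
  t8 : ∀ n ∈ [11, 13, 14], ∀ a < 20, 14 ≤ a → cv a < 2 ^ n →
    m ≤ cc (th a + 1) n (cv a) + min (th a + 1) 5

end

end Pool.Agent.GaussPoset.J6
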