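import Pool.Agent.W_448j6_h22.KaL

/-!
Level 6: the data of the words (MP_448cb3_co, `j = 6`).
-/

namespace Pool.Agent.GaussPoset.J6

set_option linter.unusedSectionVars false

open Polynomial Finset Dd J8 J10 Wd Cl Sg

universe u

section

variable {P : Type u} [Fintype P] [PartialOrder P] [DecidableEq P]
variable {r n : ℕ} {t : Tops P} {lo hi : ℕ → ℕ} {e : ℕ → ℕ → P}
variable {cv lv um th : ℕ → ℕ} {m1 m2 m3 m w J : ℕ} {Us : List ℕ} {L : List Ent} {c : ℕ → P}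

/-- a word with its natural elements, coded -/
structure Cw (t : Tops P) (n : ℕ) (lo hi : ℕ → ℕ) (e : ℕ → ℕ → P) (cv lv : ℕ → ℕ)
    (m1 m2 m3 J : ℕ) (c : ℕ → P) : Prop where
  T : Stg cv lv m1 m2 m3
  R : Rw n lo hi
  C : Cp.Comp 6 (t : P) lo hi e
  D : Cx 20 J cv lv c (lowPart 6 (t : P) ∪ YW n e m1 m2 m3)
  bit : ∀ a < n, J.testBit a = true ∧ c a = cW e a
  lt : ∀ a, J.testBit a = true → a < n ∨ 14 ≤ a

lemma Wlv_le : ∀ a < 14, Wlv.getD a 0 ≤ 6 := by decide +kernel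

lemma Cw.thc (W : Cw t n lo hi e cv lv m1 m2 m3 J c) {a : ℕ} (ha : a < n) :
    thM 20 J c th (cW e a) = th a := by
  rw [← (W.bit a ha).2]
  exact thM_c W.D.cod th (W.bit a ha).1

/-- the cells are below the top -/
lemma Cw.cell_le (W : Cw t n lo hi e cv lv m1 m2 m3 J c) (h : Wd.NJ P r 6) {a : ℕ} (ha : a < n) :
    cW e a ≤ (t : P) ∧ lev (cW e a) ≤ 6 := by
  have h1 : cW e a ∈ lowPart 6 (t : P) := ((W.R.cod h W.C).2 _).mpr ⟨a, ha, rfl⟩
  exact mem_lowPart.mp h1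

lemma Cw.Y_le (W : Cw t n lo hi e cv lv m1 m2 m3 J c) (h : Wd.NJ P r 6) {y : P}
    (hy : y ∈ YW n e m1 m2 m3) : lev y = 7 ∧ y ≤ (t : P) := by
  obtain ⟨μ, hμ, hy'⟩ := mem_YW.mp hy
  obtain ⟨h1, h2, h3⟩ := mem_tY.mp hy'
  refine ⟨h1, ?_⟩
  have h4 : ∃ a, μ.testBit a = true := by
    rcases hμ with rfl | rfl | rfl
    · exact W.T.ex.1
    · exact W.T.ex.2.1
    · exact W.T.ex.2.2
  obtain ⟨a, ha⟩ := h4
  exact ((h3 _).mpr ⟨a, ha, rfl⟩).1.le.trans (W.cell_le h (bit_lt h2 ha)).1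

/-- the cell of a natural element of level 7 -/
lemma Cw.code (W : Cw t n lo hi e cv lv m1 m2 m3 J c) (h : Wd.NJ P r 6) {y : P}
    (hy : y ∈ YW n e m1 m2 m3) : ∃ a, J.testBit a = true ∧ c a = y ∧ 14 ≤ a ∧ a < 20 ∧
      cv a < 2 ^ n ∧ Cvs (cW e) (cv a) y := by
  have hn := W.R.le14
  obtain ⟨a, ha, rfl⟩ := (W.D.mem y).mp (mem_union_right _ hy)
  have hl := (W.Y_le h hy).1
  have h20 : a < 20 := bit_lt W.D.cod.lt ha
  have h14 : 14 ≤ a := by
    rcases W.lt a ha with h1 | h1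
    · rw [W.D.cod.lev a ha, W.T.lv0 a (by omega)] at hl
      have := Wlv_le a (by omega)
      omega
    · exact h1
  have hcv : cv a < 2 ^ 14 := by
    have hT := W.T
    rcases (show a = 14 ∨ a = 15 ∨ a = 16 ∨ a = 17 ∨ a = 18 ∨ a = 19 by omega) with
      rfl | rfl | rfl | rfl | rfl | rfl
    · rw [hT.c1.1]; exact hT.lt.1
    · rw [hT.c1.2]; exact hT.lt.1
    · rw [hT.c2.1]; exact hT.lt.2.1
    · rw [hT.c2.2]; exact hT.lt.2.1
    · rw [hT.c3.1]; exact hT.lt.2.2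
    · rw [hT.c3.2]; exact hT.lt.2.2
  have hb : ∀ b, (cv a).testBit b = true → b < n := by
    intro b hb
    have h1 := bit_lt hcv hb
    rcases W.lt b (sm_iff.mp (W.D.cod.clo a ha) b hb) with h2 | h2
    · exact h2
    · omega
  refine ⟨a, ha, rfl, h14, h20, ?_, ?_⟩
  · refine Nat.lt_pow_two_of_testBit _ fun i hi => ?_
    rw [Bool.eq_false_iff]
    intro hcon
    have := hb i hcon
    omega
  · intro y
    rw [W.D.cod.cov a ha y]
    constructor
    · rintro ⟨b, -, h2, rfl⟩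
      exact ⟨b, h2, ((W.bit b (hb b h2)).2).symm⟩
    · rintro ⟨b, h2, rfl⟩
      exact ⟨b, (W.bit b (hb b h2)).1, h2, (W.bit b (hb b h2)).2⟩

/-- **The data of a word.** -/
theorem Cw.td (W : Cw t n lo hi e cv lv m1 m2 m3 J c) (h : Wd.NJ P r 6)
    (K : Cert cv lv um th Us L w) {bad : List ℕ} (A : Tab cv th m1 m2 m3 m bad)
    {G : ℕ → P → Prop}
    (hG : ∀ z, z ≤ (t : P) → lev z = 7 → ∀ μ ∈ bad, μ < 2 ^ n → Cvs (cW e) μ z →
      ∀ b < 14, μ.testBit b = true → (∀ b' < 14, μ.testBit b' = true → th b ≤ th b') →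
      G (th b + 1) z) :
    TD6 t (hi 3 - lo 3 + 1) w m (YW n e m1 m2 m3) (thM 20 J c th) (fun x => x = c 10) G := by
  have hn := W.R.le14
  have hn' := W.R.ge11
  have l3 : lo 3 = 0 := by
    have := W.R.hlo 3 (by norm_num)
    rw [this]
    rcases W.R.hn with h1 | h1 | h1 <;> rw [h1] <;> rfl
  have h3 : hi 3 = 1 := W.R.hhi 3 (by norm_num)
  have hb : hi 3 - lo 3 + 1 = 2 := by omega
  rw [hb]
  constructor
  · norm_num
  · exact fun y hy => (W.Y_le h hy).1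
  · exact fun y hy => (W.Y_le h hy).2
  · intro z hz hl hzY k hk hk'
    obtain ⟨μ, hμ, hc⟩ := W.R.mask h W.C hz hl
    have hlt := mL_lt n W.R.mem μ hμ
    obtain ⟨x, hzx, rfl⟩ := hk
    obtain ⟨b, hb', rfl⟩ := (hc x).mp hzx
    have hbn : b < n := bit_lt hlt hb'
    rw [W.thc hbn]
    have hmin : ∀ b' < 14, μ.testBit b' = true → th b ≤ th b' := by
      intro b' _ hb2
      have := hk' (cW e b') ((hc _).mpr ⟨b', hb2, rfl⟩)
      rw [W.thc hbn, W.thc (bit_lt hlt hb2)] at this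
      omega
    rcases A.t7 n W.R.mem μ hμ with h1 | h1 | h1
    · exact absurd (mem_YW.mpr ⟨μ, h1, mem_tY.mpr ⟨hl, hlt, hc⟩⟩) hzY
    · exact Or.inr (hG z hz hl μ h1 hlt hc b (by omega) hb' hmin)
    · left
      rw [W.R.cost h W.C hl hlt hc]
      exact h1 b (by omega) hb' hmin
  · intro y hy
    obtain ⟨a, ha, hay, h14, h20, hlt, hc⟩ := W.code h hy
    have hl := (W.Y_le h hy).1
    rw [← hay, thM_c W.D.cod th ha, hay, W.R.cost h W.C hl hlt hc]
    exact A.t8 n W.R.mem a h20 h14 hlt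
  · intro N HN _ hN θ' B' hθ hB
    have hL : LocL 3 2 w (N t) (thM 20 J c th) (fun x => x = c 10) := by
      rw [hN]
      refine W.D.cod.locL K.us K.th (W.bit 10 (by omega)).1 W.D.mem K.pol K.mst ?_ ?_ K.bm
      · unfold mskC
        rw [List.all_eq_true]
        intro y hy
        have h1 : Nat.ble w (rch y) = true := Nat.ble_eq.mpr (K.rch y hy)
        rw [h1, Bool.or_true]
      · intro a ha
        exact (W.bit a (by have := bit_lt (show 1375 < 2 ^ 11 by norm_num) ha; omega)).1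
    exact hL.data HN θ' B' hθ hB

/-- the value of an entry -/
def vl (y : Ent) : ℤ := sgn y.2.2.2.1 y.2.2.2.2.1 3 * sc y.2.1 y.2.2.2.2.2.2

/-- the tables of the values at the energy `k0` -/
structure Vt (lv : ℕ → ℕ) (L : List Ent) (k0 : ℕ) : Prop where
  v : ∀ y ∈ L, y.1 = k0 ∧ 0 ≤ vl y ∧
    (vl y = 0 → y.2.2.1.testBit 16 = false ∧ y.2.2.1.testBit 17 = false)
  l2 : ∀ a < 20, lv a < 3 ↔ a < 3
  l3 : ∀ a < 20, lv a = 3 ↔ a = 3 ∨ a = 4

/-- **The value of a word.** -/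
theorem Cw.val (W : Cw t n lo hi e cv lv m1 m2 m3 J c) (h : Wd.NJ P r 6)
    (K : Cert cv lv um th Us L w) {k0 : ℕ} (V : Vt lv L k0) :
    ∃ ρ : ℤ, ρ ≤ 0 ∧ (ρ = 0 → ∀ z, z ∉ tY n e m2) ∧
      ∀ N : Tops P → Finset P, NatSys N → N t = lowPart 6 (t : P) ∪ YW n e m1 m2 m3 →
      ∀ f : Polynomial (PowerSeries ℤ),
        (∀ k, exq k f = Z {x : {x : P // x ∉ unnat N} // topOf (x : P) = t} 3 k) →
        Pl k0 2 ρ f := by
  classical
  have hn := W.R.le14
  have hn' := W.R.ge11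
  have hup : Up (lowPart 6 (t : P) ∪ YW n e m1 m2 m3) := by
    intro x hx y hxy
    rw [W.D.mem] at hx ⊢
    obtain ⟨a, ha, rfl⟩ := hx
    exact W.D.cod.above ha hxy
  obtain ⟨J', h1, h2, h3⟩ := W.D.cod.exists_code K.us (fun x hx => (W.D.mem x).mp hx) hup
  have h4 : toS 20 c J = lowPart 6 (t : P) ∪ YW n e m1 m2 m3 := by
    ext x
    rw [W.D.mem, mem_toS]
    exact ⟨fun ⟨a, _, g1, g2⟩ => ⟨a, g1, g2⟩, fun ⟨a, g1, g2⟩ =>
      ⟨a, bit_lt W.D.cod.lt g1, g1, g2⟩⟩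
  have h5 : J' = J := W.D.cod.inj' h2 (fun _ g => g) (h3.trans h4.symm)
  rw [h5] at h1
  have h6 : Nat.land 1375 J = 1375 := by
    rw [sm_iff]
    intro a ha
    exact (W.bit a (by have := bit_lt (show 1375 < 2 ^ 11 by norm_num) ha; omega)).1
  have hmst := K.mst
  unfold mstC at hmst
  rw [Bool.and_eq_true, List.all_eq_true, List.all_eq_true] at hmst
  have h7 := hmst.2 J h1
  rw [h6, Nat.beq_refl] at h7
  have h8 : (L.any fun x => Nat.beq x.2.2.1 J) = true := by simpa using h7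
  rw [List.any_eq_true] at h8
  obtain ⟨y, hy, hyJ⟩ := h8
  have h9 : y.2.2.1 = J := Nat.eq_of_beq_eq_true hyJ
  obtain ⟨v1, v2, v3⟩ := V.v y hy
  have c7 : ((range 20).filter (fun a => J.testBit a = true ∧ lv a < 3)).card = 3 := by
    have : (range 20).filter (fun a => J.testBit a = true ∧ lv a < 3) = range 3 := by
      ext a
      rw [mem_filter, mem_range, mem_range]
      constructor
      · rintro ⟨g1, -, g3⟩
        exact (V.l2 a g1).mp g3
      · intro g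
        exact ⟨by omega, (W.bit a (by omega)).1, (V.l2 a (by omega)).mpr g⟩
    rw [this, card_range]
  have c8 : ((range 20).filter (fun a => J.testBit a = true ∧ lv a = 3)).card = 2 := by
    have : (range 20).filter (fun a => J.testBit a = true ∧ lv a = 3) = {3, 4} := by
      ext a
      rw [mem_filter, mem_range, mem_insert, mem_singleton]
      constructor
      · rintro ⟨g1, -, g3⟩
        exact (V.l3 a g1).mp g3
      · intro g
        exact ⟨by omega, (W.bit a (by omega)).1, (V.l3 a (by omega)).mpr g⟩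
    rw [this]
    rfl
  refine ⟨- vl y, by omega, ?_, ?_⟩
  · intro hρ z hz
    obtain ⟨g1, g2⟩ := v3 (by omega)
    rw [h9] at g1 g2
    have hY : z ∈ YW n e m1 m2 m3 := mem_YW.mpr ⟨m2, Or.inr (Or.inl rfl), hz⟩
    obtain ⟨a, ha, rfl, h14, h20, hlt, hc⟩ := W.code h hY
    rw [mem_tY] at hz
    have hcv := cvs_inj W.R h W.C hlt hz.2.1 hc hz.2.2
    have hT := W.T
    rcases (show a = 14 ∨ a = 15 ∨ a = 16 ∨ a = 17 ∨ a = 18 ∨ a = 19 by omega) with
      rfl | rfl | rfl | rfl | rfl | rfl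
    · exact hT.ne.1 (hT.c1.1.symm.trans hcv)
    · exact hT.ne.1 (hT.c1.2.symm.trans hcv)
    · rw [g1] at ha
      exact absurd ha (by simp)
    · rw [g2] at ha
      exact absurd ha (by simp)
    · exact hT.ne.2.2 (hcv.symm.trans hT.c3.1)
    · exact hT.ne.2.2 (hcv.symm.trans hT.c3.2)
  · intro N HN hN f hf
    have hU : ∀ x, x ∈ lowPart 6 (t : P) ∪ YW n e m1 m2 m3 ↔ x ∈ N t ∧ x ∉ unnat N := by
      intro x
      rw [← hN]
      exact ⟨fun g => ⟨g, fun g' => mem_unnat.mp g' t g⟩, fun g => g.1⟩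
    have hiso := isoPart HN t (Finset.Subset.refl (unnat N)) _ hU
    have hf' : ∀ k, exq k f =
        Z {y : P // y ∈ lowPart 6 (t : P) ∪ YW n e m1 m2 m3} 3 k := by
      intro k
      rw [hf k, Z_iso hiso]
    have := W.D.cod.pole K.us K.pol K.mst hy (by rw [h9]; exact h1) h9 W.D.mem c7 c8
      (ρ := - vl y) (by unfold vl; ring) hf'
    rwa [v1] at this

end

end Pool.Agent.GaussPoset.J6
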