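import Pool.Agent.W_448j6_h22.KaM
import Pool.Agent.W_448j6_h22.KaA
import Pool.Agent.W_448j6_h22.KaB

/-!
Level 6: the two certificates (MP_448cb3_co, `j = 6`).
-/

namespace Pool.Agent.GaussPoset.J6

set_option linter.unusedSectionVars false

open Polynomial Finset Dd J8 J10 Wd Cl Sg

theorem stgA : Stg (fun a => Gacv.getD a 0) (fun a => Galv.getD a 0) 1536 9216 8192 where
  cv0 := by decide +kernel
  lv0 := by decide +kernel
  c1 := by decide +kernel
  c2 := by decide +kernel
  c3 := by decide +kernel
  l7 := by decide +kernel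
  ne := by decide
  lt := by decide
  ex := ⟨⟨9, by decide⟩, ⟨10, by decide⟩, ⟨13, by decide⟩⟩

theorem stgB : Stg (fun a => Gbcv.getD a 0) (fun a => Gblv.getD a 0) 1536 512 8192 where
  cv0 := by decide +kernel
  lv0 := by decide +kernel
  c1 := by decide +kernel
  c2 := by decide +kernel
  c3 := by decide +kernel
  l7 := by decide +kernel
  ne := by decide
  lt := by decide
  ex := ⟨⟨9, by decide⟩, ⟨9, by decide⟩, ⟨13, by decide⟩⟩

theorem certA : Cert (fun a => Gacv.getD a 0) (fun a => Galv.getD a 0) (fun a => Gaum.getD a 0)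
    (fun a => Gath.getD a 0) Gaus GaL 8 where
  us := Ga_us
  pol := Ga_pol
  mst := Ga_mst
  th := Ga_th
  bm := Ga_bm
  rch := by decide +kernel

theorem certB : Cert (fun a => Gbcv.getD a 0) (fun a => Gblv.getD a 0) (fun a => Gbum.getD a 0)
    (fun a => Gbth.getD a 0) Gbus GbL 13 where
  us := Gb_us
  pol := Gb_pol
  mst := Gb_mst
  th := Gb_th
  bm := Gb_bm
  rch := by decide +kernel

theorem tabA : Tab (fun a => Gacv.getD a 0) (fun a => Gath.getD a 0) 1536 9216 8192 9 [1024] where
  t7 := by decide +kernel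
  t8 := by decide +kernel

theorem tabB : Tab (fun a => Gbcv.getD a 0) (fun a => Gbth.getD a 0) 1536 512 8192 13
    [1024, 9216, 4096] where
  t7 := by decide +kernel
  t8 := by decide +kernel

theorem vtA : Vt (fun a => Galv.getD a 0) GaL 8 where
  v := by decide +kernel
  l2 := by decide +kernel
  l3 := by decide +kernel

end Pool.Agent.GaussPoset.J6
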