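import Pool.Agent.W_448j6_h22.KaE
import Pool.Agent.W_448j6_h22.KaH
import Pool.Agent.W_448j6_h22.KaI
import Pool.Agent.W_448j6_h22.KaN

/-!
Level 6: the data of every component, first stage (MP_448cb3_co, `j = 6`).
-/

namespace Pool.Agent.GaussPoset.J6

set_option linter.unusedSectionVars false

open Polynomial Finset Dd J8 J10 Wd Cl Sg

universe u

section

variable {P : Type u} [Fintype P] [PartialOrder P] [DecidableEq P] {r : ℕ}
variable {t : Tops P} {lo hi : ℕ → ℕ} {e : ℕ → ℕ → P}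

lemma TD6.weaken {b n m : ℕ} {Y : Finset P} {θ : P → ℕ} {B : P → Prop} {G : ℕ → P → Prop}
    (T : TD6 t b n m Y θ B G) {n' m' : ℕ} (hn : n' ≤ n) (hm : m' ≤ m) :
    TD6 t b n' m' Y θ B G where
  b_one := T.b_one
  Ylev := T.Ylev
  Yle := T.Yle
  c7 := by
    intro z hz hl hzY k hk hk'
    rcases T.c7 z hz hl hzY k hk hk' with h | h
    · exact Or.inl (hm.trans h)
    · exact Or.inr h
  c8 := fun y hy => hm.trans (T.c8 y hy)
  data := fun N HN hlow hN θ' B' hθ hB => CompDataL.of_le (T.data N HN hlow hN θ' B' hθ hB) hn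

/-- the order of the natural part -/
lemma TD6.dvd {b n m : ℕ} {Y : Finset P} {θ : P → ℕ} {B : P → Prop} {G : ℕ → P → Prop}
    (T : TD6 t b n m Y θ B G) {k : ℕ} (hk : k < n) {N : Tops P → Finset P} (HN : NatSys N)
    (hlow : ∀ s : Tops P, lowPart 6 (s : P) ⊆ N s) (hN : N t = lowPart 6 (t : P) ∪ Y) :
    (1 + X : ℤ[X]) ^ b ∣ Z {x : {x : P // x ∉ unnat N} // topOf (x : P) = t} 3 k := by
  classical
  have hD := T.data N HN hlow hN θ (fun x => x ∉ unnat N ∧ B x) (fun _ _ => rfl)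
    (fun x hx => ⟨fun h => h.2, fun h => ⟨fun h' => mem_unnat.mp h' t hx, h⟩⟩)
  refine hD.clean (unnat N) ⟨HN.lower, Subset.refl _, fun x hx => ?_, fun x hx h => h.1 hx⟩
    inferInstance k hk
  exact unnat_lev HN (j := 6) (by norm_num) hlow hx

/-- the elements of level 7 with the cost 4 -/
def GA (k : ℕ) (z : P) : Prop := k = 1 ∧ cK 1 z = 4 ∧ nab 3 z = 2 ∧ nab 4 z = 1

/-- the data of a component, first stage -/
structure DA (t : Tops P) (lo hi : ℕ → ℕ) (e : ℕ → ℕ → P) (Y : Finset P) (θ : P → ℕ)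
    (B : P → Prop) (ρ : ℤ) : Prop where
  td : TD6 t (hi 3 - lo 3 + 1) 8 9 Y θ B GA
  le : ρ ≤ 0
  val : ∀ N : Tops P → Finset P, NatSys N → (∀ s : Tops P, lowPart 6 (s : P) ⊆ N s) →
    N t = lowPart 6 (t : P) ∪ Y →
    (ρ = 0 ∧ (1 + X : ℤ[X]) ^ (hi 3 - lo 3 + 1) ∣
      Z {x : {x : P // x ∉ unnat N} // topOf (x : P) = t} 3 8) ∨
    ∀ f : Polynomial (PowerSeries ℤ),
      (∀ k, exq k f = Z {x : {x : P // x ∉ unnat N} // topOf (x : P) = t} 3 k) →
      Pl 8 (hi 3 - lo 3 + 1) ρ f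
  tail : ∀ n, Rw n lo hi → (∀ z ∈ Y, ¬ Pend z (e 6 3)) ∧ θ (e 6 3) = 0
  r03 : ρ = 0 → Rw 14 lo hi → ∀ z, lev z = 7 → ¬ Cvs (cW e) 9216 z
  quad : QRows 6 3 lo hi → Y = ∅ ∧ ∀ x, θ x = 0

/-- natural components -/
lemma DA.of_nat {Y : Finset P} {θ : P → ℕ} {B : P → Prop}
    (T : TD6 t (hi 3 - lo 3 + 1) 9 9 Y θ B GA) (hR : ∀ n, ¬ Rw n lo hi)
    (hQ : QRows 6 3 lo hi → Y = ∅ ∧ ∀ x, θ x = 0) : DA t lo hi e Y θ B 0 where
  td := T.weaken (by norm_num) le_rfl
  le := le_rfl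
  val := fun N HN hlow hN => Or.inl ⟨rfl, T.dvd (by norm_num) HN hlow hN⟩
  tail := fun n h => absurd h (hR n)
  r03 := fun _ h => absurd h (hR 14)
  quad := hQ

/-- a coded word exists -/
lemma exists_Cw {cv lv : ℕ → ℕ} {m1 m2 m3 n : ℕ} (T : Stg cv lv m1 m2 m3) (R : Rw n lo hi)
    (h : Wd.NJ P r 6) (C : Cp.Comp 6 (t : P) lo hi e) :
    ∃ J c, Cw t n lo hi e cv lv m1 m2 m3 J c := by
  obtain ⟨c, J, h1, h2, h3⟩ := exists_cx T R h C
  exact ⟨J, c, T, R, C, h1, h2, h3⟩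

lemma Rw.l3 {n : ℕ} (R : Rw n lo hi) : lo 3 = 0 ∧ hi 3 = 1 := by
  constructor
  · rw [R.hlo 3 (by norm_num)]
    rcases R.hn with h | h | h <;> rw [h] <;> rfl
  · exact R.hhi 3 (by norm_num)

lemma Rw.h2 {n : ℕ} (R : Rw n lo hi) : hi 1 = 0 ∧ hi 2 = 0 :=
  ⟨R.hhi 1 (by norm_num), R.hhi 2 (by norm_num)⟩

lemma Rw.unique {n n' : ℕ} (R : Rw n lo hi) (R' : Rw n' lo hi) : n = n' := by
  have h1 := R.vals
  have h2 := R'.vals
  omega

lemma Rw.not_quad {n : ℕ} (R : Rw n lo hi) (Q : QRows 6 3 lo hi) : False := by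
  have h1 := R.vals
  have h2 := Q.aft 6 (by norm_num) le_rfl
  omega

/-- the words, first stage -/
theorem DA.of_word (h : Wd.NJ P r 6) (C : Cp.Comp 6 (t : P) lo hi e) {n : ℕ}
    (R : Rw n lo hi) : ∃ Y θ B ρ, DA t lo hi e Y θ B ρ := by
  classical
  obtain ⟨J, c, W⟩ := exists_Cw stgA R h C
  have hn := R.le14
  have hn' := R.ge11
  obtain ⟨ρ, r1, r2, r3⟩ := W.val h certA vtA
  have hb : hi 3 - lo 3 + 1 = 2 := by
    have := R.l3
    omega
  refine ⟨YW n e 1536 9216 8192, thM 20 J c (fun a => Gath.getD a 0), fun x => x = c 10, ρ,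
    ?_, r1, ?_, ?_, ?_, ?_⟩
  · refine W.td h certA tabA ?_
    intro z hz hl μ hμ hlt hc b hb14 hb' hmin
    rw [List.mem_singleton] at hμ
    subst hμ
    have hb10 : b = 10 := by
      have h1 : (1024 : ℕ) = 2 ^ 10 := by norm_num
      rw [h1] at hb'
      by_contra hne
      rw [Nat.testBit_two_pow_of_ne (Ne.symm hne)] at hb'
      exact absurd hb' (by simp)
    subst hb10
    have c1 : ∀ n ∈ [11, 13, 14], cc 1 n 1024 = 4 ∧ cn n 1024 3 = 2 ∧ cn n 1024 4 = 1 := by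
      decide +kernel
    obtain ⟨d1, d2, d3⟩ := c1 n R.mem
    refine ⟨rfl, ?_, ?_, ?_⟩
    · rw [R.cost h C hl hlt hc, d1]
    · rw [R.nab h C hl hlt hc (by norm_num), d2]
    · rw [R.nab h C hl hlt hc (by norm_num), d3]
  · intro N HN _ hN
    right
    intro f hf
    rw [hb]
    exact r3 N HN hN f hf
  · intro n' R'
    obtain rfl := R.unique R'
    refine ⟨?_, ?_⟩
    · intro z hz hp
      obtain ⟨μ, hμ, hz'⟩ := mem_YW.mp hz
      obtain ⟨h1, h2, h3⟩ := mem_tY.mp hz'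
      have h4 : Cvs (cW e) (2 ^ 10) z := cvs_one (a := 10) hp
      have h5 := cvs_inj R h C h2 (Nat.pow_lt_pow_right (by norm_num) (by omega)) h3 h4
      omega
    · exact W.thc (a := 10) (th := fun a => Gath.getD a 0) (by omega)
  · intro hρ R' z hz hc
    obtain rfl := R.unique R'
    exact r2 hρ z (mem_tY.mpr ⟨hz, by norm_num, hc⟩)
  · intro Q
    exact (R.not_quad Q).elim

/-- **The data of every component, first stage.** -/
theorem exists_DA (h : Wd.NJ P r 6) (C : Cp.Comp 6 (t : P) lo hi e) (S : Wd.Shape 6 lo hi)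
    (hF : ¬ Wd.F1 lo hi) : ∃ Y θ B ρ, DA t lo hi e Y θ B ρ := by
  classical
  have light : lo 3 = hi 3 → ∃ Y θ B ρ, DA t lo hi e Y θ B ρ := by
    intro h3
    refine ⟨Y7 t, fun x => lev x - 3, fun _ => False, 0, DA.of_nat
      (tdLight h C h3 (by norm_num) GA) ?_ ?_⟩
    · intro n R
      have := R.l3
      omega
    · intro Q
      have := Q.at'
      omega
  rcases S with h1 | ⟨h1, h2⟩ | ⟨h0, h2⟩ | ⟨h0, -, -⟩ | ⟨-, h1⟩ | ⟨a, h0, h1, h2, h3, -, h4⟩
  · have e3 := h1 3 (by norm_num)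
    exact light (by omega)
  · -- rectangle
    rcases Nat.lt_or_ge (lo 3) (hi 3) with hlt | hge
    · obtain ⟨Y, θ, B, T⟩ := tdRectB h C h1 h2 hlt GA
      refine ⟨Y, θ, B, 0, DA.of_nat (T.weaken (by norm_num) (by norm_num)) ?_ ?_⟩
      · intro n R
        have := R.h2
        omega
      · intro Q
        have := Q.bel 1 (by norm_num)
        omega
    · have := C.lo_le 3 (by norm_num)
      exact light (by omega)
  · -- stair
    have e3 := h2.hi 3 (by norm_num)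
    have e2 := h2.hi 2 (by norm_num)
    norm_num at e3 e2
    rcases Nat.eq_zero_or_pos (lo 3) with hz | hz
    · obtain ⟨Y, θ, B, T⟩ := tdStair h C h2 hz 9 (m := 9) (by norm_num) GA
      refine ⟨Y, θ, B, 0, DA.of_nat T ?_ ?_⟩
      · intro n R
        have := R.h2
        omega
      · intro Q
        have := Q.bel 2 (by norm_num)
        omega
    · have := C.lo_le 3 (by norm_num)
      exact light (by omega)
  · omega
  · exact absurd h1 hF
  · -- late
    rcases Nat.lt_or_ge 3 a with ha | ha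
    · have e3 := h2 3 ha
      exact light (by omega)
    · obtain rfl : a = 3 := by omega
      have D : LateD 6 3 lo hi := ⟨h0, h1, h2, h3, h4⟩
      rcases h4 with ⟨-, g2⟩ | g2
      · have hq := D.quad C g2
        have Q : QRows 6 3 lo hi := ⟨h2, h3, by
          intro k hk hk2
          have := hq (k - 3) (by omega) (by omega)
          rwa [show 3 + (k - 3) = k by omega] at this⟩
        refine ⟨∅, fun _ => 0, _, 0, DA.of_nat (tdQuad h C Q (n := 9) (m := 9) (G := GA) ?_)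
          ?_ ?_⟩
        · intro z _ _ k3 k4 k1
          exact Or.inr ⟨rfl, k1, k3, k4⟩
        · exact fun n R => R.not_quad Q
        · exact fun _ => ⟨rfl, fun _ => rfl⟩
      · obtain ⟨n, R⟩ := exists_rw C h2 h3 g2
        exact DA.of_word h C R

end

end Pool.Agent.GaussPoset.J6
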