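import Pool.Agent.W_448j6_h22.KaO
import Pool.Agent.W_448j8_h67.JaO
import Pool.Agent.W_448sd_h84.SdL

/-!
Level 6, window 3: no tail pendants, no join of the ends (MP_448cb3_co, `j = 6`).
-/

namespace Pool.Agent.GaussPoset.J6

set_option linter.unusedSectionVars false

open Polynomial Finset Dd J8 J10 Wd Cl Sg

universe u

section

variable {P : Type u} [Fintype P] [PartialOrder P] [DecidableEq P] {r : ℕ}

/-- the elements excluded by the first stage -/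
structure T1a (t : Tops P) (lo hi : ℕ → ℕ) (e : ℕ → ℕ → P) : Prop where
  tail : ∀ n, Rw n lo hi → ∀ z, ¬ Pend z (e 6 3)
  r03 : Rw 14 lo hi → ∀ z, lev z = 7 → ¬ Cvs (cW e) 9216 z
  quad : QRows 6 3 lo hi → ∀ z, z ≤ (t : P) → lev z = 7 → cK 1 z ≠ 4

/-- the leading term for the label 1 -/
lemma lt_one3 {h : P → ℕ} {z : P} (hh : h z = 1) (h3 : nab 3 z = 2) (h4 : nab 4 z = 1) :
    1 ≤ (lv P 3).card ∧
      Lt 3 h z = X ^ (below P 3 + 2) * (1 + X) ^ ((lv P 3).card - 1) := by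
  have hB : 2 ≤ (lv P 3).card := by
    have := nab_le z 3
    omega
  refine ⟨by omega, ?_⟩
  unfold Lt
  rw [nst_one hh, hh, h3, h4]
  congr 2

lemma cc_tail : ∀ n ∈ [11, 13, 14], cc 1 n 1024 = 4 := by decide +kernel

lemma lev7_of {t : Tops P} {lo hi : ℕ → ℕ} {e : ℕ → ℕ → P} (h : Wd.NJ P r 6)
    (C : Cp.Comp 6 (t : P) lo hi e) {s : ℕ} (s1 : lo 6 ≤ s) (s2 : s ≤ hi 6) {z : P}
    (hz : z ⋖ e 6 s) : lev z = 7 ∧ z ≤ (t : P) := by
  have h1 := (h.g.H.covBy_iff.mp hz).2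
  have h2 := C.lev_e 6 s le_rfl s1 s2
  exact ⟨by omega, hz.1.le.trans (C.le_t 6 s le_rfl s1 s2)⟩

/-- **The first stage.** -/
theorem stageA {lo hi : Tops P → ℕ → ℕ} {e : Tops P → ℕ → ℕ → P} (h : Wd.NJ P r 6)
    (C : ∀ t : Tops P, Cp.Comp 6 (t : P) (lo t) (hi t) (e t))
    (S : ∀ t, Wd.Shape 6 (lo t) (hi t)) (t : Tops P) : T1a t (lo t) (hi t) (e t) := by
  classical
  choose Y θ B ρ D using fun t => exists_DA h (C t) (S t) (NJ_no_six h C S t)
  have W : C6 P r 8 9 (fun t => hi t 3 - lo t 3 + 1) Y θ B GA :=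
    ⟨h, (card_level h.g.H h.g.good C (i := 3) (by norm_num)).symm, fun t => (D t).td⟩
  have L := W.lad
  have no4 : ∀ z ∈ bdR (unnat (N6 Y)), cst 3 (h6 Y θ) z ≠ 4 := by
    refine Lad.step L h.g.H.gauss W.sum_b (n := 4) (a := below P 3 + 2) (by norm_num) ?_ ?_
    · intro z hz
      show 4 ≤ cst 3 (h6 Y θ) z
      rcases W.kind hz with h1 | ⟨-, h1, h2, h3, -⟩
      · omega
      · rw [h1, h2, h3]
    · intro z hz hc
      have hc' : cst 3 (h6 Y θ) z = 4 := hc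
      rcases W.kind hz with h1 | ⟨-, h1, h2, -, h4, h5⟩
      · omega
      · exact lt_one3 h2 h4 h5
  have n9 : ∀ z ∈ bdR (unnat (N6 Y)), 9 ≤ cst 3 (h6 Y θ) z := by
    intro z hz
    rcases W.kind hz with h1 | ⟨-, h1, h2, h3, -⟩
    · exact h1
    · exfalso
      refine no4 z hz ?_
      rw [h1, h2, h3]
  have hplus := L.plus0 (n := 8) le_rfl ∅ (by simp)
    (fun z hz _ => by
      have := n9 z hz
      show 8 ≤ cst 3 (h6 Y θ) z
      omega) (by simp) (by simp)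
  rw [Finset.sum_empty, zero_add, W.sum_b] at hplus
  have hT : (bdR (unnat (N6 Y))).filter (fun z => (∀ A ∈ (∅ : Finset (Finset P)), z ∉ A) ∧
      cst 3 (hcan (unnat (N6 Y)) (th6 θ)) z = 8) = ∅ := by
    rw [Finset.filter_eq_empty_iff]
    rintro z hz ⟨-, hc⟩
    have h1 := n9 z hz
    have h2 : cst 3 (h6 Y θ) z = 8 := hc
    omega
  rw [hT, Finset.sum_empty, add_zero] at hplus
  have hv : Lv (lv P 3).card (Z {x : P // x ∉ unnat (N6 Y)} 3 8)
      ((∑ t, ρ t) * (-1) ^ below P 3) :=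
    L.nat_lv (by norm_num) (fun t => (W.td t).b_one) ⟨t⟩ W.sum_b ρ
      (fun t => (D t).val (N6 Y) W.sys (low6 Y) rfl)
  have hB : 1 ≤ (lv P 3).card := by
    rw [← W.sum_b]
    have h1 : hi t 3 - lo t 3 + 1 ≤ ∑ t, (hi t 3 - lo t 3 + 1) :=
      Finset.single_le_sum (f := fun t => hi t 3 - lo t 3 + 1) (fun _ _ => Nat.zero_le _)
        (mem_univ t)
    omega
  have v7 := (Lv.congr hplus hv).eq_zero hB (dvd_Z h.g.H.gauss 3 8)
  have v8 := (mul_eq_zero.mp v7).resolve_right (pow_ne_zero _ (by norm_num))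
  have v9 := (Finset.sum_eq_zero_iff_of_nonpos (fun t _ => (D t).le)).mp v8 t (mem_univ t)
  have hlab : ∀ z x, z ⋖ x → x ≤ (t : P) → lev z = 7 → z ∉ Y t →
      (∀ y, z ⋖ y → θ t y = 0) → cK 1 z = 4 → False := by
    intro z x hzx hxt hl hzY hθ h4
    obtain ⟨h1, -, y, h2, -, -, h3⟩ := W.mem_bd hzx hxt hl hzY
    rw [hθ y h2] at h3
    refine no4 z h1 ?_
    rw [cst7 hl, h3]
    exact h4
  refine ⟨?_, (D t).r03 v9, ?_⟩
  · intro n R z hz
    obtain ⟨v5, v6, hv⟩ := R.vals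
    obtain ⟨hl, -⟩ := lev7_of h (C t) (s := 3) (by omega) (by omega) hz.1
    have hxt := (C t).le_t 6 3 le_rfl (by omega) (by omega)
    obtain ⟨h1, h2⟩ := (D t).tail n R
    have hn' := R.ge11
    refine hlab z _ hz.1 hxt hl (fun h' => h1 z h' hz) (fun y hy => ?_) ?_
    · rw [hz.2 y hy]
      exact h2
    · have h3 : Cvs (cW (e t)) (2 ^ 10) z := cvs_one (a := 10) hz
      rw [R.cost h (C t) hl (Nat.pow_lt_pow_right (by norm_num) (by omega)) h3]
      exact cc_tail n R.mem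
  · intro Q z hz hl h4
    obtain ⟨h1, h2⟩ := (D t).quad Q
    obtain ⟨x, hzx⟩ := ex_cov7 hl
    obtain ⟨hxt, -, -⟩ := cov7 h (C t) hz hl hzx
    exact hlab z x hzx hxt hl (by rw [h1]; exact Finset.notMem_empty _) (fun y _ => h2 y) h4

end

end Pool.Agent.GaussPoset.J6
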