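import Pool.Agent.W_448j6_h22.KaP

/-!
Level 6, window 3: no flips (MP_448cb3_co, `j = 6`).
-/

namespace Pool.Agent.GaussPoset.J6

set_option linter.unusedSectionVars false

open Polynomial Finset Dd J8 J10 Wd Cl Sg

universe u

section

variable {P : Type u} [Fintype P] [PartialOrder P] [DecidableEq P] {r : ℕ}
variable {t : Tops P} {lo hi : ℕ → ℕ} {e : ℕ → ℕ → P}

/-- the elements of level 7 with the cost 12 -/
def GB (k : ℕ) (z : P) : Prop := k = 3 ∧ cK 3 z = 12 ∧ nab 3 z = 2 ∧ nab 4 z = 2 ∧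
  nab 5 z = 2 ∧ nab 6 z = 1

/-- the data of a component, second stage -/
structure DB (t : Tops P) (lo hi : ℕ → ℕ) (e : ℕ → ℕ → P) (Y : Finset P) (θ : P → ℕ)
    (B : P → Prop) : Prop where
  td : TD6 t (hi 3 - lo 3 + 1) 13 13 Y θ B GB
  flip : ∀ n, Rw n lo hi → 13 ≤ n → (∀ z ∈ Y, ¬ Pend z (e 6 1)) ∧ θ (e 6 1) = 2

lemma pend_of_cvs {z : P} {a : ℕ} (hz : Cvs (cW e) (2 ^ a) z) : Pend z (cW e a) := by
  refine ⟨(hz _).mpr ⟨a, Nat.testBit_two_pow_self, rfl⟩, fun y hy => ?_⟩
  obtain ⟨b, hb, rfl⟩ := (hz y).mp hy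
  have h5 : a = b := by
    by_contra hne
    rw [Nat.testBit_two_pow_of_ne hne] at hb
    exact absurd hb (by simp)
  rw [h5]

lemma cc_flip : ∀ n ∈ [13, 14], cc 3 n 4096 = 12 ∧ cn n 4096 3 = 2 ∧ cn n 4096 4 = 2 ∧
    cn n 4096 5 = 2 ∧ cn n 4096 6 = 1 := by decide +kernel

lemma Rw.mem2 {n : ℕ} (R : Rw n lo hi) (h : 13 ≤ n) : n ∈ [13, 14] := by
  rcases R.hn with h1 | h1 | h1
  · omega
  · rw [h1]; simp
  · rw [h1]; simp

/-- the words, second stage -/
theorem DB.of_word (h : Wd.NJ P r 6) (C : Cp.Comp 6 (t : P) lo hi e) (A : T1a t lo hi e) {n : ℕ}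
    (R : Rw n lo hi) : ∃ Y θ B, DB t lo hi e Y θ B := by
  classical
  obtain ⟨J, c, W⟩ := exists_Cw stgB R h C
  have hn := R.le14
  have hn' := R.ge11
  refine ⟨YW n e 1536 512 8192, thM 20 J c (fun a => Gbth.getD a 0), fun x => x = c 10, ?_, ?_⟩
  · refine W.td h certB tabB ?_
    intro z hz hl μ hμ hlt hc b hb14 hb' hmin
    simp only [List.mem_cons, List.not_mem_nil, or_false] at hμ
    rcases hμ with rfl | rfl | rfl
    · exact (A.tail n R z (pend_of_cvs (a := 10) hc)).elim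
    · have h14 : n = 14 := by
        by_contra hne
        have : n ≤ 13 := by omega
        have h2 : 2 ^ n ≤ 2 ^ 13 := Nat.pow_le_pow_right (by norm_num) this
        omega
      subst h14
      exact (A.r03 R z hl hc).elim
    · have h13 : 13 ≤ n := by
        by_contra hne
        have : n ≤ 12 := by omega
        have h2 : 2 ^ n ≤ 2 ^ 12 := Nat.pow_le_pow_right (by norm_num) this
        omega
      have hb10 : b = 12 := by
        have h1 : (4096 : ℕ) = 2 ^ 12 := by norm_num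
        rw [h1] at hb'
        by_contra hne
        rw [Nat.testBit_two_pow_of_ne (Ne.symm hne)] at hb'
        exact absurd hb' (by simp)
      subst hb10
      obtain ⟨d1, d2, d3, d4, d5⟩ := cc_flip n (R.mem2 h13)
      refine ⟨rfl, ?_, ?_, ?_, ?_, ?_⟩
      · rw [R.cost h C hl hlt hc, d1]
      · rw [R.nab h C hl hlt hc (by norm_num), d2]
      · rw [R.nab h C hl hlt hc (by norm_num), d3]
      · rw [R.nab h C hl hlt hc (by norm_num), d4]
      · rw [R.nab h C hl hlt hc (by norm_num), d5]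
  · intro n' R' h13
    obtain rfl := R.unique R'
    refine ⟨?_, ?_⟩
    · intro z hz hp
      obtain ⟨μ, hμ, hz'⟩ := mem_YW.mp hz
      obtain ⟨h1, h2, h3⟩ := mem_tY.mp hz'
      have h4 : Cvs (cW e) (2 ^ 12) z := cvs_one (a := 12) hp
      have h5 := cvs_inj R h C h2 (Nat.pow_lt_pow_right (by norm_num) (by omega)) h3 h4
      omega
    · exact W.thc (a := 12) (th := fun a => Gbth.getD a 0) (by omega)

/-- **The data of every component, second stage.** -/
theorem exists_DB (h : Wd.NJ P r 6) (C : Cp.Comp 6 (t : P) lo hi e) (S : Wd.Shape 6 lo hi)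
    (hF : ¬ Wd.F1 lo hi) (A : T1a t lo hi e) : ∃ Y θ B, DB t lo hi e Y θ B := by
  classical
  have light : lo 3 = hi 3 → ∃ Y θ B, DB t lo hi e Y θ B := by
    intro h3
    refine ⟨Y7 t, fun x => lev x - 3, fun _ => False, tdLight h C h3 (by norm_num) GB, ?_⟩
    intro n R
    have := R.l3
    omega
  rcases S with h1 | ⟨h1, h2⟩ | ⟨h0, h2⟩ | ⟨h0, -, -⟩ | ⟨-, h1⟩ | ⟨a, h0, h1, h2, h3, -, h4⟩
  · have e3 := h1 3 (by norm_num)
    exact light (by omega)
  · -- rectangle
    rcases Nat.lt_or_ge (lo 3) (hi 3) with hlt | hge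
    · obtain ⟨Y, θ, B, T⟩ := tdRectB h C h1 h2 hlt GB
      refine ⟨Y, θ, B, T, ?_⟩
      intro n R
      have := R.h2
      omega
    · have := C.lo_le 3 (by norm_num)
      exact light (by omega)
  · -- stair
    have e3 := h2.hi 3 (by norm_num)
    have e2 := h2.hi 2 (by norm_num)
    norm_num at e3 e2
    rcases Nat.eq_zero_or_pos (lo 3) with hz | hz
    · obtain ⟨Y, θ, B, T⟩ := tdStair h C h2 hz 13 (m := 13) le_rfl GB
      refine ⟨Y, θ, B, T, ?_⟩
      intro n R
      have := R.h2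
      omega
    · have := C.lo_le 3 (by norm_num)
      exact light (by omega)
  · omega
  · exact absurd h1 hF
  · -- late
    rcases Nat.lt_or_ge 3 a with ha | ha
    · have e3 := h2 3 ha
      exact light (by omega)
    · obtain rfl : a = 3 := by omega
      have D : LateD 6 3 lo hi := ⟨h0, h1, h2, h3, h4⟩
      rcases h4 with ⟨-, g2⟩ | g2
      · have hq := D.quad C g2
        have Q : QRows 6 3 lo hi := ⟨h2, h3, by
          intro k hk hk2
          have := hq (k - 3) (by omega) (by omega)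
          rwa [show 3 + (k - 3) = k by omega] at this⟩
        refine ⟨∅, fun _ => 0, _, tdQuad h C Q (n := 13) (m := 13) (G := GB) ?_, ?_⟩
        · intro z hz hl _ _ k1
          exact (A.quad Q z hz hl k1).elim
        · exact fun n R => (R.not_quad Q).elim
      · obtain ⟨n, R⟩ := exists_rw C h2 h3 g2
        exact DB.of_word h C A R

/-- the leading term for the label 3 -/
lemma lt_three3 {h : P → ℕ} {z : P} (hh : h z = 3) (h3 : nab 3 z = 2) (h4 : nab 4 z = 2)
    (h5 : nab 5 z = 2) (h6 : nab 6 z = 1) : 1 ≤ (lv P 3).card ∧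
      Lt 3 h z = X ^ (below P 3 + 6) * (1 + X) ^ ((lv P 3).card - 1) := by
  have hB : 2 ≤ (lv P 3).card := by
    have := nab_le z 3
    omega
  refine ⟨by omega, ?_⟩
  have h1 : nst 3 h z = 6 := by
    rw [nst_eq, hh]
    simp only [Finset.sum_range_succ, Finset.sum_range_zero]
    norm_num
    omega
  unfold Lt
  rw [h1, hh, h3, show nab (3 + 3) z = 1 from h6]
  congr 2

end

section

variable {P : Type u} [Fintype P] [PartialOrder P] [DecidableEq P] {r : ℕ}

/-- **The second stage.** -/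
theorem stageB {lo hi : Tops P → ℕ → ℕ} {e : Tops P → ℕ → ℕ → P} (h : Wd.NJ P r 6)
    (C : ∀ t : Tops P, Cp.Comp 6 (t : P) (lo t) (hi t) (e t))
    (S : ∀ t, Wd.Shape 6 (lo t) (hi t)) (t : Tops P) {n : ℕ} (R : Rw n (lo t) (hi t))
    (hn : 13 ≤ n) : ∀ z, ¬ Pend z (e t 6 1) := by
  classical
  choose Y θ B D using fun t => exists_DB h (C t) (S t) (NJ_no_six h C S t) (stageA h C S t)
  have W : C6 P r 13 13 (fun t => hi t 3 - lo t 3 + 1) Y θ B GB :=
    ⟨h, (card_level h.g.H h.g.good C (i := 3) (by norm_num)).symm, fun t => (D t).td⟩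
  have L := W.lad
  have no12 : ∀ z ∈ bdR (unnat (N6 Y)), cst 3 (h6 Y θ) z ≠ 12 := by
    refine Lad.step L h.g.H.gauss W.sum_b (n := 12) (a := below P 3 + 6) (by norm_num) ?_ ?_
    · intro z hz
      show 12 ≤ cst 3 (h6 Y θ) z
      rcases W.kind hz with h1 | ⟨-, h1, h2, h3, -⟩
      · omega
      · rw [h1, h2, h3]
    · intro z hz hc
      have hc' : cst 3 (h6 Y θ) z = 12 := hc
      rcases W.kind hz with h1 | ⟨-, h1, h2, -, h3, h4, h5, h6'⟩
      · omega
      · exact lt_three3 h2 h3 h4 h5 h6'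
  intro z hz
  obtain ⟨v5, v6, hv⟩ := R.vals
  obtain ⟨hl, -⟩ := lev7_of h (C t) (s := 1) (by omega) (by omega) hz.1
  have hxt := (C t).le_t 6 1 le_rfl (by omega) (by omega)
  obtain ⟨h1, h2⟩ := (D t).flip n R hn
  obtain ⟨g1, -, y, g2, -, -, g3⟩ := W.mem_bd hz.1 hxt hl (fun h' => h1 z h' hz)
  rw [hz.2 y g2, h2] at g3
  refine no12 z g1 ?_
  have h3 : Cvs (cW (e t)) (2 ^ 12) z := cvs_one (a := 12) hz
  rw [cst7 hl, g3, R.cost h (C t) hl (Nat.pow_lt_pow_right (by norm_num) (by omega)) h3]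
  exact (cc_flip n (R.mem2 hn)).1

end

end Pool.Agent.GaussPoset.J6
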