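import Pool.Agent.W_448j6_h22.KbA
import Pool.Agent.W_448kf_h15.KfG

/-!
MP_448cb3_co, G2, case B, window `j`: the pattern [DL] at the left end with `w32` free.  The proofs follow
helper15 (W_448kf_h15).
-/

namespace Pool.Agent.GaussPoset.Win.W4

set_option linter.unusedSectionVars false

open Finset
open Pool.Agent.GaussPoset.Win.SO (PN vp con on mem_PN vp_PD vp_PU)

universe u

variable {P : Type u} [Fintype P] [PartialOrder P] [DecidableEq P] {r i : ℕ}
variable {psi : P → P} {C K : Finset P} {w v : P} {m : ℕ} {x : ℕ → P}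

/-- the pattern [DL] at the left end, `w32` free -/
structure DLg (r i : ℕ) (K : Finset P) (psi : P → P) (C : Finset P) (w v : P) (m : ℕ) (x : ℕ → P) :
    Prop where
  W : PRow r i C m x
  Q : K5 r i K psi C w v
  hm : 3 ≤ m
  hw : uc w = {x 0, x 1}
  hv : dc v = {x 1, x 2}
  dn : ∀ k l, k < l → l ≤ m → dcv (x k) (x l) =
    if l = k + 1 then (if k = 0 then 2 else if k = 1 then 0 else 1) else 0

/-- the logarithmic form of (4,2) plus (2,1) -/
noncomputable def Lv (i : ℕ) (C : Finset P) : ℤ :=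
  I2.al 2 (st i C).card (ZS i C) + I2.Q4 (st i C).card (ZS i C)

/-- `w32` of a part -/
noncomputable def wv (i : ℕ) (C : Finset P) : ℤ := I2.w3 (st i C).card (ZS i C)

namespace DLg

variable (h : DLg r i K psi C w v m x)
include h

lemma hd : ∀ k l, k < l → l ≤ m → l ≠ k + 1 → dcv (x k) (x l) = 0 := by
  intro k l h1 h2 h3
  rw [h.dn k l h1 h2, if_neg h3]

lemma nw : nz i w = ed x 0 := by
  rw [nz_low h.Q.lw0, h.hw]
  rfl

lemma nv : nz i v = ed x 1 := by
  rw [nz_upp h.Q.lv0, h.hv]
  rfl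

lemma n01 : x 0 ≠ x 1 := h.W.ne (by omega) (by have := h.hm; omega) (by omega)
lemma n12 : x 1 ≠ x 2 := h.W.ne (by have := h.hm; omega) (by have := h.hm; omega) (by omega)
lemma n02 : x 0 ≠ x 2 := h.W.ne (by omega) (by have := h.hm; omega) (by omega)

/-- `Nx` at an edge -/
lemma Nw {k : ℕ} (hk : k < m) : (if Disjoint (nz i w) (ed x k) then (1 : ℤ) else 0) =
    if 2 ≤ k then 1 else 0 := by
  have := h.hm
  have e : Disjoint (nz i w) (ed x k) ↔ 2 ≤ k := by
    rw [h.nw, h.W.disj_ed (by omega) hk]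
    omega
  simp only [e]

lemma Nv {k : ℕ} (hk : k < m) : (if Disjoint (nz i v) (ed x k) then (1 : ℤ) else 0) =
    if 3 ≤ k then 1 else 0 := by
  have := h.hm
  have e : Disjoint (nz i v) (ed x k) ↔ 3 ≤ k := by
    rw [h.nv, h.W.disj_ed (by omega) hk]
    omega
  simp only [e]

lemma Mw {k : ℕ} (hk : k < m) : (if (nz i w ∩ ed x k).card = 1 then (1 : ℤ) else 0) =
    if k = 1 then 1 else 0 := by
  have := h.hm
  have e : ((nz i w ∩ ed x k).card = 1) ↔ k = 1 := by
    rw [h.nw, h.W.inter_ed (by omega) hk]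
    omega
  simp only [e]

lemma Mv {k : ℕ} (hk : k < m) : (if (nz i v ∩ ed x k).card = 1 then (1 : ℤ) else 0) =
    if k = 0 ∨ k = 2 then 1 else 0 := by
  have := h.hm
  have e : ((nz i v ∩ ed x k).card = 1) ↔ k = 0 ∨ k = 2 := by
    rw [h.nv, h.W.inter_ed (by omega) hk]
    omega
  simp only [e]

/-- nothing over the lost pair -/
lemma DE1 : DE i C x 1 = ∅ := by
  classical
  have hm := h.hm
  rw [eq_empty_iff_forall_notMem]
  intro z hz
  obtain ⟨hzC, hz1, hz2⟩ := mem_DE.1 hz
  obtain ⟨-, y, -, -, -, -, -, hor⟩ := PN_dat h.W.H (C := C) (mem_PN.2 ⟨hzC, Or.inl hz1⟩)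
  rcases hor with ⟨-, -, -, h4, h5, -⟩ | ⟨h3, -⟩
  · have ha : x 1 ∈ uc y := by
      rw [← h5, hz2]; exact (h.W.mem_ed (by omega) (by omega)).2 (Or.inl rfl)
    have hb : x 2 ∈ uc y := by
      rw [← h5, hz2]; exact (h.W.mem_ed (by omega) (by omega)).2 (Or.inr rfl)
    have h3 := h.dn 1 2 (by omega) (by omega)
    rw [if_pos rfl, if_neg (by omega), if_pos rfl] at h3
    unfold dcv at h3
    rw [card_eq_zero, filter_eq_empty_iff] at h3
    exact h3 (mem_univ y) ⟨mem_uc.1 ha, mem_uc.1 hb⟩
  · have := lev_PU h3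
    have := lev_PD hz1
    omega

lemma NE1 : NE i C x 1 = 0 := by
  unfold NE
  rw [h.DE1, h.W.ue_inner (by omega) h.hm]
  simp

/-- sums over the pendants -/
lemma sum_PN (f : P → ℤ) (g : Finset P → ℤ) : ∑ z ∈ PN i C, f z * g (sit i z) =
    ∑ k ∈ range m, (∑ z ∈ (PN i C).filter (fun z => sit i z = ed x k), f z) * g (ed x k) :=
  h.W.group h.hd f g

lemma sum_vp_split : ∑ z ∈ PN i C, vp i z = NE i C x 0 + NE i C x 2 + ∑ k ∈ Ico 3 m, NE i C x k := by
  have e1 := h.sum_PN (fun z => vp i z) (fun _ => 1)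
  simp only [mul_one] at e1
  rw [e1]
  simp only [← NE_eq]
  rw [range_split h.hm, h.NE1]
  ring

/-- `w32 = N_2 - 1` -/
lemma w3_eq : wv i C = NE i C x 2 - 1 := by
  have hm := h.hm
  unfold wv
  rw [h.Q.w3 h.hw h.hv h.n01 h.n12 h.n02]
  have e1 := h.sum_PN (fun z => vp i z) (fun T => (if Disjoint (nz i w) T then (1 : ℤ) else 0) -
    (if Disjoint (nz i v) T then (1 : ℤ) else 0))
  have e2 : ∑ z ∈ PN i C, vp i z * ((if Disjoint (nz i w) (sit i z) then (1 : ℤ) else 0) -
    (if Disjoint (nz i v) (sit i z) then (1 : ℤ) else 0)) =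
    ∑ z ∈ PN i C, vp i z * (Nx i w z - Nx i v z) := rfl
  rw [e2] at e1
  simp only [← NE_eq] at e1
  rw [sum_congr rfl (g := fun k => NE i C x k * ((if 2 ≤ k then 1 else 0) -
    (if 3 ≤ k then 1 else 0)))] at e1
  · rw [range_split hm] at e1
    have e3 : ∑ k ∈ Ico 3 m, NE i C x k * ((if 2 ≤ k then 1 else 0) -
        (if 3 ≤ k then (1 : ℤ) else 0)) = 0 := by
      refine sum_eq_zero fun k hk => ?_
      rw [mem_Ico] at hk
      rw [if_pos (by omega), if_pos (by omega)]
      ring
    rw [e3] at e1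
    norm_num at e1
    rw [e1]
  · intro k hk
    rw [mem_range] at hk
    rw [h.Nw hk, h.Nv hk]

/-- the children of the pendants -/
lemma sum_ch : ∑ z ∈ PN i C, vp i z * (ch i C z * (Nx i w z - Nx i v z)) = CH i C x 2 := by
  have hm := h.hm
  have e1 := h.sum_PN (fun z => vp i z * ch i C z)
    (fun T => (if Disjoint (nz i w) T then (1 : ℤ) else 0) -
      (if Disjoint (nz i v) T then (1 : ℤ) else 0))
  have e2 : ∑ z ∈ PN i C, vp i z * (ch i C z * (Nx i w z - Nx i v z)) =
      ∑ z ∈ PN i C, vp i z * ch i C z * ((if Disjoint (nz i w) (sit i z) then (1 : ℤ) else 0) -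
      (if Disjoint (nz i v) (sit i z) then (1 : ℤ) else 0)) := by
    refine sum_congr rfl fun z _ => ?_
    unfold Nx
    ring
  rw [e2, e1]
  have e0 : ∀ k, ∑ z ∈ (PN i C).filter (fun z => sit i z = ed x k), vp i z * ch i C z =
    CH i C x k := fun k => rfl
  simp only [e0]
  rw [sum_congr rfl (g := fun k => CH i C x k * ((if 2 ≤ k then 1 else 0) -
    (if 3 ≤ k then 1 else 0)))]
  · rw [range_split hm]
    have e3 : ∑ k ∈ Ico 3 m, CH i C x k * ((if 2 ≤ k then 1 else 0) -
        (if 3 ≤ k then (1 : ℤ) else 0)) = 0 := by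
      refine sum_eq_zero fun k hk => ?_
      rw [mem_Ico] at hk
      rw [if_pos (by omega), if_pos (by omega)]
      ring
    rw [e3]
    norm_num
  · intro k hk
    rw [mem_range] at hk
    rw [h.Nw hk, h.Nv hk]

/-- the pendants which meet a double in one site -/
lemma sum_mx : ∑ z ∈ PN i C, vp i z * (Mx i w z - Mx i v z) = - NE i C x 0 - NE i C x 2 := by
  have hm := h.hm
  have e1 := h.sum_PN (fun z => vp i z)
    (fun T => (if (nz i w ∩ T).card = 1 then (1 : ℤ) else 0) -
      (if (nz i v ∩ T).card = 1 then (1 : ℤ) else 0))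
  have e2 : ∑ z ∈ PN i C, vp i z * (Mx i w z - Mx i v z) =
      ∑ z ∈ PN i C, vp i z * ((if (nz i w ∩ sit i z).card = 1 then (1 : ℤ) else 0) -
      (if (nz i v ∩ sit i z).card = 1 then (1 : ℤ) else 0)) := rfl
  rw [e2, e1]
  simp only [← NE_eq]
  rw [sum_congr rfl (g := fun k => NE i C x k * ((if k = 1 then 1 else 0) -
    (if k = 0 ∨ k = 2 then 1 else 0)))]
  · rw [range_split hm]
    have e3 : ∑ k ∈ Ico 3 m, NE i C x k * ((if k = 1 then 1 else 0) -
        (if k = 0 ∨ k = 2 then (1 : ℤ) else 0)) = 0 := by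
      refine sum_eq_zero fun k hk => ?_
      rw [mem_Ico] at hk
      rw [if_neg (by omega), if_neg (by omega)]
      ring
    rw [e3, h.NE1]
    norm_num
    ring
  · intro k hk
    rw [mem_range] at hk
    rw [h.Mw hk, h.Mv hk]

/-- matched lower doubles over a pair -/
lemma mmx {a b : ℕ} (hab : a < b) (hb : b ≤ m) : mm i K C {x a, x b} =
    if b = a + 1 then (if a = 1 then 0 else 1) else 0 := by
  have hm := h.hm
  rw [h.Q.mm_pair (h.W.mem a (by omega)) (h.W.lev_x a (by omega))
    (h.W.ne (by omega) hb (by omega)), h.dn a b hab hb]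
  have e : (uc w = {x a, x b}) ↔ (a = 0 ∧ b = 1) := by
    rw [h.hw]
    constructor
    · intro h1
      have h2 : x a ∈ ({x 0, x 1} : Finset P) := by rw [h1]; exact mem_insert_self _ _
      have h3 : x b ∈ ({x 0, x 1} : Finset P) := by
        rw [h1]; exact mem_insert_of_mem (mem_singleton_self _)
      rw [mem_insert, mem_singleton] at h2 h3
      rcases h2 with h2 | h2
      · have := h.W.inj _ _ (by omega) (by omega) h2
        rcases h3 with h3 | h3
        · have := h.W.inj _ _ (by omega) (by omega) h3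
          omega
        · have := h.W.inj _ _ (by omega) (by omega) h3
          omega
      · have := h.W.inj _ _ (by omega) (by omega) h2
        rcases h3 with h3 | h3
        · have := h.W.inj _ _ (by omega) (by omega) h3
          omega
        · have := h.W.inj _ _ (by omega) (by omega) h3
          omega
    · rintro ⟨rfl, rfl⟩
      rfl
  simp only [e]
  split_ifs <;> first | omega | contradiction

lemma mmx' {a b : ℕ} (hab : a < b) (hb : b ≤ m) : mm i K C {x b, x a} =
    if b = a + 1 then (if a = 1 then 0 else 1) else 0 := by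
  rw [pair_comm]
  exact h.mmx hab hb

/-- no pendants at the ends of the doubled pair -/
lemma deg0 : (dc (x 0)).card = 2 := by
  have hm := h.hm
  have h1 := h.W.deg (k := 0) (by omega)
  have h2 := h.W.dc_le (k := 0) (by omega)
  have h3 : dcv (x 0) (x 1) ≤ ∑ l ∈ (range (m + 1)).erase 0, dcv (x 0) (x l) :=
    single_le_sum (f := fun l => dcv (x 0) (x l)) (fun _ _ => Nat.zero_le _)
      (mem_erase.2 ⟨by omega, mem_range.2 (by omega)⟩)
  rw [h.dn 0 1 (by omega) (by omega), if_pos rfl, if_pos rfl] at h3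
  omega

lemma dns {k l : ℕ} (hk : k ≤ m) (hl : l ≤ m) (hkl : k ≠ l) : dcv (x k) (x l) =
    if l = k + 1 then (if k = 0 then 2 else if k = 1 then 0 else 1) else
      if k = l + 1 then (if l = 0 then 2 else if l = 1 then 0 else 1) else 0 := by
  rcases Nat.lt_or_gt_of_ne hkl with h1 | h1
  · rw [h.dn k l h1 hl]
    split_ifs <;> first | omega | contradiction
  · rw [kf_dcv_comm, h.dn l k h1 hk]
    split_ifs <;> first | omega | contradiction

lemma deg1 : (dc (x 1)).card = 2 := by
  have hm := h.hm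
  have h1 := h.W.deg (k := 1) (by omega)
  have h2 := h.W.dc_le (k := 1) (by omega)
  have h3 : dcv (x 1) (x 0) ≤ ∑ l ∈ (range (m + 1)).erase 1, dcv (x 1) (x l) :=
    single_le_sum (f := fun l => dcv (x 1) (x l)) (fun _ _ => Nat.zero_le _)
      (mem_erase.2 ⟨by omega, mem_range.2 (by omega)⟩)
  rw [h.dns (by omega) (by omega) (by omega)] at h3
  norm_num at h3
  omega

lemma deg2 : (dc (x 2)).card = 1 + (pen (x 2)).card := by
  have hm := h.hm
  have h1 := h.W.deg (k := 2) (by omega)
  rw [sum_eq_single 3] at h1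
  · rw [h.dns (by omega) (by omega) (by omega)] at h1
    norm_num at h1
    omega
  · intro l hl hne
    rw [mem_erase, mem_range] at hl
    rw [h.dns (by omega) (by omega) (Ne.symm hl.1)]
    split_ifs <;> first | omega | contradiction
  · intro h2
    exact absurd (mem_erase.2 ⟨by omega, mem_range.2 (by omega)⟩) h2

lemma deg3 (hm4 : 4 ≤ m) : (dc (x 3)).card = 2 := by
  have h1 := h.W.deg (k := 3) (by omega)
  have h2 := h.W.dc_le (k := 3) (by omega)
  have h3 : ∑ l ∈ ({2, 4} : Finset ℕ), dcv (x 3) (x l) ≤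
      ∑ l ∈ (range (m + 1)).erase 3, dcv (x 3) (x l) := by
    refine sum_le_sum_of_subset ?_
    intro l hl
    rw [mem_insert, mem_singleton] at hl
    rw [mem_erase, mem_range]
    omega
  rw [sum_pair (by omega), h.dns (by omega) (by omega) (by omega),
    h.dns (by omega) (by omega) (by omega)] at h3
  norm_num at h3
  omega

/-- the matched near elements at the sites -/
lemma dg0 : dg i K C (x 0) = (uc (x 0)).card + 1 := by
  have hm := h.hm
  rw [h.Q.dg_eq (h.W.mem 0 (by omega)) (h.W.lev_x 0 (by omega)), h.deg0, h.hw, h.hv,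
    if_pos (mem_insert_self _ _), if_neg]
  · push_cast
    ring
  · rw [mem_insert, mem_singleton]
    rintro (h1 | h1)
    · exact h.n01 h1
    · exact h.n02 h1

lemma dg1 : dg i K C (x 1) = 2 := by
  have hm := h.hm
  rw [h.Q.dg_eq (h.W.mem 1 (by omega)) (h.W.lev_x 1 (by omega)), h.deg1, h.hw, h.hv,
    h.W.uc_inner (by omega) (by omega),
    if_pos (mem_insert_of_mem (mem_singleton_self _)), if_pos (mem_insert_self _ _)]
  norm_num

lemma dg2 : dg i K C (x 2) = 2 + (pen (x 2)).card := by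
  have hm := h.hm
  rw [h.Q.dg_eq (h.W.mem 2 (by omega)) (h.W.lev_x 2 (by omega)), h.deg2, h.hw, h.hv,
    h.W.uc_inner (by omega) (by omega), if_neg,
    if_pos (mem_insert_of_mem (mem_singleton_self _))]
  · push_cast
    ring
  · rw [mem_insert, mem_singleton]
    rintro (h1 | h1)
    · exact h.n02 h1.symm
    · exact h.n12 h1.symm

lemma dg3 : dg i K C (x 3) = (dc (x 3)).card + (uc (x 3)).card := by
  have hm := h.hm
  rw [h.Q.dg_eq (h.W.mem 3 (by omega)) (h.W.lev_x 3 (by omega)), h.hw, h.hv, if_neg, if_neg]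
  · ring
  · rw [mem_insert, mem_singleton]
    rintro (h1 | h1)
    · exact h.W.ne (by omega) (by omega) (by omega) h1
    · exact h.W.ne (by omega) (by omega) (by omega) h1
  · rw [mem_insert, mem_singleton]
    rintro (h1 | h1)
    · exact h.W.ne (by omega) (by omega) (by omega) h1
    · exact h.W.ne (by omega) (by omega) (by omega) h1

/-- the weights of the pendants in the form -/
lemma Ds0 {k : ℕ} (h2 : 2 ≤ k) (hk : k < m) : Ds i K C (ed x k) {x 0, x 1} =
    dg i K C (x k) + dg i K C (x (k + 1)) - 2 := by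
  have hm := h.hm
  have n : ∀ a b, a ≤ m → b ≤ m → a ≠ b → x a ≠ x b := fun a b ha hb hab => h.W.ne ha hb hab
  have e1 : mm i K C (ed x k ∪ {x 0, x 1}) = 2 := by
    unfold ed
    rw [mm_four (n _ _ (by omega) (by omega) (by omega)) (n _ _ (by omega) (by omega) (by omega))
      (n _ _ (by omega) (by omega) (by omega)) (n _ _ (by omega) (by omega) (by omega))
      (n _ _ (by omega) (by omega) (by omega)) (n _ _ (by omega) (by omega) (by omega)),
      h.mmx (by omega) (by omega), h.mmx (by omega) (by omega), h.mmx' (by omega) (by omega),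
      h.mmx' (by omega) (by omega), h.mmx' (by omega) (by omega), h.mmx' (by omega) (by omega)]
    split_ifs <;> first | omega | contradiction
  unfold Ds
  rw [e1]
  have e2 : ed x k = {x k, x (k + 1)} := rfl
  rw [e2, sum_pair (n _ _ (by omega) (by omega) (by omega))]

lemma Ds1 {k : ℕ} (h2 : 3 ≤ k) (hk : k < m) : Ds i K C (ed x k) {x 1, x 2} =
    dg i K C (x k) + dg i K C (x (k + 1)) - 1 - (if k = 3 then 1 else 0) := by
  have hm := h.hm
  have n : ∀ a b, a ≤ m → b ≤ m → a ≠ b → x a ≠ x b := fun a b ha hb hab => h.W.ne ha hb hab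
  have e1 : mm i K C (ed x k ∪ {x 1, x 2}) = 1 + (if k = 3 then 1 else 0) := by
    unfold ed
    rw [mm_four (n _ _ (by omega) (by omega) (by omega)) (n _ _ (by omega) (by omega) (by omega))
      (n _ _ (by omega) (by omega) (by omega)) (n _ _ (by omega) (by omega) (by omega))
      (n _ _ (by omega) (by omega) (by omega)) (n _ _ (by omega) (by omega) (by omega)),
      h.mmx (by omega) (by omega), h.mmx (by omega) (by omega), h.mmx' (by omega) (by omega),
      h.mmx' (by omega) (by omega), h.mmx' (by omega) (by omega), h.mmx' (by omega) (by omega)]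
    split_ifs <;> first | omega | contradiction
  unfold Ds
  rw [e1]
  have e2 : ed x k = {x k, x (k + 1)} := rfl
  rw [e2, sum_pair (n _ _ (by omega) (by omega) (by omega))]
  ring

/-- the weighted sum of the form -/
lemma sum_big (hm4 : 4 ≤ m) :
    ∑ z ∈ PN i C, vp i z * (Nx i w z * (dg i K C (x 0) + Ds i K C (sit i z) {x 0, x 1}) -
        Nx i v z * (dg i K C (x 2) + Ds i K C (sit i z) {x 1, x 2})) =
      NE i C x 2 * (dg i K C (x 0) + dg i K C (x 2) + dg i K C (x 3) - 2) +
      (dg i K C (x 0) - dg i K C (x 2) - 1) * ∑ k ∈ Ico 3 m, NE i C x k + NE i C x 3 := by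
  have hm := h.hm
  have e1 := h.sum_PN (fun z => vp i z)
    (fun T => (if Disjoint (nz i w) T then (1 : ℤ) else 0) *
      (dg i K C (x 0) + Ds i K C T {x 0, x 1}) -
      (if Disjoint (nz i v) T then (1 : ℤ) else 0) * (dg i K C (x 2) + Ds i K C T {x 1, x 2}))
  have e2 : ∑ z ∈ PN i C, vp i z * (Nx i w z * (dg i K C (x 0) + Ds i K C (sit i z) {x 0, x 1}) -
        Nx i v z * (dg i K C (x 2) + Ds i K C (sit i z) {x 1, x 2})) =
      ∑ z ∈ PN i C, vp i z * ((if Disjoint (nz i w) (sit i z) then (1 : ℤ) else 0) *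
      (dg i K C (x 0) + Ds i K C (sit i z) {x 0, x 1}) -
      (if Disjoint (nz i v) (sit i z) then (1 : ℤ) else 0) *
        (dg i K C (x 2) + Ds i K C (sit i z) {x 1, x 2})) := rfl
  rw [e2, e1]
  simp only [← NE_eq]
  rw [range_split hm]
  have v0 : (if Disjoint (nz i w) (ed x 0) then (1 : ℤ) else 0) = 0 := by
    rw [h.Nw (by omega)]; norm_num
  have v1 : (if Disjoint (nz i w) (ed x 1) then (1 : ℤ) else 0) = 0 := by
    rw [h.Nw (by omega)]; norm_num
  have v2 : (if Disjoint (nz i w) (ed x 2) then (1 : ℤ) else 0) = 1 := by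
    rw [h.Nw (by omega)]; norm_num
  have u0 : (if Disjoint (nz i v) (ed x 0) then (1 : ℤ) else 0) = 0 := by
    rw [h.Nv (by omega)]; norm_num
  have u1 : (if Disjoint (nz i v) (ed x 1) then (1 : ℤ) else 0) = 0 := by
    rw [h.Nv (by omega)]; norm_num
  have u2 : (if Disjoint (nz i v) (ed x 2) then (1 : ℤ) else 0) = 0 := by
    rw [h.Nv (by omega)]; norm_num
  have e3 : ∑ k ∈ Ico 3 m, NE i C x k * ((if Disjoint (nz i w) (ed x k) then (1 : ℤ) else 0) *
      (dg i K C (x 0) + Ds i K C (ed x k) {x 0, x 1}) -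
      (if Disjoint (nz i v) (ed x k) then (1 : ℤ) else 0) *
        (dg i K C (x 2) + Ds i K C (ed x k) {x 1, x 2})) =
      (dg i K C (x 0) - dg i K C (x 2) - 1) * ∑ k ∈ Ico 3 m, NE i C x k + NE i C x 3 := by
    have e4 : ∀ k ∈ Ico 3 m, NE i C x k * ((if Disjoint (nz i w) (ed x k) then (1 : ℤ) else 0) *
        (dg i K C (x 0) + Ds i K C (ed x k) {x 0, x 1}) -
        (if Disjoint (nz i v) (ed x k) then (1 : ℤ) else 0) *
          (dg i K C (x 2) + Ds i K C (ed x k) {x 1, x 2})) =
        (dg i K C (x 0) - dg i K C (x 2) - 1) * NE i C x k +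
          (if k = 3 then NE i C x k else 0) := by
      intro k hk
      rw [mem_Ico] at hk
      rw [h.Nw hk.2, h.Nv hk.2, if_pos (by omega), if_pos (by omega), h.Ds0 (by omega) hk.2,
        h.Ds1 hk.1 hk.2]
      split_ifs <;> ring
    rw [sum_congr rfl e4, sum_add_distrib, ← mul_sum, sum_ite_eq',
      if_pos (mem_Ico.2 ⟨le_rfl, by omega⟩)]
  rw [e3, v0, v1, v2, u0, u1, u2, h.NE1, h.Ds0 le_rfl (by omega)]
  ring

end DLg

end Pool.Agent.GaussPoset.Win.W4
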