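import Pool.Agent.W_448j6_h22.KbB

/-!
MP_448cb3_co, G2, case B, window `j`: the logarithmic form of a part with the pattern [DL], `w32` free.
The proofs follow helper15 (W_448kf_h15).
-/

namespace Pool.Agent.GaussPoset.Win.W4

set_option linter.unusedSectionVars false

open Finset
open Pool.Agent.GaussPoset.Win.SO (PN vp con on mem_PN vp_PD vp_PU TD)

universe u

variable {P : Type u} [Fintype P] [PartialOrder P] [DecidableEq P] {r i : ℕ}
variable {psi : P → P} {C K : Finset P} {w v : P} {m : ℕ} {x : ℕ → P}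

namespace DLg

variable (h : DLg r i K psi C w v m x)
include h

/-- `N_k ≥ 0` at the inner edges -/
lemma NE_nonneg {k : ℕ} (h1 : 1 ≤ k) (h2 : k + 2 ≤ m) : 0 ≤ NE i C x k := by
  unfold NE
  rw [h.W.ue_inner h1 h2, card_empty]
  push_cast
  omega

lemma sum_QS : ∑ p ∈ PN i C, vp i p + ∑ q ∈ M4 i C, vp i q.1 * vp i q.2 =
    QS (NE i C x) 0 m := by
  rw [h.W.sum_M4_row h.hd]
  have e1 := h.sum_PN (fun z => vp i z) (fun _ => 1)
  simp only [mul_one] at e1
  rw [e1]
  simp only [← NE_eq]
  unfold QS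
  rw [← range_eq_Ico, add_comm]
  congr 1
  refine sum_congr rfl fun k hk => ?_
  congr 1
  refine sum_congr rfl fun l hl => ?_
  rw [mem_range] at hk hl
  have e : (¬ Disjoint (ed x k) (ed x l)) ↔ (k ≤ l + 1 ∧ l ≤ k + 1) := by
    rw [h.W.disj_ed hk hl]
    omega
  simp only [e]

lemma num_QS : 2 * (((DC i C).card : ℤ) - (DU i C).card) + (D2 i C).card =
    QS (NE i C x) 0 m := by
  rw [← h.sum_QS]
  exact (num_form h.W.H h.W.uc1).symm

/-- THE VALUE of the form, at least five sites -/
theorem L_eq (hm4 : 4 ≤ m) : Lv i C = QS (NE i C x) 0 m +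
    2 * (((uc (x 0)).card : ℤ) - 1) * NE i C x 0 - 2 * NE i C x 3 - 8 * NE i C x 2 +
    ((uc (x 0)).card : ℤ) ^ 2 - (uc (x 0)).card + 10 + Zs i C w v - CH i C x 2 := by
  have hm := h.hm
  have hpen : (pen (x 2)).card = 0 := by rw [h.W.pen0 2 le_rfl (by omega), card_empty]
  have g0 := h.dg0
  have g1 := h.dg1
  have g2 := h.dg2
  have g3 := h.dg3
  rw [h.deg3 hm4, h.W.uc_inner (by omega) (by omega)] at g3
  rw [hpen] at g2
  have q1 := h.sum_QS
  have q2 := h.sum_vp_split
  have a1 := h.Q.al2 h.hw h.hv h.n01 h.n12 h.n02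
  have a2 := h.Q.form_gen h.hw h.hv h.n01 h.n12 h.n02
  have w3 := h.w3_eq
  unfold wv at w3
  rw [w3] at a2
  have m1 : mm i K C {x 0, x 1} = 1 := by
    have := h.mmx (a := 0) (b := 1) (by omega) (by omega)
    norm_num at this
    exact this
  have m2 : mm i K C {x 1, x 2} = 0 := by
    have := h.mmx (a := 1) (b := 2) (by omega) (by omega)
    norm_num at this
    exact this
  have m3 : mm i K C {x 0, x 2} = 0 := by
    have := h.mmx (a := 0) (b := 2) (by omega) (by omega)
    norm_num at this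
    exact this
  have s1 : ∑ z ∈ PN i C, vp i z * (ch i C z * (Nx i w z - Nx i v z) +
      2 * (Mx i w z - Mx i v z)) = CH i C x 2 + 2 * (- NE i C x 0 - NE i C x 2) := by
    rw [← h.sum_ch, ← h.sum_mx, mul_sum, ← sum_add_distrib]
    exact sum_congr rfl fun z _ => by ring
  rw [s1, h.sum_big hm4, m1, m2, m3, g0, g1, g2, g3] at a2
  rw [m1, m2, g0, g2] at a1
  unfold Lv
  rw [a2, a1, q2]
  rw [q2] at q1
  unfold Zs
  push_cast
  linear_combination q1

/-- the form with squares, at least five sites -/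
theorem L_form (hm4 : 4 ≤ m) : Lv i C = (NE i C x 0 + (uc (x 0)).card - 1) ^ 2 +
    (NE i C x 0 + (uc (x 0)).card - 1) + NE i C x 2 ^ 2 - 7 * NE i C x 2 + 10 +
    2 * (NE i C x 2 - 1) * NE i C x 3 + QS (NE i C x) 3 m + Zs i C w v - CH i C x 2 := by
  rw [h.L_eq hm4, QS_bot _ (by omega), QS_bot _ (by omega), QS_bot _ (by omega)]
  rw [if_pos (by omega), if_pos (by omega), if_pos (by omega), h.NE1]
  ring

/-- an element over two doubles -/
lemma T_vals {z : P} {k : ℕ} (hk : k + 2 ≤ m) (hs : sit i z = ed x k ∪ ed x (k + 1)) :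
    Nx i w z = (if 2 ≤ k then 1 else 0) ∧ Nx i v z = (if 3 ≤ k then 1 else 0) := by
  have hm := h.hm
  constructor
  · unfold Nx
    have e : Disjoint (nz i w) (sit i z) ↔ 2 ≤ k := by
      rw [hs, h.nw, disjoint_union_right, h.W.disj_ed (by omega) (by omega),
        h.W.disj_ed (by omega) (by omega)]
      omega
    simp only [e]
  · unfold Nx
    have e : Disjoint (nz i v) (sit i z) ↔ 3 ≤ k := by
      rw [hs, h.nv, disjoint_union_right, h.W.disj_ed (by omega) (by omega),
        h.W.disj_ed (by omega) (by omega)]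
      omega
    simp only [e]

lemma T_index {k l : ℕ} (hk : k + 2 ≤ m) (hl : l + 2 ≤ m)
    (hs : ed x k ∪ ed x (k + 1) = ed x l ∪ ed x (l + 1)) : k = l := by
  have key : ∀ k l, k + 2 ≤ m → l + 2 ≤ m → ed x k ∪ ed x (k + 1) = ed x l ∪ ed x (l + 1) →
      l ≤ k ∧ k ≤ l + 2 := by
    intro k l hk hl hs
    have h1 : x k ∈ ed x l ∪ ed x (l + 1) := by
      rw [← hs]
      exact mem_union_left _ ((h.W.mem_ed (by omega) (by omega)).2 (Or.inl rfl))
    rw [mem_union, h.W.mem_ed (by omega) (by omega), h.W.mem_ed (by omega) (by omega)] at h1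
    omega
  have h1 := key k l hk hl hs
  have h2 := key l k hl hk hs.symm
  omega

lemma T4_term (hm4 : 4 ≤ m) {z : P} (hz : z ∈ T4 i C) :
    tz i z * (Nx i w z - Nx i v z) =
      (if lev z < i ∧ sit i z = ed x 2 ∪ ed x 3 then 1 else 0) -
      (if i < lev z ∧ sit i z = ed x 2 ∪ ed x 3 then 1 else 0) := by
  have hlz : i < lev z ∨ lev z < i := by
    rcases mem_Z4.1 (T4_sub hz) with h1 | h1
    · have := (mem_ZL.1 h1).2.1
      omega
    · have := (mem_ZU.1 h1).2.1
      omega
  rcases hlz with hl | hl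
  · obtain ⟨k, y, y', hk, -, -, -, -, -, -, hs⟩ := h.W.T_low h.hd hz hl
    obtain ⟨v1, v2⟩ := h.T_vals hk hs
    have e : sit i z = ed x 2 ∪ ed x 3 ↔ k = 2 := by
      rw [hs]
      constructor
      · intro h1
        exact h.T_index hk (by omega) h1
      · rintro rfl
        rfl
    rw [v1, v2]
    unfold tz
    rw [if_pos hl]
    simp only [e, hl, true_and, show ¬ lev z < i by omega, false_and, if_false]
    split_ifs <;> omega
  · obtain ⟨k, y, y', hk, -, -, -, -, -, -, hs⟩ := h.W.T_upp hz hl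
    obtain ⟨v1, v2⟩ := h.T_vals hk hs
    have e : sit i z = ed x 2 ∪ ed x 3 ↔ k = 2 := by
      rw [hs]
      constructor
      · intro h1
        exact h.T_index hk (by omega) h1
      · rintro rfl
        rfl
    rw [v1, v2]
    unfold tz
    rw [if_neg (by omega)]
    simp only [e, hl, true_and, show ¬ i < lev z by omega, false_and, if_false]
    split_ifs <;> omega

/-- the contribution of the elements over three sites -/
theorem Zs_eq (hm4 : 4 ≤ m) : Zs i C w v = OCs i C w v + 2 * (TLs i C x).card -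
    2 * (TUs i C x).card := by
  classical
  rw [Zs_split, sum_congr rfl fun z hz => h.T4_term hm4 hz, sum_sub_distrib]
  unfold TLs TUs
  rw [card_filter, card_filter]
  push_cast
  ring

/-- at most one upper element over `x 2, x 3, x 4` -/
lemma TUs_le (hm4 : 4 ≤ m) : (TUs i C x).card ≤ 1 := by
  classical
  rw [card_le_one]
  intro z hz z' hz'
  unfold TUs at hz hz'
  rw [mem_filter] at hz hz'
  obtain ⟨k, y, y', hk, hzC, hlz, hne, huc, e1, e2, hs⟩ := h.W.T_upp hz.1 hz.2.1
  obtain ⟨l, q, q', hl, hzC', hlz', hne', huc', e1', e2', hs'⟩ := h.W.T_upp hz'.1 hz'.2.1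
  have hk2 : k = 2 := h.T_index hk (by omega) (hs.symm.trans hz.2.2)
  have hl2 : l = 2 := h.T_index hl (by omega) (hs'.symm.trans hz'.2.2)
  subst hk2
  subst hl2
  have g1 : q = y := h.W.up_uniq (by omega) e1' e1
  have g2 : q' = y' := h.W.up_uniq (by omega) e2' e2
  subst g1
  subst g2
  by_contra hzz
  have hlev : lev z < lev z + 1 := Nat.lt_succ_self _
  have hq : q ∈ dc z := by rw [huc]; exact mem_insert_self _ _
  have hq' : q' ∈ dc z := by rw [huc]; exact mem_insert_of_mem (mem_singleton_self _)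
  have hp : q ∈ dc z' := by rw [huc']; exact mem_insert_self _ _
  have hp' : q' ∈ dc z' := by rw [huc']; exact mem_insert_of_mem (mem_singleton_self _)
  have l1 := lev_cov h.W.H (mem_dc.1 hq)
  have l2 := lev_cov h.W.H (mem_dc.1 hq')
  have c1 := h.W.hC.dn hzC (by omega) (mem_dc.1 hq)
  have c2 := h.W.hC.dn hzC (by omega) (mem_dc.1 hq')
  have h5 := h.W.up1 q c1 q' c2 (by omega) (by omega) hne
  have h6 : ({z, z'} : Finset P) ⊆ univ.filter (fun y => q ⋖ y ∧ q' ⋖ y) := by
    intro s hs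
    rw [mem_insert, mem_singleton] at hs
    rw [mem_filter]
    rcases hs with rfl | rfl
    · exact ⟨mem_univ _, mem_dc.1 hq, mem_dc.1 hq'⟩
    · exact ⟨mem_univ _, mem_dc.1 hp, mem_dc.1 hp'⟩
  have h7 := card_le_card h6
  rw [card_pair hzz] at h7
  unfold ucv at h5
  have h8 : (univ.filter (fun y => q ⋖ y ∧ q' ⋖ y)).card ≤ 1 := by convert h5
  omega

lemma Z4_term3 (hm3 : m = 3) {z : P} (hz : z ∈ Z4 i C) : Nx i w z = 0 ∧ Nx i v z = 0 := by
  classical
  obtain ⟨h1, h2⟩ := Z4_sites h.W.H h.W.hC hz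
  have h3 := h.W.card_st
  have key : ∀ k, k < m → ¬ Disjoint (ed x k) (sit i z) := by
    intro k hk hd
    have h4 : ed x k ∪ sit i z ⊆ st i C := union_subset (h.W.ed_sub hk) h2
    have h5 := card_le_card h4
    rw [card_union_of_disjoint hd, h.W.card_ed hk] at h5
    omega
  constructor
  · unfold Nx
    rw [h.nw, if_neg (key 0 (by omega))]
  · unfold Nx
    rw [h.nv, if_neg (key 1 (by omega))]

lemma Zs_three (hm3 : m = 3) : Zs i C w v = 2 * ((Z4 i C).card - (T4 i C).card : ℤ) := by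
  unfold Zs
  rw [sum_eq_zero, mul_zero, sub_zero]
  intro z hz
  obtain ⟨h1, h2⟩ := h.Z4_term3 hm3 hz
  rw [h1, h2]
  ring

lemma sum_big3 (hm3 : m = 3) :
    ∑ z ∈ PN i C, vp i z * (Nx i w z * (dg i K C (x 0) + Ds i K C (sit i z) {x 0, x 1}) -
        Nx i v z * (dg i K C (x 2) + Ds i K C (sit i z) {x 1, x 2})) =
      NE i C x 2 * (dg i K C (x 0) + dg i K C (x 2) + dg i K C (x 3) - 2) := by
  have e1 := h.sum_PN (fun z => vp i z)
    (fun T => (if Disjoint (nz i w) T then (1 : ℤ) else 0) *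
      (dg i K C (x 0) + Ds i K C T {x 0, x 1}) -
      (if Disjoint (nz i v) T then (1 : ℤ) else 0) * (dg i K C (x 2) + Ds i K C T {x 1, x 2}))
  have e2 : ∑ z ∈ PN i C, vp i z * (Nx i w z * (dg i K C (x 0) + Ds i K C (sit i z) {x 0, x 1}) -
        Nx i v z * (dg i K C (x 2) + Ds i K C (sit i z) {x 1, x 2})) =
      ∑ z ∈ PN i C, vp i z * ((if Disjoint (nz i w) (sit i z) then (1 : ℤ) else 0) *
      (dg i K C (x 0) + Ds i K C (sit i z) {x 0, x 1}) -
      (if Disjoint (nz i v) (sit i z) then (1 : ℤ) else 0) *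
        (dg i K C (x 2) + Ds i K C (sit i z) {x 1, x 2})) := rfl
  rw [e2, e1]
  simp only [← NE_eq]
  rw [range_split h.hm]
  have v0 : (if Disjoint (nz i w) (ed x 0) then (1 : ℤ) else 0) = 0 := by
    rw [h.Nw (by omega)]; norm_num
  have v2 : (if Disjoint (nz i w) (ed x 2) then (1 : ℤ) else 0) = 1 := by
    rw [h.Nw (by omega)]; norm_num
  have u0 : (if Disjoint (nz i v) (ed x 0) then (1 : ℤ) else 0) = 0 := by
    rw [h.Nv (by omega)]; norm_num
  have u2 : (if Disjoint (nz i v) (ed x 2) then (1 : ℤ) else 0) = 0 := by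
    rw [h.Nv (by omega)]; norm_num
  have e3 : Ico 3 m = ∅ := by rw [hm3]; rfl
  rw [e3, sum_empty, v0, v2, u0, u2, h.NE1, h.Ds0 le_rfl (by omega)]
  ring

lemma deg3' (hm3 : m = 3) : (dc (x 3)).card = 1 + (pen (x 3)).card := by
  have h1 := h.W.deg (k := 3) (by omega)
  rw [sum_eq_single 2] at h1
  · rw [h.dns (by omega) (by omega) (by omega)] at h1
    norm_num at h1
    omega
  · intro l hl hne
    rw [mem_erase, mem_range] at hl
    rw [h.dns (by omega) (by omega) (Ne.symm hl.1)]
    split_ifs <;> omega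
  · intro h2
    exact absurd (mem_erase.2 ⟨by omega, mem_range.2 (by omega)⟩) h2

/-- THE VALUE of the form, four sites -/
theorem L_form3 (hm3 : m = 3) : Lv i C =
    (NE i C x 0 + (uc (x 0)).card - 1 - (pen (x 2)).card) ^ 2 +
    (NE i C x 0 + (uc (x 0)).card - 1 - (pen (x 2)).card) + 10 + 4 * (pen (x 2)).card +
    NE i C x 2 ^ 2 - NE i C x 2 -
    2 * NE i C x 2 * ((uc (x 3)).card + 2 * (pen (x 2)).card + (pen (x 3)).card) +
    2 * ((Z4 i C).card - (T4 i C).card : ℤ) - CH i C x 2 := by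
  have hm := h.hm
  have g0 := h.dg0
  have g1 := h.dg1
  have g2 := h.dg2
  have g3 := h.dg3
  rw [h.deg3' hm3] at g3
  have q1 := h.sum_QS
  rw [QS_bot _ (by omega), QS_bot _ (by omega), QS_bot _ (by omega)] at q1
  rw [if_pos (by omega), if_pos (by omega), if_neg (by omega), h.NE1] at q1
  have e3 : QS (NE i C x) (0 + 1 + 1 + 1) m = 0 := by
    rw [hm3]
    exact QS_self _ _
  rw [e3] at q1
  have q2 := h.sum_vp_split
  have e4 : Ico 3 m = ∅ := by rw [hm3]; rfl
  rw [e4, sum_empty] at q2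
  have a1 := h.Q.al2 h.hw h.hv h.n01 h.n12 h.n02
  have a2 := h.Q.form_gen h.hw h.hv h.n01 h.n12 h.n02
  have w3 := h.w3_eq
  unfold wv at w3
  rw [w3] at a2
  have m1 : mm i K C {x 0, x 1} = 1 := by
    have := h.mmx (a := 0) (b := 1) (by omega) (by omega)
    norm_num at this
    exact this
  have m2 : mm i K C {x 1, x 2} = 0 := by
    have := h.mmx (a := 1) (b := 2) (by omega) (by omega)
    norm_num at this
    exact this
  have m3 : mm i K C {x 0, x 2} = 0 := by
    have := h.mmx (a := 0) (b := 2) (by omega) (by omega)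
    norm_num at this
    exact this
  have s1 : ∑ z ∈ PN i C, vp i z * (ch i C z * (Nx i w z - Nx i v z) +
      2 * (Mx i w z - Mx i v z)) = CH i C x 2 + 2 * (- NE i C x 0 - NE i C x 2) := by
    rw [← h.sum_ch, ← h.sum_mx, mul_sum, ← sum_add_distrib]
    exact sum_congr rfl fun z _ => by ring
  have s2 : ∑ z ∈ Z4 i C, tz i z * (Nx i w z - Nx i v z) = 0 := by
    refine sum_eq_zero fun z hz => ?_
    obtain ⟨h1, h2⟩ := h.Z4_term3 hm3 hz
    rw [h1, h2]
    ring
  rw [s1, s2, h.sum_big3 hm3, m1, m2, m3, g0, g1, g2, g3] at a2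
  rw [m1, m2, g0, g2] at a1
  unfold Lv
  rw [a2, a1, q2]
  rw [q2] at q1
  push_cast
  linear_combination q1

/-- the children of the pendants over `x 2, x 3` -/
lemma CH2_le : CH i C x 2 ≤ ∑ a ∈ DE i C x 2, (2 * ((pen a).card : ℤ)) +
    (DE i C x 2).card * ((DE i C x 2).card - 1) := by
  classical
  have H := h.W.H
  have hm := h.hm
  unfold CH
  have e1 : (PN i C).filter (fun z => sit i z = ed x 2) = DE i C x 2 ∪ UE i C x 2 := by
    rw [PN_eq, filter_union]
    rfl
  have e2 : Disjoint (DE i C x 2) (UE i C x 2) := disjoint_filter_filter (DC_UC i C)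
  rw [e1, sum_union e2]
  have e3 : ∑ z ∈ UE i C x 2, vp i z * ch i C z ≤ 0 := by
    refine sum_nonpos fun z hz => ?_
    rw [vp_PU (mem_UE.1 hz).2.1]
    have := h.W.ch_nonneg (C := C) z
    linarith
  have e4 : ∑ z ∈ DE i C x 2, vp i z * ch i C z =
      ∑ a ∈ DE i C x 2, (2 * ((pen a).card : ℤ)) +
        (DE i C x 2).card * ((DE i C x 2).card - 1) := by
    have e5 : ∀ z ∈ DE i C x 2, vp i z * ch i C z =
        2 * ((pen z).card : ℤ) + ((DE i C x 2).card - 1) := by
      intro a ham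
      obtain ⟨haC, haP, has⟩ := mem_DE.1 ham
      obtain ⟨-, y, -, -, -, -, -, hor⟩ := PN_dat H (C := C) (mem_PN.2 ⟨haC, Or.inl haP⟩)
      rcases hor with ⟨-, hla, hly, h4, h5, -, -⟩ | ⟨h3, -⟩
      swap
      · have := lev_PU h3
        have := lev_PD haP
        omega
      have hyC : y ∈ C := h.W.hC.up haC (mem_uc.1 (by rw [h4]; exact mem_singleton_self y))
      have hye : uc y = ed x 2 := by rw [← h5, has]
      have hdcv := h.dn 2 3 (by omega) (by omega)
      rw [if_pos (by omega), if_neg (by omega), if_neg (by omega)] at hdcv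
      unfold dcv at hdcv
      obtain ⟨s, hs⟩ := card_eq_one.1 hdcv
      have huniq : ∀ y', uc y' = ed x 2 → y' = s := by
        intro y' hy'
        have : y' ∈ ({s} : Finset P) := by
          rw [← hs, mem_filter]
          refine ⟨mem_univ _, ?_, ?_⟩
          · rw [← mem_uc, hy']
            exact (h.W.mem_ed (by omega) (by omega)).2 (Or.inl rfl)
          · rw [← mem_uc, hy']
            exact (h.W.mem_ed (by omega) (by omega)).2 (Or.inr rfl)
        exact mem_singleton.1 this
      have hpy : pen y = DE i C x 2 := by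
        ext g
        constructor
        · intro hg
          have hgu := uc_pen hg
          have hgl := lev_cov H (mem_pen.1 hg).1
          have hgC := h.W.cl g y hyC hgu
          refine mem_DE.2 ⟨hgC, mem_PD.2 ⟨by omega, by rw [hgu, card_singleton], y,
            (mem_pen.1 hg).1, ?_⟩, ?_⟩
          · rw [hye]
            exact h.W.card_ed (by omega)
          · rw [SO.sit_PD H (by omega) hgu, hye]
        · intro hg
          obtain ⟨hgC, hgP, hgs⟩ := mem_DE.1 hg
          obtain ⟨-, y', -, -, -, -, -, hor'⟩ := PN_dat H (C := C) (mem_PN.2 ⟨hgC, Or.inl hgP⟩)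
          rcases hor' with ⟨-, hlg, hly', g4, g5, -, -⟩ | ⟨g3, -⟩
          swap
          · have := lev_PU g3
            have := lev_PD hgP
            omega
          have hye' : uc y' = ed x 2 := by rw [← g5, hgs]
          have hyy : y' = y := (huniq y' hye').trans (huniq y hye).symm
          subst hyy
          exact mem_pen.2 ⟨mem_uc.1 (by rw [g4]; exact mem_singleton_self y'),
            by rw [g4, card_singleton]⟩
      rw [vp_PD haP, h.W.ch_PD haP haC h4, hpy]
      ring
    rw [sum_congr rfl e5, sum_add_distrib, sum_const, nsmul_eq_mul]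
  rw [e4]
  linarith

lemma UE_le (k : ℕ) : (UE i C x k).card ≤ 1 :=
  (card_le_card (filter_subset _ _)).trans h.W.uc1

end DLg

end Pool.Agent.GaussPoset.Win.W4
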