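import Pool.Agent.W_448j6_h22.KbE

/-!
MP_448cb3_co, G2, case B, window `j`: the functional of a part with three sites and two unmatched doubles;
the patterns [DL] and R with three sites.
-/

namespace Pool.Agent.GaussPoset.Win.W4

set_option linter.unusedSectionVars false

open Finset
open Pool.Agent.GaussPoset.Win.SO (PN vp con on mem_PN vp_PD vp_PU)

universe u

variable {P : Type u} [Fintype P] [PartialOrder P] [DecidableEq P] {r i : ℕ}
variable {psi : P → P} {C K : Finset P} {w v p q s : P} {x : ℕ → P}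

lemma three_meet {S T U : Finset P} (hU : U.card = 3) (hS : S ⊆ U) (hT : T ⊆ U)
    (h : 4 ≤ S.card + T.card) : ¬ Disjoint S T := by
  intro hd
  have h1 := card_le_card (union_subset hS hT)
  rw [card_union_of_disjoint hd] at h1
  omega

lemma two_meet_one {S T U : Finset P} (hU : U.card = 3) (hS : S ⊆ U) (hT : T ⊆ U)
    (h2 : S.card = 2) (h2' : T.card = 2) : ((S ∩ T).card = 1) ↔ T ≠ S := by
  have h0 := three_meet hU hS hT (by omega)
  constructor
  · rintro h1 rfl
    rw [inter_self] at h1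
    omega
  · intro h1
    have h3 : 0 < (S ∩ T).card := by
      rw [Nat.pos_iff_ne_zero]
      intro h4
      rw [card_eq_zero, ← disjoint_iff_inter_eq_empty] at h4
      exact h0 h4
    by_contra h4
    have h5 : S ∩ T = T := by
      refine eq_of_subset_of_card_le inter_subset_right ?_
      omega
    have h6 : T ⊆ S := by rw [← h5]; exact inter_subset_left
    exact h1 (eq_of_subset_of_card_le h6 (by omega))

section three

variable (Q : K5 r i K psi C w v) (hw : uc w = {p, q}) (hv : dc v = {q, s}) (hpq : p ≠ q)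
  (hqs : q ≠ s) (hps : p ≠ s) (hst : st i C = {p, q, s})
include Q hw hv hpq hqs hps hst

lemma K5.three_card : (st i C).card = 3 := by
  rw [hst, card_insert_of_notMem, card_pair hqs]
  rw [mem_insert, mem_singleton]
  push Not
  exact ⟨hpq, hps⟩

lemma K5.three_w : nz i w ⊆ st i C ∧ (nz i w).card = 2 := by
  rw [nz_low Q.lw0, hw, hst]
  exact ⟨fun y hy => by
    rw [mem_insert, mem_singleton] at hy
    rw [mem_insert, mem_insert, mem_singleton]
    tauto, card_pair hpq⟩

lemma K5.three_v : nz i v ⊆ st i C ∧ (nz i v).card = 2 := by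
  rw [nz_upp Q.lv0, hv, hst]
  exact ⟨fun y hy => by
    rw [mem_insert, mem_singleton] at hy
    rw [mem_insert, mem_insert, mem_singleton]
    tauto, card_pair hqs⟩

lemma K5.three_N {z : P} (hz : z ∈ PN i C) : Nx i w z = 0 ∧ Nx i v z = 0 := by
  obtain ⟨hzC, y, -, -, -, hs2, -, -⟩ := PN_dat Q.H hz
  have h1 := SO.sit_part Q.H Q.hC hzC
  obtain ⟨w1, w2⟩ := Q.three_w hw hv hpq hqs hps hst
  obtain ⟨v1, v2⟩ := Q.three_v hw hv hpq hqs hps hst
  have h3 := Q.three_card hw hv hpq hqs hps hst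
  unfold Nx
  exact ⟨if_neg (three_meet h3 w1 h1 (by omega)), if_neg (three_meet h3 v1 h1 (by omega))⟩

lemma K5.three_Z {z : P} (hz : z ∈ Z4 i C) : Nx i w z = 0 ∧ Nx i v z = 0 := by
  obtain ⟨h1, h2⟩ := Z4_sites Q.H Q.hC hz
  obtain ⟨w1, w2⟩ := Q.three_w hw hv hpq hqs hps hst
  obtain ⟨v1, v2⟩ := Q.three_v hw hv hpq hqs hps hst
  have h3 := Q.three_card hw hv hpq hqs hps hst
  unfold Nx
  exact ⟨if_neg (three_meet h3 w1 h2 (by omega)), if_neg (three_meet h3 v1 h2 (by omega))⟩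

/-- `w32 = -1` -/
lemma K5.three_w3 : wv i C = -1 := by
  unfold wv
  rw [Q.w3 hw hv hpq hqs hps, sum_eq_zero]
  · ring
  · intro z hz
    obtain ⟨h1, h2⟩ := Q.three_N hw hv hpq hqs hps hst hz
    rw [h1, h2]
    ring

lemma K5.three_M4 : ∑ q ∈ M4 i C, vp i q.1 * vp i q.2 = (∑ z ∈ PN i C, vp i z) ^ 2 := by
  classical
  rw [sum_M4, sq, sum_mul_sum]
  refine sum_congr rfl fun z hz => sum_congr rfl fun z' hz' => ?_
  obtain ⟨hzC, y, -, -, -, hs2, -, -⟩ := PN_dat Q.H hz
  obtain ⟨hzC', y', -, -, -, hs2', -, -⟩ := PN_dat Q.H hz'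
  rw [if_pos (three_meet (Q.three_card hw hv hpq hqs hps hst) (SO.sit_part Q.H Q.hC hzC)
    (SO.sit_part Q.H Q.hC hzC') (by omega))]

lemma K5.three_mx : ∑ z ∈ PN i C, vp i z * (Mx i w z - Mx i v z) =
    ∑ z ∈ (PN i C).filter (fun z => sit i z = {q, s}), vp i z -
      ∑ z ∈ (PN i C).filter (fun z => sit i z = {p, q}), vp i z := by
  classical
  obtain ⟨w1, w2⟩ := Q.three_w hw hv hpq hqs hps hst
  obtain ⟨v1, v2⟩ := Q.three_v hw hv hpq hqs hps hst
  have h3 := Q.three_card hw hv hpq hqs hps hst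
  have ew : nz i w = {p, q} := by rw [nz_low Q.lw0, hw]
  have ev : nz i v = {q, s} := by rw [nz_upp Q.lv0, hv]
  rw [sum_filter, sum_filter, ← sum_sub_distrib]
  refine sum_congr rfl fun z hz => ?_
  obtain ⟨hzC, y, -, -, -, hs2, -, -⟩ := PN_dat Q.H hz
  have h1 := SO.sit_part Q.H Q.hC hzC
  have a1 := two_meet_one h3 w1 h1 w2 hs2
  have a2 := two_meet_one h3 v1 h1 v2 hs2
  unfold Mx
  simp only [a1, a2]
  rw [ew, ev]
  split_ifs <;> first | (exfalso; tauto) | ring1

/-- THE VALUE of the functional, three sites -/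
theorem K5.T_three : Tv i C =
    (∑ z ∈ PN i C, vp i z + (dg i K C p - dg i K C s - mm i K C {p, q} + mm i K C {q, s})) ^ 2 +
    (∑ z ∈ PN i C, vp i z + (dg i K C p - dg i K C s - mm i K C {p, q} + mm i K C {q, s})) +
    2 * ((Z4 i C).card - (T4 i C).card : ℤ) - 6 +
    2 * ∑ z ∈ (PN i C).filter (fun z => sit i z = {p, q}), vp i z -
    2 * ∑ z ∈ (PN i C).filter (fun z => sit i z = {q, s}), vp i z +
    2 * (dg i K C p + dg i K C s + 2 * dg i K C q - 2 * mm i K C {p, q} - 2 * mm i K C {q, s} -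
      mm i K C {p, s}) := by
  have a1 := Q.al2 hw hv hpq hqs hps
  have a2 := Q.form_gen hw hv hpq hqs hps
  have a3 := Q.three_w3 hw hv hpq hqs hps hst
  have a4 := Q.three_mx hw hv hpq hqs hps hst
  unfold wv at a3
  have s1 : ∑ z ∈ PN i C, vp i z * (ch i C z * (Nx i w z - Nx i v z) +
      2 * (Mx i w z - Mx i v z)) = 2 * ∑ z ∈ PN i C, vp i z * (Mx i w z - Mx i v z) := by
    rw [mul_sum]
    refine sum_congr rfl fun z hz => ?_
    obtain ⟨h1, h2⟩ := Q.three_N hw hv hpq hqs hps hst hz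
    rw [h1, h2]
    ring
  have s2 : ∑ z ∈ Z4 i C, tz i z * (Nx i w z - Nx i v z) = 0 := by
    refine sum_eq_zero fun z hz => ?_
    obtain ⟨h1, h2⟩ := Q.three_Z hw hv hpq hqs hps hst hz
    rw [h1, h2]
    ring
  have s3 : ∑ z ∈ PN i C, vp i z * (Nx i w z * (dg i K C p + Ds i K C (sit i z) {p, q}) -
        Nx i v z * (dg i K C s + Ds i K C (sit i z) {q, s})) = 0 := by
    refine sum_eq_zero fun z hz => ?_
    obtain ⟨h1, h2⟩ := Q.three_N hw hv hpq hqs hps hst hz
    rw [h1, h2]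
    ring
  rw [s1, s2, s3, a4, a3, Q.three_M4 hw hv hpq hqs hps hst] at a2
  unfold Tv Lv wv
  rw [a2, a1, a3]
  ring

/-- A LOWER BOUND -/
theorem K5.T_three_ge : - 6 +
    2 * ∑ z ∈ (PN i C).filter (fun z => sit i z = {p, q}), vp i z -
    2 * ∑ z ∈ (PN i C).filter (fun z => sit i z = {q, s}), vp i z +
    2 * (dg i K C p + dg i K C s + 2 * dg i K C q - 2 * mm i K C {p, q} - 2 * mm i K C {q, s} -
      mm i K C {p, s}) ≤ Tv i C := by
  rw [Q.T_three hw hv hpq hqs hps hst]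
  have h1 := sq_add_nonneg
    (∑ z ∈ PN i C, vp i z + (dg i K C p - dg i K C s - mm i K C {p, q} + mm i K C {q, s}))
  have h2 := card_le_card (T4_subset i C)
  have h3 : ((T4 i C).card : ℤ) ≤ (Z4 i C).card := by exact_mod_cast h2
  linarith

end three

end Pool.Agent.GaussPoset.Win.W4
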