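import Pool.Agent.W_448j6_h22.KbF

/-!
MP_448cb3_co, G2, case B, window `j`: the patterns [DL] and R with three sites.
-/

namespace Pool.Agent.GaussPoset.Win.W4

set_option linter.unusedSectionVars false

open Finset
open Pool.Agent.GaussPoset.Win.SO (PN vp con on mem_PN vp_PD vp_PU)

universe u

variable {P : Type u} [Fintype P] [PartialOrder P] [DecidableEq P] {r i : ℕ}
variable {psi : P → P} {C K : Finset P} {w v p q s : P} {x : ℕ → P}

/-- no upper pendants over a pair without a common upper cover -/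
lemma vp_nonneg (H : Gr P r) {a b : P} (h : ucv a b = 0) :
    0 ≤ ∑ z ∈ (PN i C).filter (fun z => sit i z = {a, b}), vp i z := by
  classical
  refine sum_nonneg fun z hz => ?_
  rw [mem_filter] at hz
  obtain ⟨hzC, y, -, -, -, hs2, -, hor⟩ := PN_dat H hz.1
  rcases hor with ⟨-, -, -, -, -, h6, -⟩ | ⟨-, -, -, -, h5, -, -⟩
  · rw [h6]
    norm_num
  · exfalso
    rw [hz.2] at h5
    have h1 : a ∈ dc y := by rw [← h5]; exact mem_insert_self _ _
    have h2 : b ∈ dc y := by rw [← h5]; exact mem_insert_of_mem (mem_singleton_self _)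
    have h3 := StA_ucv_pos (mem_dc.1 h1) (mem_dc.1 h2)
    omega

/-- no lower pendants over a pair without a common lower cover -/
lemma vp_nonpos (H : Gr P r) {a b : P} (h : dcv a b = 0) :
    ∑ z ∈ (PN i C).filter (fun z => sit i z = {a, b}), vp i z ≤ 0 := by
  classical
  refine sum_nonpos fun z hz => ?_
  rw [mem_filter] at hz
  obtain ⟨hzC, y, -, -, -, hs2, -, hor⟩ := PN_dat H hz.1
  rcases hor with ⟨-, -, -, -, h5, -, -⟩ | ⟨-, -, -, -, -, h6, -⟩
  · exfalso
    rw [hz.2] at h5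
    have h1 : a ∈ uc y := by rw [← h5]; exact mem_insert_self _ _
    have h2 : b ∈ uc y := by rw [← h5]; exact mem_insert_of_mem (mem_singleton_self _)
    have h3 := StA_dcv_pos (mem_uc.1 h1) (mem_uc.1 h2)
    omega
  · rw [h6]
    norm_num

lemma PRow.st_three (W : PRow r i C 2 x) : st i C = {x 0, x 1, x 2} := by
  ext y
  rw [mem_st, mem_insert, mem_insert, mem_singleton]
  constructor
  · rintro ⟨h1, h2⟩
    obtain ⟨k, hk, rfl⟩ := W.surj y h1 h2
    have h3 : k = 0 ∨ k = 1 ∨ k = 2 := by omega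
    rcases h3 with rfl | rfl | rfl
    · exact Or.inl rfl
    · exact Or.inr (Or.inl rfl)
    · exact Or.inr (Or.inr rfl)
  · rintro (rfl | rfl | rfl)
    · exact ⟨W.mem 0 (by omega), W.lev_x 0 (by omega)⟩
    · exact ⟨W.mem 1 (by omega), W.lev_x 1 (by omega)⟩
    · exact ⟨W.mem 2 (by omega), W.lev_x 2 (by omega)⟩

lemma sum_er3 (f : ℕ → ℕ) : (∑ l ∈ (range (2 + 1)).erase 0, f l = f 1 + f 2) ∧
    (∑ l ∈ (range (2 + 1)).erase 1, f l = f 0 + f 2) ∧
    (∑ l ∈ (range (2 + 1)).erase 2, f l = f 0 + f 1) := by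
  have e0 : (range (2 + 1)).erase 0 = {1, 2} := by decide
  have e1 : (range (2 + 1)).erase 1 = {0, 2} := by decide
  have e2 : (range (2 + 1)).erase 2 = {0, 1} := by decide
  rw [e0, e1, e2, sum_pair (by omega), sum_pair (by omega), sum_pair (by omega)]
  exact ⟨rfl, rfl, rfl⟩

lemma pair_ne {a b c : P} (hac : a ≠ c) (hbc : b ≠ c) (d : P) : ({a, b} : Finset P) ≠ {c, d} := by
  intro h
  have h1 : c ∈ ({a, b} : Finset P) := by rw [h]; exact mem_insert_self _ _
  rw [mem_insert, mem_singleton] at h1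
  rcases h1 with h1 | h1
  · exact hac h1.symm
  · exact hbc h1.symm

/-- the pattern [DL] with three sites -/
structure DL2 (r i : ℕ) (K : Finset P) (psi : P → P) (C : Finset P) (w v : P) (x : ℕ → P) :
    Prop where
  W : PRow r i C 2 x
  Q : K5 r i K psi C w v
  hw : uc w = {x 0, x 1}
  hv : dc v = {x 1, x 2}
  d01 : dcv (x 0) (x 1) = 2
  d12 : dcv (x 1) (x 2) = 0
  d02 : dcv (x 0) (x 2) = 0

/-- the pattern R with three sites -/
structure R2 (r i : ℕ) (K : Finset P) (psi : P → P) (C : Finset P) (w v : P) (x : ℕ → P) :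
    Prop where
  W : PRow r i C 2 x
  Q : K5 r i K psi C w v
  hw : uc w = {x 2, x 0}
  hv : dc v = {x 0, x 1}
  d01 : dcv (x 0) (x 1) = 0
  d12 : dcv (x 1) (x 2) = 1
  d02 : dcv (x 0) (x 2) = 1
  u0 : (uc (x 0)).card = 1
  u2 : (uc (x 2)).card = 1

/-- the bound for [DL] -/
theorem DL2.T_ge (h : DL2 r i K psi C w v x) : 2 * ((pen (x 2)).card : ℤ) ≤ Tv i C := by
  have W := h.W
  have n01 : x 0 ≠ x 1 := W.ne (by omega) (by omega) (by omega)
  have n12 : x 1 ≠ x 2 := W.ne (by omega) (by omega) (by omega)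
  have n02 : x 0 ≠ x 2 := W.ne (by omega) (by omega) (by omega)
  have key := h.Q.T_three_ge h.hw h.hv n01 n12 n02 W.st_three
  have d10 := kf_dcv_comm (x 1) (x 0)
  have d21 := kf_dcv_comm (x 2) (x 1)
  have d20 := kf_dcv_comm (x 2) (x 0)
  rw [h.d01] at d10
  rw [h.d12] at d21
  rw [h.d02] at d20
  -- degrees
  have D0 := W.deg (k := 0) (by omega)
  have D1 := W.deg (k := 1) (by omega)
  have D2 := W.deg (k := 2) (by omega)
  rw [(sum_er3 _).1, h.d01, h.d02] at D0
  rw [(sum_er3 _).2.1, d10, h.d12] at D1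
  rw [(sum_er3 _).2.2, d20, d21] at D2
  have L0 := W.dc_le (k := 0) (by omega)
  have L1 := W.dc_le (k := 1) (by omega)
  have U1 := W.uc_inner (k := 1) (by omega) (by omega)
  have U0 := W.uc_le (k := 0) (by omega)
  have U2 := W.uc_le (k := 2) (by omega)
  have g0 := h.Q.dg_eq (W.mem 0 (by omega)) (W.lev_x 0 (by omega))
  have g1 := h.Q.dg_eq (W.mem 1 (by omega)) (W.lev_x 1 (by omega))
  have g2 := h.Q.dg_eq (W.mem 2 (by omega)) (W.lev_x 2 (by omega))
  rw [h.hw, h.hv, if_pos (mem_insert_self _ _), if_neg (by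
    rw [mem_insert, mem_singleton]
    rintro (h1 | h1)
    · exact n01 h1
    · exact n02 h1)] at g0
  rw [h.hw, h.hv, if_pos (mem_insert_of_mem (mem_singleton_self _)),
    if_pos (mem_insert_self _ _)] at g1
  rw [h.hw, h.hv, if_neg (by
    rw [mem_insert, mem_singleton]
    rintro (h1 | h1)
    · exact n02 h1.symm
    · exact n12 h1.symm), if_pos (mem_insert_of_mem (mem_singleton_self _))] at g2
  have m0 := h.Q.mm_pair (W.mem 0 (by omega)) (W.lev_x 0 (by omega)) n01
  have m1 := h.Q.mm_pair (W.mem 1 (by omega)) (W.lev_x 1 (by omega)) n12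
  have m2 := h.Q.mm_pair (W.mem 0 (by omega)) (W.lev_x 0 (by omega)) n02
  rw [h.d01, if_pos h.hw] at m0
  rw [h.d12, h.hw, if_neg (by rw [pair_comm (x 1)]; exact pair_ne n02 n12 _)] at m1
  rw [h.d02, h.hw, if_neg (by rw [pair_comm (x 0) (x 2)]; exact pair_ne n02 n12 _)] at m2
  rw [m0, m1, m2, g0, g1, g2] at key
  -- pendants
  have A : -1 ≤ ∑ z ∈ (PN i C).filter (fun z => sit i z = {x 0, x 1}), vp i z := by
    have h1 : NE i C x 0 = ∑ z ∈ (PN i C).filter (fun z => sit i z = {x 0, x 1}), vp i z :=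
      NE_eq 0
    have h2 := W.UE_one (i := i) (C := C) 0
    rw [← h1]
    unfold NE
    omega
  have B := vp_nonpos (i := i) (C := C) W.H h.d12
  push_cast at key
  omega

/-- the bound for R -/
theorem R2.T_ge (h : R2 r i K psi C w v x) : 2 * ((pen (x 1)).card : ℤ) ≤ Tv i C := by
  have W := h.W
  have n01 : x 0 ≠ x 1 := W.ne (by omega) (by omega) (by omega)
  have n12 : x 1 ≠ x 2 := W.ne (by omega) (by omega) (by omega)
  have n02 : x 0 ≠ x 2 := W.ne (by omega) (by omega) (by omega)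
  have hst : st i C = {x 2, x 0, x 1} := by
    rw [W.st_three]
    ext y
    simp only [mem_insert, mem_singleton]
    tauto
  have key := h.Q.T_three_ge h.hw h.hv n02.symm n01 n12.symm hst
  have d10 := kf_dcv_comm (x 1) (x 0)
  have d21 := kf_dcv_comm (x 2) (x 1)
  have d20 := kf_dcv_comm (x 2) (x 0)
  rw [h.d01] at d10
  rw [h.d12] at d21
  rw [h.d02] at d20
  have D0 := W.deg (k := 0) (by omega)
  have D1 := W.deg (k := 1) (by omega)
  have D2 := W.deg (k := 2) (by omega)
  rw [(sum_er3 _).1, h.d01, h.d02] at D0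
  rw [(sum_er3 _).2.1, d10, h.d12] at D1
  rw [(sum_er3 _).2.2, d20, d21] at D2
  have L2 := W.dc_le (k := 2) (by omega)
  have U1 := W.uc_inner (k := 1) (by omega) (by omega)
  have g0 := h.Q.dg_eq (W.mem 0 (by omega)) (W.lev_x 0 (by omega))
  have g1 := h.Q.dg_eq (W.mem 1 (by omega)) (W.lev_x 1 (by omega))
  have g2 := h.Q.dg_eq (W.mem 2 (by omega)) (W.lev_x 2 (by omega))
  rw [h.hw, h.hv, if_pos (mem_insert_of_mem (mem_singleton_self _)),
    if_pos (mem_insert_self _ _)] at g0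
  rw [h.hw, h.hv, if_neg (by
    rw [mem_insert, mem_singleton]
    rintro (h1 | h1)
    · exact n12 h1
    · exact n01 h1.symm), if_pos (mem_insert_of_mem (mem_singleton_self _))] at g1
  rw [h.hw, h.hv, if_pos (mem_insert_self _ _), if_neg (by
    rw [mem_insert, mem_singleton]
    rintro (h1 | h1)
    · exact n02 h1.symm
    · exact n12 h1.symm)] at g2
  have m0 := h.Q.mm_pair (W.mem 2 (by omega)) (W.lev_x 2 (by omega)) n02.symm
  have m1 := h.Q.mm_pair (W.mem 0 (by omega)) (W.lev_x 0 (by omega)) n01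
  have m2 := h.Q.mm_pair (W.mem 2 (by omega)) (W.lev_x 2 (by omega)) n12.symm
  rw [d20, if_pos h.hw] at m0
  rw [h.d01, h.hw, if_neg (by rw [pair_comm (x 0) (x 1)]; exact pair_ne n12.symm n01 _)] at m1
  rw [d21, h.hw, if_neg (by rw [pair_comm (x 2) (x 1)]; exact pair_ne n12.symm n01 _)] at m2
  rw [m0, m1, m2, g0, g1, g2, h.u0, h.u2] at key
  have hu : ucv (x 2) (x 0) = 0 := by
    rw [StB_ucv_comm, W.up 0 2 (by omega) (by omega), if_neg (by omega)]
  have A := vp_nonneg (i := i) (C := C) W.H hu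
  have B := vp_nonpos (i := i) (C := C) W.H h.d01
  push_cast at key
  omega

end Pool.Agent.GaussPoset.Win.W4
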