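import Pool.Agent.W_448j6_h22.KbH
import Pool.Agent.W_448fin_h16.FnK

/-!
MP_448cb3_co, G2, case B, window `j`: the sum of the functionals of the parts and the weights of the
joins, `w32` free.
-/

namespace Pool.Agent.GaussPoset.EK

set_option linter.unusedSectionVars false

open Finset Win St Polynomial Wd Win.W4

universe u

variable {P : Type u} [Fintype P] [PartialOrder P] [DecidableEq P] {r i j : ℕ}

variable {m : ℕ} {x : ℕ → P} {c : ℕ → ℤ} {β : ℤ} {t : Tops P}

variable {K : Finset P} {psi : P → P}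

/-- the functional of a component -/
noncomputable def TT (j : ℕ) (t : Tops P) : ℤ :=
  I2.al 2 (I2.bb j (j + 1) (topOf : P → Tops P) t) (I2.VV j (j + 1) (topOf : P → Tops P) t) +
  I2.Q4 (I2.bb j (j + 1) (topOf : P → Tops P) t) (I2.VV j (j + 1) (topOf : P → Tops P) t) +
  6 * I2.w3 (I2.bb j (j + 1) (topOf : P → Tops P) t) (I2.VV j (j + 1) (topOf : P → Tops P) t) +
  2 * (I2.w3 (I2.bb j (j + 1) (topOf : P → Tops P) t)
    (I2.VV j (j + 1) (topOf : P → Tops P) t) ^ 2 -
    2 * I2.w6 (I2.bb j (j + 1) (topOf : P → Tops P) t) (I2.VV j (j + 1) (topOf : P → Tops P) t))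

/-- the weight of a join of a double and a single element -/
noncomputable def JW (j : ℕ) (K : Finset P) (z : P) : ℤ :=
  2 * (1 + Ek j K (K2.Tz z) 1 + 2 * Ek j K (K2.Tz z) 2 + 2 * Ek j K (K2.Tz z) 3)

/-- THE TOTAL -/
theorem NJ.total (h : NJ P r j) (hj : 2 ≤ j) (R : Red P j K psi) :
    ∑ t ∈ univ.image (topOf : P → Tops P), TT j t +
      ∑ z ∈ K2.Z2 j (topOf : P → Tops P), JW j K z = 0 := by
  have hjr : j ≤ r := by have := h.hr; omega
  obtain ⟨h1, h2, h3⟩ := K2.four_two_gen h.g.H hjr (NJ.noQ h hj) (fun m hm => h.g.good m (by omega))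
    h.split R.mat R.sub (fun a _ => NJ.PG h hj R a)
  have h4 := K2.six_four h.g.H hjr (NJ.noQ h hj) (fun m hm => h.g.good m (by omega))
    h.split R.mat R.sub (fun a _ => NJ.PG h hj R a)
  have h5 : ∑ z ∈ K2.Z2 j (topOf : P → Tops P), JW j K z =
      2 * ∑ z ∈ K2.Z2 j (topOf : P → Tops P), (Ek j K (K2.Tz z) 1 + Ek j K (K2.Tz z) 0) +
      2 * (2 * ∑ z ∈ K2.Z2 j (topOf : P → Tops P), (Ek j K (K2.Tz z) 3 + Ek j K (K2.Tz z) 2)) := by
    rw [mul_sum, mul_sum, mul_sum, ← sum_add_distrib]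
    refine sum_congr rfl fun z _ => ?_
    unfold JW
    rw [K2.Ek_zero R.sub]
    ring
  have h6 : ∑ t ∈ univ.image (topOf : P → Tops P), TT j t =
      ∑ t ∈ univ.image (topOf : P → Tops P), I2.al 2 (I2.bb j (j + 1) (topOf : P → Tops P) t)
        (I2.VV j (j + 1) (topOf : P → Tops P) t) +
      ∑ t ∈ univ.image (topOf : P → Tops P), I2.Q4 (I2.bb j (j + 1) (topOf : P → Tops P) t)
        (I2.VV j (j + 1) (topOf : P → Tops P) t) +
      6 * ∑ t ∈ univ.image (topOf : P → Tops P), I2.w3 (I2.bb j (j + 1) (topOf : P → Tops P) t)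
        (I2.VV j (j + 1) (topOf : P → Tops P) t) +
      2 * ∑ t ∈ univ.image (topOf : P → Tops P), (I2.w3 (I2.bb j (j + 1) (topOf : P → Tops P) t)
        (I2.VV j (j + 1) (topOf : P → Tops P) t) ^ 2 -
        2 * I2.w6 (I2.bb j (j + 1) (topOf : P → Tops P) t)
          (I2.VV j (j + 1) (topOf : P → Tops P) t)) := by
    rw [mul_sum, mul_sum, ← sum_add_distrib, ← sum_add_distrib, ← sum_add_distrib]
    rfl
  rw [h6, h5, h1, h2, h3, h4]
  ring

/-- the functional of a small component -/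
theorem NJ.TT_small (h : NJ P r j) (hj : 2 ≤ j) (R : Red P j K psi)
    (hs : Small j (topOf : P → Tops P) t) :
    TT j t = W4.Tv j (cext (j + 1) (topOf : P → Tops P) t) := by
  have hjr : j ≤ r := by have := h.hr; omega
  have h2 := (K2.PG_star h.g.H hjr (NJ.noQ h hj) (fun m hm => h.g.good m (by omega)) h.split R.mat
      R.sub (K2.star_small h.g.H hjr h.split R hs)).2
  unfold TT
  rw [h2]
  unfold W4.Tv Lv wv I2.bb I2.VV
  ring

section join

variable (h : NJ P r j) (R : Red P j K psi) {z y v : P}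
  (S : K2.SD j (topOf : P → Tops P) z y v)

include h R S

/-- a join which is not bad -/
theorem NJ.JW_good (hj : 2 ≤ j) (hbad : ¬ BadR P j y) : 2 ≤ JW j K z := by
  have h1 := NJ.join_one h R S hj hbad
  have h2 := NJ.join_nonneg h R S hj (fun hb => absurd hb hbad)
  have h3 := h2 2 le_rfl
  have h4 := h2 3 (by norm_num)
  unfold JW
  linarith

/-- a bad join -/
theorem NJ.JW_bad (hj : 2 ≤ j) (hbad : BadR P j y) :
    JW j K z = - (2 * sa j (topOf : P → Tops P) K (uc v) (topOf v)) := by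
  have hjr : j ≤ r := by have := h.hr; omega
  have h1 := K2.Ek_one_SD h.g.H hjr h.split R.mat R.sub S
  have hy : Small j (topOf : P → Tops P) (topOf y) := by
    obtain ⟨m, x, c, β, B, hm, hβ, -⟩ := id hbad
    rcases B.small h.g.H h.split with h2 | h2
    · exact h2
    · exfalso
      have := h2.2.1
      omega
  obtain ⟨h2, h3⟩ := NJ.join_small h R S hj hy (NJ.join_v h R S hj)
  have h4 := h3 3 le_rfl
  have h5 := sa_badR h R hbad
  unfold JW
  rw [h1, h2, h4, h5]
  ring

end join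

end Pool.Agent.GaussPoset.EK
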