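import Pool.Agent.W_448j6_h22.KbI

/-!
MP_448cb3_co, G2, case B, window `j`: the bad joins are paid by the two parts.
-/

namespace Pool.Agent.GaussPoset.EK

set_option linter.unusedSectionVars false

open Finset Win St Polynomial Wd Win.W4

universe u

variable {P : Type u} [Fintype P] [PartialOrder P] [DecidableEq P] {r i j : ℕ}

variable {m : ℕ} {x : ℕ → P} {c : ℕ → ℤ} {β : ℤ} {t : Tops P}

variable {K : Finset P} {psi : P → P} {Y V : P → P}

/-- a choice of the two upper covers of the joins -/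
def YV (j : ℕ) (Y V : P → P) : Prop :=
  ∀ z ∈ K2.Z2 j (topOf : P → Tops P), K2.SD j (topOf : P → Tops P) z (Y z) (V z)

lemma exists_YV (P : Type u) [Fintype P] [PartialOrder P] [DecidableEq P] (j : ℕ) :
    ∃ Y V : P → P, YV j Y V := by
  classical
  have h1 : ∀ z : P, ∃ p : P × P, z ∈ K2.Z2 j (topOf : P → Tops P) →
      K2.SD j (topOf : P → Tops P) z p.1 p.2 := by
    intro z
    by_cases hz : z ∈ K2.Z2 j (topOf : P → Tops P)
    · obtain ⟨-, y, v, S⟩ := K2.mem_Z2.1 hz
      exact ⟨(y, v), fun _ => S⟩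
    · exact ⟨(z, z), fun h => absurd h hz⟩
  choose f hf using h1
  exact ⟨fun z => (f z).1, fun z => (f z).2, hf⟩

/-- the value of a single element -/
noncomputable def sz (j : ℕ) (K : Finset P) (V : P → P) (z : P) : ℤ :=
  sa j (topOf : P → Tops P) K (uc (V z)) (topOf (V z))

open Classical in
/-- the joins which have to be paid -/
noncomputable def PZ (j : ℕ) (K : Finset P) (Y V : P → P) : Finset P :=
  (K2.Z2 j (topOf : P → Tops P)).filter (fun z => BadR P j (Y z) ∧ 1 ≤ sz j K V z)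

lemma mem_PZ {z : P} : z ∈ PZ j K Y V ↔
    z ∈ K2.Z2 j (topOf : P → Tops P) ∧ BadR P j (Y z) ∧ 1 ≤ sz j K V z := by
  classical
  unfold PZ
  rw [mem_filter]

open Classical in
/-- the share of the part of the double element -/
noncomputable def PA (j : ℕ) (K : Finset P) (Y V : P → P) (t : Tops P) : ℤ :=
  (((PZ j K Y V).filter (fun z => topOf (Y z) = t)).card : ℤ)

open Classical in
/-- the share of the part of the single element -/
noncomputable def PB (j : ℕ) (K : Finset P) (Y V : P → P) (t : Tops P) : ℤ :=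
  ∑ z ∈ (PZ j K Y V).filter (fun z => topOf (V z) = t), (2 * sz j K V z - 1)

open Classical in
/-- a join after the payment -/
noncomputable def gz (j : ℕ) (K : Finset P) (Y V : P → P) (z : P) : ℤ :=
  JW j K z + if BadR P j (Y z) ∧ 1 ≤ sz j K V z then 2 * sz j K V z else 0

lemma sum_PAB (hall : ∀ t : Tops P, t ∈ univ.image (topOf : P → Tops P)) :
    ∑ t ∈ univ.image (topOf : P → Tops P), (PA j K Y V t + PB j K Y V t) =
      ∑ z ∈ PZ j K Y V, 2 * sz j K V z := by
  classical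
  rw [sum_add_distrib]
  have e1 : ∑ t ∈ univ.image (topOf : P → Tops P), PA j K Y V t = ∑ z ∈ PZ j K Y V, (1 : ℤ) := by
    rw [← sum_fiberwise_of_maps_to (t := univ.image (topOf : P → Tops P))
      (g := fun z => topOf (Y z)) (fun z _ => hall _)]
    refine sum_congr rfl fun t _ => ?_
    unfold PA
    rw [sum_const, nsmul_eq_mul, mul_one]
  have e2 : ∑ t ∈ univ.image (topOf : P → Tops P), PB j K Y V t =
      ∑ z ∈ PZ j K Y V, (2 * sz j K V z - 1) := by
    rw [← sum_fiberwise_of_maps_to (t := univ.image (topOf : P → Tops P))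
      (g := fun z => topOf (V z)) (fun z _ => hall _)]
    rfl
  rw [e1, e2, ← sum_add_distrib]
  refine sum_congr rfl fun z _ => ?_
  ring

section main

variable (h : NJ P r j) (hj : 2 ≤ j) (R : Red P j K psi) (hY : YV j Y V)

include h hj R hY

lemma NJ.gz_nonneg {z : P} (hz : z ∈ K2.Z2 j (topOf : P → Tops P)) :
    0 ≤ gz j K Y V z ∧ (gz j K Y V z = 0 → BadR P j (Y z)) := by
  have S := hY z hz
  have h1 := NJ.sa_single h hj R (S.lv' h.g.H) S.cv
  unfold gz
  by_cases hb : BadR P j (Y z)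
  · refine ⟨?_, fun _ => hb⟩
    rw [NJ.JW_bad h R S hj hb]
    unfold sz
    split_ifs with h2
    · linarith
    · have h3 : ¬ 1 ≤ sa j (topOf : P → Tops P) K (uc (V z)) (topOf (V z)) := fun h4 => h2 ⟨hb, h4⟩
      have h4 : sa j (topOf : P → Tops P) K (uc (V z)) (topOf (V z)) = 0 := by omega
      rw [h4]
      norm_num
  · have h2 := NJ.JW_good h R S hj hb
    rw [if_neg (fun h3 => hb h3.1)]
    exact ⟨by linarith, fun h4 => by linarith⟩

/-- THE DISTRIBUTION: if every part pays its share, then it is exactly its share, and all joins are bad -/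
theorem NJ.distr (own : ∀ t : Tops P, PA j K Y V t + PB j K Y V t ≤ TT j t) :
    (∀ t : Tops P, TT j t = PA j K Y V t + PB j K Y V t) ∧
    ∀ z ∈ K2.Z2 j (topOf : P → Tops P), BadR P j (Y z) := by
  classical
  have key := NJ.total h hj R
  have h1 : ∑ z ∈ K2.Z2 j (topOf : P → Tops P), gz j K Y V z =
      ∑ z ∈ K2.Z2 j (topOf : P → Tops P), JW j K z + ∑ z ∈ PZ j K Y V, 2 * sz j K V z := by
    unfold gz
    rw [sum_add_distrib]
    congr 1
    unfold PZ
    rw [sum_filter]
  have h2 := sum_PAB (j := j) (K := K) (Y := Y) (V := V) (NJ.mem_img h)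
  have h3 : ∑ t ∈ univ.image (topOf : P → Tops P), (TT j t - (PA j K Y V t + PB j K Y V t)) +
      ∑ z ∈ K2.Z2 j (topOf : P → Tops P), gz j K Y V z = 0 := by
    rw [sum_sub_distrib, h2, h1]
    linarith
  have n1 : ∀ t ∈ univ.image (topOf : P → Tops P), 0 ≤ TT j t - (PA j K Y V t + PB j K Y V t) :=
    fun t _ => by linarith [own t]
  have n2 : ∀ z ∈ K2.Z2 j (topOf : P → Tops P), 0 ≤ gz j K Y V z :=
    fun z hz => (NJ.gz_nonneg h hj R hY hz).1
  have s1 := sum_nonneg n1
  have s2 := sum_nonneg n2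
  have z1 := (sum_eq_zero_iff_of_nonneg n1).1 (by linarith)
  have z2 := (sum_eq_zero_iff_of_nonneg n2).1 (by linarith)
  refine ⟨fun t => ?_, fun z hz => (NJ.gz_nonneg h hj R hY hz).2 (z2 z hz)⟩
  have := z1 t (NJ.mem_img h t)
  linarith

/-- the joins of a single element over a site -/
lemma NJ.PZ_V {z : P} (hz : z ∈ PZ j K Y V) (hV : topOf (V z) = t) (B : RowB P j t m x c β) :
    ∃ q, q ≤ m ∧ V z ∈ pen (x q) ∧ z ⋖ V z ∧
      sz j K V z = sa j (topOf : P → Tops P) K {x q} t := by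
  classical
  have H := h.g.H
  obtain ⟨hz2, hb, h1⟩ := mem_PZ.1 hz
  have S := hY z hz2
  have hlv := S.lv' H
  obtain ⟨s, hs⟩ := card_eq_one.1 S.cv
  have hsv : s ∈ uc (V z) := by rw [hs]; exact mem_singleton_self _
  have hls := lev_uc H hsv
  have hts : topOf (V z) = topOf s := h.split (mem_uc.1 hsv) (by omega)
  obtain ⟨q, hq, rfl⟩ := B.row.surj s (by omega) (hts.symm.trans hV)
  refine ⟨q, hq, ?_, mem_uc.1 S.mv, ?_⟩
  · rw [Win.mem_pen]
    exact ⟨mem_uc.1 hsv, S.cv⟩
  · unfold sz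
    rw [hs, hV]

/-- the share of the part of the single element: nothing to pay -/
theorem NJ.PB_zero (B : RowB P j t m x c β)
    (h0 : ∀ q, q ≤ m → (pen (x q)).Nonempty → sa j (topOf : P → Tops P) K {x q} t ≤ 0) :
    PB j K Y V t = 0 := by
  classical
  unfold PB
  rw [sum_eq_zero]
  intro z hz
  rw [mem_filter] at hz
  obtain ⟨q, hq, h1, -, h2⟩ := NJ.PZ_V h hj R hY hz.1 hz.2 B
  have h3 := (mem_PZ.1 hz.1).2.2
  rw [h2] at h3
  have := h0 q hq ⟨_, h1⟩
  omega

/-- the share of the part of the single element: one site -/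
theorem NJ.PB_le (B : RowB P j t m x c β) {q0 : ℕ} {b : ℤ} (hb : 1 ≤ b)
    (h0 : ∀ q, q ≤ m → 1 ≤ sa j (topOf : P → Tops P) K {x q} t →
      q = q0 ∧ sa j (topOf : P → Tops P) K {x q} t = b) :
    PB j K Y V t ≤ 2 * (2 * b - 1) * ((pen (x q0)).card : ℤ) := by
  classical
  have H := h.g.H
  have h1 : ∀ z ∈ (PZ j K Y V).filter (fun z => topOf (V z) = t),
      z ∈ (pen (x q0)).biUnion dc ∧ sz j K V z = b := by
    intro z hz
    rw [mem_filter] at hz
    obtain ⟨q, hq, h1, h4, h2⟩ := NJ.PZ_V h hj R hY hz.1 hz.2 B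
    have h3 := (mem_PZ.1 hz.1).2.2
    rw [h2] at h3
    obtain ⟨e1, e2⟩ := h0 q hq h3
    subst e1
    exact ⟨mem_biUnion.2 ⟨V z, h1, mem_dc.2 h4⟩, h2.trans e2⟩
  unfold PB
  rw [sum_congr rfl (g := fun _ => 2 * b - 1) (fun z hz => by rw [(h1 z hz).2]), sum_const,
    nsmul_eq_mul]
  have h2 : ((PZ j K Y V).filter (fun z => topOf (V z) = t)).card ≤ 2 * (pen (x q0)).card := by
    refine (card_le_card (fun z hz => (h1 z hz).1)).trans (card_biUnion_le.trans ?_)
    calc ∑ a ∈ pen (x q0), (dc a).card ≤ ∑ a ∈ pen (x q0), 2 :=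
          sum_le_sum fun a _ => dc_card_le H a
      _ = 2 * (pen (x q0)).card := by rw [sum_const, smul_eq_mul, Nat.mul_comm]
  have h3 : (((PZ j K Y V).filter (fun z => topOf (V z) = t)).card : ℤ) ≤
      2 * ((pen (x q0)).card : ℤ) := by exact_mod_cast h2
  have h4 : 0 ≤ 2 * b - 1 := by omega
  calc (((PZ j K Y V).filter (fun z => topOf (V z) = t)).card : ℤ) * (2 * b - 1)
      ≤ 2 * ((pen (x q0)).card : ℤ) * (2 * b - 1) := mul_le_mul_of_nonneg_right h3 h4
    _ = 2 * (2 * b - 1) * ((pen (x q0)).card : ℤ) := by ring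

/-- the share of the part of the double element: no bad double -/
theorem NJ.PA_zero (h0 : ∀ y, BadR P j y → topOf y ≠ t) : PA j K Y V t = 0 := by
  classical
  unfold PA
  rw [Nat.cast_eq_zero, card_eq_zero, filter_eq_empty_iff]
  intro z hz hzt
  exact h0 _ (mem_PZ.1 hz).2.1 hzt

/-- the share of the part of the double element: one bad double -/
theorem NJ.PA_le {y0 : P} (h0 : ∀ y, BadR P j y → topOf y = t → y ∈ dbL P j → y = y0) :
    PA j K Y V t ≤ 2 ∧ (PA j K Y V t = 2 → ∀ z, z ⋖ y0 → z ∈ K2.Z2 j (topOf : P → Tops P)) := by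
  classical
  have H := h.g.H
  have h1 : (PZ j K Y V).filter (fun z => topOf (Y z) = t) ⊆ dc y0 := by
    intro z hz
    rw [mem_filter] at hz
    obtain ⟨hz1, hb, h2⟩ := mem_PZ.1 hz.1
    have S := hY z hz1
    have h3 := h0 (Y z) hb hz.2 (mem_dbL.2 ⟨S.ly H, S.cy⟩)
    rw [← h3]
    exact mem_dc.2 (mem_uc.1 S.my)
  have h2 := card_le_card h1
  have h3 := dc_card_le H y0
  unfold PA
  refine ⟨by exact_mod_cast h2.trans h3, fun h4 z hz => ?_⟩
  have h4' : ((PZ j K Y V).filter (fun z => topOf (Y z) = t)).card = 2 := by exact_mod_cast h4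
  have h5 : (PZ j K Y V).filter (fun z => topOf (Y z) = t) = dc y0 :=
    eq_of_subset_of_card_le h1 (by omega)
  have h6 : z ∈ (PZ j K Y V).filter (fun z => topOf (Y z) = t) := by
    rw [h5]
    exact mem_dc.2 hz
  exact (mem_PZ.1 (mem_filter.1 h6).1).1

end main

end Pool.Agent.GaussPoset.EK
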