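import Pool.Agent.W_448j6_h22.KbK

/-!
MP_448cb3_co, G2, case B, window `j`: the pattern R with four sites and no pendant over its second
site: the share and the contradiction.
-/

namespace Pool.Agent.GaussPoset.EK

set_option linter.unusedSectionVars false

open Finset Win St Polynomial Wd Win.W4

universe u

variable {P : Type u} [Fintype P] [PartialOrder P] [DecidableEq P] {r i j : ℕ}

variable {m m' : ℕ} {x x' : ℕ → P} {c c' : ℕ → ℤ} {β β' : ℤ} {t : Tops P}

variable {K : Finset P} {psi : P → P} {Y V : P → P} {w v : P}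

lemma dis_pair2 {a b p q : P} : Disjoint ({a, b} : Finset P) {p, q} ↔
    (p ≠ a ∧ p ≠ b) ∧ q ≠ a ∧ q ≠ b := by
  rw [disjoint_right]
  constructor
  · intro h1
    have h2 := h1 (a := p) (by simp)
    have h3 := h1 (a := q) (by simp)
    rw [mem_insert, mem_singleton] at h2 h3
    tauto
  · rintro ⟨⟨h1, h2⟩, h3, h4⟩ s hs
    rw [mem_insert, mem_singleton] at hs ⊢
    rcases hs with rfl | rfl
    · tauto
    · tauto

/-- the bad double of the pattern R with four sites -/
lemma NJ.bad_uniq (h : NJ P r j) (R : Red P j K psi) (B : RowB P j t 3 x c β) (hβ : β = 1)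
    (c0 : c 0 = -1) (D : Rg r j K psi (cext (j + 1) (topOf : P → Tops P) t) w v x) :
    ∃ y0, y0 ⋖ x 2 ∧ y0 ⋖ x 3 ∧ (∀ y, y ⋖ x 2 → y ⋖ x 3 → y = y0) ∧
      ∀ y, BadR P j y → topOf y = t → y ∈ dbL P j → y = y0 := by
  classical
  have H := h.g.H
  have hne : ∀ k l, k ≤ 3 → l ≤ 3 → k ≠ l → x k ≠ x l := fun k l hk hl hkl => D.W.ne hk hl hkl
  have h1 : dcv (x 2) (x 3) = 1 := by
    have := D.dn 2 3 (by omega) le_rfl
    rw [if_pos rfl, if_neg (by omega)] at this
    exact this
  unfold dcv at h1
  obtain ⟨y0, hy0⟩ := card_eq_one.1 h1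
  have hm0 : y0 ⋖ x 2 ∧ y0 ⋖ x 3 := by
    have h2 : y0 ∈ univ.filter (fun z => z ⋖ x 2 ∧ z ⋖ x 3) := by
      rw [hy0]; exact mem_singleton_self _
    rw [mem_filter] at h2
    exact h2.2
  refine ⟨y0, hm0.1, hm0.2, fun y g1 g2 => ?_, fun y hb ht hy => ?_⟩
  · have h2 : y ∈ univ.filter (fun z => z ⋖ x 2 ∧ z ⋖ x 3) := by
      rw [mem_filter]
      exact ⟨mem_univ _, g1, g2⟩
    rw [hy0, mem_singleton] at h2
    exact h2
  obtain ⟨p, q, hpq, hq, he, hc⟩ := B.dbL_pair H h.split hy ht
  have h2 := sa_badR h R hb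
  rw [ht, sa_K5 h R D.Q, he, D.hw, D.hv] at h2
  have hcase : (p = 1 ∧ q = 2) ∨ (p = 2 ∧ q = 3) ∨ (p = 0 ∧ q = 3) := by
    rcases hc with ⟨g1, g2⟩ | ⟨g1, g2, g3, -⟩
    · have : p ≠ 0 := by
        rintro rfl
        rw [c0] at g2
        norm_num at g2
      omega
    · omega
  rcases hcase with ⟨rfl, rfl⟩ | ⟨rfl, rfl⟩ | ⟨rfl, rfl⟩
  · rw [if_pos (by
      rw [dis_pair2]
      exact ⟨⟨hne 1 3 (by omega) (by omega) (by omega), hne 1 0 (by omega) (by omega) (by omega)⟩,
        hne 2 3 (by omega) (by omega) (by omega), hne 2 0 (by omega) (by omega) (by omega)⟩),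
      if_neg (by rw [dis_pair2]; tauto)] at h2
    norm_num at h2
  · have h3 : y ∈ univ.filter (fun z => z ⋖ x 2 ∧ z ⋖ x 3) := by
      rw [mem_filter]
      refine ⟨mem_univ _, mem_uc.1 ?_, mem_uc.1 ?_⟩
      · rw [he]; exact mem_insert_self _ _
      · rw [he]; exact mem_insert_of_mem (mem_singleton_self _)
    rw [hy0, mem_singleton] at h3
    exact h3
  · rw [if_neg (by rw [dis_pair2]; tauto), if_neg (by rw [dis_pair2]; tauto)] at h2
    norm_num at h2

section own

variable (h : NJ P r j) (hj : 2 ≤ j) (R : Red P j K psi) (hY : YV j Y V)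

include h hj R hY

lemma NJ.PB_r3 (B : RowB P j t 3 x c β) (hp1 : pen (x 1) = ∅)
    (D : Rg r j K psi (cext (j + 1) (topOf : P → Tops P) t) w v x) : PB j K Y V t = 0 := by
  classical
  have hne : ∀ k l, k ≤ 3 → l ≤ 3 → k ≠ l → x k ≠ x l := fun k l hk hl hkl => D.W.ne hk hl hkl
  refine NJ.PB_zero h hj R hY B fun q hq hpe => ?_
  have hq4 : q = 0 ∨ q = 1 ∨ q = 2 ∨ q = 3 := by omega
  rw [sa_K5 h R D.Q, D.hw, D.hv]
  rcases hq4 with rfl | rfl | rfl | rfl
  · rw [if_neg (by rw [dis_pair]; tauto), if_neg (by rw [dis_pair]; tauto)]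
    norm_num
  · rw [hp1] at hpe
    exact absurd hpe not_nonempty_empty
  · rw [if_pos (by
      rw [dis_pair]
      exact ⟨hne 2 3 (by omega) (by omega) (by omega), hne 2 0 (by omega) (by omega) (by omega)⟩),
      if_pos (by
      rw [dis_pair]
      exact ⟨hne 2 0 (by omega) (by omega) (by omega), hne 2 1 (by omega) (by omega) (by omega)⟩)]
    norm_num
  · rw [if_neg (by rw [dis_pair]; tauto), if_pos (by
      rw [dis_pair]
      exact ⟨hne 3 0 (by omega) (by omega) (by omega), hne 3 1 (by omega) (by omega) (by omega)⟩)]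
    norm_num

/-- the pattern R with four sites: the share -/
theorem NJ.own_r3 (B : RowB P j t 3 x c β) (hβ : β = 1) (c0 : c 0 = -1) (c1 : c 1 = 0)
    (c2 : c 2 = 0) (hx : x 4 = x 0) (hp1 : pen (x 1) = ∅)
    (hU : ∀ z ∈ UE j (cext (j + 1) (topOf : P → Tops P) t) x 2,
      ch j (cext (j + 1) (topOf : P → Tops P) t) z ≤ 0) :
    PA j K Y V t + PB j K Y V t ≤ TT j t := by
  classical
  obtain ⟨w, v, D⟩ := NJ.rg h hj R B hβ c0 c1 c2 hx
  obtain ⟨y0, -, -, -, h0⟩ := NJ.bad_uniq h R B hβ c0 D
  have a1 := (NJ.PA_le h hj R hY h0).1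
  have a2 := NJ.PB_r3 h hj R hY B hp1 D
  have a3 := (D.T_ge hp1 hU).1
  have hs : Small j (topOf : P → Tops P) t := by
    rcases B.small h.g.H h.split with h2 | h2
    · exact h2
    · have := h2.1
      omega
  rw [a2, NJ.TT_small h hj R hs]
  linarith

/-- the pattern R with four sites cannot pay exactly its share if all the joins are bad -/
theorem NJ.r3_false (B : RowB P j t 3 x c β) (hβ : β = 1) (c0 : c 0 = -1) (c1 : c 1 = 0)
    (c2 : c 2 = 0) (hx : x 4 = x 0) (hp1 : pen (x 1) = ∅)
    (hU : ∀ z ∈ UE j (cext (j + 1) (topOf : P → Tops P) t) x 2,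
      ch j (cext (j + 1) (topOf : P → Tops P) t) z ≤ 0)
    (hE : TT j t = PA j K Y V t + PB j K Y V t)
    (hall : ∀ z ∈ K2.Z2 j (topOf : P → Tops P), BadR P j (Y z)) : False := by
  classical
  have H := h.g.H
  obtain ⟨w, v, D⟩ := NJ.rg h hj R B hβ c0 c1 c2 hx
  have W := D.W
  have hne : ∀ k l, k ≤ 3 → l ≤ 3 → k ≠ l → x k ≠ x l := fun k l hk hl hkl => D.W.ne hk hl hkl
  obtain ⟨y0, y2, y3, hu0, h0⟩ := NJ.bad_uniq h R B hβ c0 D
  obtain ⟨a1, a1'⟩ := NJ.PA_le h hj R hY h0
  have a2 := NJ.PB_r3 h hj R hY B hp1 D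
  obtain ⟨a3, a4⟩ := D.T_ge hp1 hU
  have hs : Small j (topOf : P → Tops P) t := by
    rcases B.small H h.split with h2 | h2
    · exact h2
    · have := h2.1
      omega
  rw [a2, NJ.TT_small h hj R hs, add_zero] at hE
  have b1 : PA j K Y V t = 2 := by linarith
  have b2 := a1' b1
  have b3 : ¬ (DE j (cext (j + 1) (topOf : P → Tops P) t) x 3 ≠ ∅ ∨ pen (x 0) ≠ ∅) := by
    intro h1
    have := a4 h1
    linarith
  push Not at b3
  obtain ⟨b3, b4⟩ := b3
  -- a child of `w`
  have lw := D.Q.lw0
  have wt : topOf w = t := mem_cext.1 D.Q.wC w le_rfl (by omega)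
  have w2 : (uc w).card = 2 := by
    rw [D.hw, card_pair (hne 3 0 (by omega) (by omega) (by omega))]
  have hr2 : j + 2 ≤ r := by
    have hpos : (0 : ℤ) < PA j K Y V t := by rw [b1]; norm_num
    unfold PA at hpos
    have h1 : 0 < ((PZ j K Y V).filter (fun z => topOf (Y z) = t)).card := by exact_mod_cast hpos
    obtain ⟨z, hz⟩ := card_pos.1 h1
    have h2 := (hY z (mem_PZ.1 (mem_filter.1 hz).1).1).lz
    have h3 := H.lev_le z
    omega
  obtain ⟨z, hz⟩ := dc_nonempty H (x := w) (by omega)
  have hzw : z ⋖ w := mem_dc.1 hz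
  have lz := lev_cov H hzw
  have hwz : w ∈ uc z := mem_uc.2 hzw
  -- `w` is the only cover
  by_cases h1 : (uc z).card = 1
  · obtain ⟨w', hw'⟩ := card_eq_one.1 h1
    have h2 : w' = w := by
      rw [hw', mem_singleton] at hwz
      exact hwz.symm
    subst h2
    have h3 : z ∈ DE j (cext (j + 1) (topOf : P → Tops P) t) x 3 := by
      rw [mem_DE]
      refine ⟨?_, ?_, ?_⟩
      · exact W.cl z w' D.Q.wC hw'
      · rw [Win.mem_PD]
        exact ⟨by omega, h1, w', hzw, w2⟩
      · rw [Win.SO.sit_PD H (by omega) hw', D.hw]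
        unfold ed
        rw [show 3 + 1 = 4 by rfl, hx]
    rw [b3] at h3
    exact notMem_empty _ h3
  · -- two covers
    have h2 : (uc z).card = 2 := by
      have e1 := uc_card_le H z
      have e2 : 0 < (uc z).card := card_pos.2 ⟨w, hwz⟩
      omega
    obtain ⟨y', hy', hne'⟩ : ∃ y' ∈ uc z, y' ≠ w := by
      obtain ⟨a, b, hab, he⟩ := card_eq_two.1 h2
      rcases eq_or_ne a w with h3 | h3
      · exact ⟨b, by rw [he]; simp, fun h4 => hab (h3.trans h4.symm)⟩
      · exact ⟨a, by rw [he]; simp, h3⟩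
    have huz : uc z = {w, y'} := by
      symm
      apply eq_of_subset_of_card_le
      · intro s hs
        rw [mem_insert, mem_singleton] at hs
        rcases hs with rfl | rfl
        · exact hwz
        · exact hy'
      · rw [card_pair hne'.symm, h2]
    have ly' : lev y' = j + 1 := by
      have := lev_uc H hy'
      omega
    have hu1 : (uc y').card = 1 ∨ (uc y').card = 2 := by
      have e1 := uc_card_le H y'
      have e2 : (uc y').card ≠ 0 := by
        intro e2
        have hvt' : y' < (topOf y' : P) := lt_of_le_of_ne (le_topOf y') (by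
          intro h2
          have := (topOf y').2
          rw [← h2] at this
          omega)
        obtain ⟨s, hs, -⟩ := Hul.exists_cov hvt'
        have h3 : s ∈ uc y' := mem_uc.2 hs
        rw [card_eq_zero.1 e2] at h3
        exact absurd h3 (notMem_empty s)
      omega
    have hlw : lev w ≤ j + 1 := by omega
    rcases hu1 with hu1 | hu1
    · by_cases ht : topOf y' = t
      · -- a single element of the part
        obtain ⟨s, hs⟩ := card_eq_one.1 hu1
        have hsy : s ∈ uc y' := by rw [hs]; exact mem_singleton_self _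
        have ls := lev_uc H hsy
        have hts : topOf y' = topOf s := h.split (mem_uc.1 hsy) (by omega)
        obtain ⟨q, hq, rfl⟩ := B.row.surj s (by omega) (hts.symm.trans ht)
        have hyp : y' ∈ pen (x q) := by
          rw [Win.mem_pen]
          exact ⟨mem_uc.1 hsy, hu1⟩
        have hq4 : q = 0 ∨ q = 1 ∨ q = 2 ∨ q = 3 := by omega
        rcases hq4 with rfl | rfl | rfl | rfl
        · rw [b4] at hyp
          exact notMem_empty _ hyp
        · rw [hp1] at hyp
          exact notMem_empty _ hyp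
        · have e1 := W.deg (k := 2) (by omega)
          rw [D.dsum (by omega), D.deg2] at e1
          norm_num at e1
          rw [e1] at hyp
          exact notMem_empty _ hyp
        · have e1 := W.deg (k := 3) (by omega)
          rw [D.dsum (by omega), D.deg3] at e1
          norm_num at e1
          rw [e1] at hyp
          exact notMem_empty _ hyp
      · -- a join with another part
        have hS : K2.SD j (topOf : P → Tops P) z w y' :=
          ⟨by omega, huz, by rw [wt]; exact fun h => ht h.symm, w2, hu1⟩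
        have hz2 : z ∈ K2.Z2 j (topOf : P → Tops P) := by
          rw [K2.mem_Z2]
          refine ⟨fun h3 => ?_, w, y', hS⟩
          unfold cuni at h3
          rw [mem_biUnion] at h3
          obtain ⟨b, -, hb⟩ := h3
          have e1 := mem_cext.1 hb w hzw.le (by omega)
          have e2 := mem_cext.1 hb y' (mem_uc.1 hy').le (by omega)
          exact ht (by rw [e2, ← e1, wt])
        have hb := hall z hz2
        have hS' := hY z hz2
        have hYw : Y z = w := by
          have e1 := hS'.my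
          rw [huz, mem_insert, mem_singleton] at e1
          rcases e1 with e1 | e1
          · exact e1
          · have := hS'.cy
            rw [e1] at this
            omega
        rw [hYw] at hb
        have e3 := h0 w hb wt (mem_dbL.2 ⟨lw, w2⟩)
        have e4 : x 2 ∈ uc w := by rw [e3]; exact mem_uc.2 y2
        rw [D.in_w (by omega)] at e4
        omega
    · -- two doubles
      obtain ⟨s, hs, hs'⟩ := NJ.noQ h hj z (by omega) w hwz y' hy' hne'.symm w2 hu1
      have e1 := h.split (mem_uc.1 hs) (by omega)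
      have e2 := h.split (mem_uc.1 hs') (by omega)
      have ht : topOf y' = t := by rw [e2, ← e1, wt]
      obtain ⟨p, q, hpq, hq, he, hc⟩ := B.dbL_pair H h.split (mem_dbL.2 ⟨ly', hu1⟩) ht
      have hcase : (p = 1 ∧ q = 2) ∨ (p = 2 ∧ q = 3) ∨ (p = 0 ∧ q = 3) := by
        rcases hc with ⟨g1, g2⟩ | ⟨g1, g2, g3, -⟩
        · have : p ≠ 0 := by
            rintro rfl
            rw [c0] at g2
            norm_num at g2
          omega
        · omega
      rcases hcase with ⟨rfl, rfl⟩ | ⟨rfl, rfl⟩ | ⟨rfl, rfl⟩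
      · rw [he, mem_insert, mem_singleton] at hs'
        rcases hs' with rfl | rfl
        · have := (D.in_w (by omega)).1 hs
          omega
        · have := (D.in_w (by omega)).1 hs
          omega
      · have g1 : y' ⋖ x 2 := mem_uc.1 (by rw [he]; simp)
        have g2 : y' ⋖ x 3 := mem_uc.1 (by rw [he]; simp)
        have g3 := hu0 y' g1 g2
        have hz2 := b2 z (by rw [← g3]; exact mem_uc.1 hy')
        have hS' := hY z hz2
        have e3 := hS'.mv
        have e4 := hS'.cv
        rw [huz, mem_insert, mem_singleton] at e3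
        rcases e3 with e3 | e3
        · rw [e3] at e4
          omega
        · rw [e3] at e4
          omega
      · have g0 := D.dn 0 3 (by omega) le_rfl
        norm_num at g0
        unfold dcv at g0
        have g1 : w ∈ univ.filter (fun z => z ⋖ x 0 ∧ z ⋖ x 3) := by
          rw [mem_filter]
          exact ⟨mem_univ _, mem_uc.1 ((D.in_w (by omega)).2 (Or.inr rfl)),
            mem_uc.1 ((D.in_w (by omega)).2 (Or.inl rfl))⟩
        have g2 : y' ∈ univ.filter (fun z => z ⋖ x 0 ∧ z ⋖ x 3) := by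
          rw [mem_filter]
          exact ⟨mem_univ _, mem_uc.1 (by rw [he]; simp), mem_uc.1 (by rw [he]; simp)⟩
        exact hne' (card_le_one.1 g0.le y' g2 w g1)

end own

end Pool.Agent.GaussPoset.EK
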