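import Pool.Agent.W_448j6_h22.KbL
import Pool.Agent.W_448j6_h22.KaR
import Pool.Agent.W_448sd_h84.SdM
import Pool.Agent.W_448rr_h67.RrE

/-!
MP_448cb3_co, G2, case B, window `j`: the upper pendants of a row in coordinates; the rows of the
rectangles and the stairs of the level 6.
-/

namespace Pool.Agent.GaussPoset.EK

set_option linter.unusedSectionVars false

open Finset Win St Polynomial Wd Win.W4

universe u

variable {P : Type u} [Fintype P] [PartialOrder P] [DecidableEq P] {r i j n : ℕ}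

variable {m m' : ℕ} {x x' : ℕ → P} {c c' : ℕ → ℤ} {β β' : ℤ} {t : Tops P}

variable {K : Finset P} {psi : P → P} {Y V : P → P} {w v : P}

variable {lo hi : ℕ → ℕ} {e : ℕ → ℕ → P}

/-- an upper pendant over an edge, in coordinates -/
theorem UE_coord (h : NJ P r (n + 2)) (B : RowB P (n + 2) t m x c β) (hm : 2 ≤ m)
    (C : Cp.Comp (n + 2) (t : P) lo hi e) {k : ℕ} (hk : k < m) {z : P}
    (hz : z ∈ UE (n + 2) (cext (n + 2 + 1) (topOf : P → Tops P) t) x k) :
    ∃ a b, z = e n b ∧ lo n ≤ b ∧ b ≤ hi n ∧ lo (n + 2) ≤ a ∧ a + 1 ≤ hi (n + 2) ∧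
      ((lo (n + 1) = lo n + 1 ∧ a = lo (n + 1) ∧ b = lo n) ∨
        (hi (n + 1) = hi n ∧ a = hi (n + 1) ∧ b = hi n)) ∧
      ((x k = e (n + 2) a ∧ x (k + 1) = e (n + 2) (a + 1)) ∨
        (x k = e (n + 2) (a + 1) ∧ x (k + 1) = e (n + 2) a)) := by
  classical
  have H := h.g.H
  have W := NJ.prow h (by omega) B hm
  have s1 := C.lo_step n (by omega)
  have s3 := C.hi_step n (by omega)
  have s5 := C.lo_le n (by omega)
  have s6 := C.lo_le (n + 1) (by omega)
  have cov' : ∀ s a, lo (n + 2) ≤ s → s ≤ hi (n + 2) → lo (n + 1) ≤ a → a ≤ hi (n + 1) →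
      (e (n + 2) s ⋖ e (n + 1) a ↔ a = s ∨ a + 1 = s) := fun s a => C.cov (n + 1) s a (by omega)
  obtain ⟨hzC, hzP, hzs⟩ := mem_UE.1 hz
  obtain ⟨-, u, -, -, -, -, -, hu⟩ := PN_dat H (C := cext (n + 2 + 1) (topOf : P → Tops P) t)
    (SO.mem_PN.2 ⟨hzC, Or.inr hzP⟩)
  rcases hu with ⟨g1, -⟩ | ⟨-, hlz, hlu, hdz, hsu, -⟩
  · have := lev_PU hzP
    have := lev_PD g1
    omega
  have hux2 : x k ⋖ u := by
    rw [← mem_dc, ← hsu, hzs]
    exact (W.mem_ed (by omega) (by omega)).2 (Or.inl rfl)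
  have hux3 : x (k + 1) ⋖ u := by
    rw [← mem_dc, ← hsu, hzs]
    exact (W.mem_ed (by omega) (by omega)).2 (Or.inr rfl)
  have huz : u ⋖ z := by rw [← mem_dc, hdz]; exact mem_singleton_self u
  have hxt : ∀ l, l ≤ m → x l ≤ (t : P) := by
    intro l hl
    rw [← B.row.kap l hl]
    exact le_topOf (x l)
  have hut : u ≤ (t : P) := Cp.up_le H h.g.good t.2 (hxt k (by omega))
    (by have := B.row.lev_x k (by omega); omega) hux2.le
  have hzt : z ≤ (t : P) := Cp.up_le H h.g.good t.2 hut (by omega) huz.le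
  obtain ⟨a, a1, a2, a3⟩ := C.surj u hut (by omega)
  obtain ⟨b, b1, b2, b3⟩ := C.surj z hzt (by omega)
  obtain ⟨s, q1, q2, q3⟩ := C.surj (x k) (hxt k (by omega))
    (by have := B.row.lev_x k (by omega); omega)
  obtain ⟨s', q1', q2', q3'⟩ := C.surj (x (k + 1)) (hxt (k + 1) (by omega))
    (by have := B.row.lev_x (k + 1) (by omega); omega)
  rw [B.row.lev_x k (by omega)] at q1 q2 q3
  rw [B.row.lev_x (k + 1) (by omega)] at q1' q2' q3'
  have lu : lev u = n + 1 := by omega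
  have lz : lev z = n := by omega
  rw [lu] at a1 a2 a3
  rw [lz] at b1 b2 b3
  subst a3
  subst b3
  have hss : s ≠ s' := by
    rintro rfl
    have := W.ne (a := k) (b := k + 1) (by omega) (by omega) (by omega)
    exact this (q3.symm.trans q3')
  have hzd := (C.single_down H (k := n) (by omega) b1 b2).1 (lev_PU hzP).2
  have hcz := (C.cov n a b (by omega) a1 a2 b1 b2).1 huz
  rw [← q3] at hux2
  rw [← q3'] at hux3
  have c2 := (cov' s a q1 q2 a1 a2).1 hux2
  have c3 := (cov' s' a q1' q2' a1 a2).1 hux3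
  refine ⟨a, b, rfl, b1, b2, by omega, by omega, by omega, ?_⟩
  have hs2 : (s = a ∧ s' = a + 1) ∨ (s = a + 1 ∧ s' = a) := by omega
  rcases hs2 with ⟨g1, g2⟩ | ⟨g1, g2⟩
  · left
    rw [← q3, ← q3', g1, g2]
    exact ⟨rfl, rfl⟩
  · right
    rw [← q3, ← q3', g1, g2]
    exact ⟨rfl, rfl⟩

/-- no upper pendants over the edges of a rectangle -/
theorem rect_UE (h : NJ P r (n + 2)) (B : RowB P (n + 2) t m x c β) (hm : 2 ≤ m)
    (C : Cp.Comp (n + 2) (t : P) lo hi e) (S : RectShape (n + 2) lo hi) {k : ℕ} (hk : k < m) :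
    UE (n + 2) (cext (n + 2 + 1) (topOf : P → Tops P) t) x k = ∅ := by
  rw [eq_empty_iff_forall_notMem]
  intro z hz
  obtain ⟨a, b, -, b1, b2, a1, a2, h1, -⟩ := UE_coord h B hm C hk hz
  have s1 := C.lo_step n (by omega)
  have s2 : lo (n + 1 + 1) = lo (n + 1) ∨ lo (n + 1 + 1) = lo (n + 1) + 1 := C.lo_step (n + 1) (by omega)
  have s3 := C.hi_step n (by omega)
  have s4 : hi (n + 1 + 1) = hi (n + 1) ∨ hi (n + 1 + 1) = hi (n + 1) + 1 := C.hi_step (n + 1) (by omega)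
  have e1 : lo (n + 1 + 1) = 0 ∨ lo (n + 1 + 1) = lo (n + 1) + 1 := S.lo (n + 1) (by omega)
  have e2 : hi (n + 1 + 1) = n + 1 + 1 ∨ hi (n + 1 + 1) = hi (n + 1) := S.hi (n + 1) (by omega)
  have e3 := C.hi_le (k := n) (by omega)
  rw [show n + 1 + 1 = n + 2 by omega] at s2 s4 e1 e2
  omega

/-- no pendants below the doubles of a rectangle -/
lemma rect_pen2 (h : NJ P r (n + 1)) (hn : 1 ≤ n) (C : Cp.Comp (n + 1) (t : P) lo hi e)
    (S : RectShape (n + 1) lo hi) {y : P} (hy : lev y = n + 1) (hyt : y ≤ (t : P))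
    (h2 : (uc y).card = 2) : pen y = ∅ := by
  rw [eq_empty_iff_forall_notMem]
  intro z hz
  obtain ⟨hz1, hz2⟩ := Win.mem_pen.1 hz
  refine rectShape_no_pendant h.g hn t.2 C S hy hyt h2 hz1 fun s hs => ?_
  obtain ⟨s', hs'⟩ := card_eq_one.1 hz2
  have e1 : s ∈ uc z := mem_uc.2 hs
  have e2 : y ∈ uc z := mem_uc.2 hz1
  rw [hs', mem_singleton] at e1 e2
  rw [e1, e2]

end Pool.Agent.GaussPoset.EK
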