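import Pool.Agent.W_448j6_h22.KbM

/-!
MP_448cb3_co, G2, case B, `j = 6`: the pattern [DL] with at least four sites, `w32` free.
-/

namespace Pool.Agent.GaussPoset.EK

set_option linter.unusedSectionVars false

open Finset Win St Polynomial Wd Win.W4

universe u

variable {P : Type u} [Fintype P] [PartialOrder P] [DecidableEq P] {r i j n : ℕ}

variable {m m' : ℕ} {x x' : ℕ → P} {c c' : ℕ → ℤ} {β β' : ℤ} {t : Tops P}

variable {K : Finset P} {psi : P → P} {Y V : P → P} {w v : P}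

section one

variable {lo hi : ℕ → ℕ} {e : ℕ → ℕ → P}

/-- an element with a single cover is a pendant -/
lemma pend_of {z y : P} (hz : z ∈ pen y) : Pend z y := by
  obtain ⟨hz1, hz2⟩ := Win.mem_pen.1 hz
  refine ⟨hz1, fun s hs => ?_⟩
  obtain ⟨s', hs'⟩ := card_eq_one.1 hz2
  have e1 : s ∈ uc z := mem_uc.2 hs
  have e2 : y ∈ uc z := mem_uc.2 hz1
  rw [hs', mem_singleton] at e1 e2
  rw [e1, e2]

/-- the pendants of a stair of the level 6 are below its straight end -/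
lemma stair_pen6 (h : NJ P r 6) (C : Cp.Comp 6 (t : P) lo hi e) (S : StairShape 6 lo hi)
    (h3 : lo 3 = 0) {s : ℕ} (s1 : lo 6 ≤ s) (s2 : s ≤ hi 6) (hs : s ≠ 0) :
    pen (e 6 s) = ∅ := by
  rw [eq_empty_iff_forall_notMem]
  intro z hz
  obtain ⟨Nc, co, T⟩ := J6.exists_StR h C S h3
  have hl := C.lev_e 6 s le_rfl s1 s2
  have ht := C.le_t 6 s le_rfl s1 s2
  have h1 := T.pend h C ht hl (pend_of hz)
  rw [T.co_eq _ (mem_lowPart.mpr ⟨ht, hl.le⟩)] at h1
  unfold ccoord at h1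
  rw [scoord_e C le_rfl s1 s2] at h1
  exact hs (Prod.ext_iff.1 h1).1

/-- the last site of a row has at most one pendant -/
lemma NJ.pen_last (h : NJ P r j) (hj : 2 ≤ j) (B : RowB P j t 3 x c β) (c2 : c 2 = 0) :
    (pen (x 3)).card ≤ 1 := by
  have W := NJ.prow h hj B (by omega)
  have h1 := W.deg (k := 3) le_rfl
  have h2 := W.dc_le (k := 3) le_rfl
  have h3 := B.dcv_x h.g.H (k := 2) (l := 3) (by omega) le_rfl
  rw [if_pos rfl, c2] at h3
  have h4 : dcv (x 3) (x 2) ≤ ∑ l ∈ (range (3 + 1)).erase 3, dcv (x 3) (x l) :=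
    single_le_sum (f := fun l => dcv (x 3) (x l)) (fun _ _ => Nat.zero_le _)
      (mem_erase.2 ⟨by omega, mem_range.2 (by omega)⟩)
  rw [kf_dcv_comm] at h4
  omega

end one

section all

variable {lo hi : Tops P → ℕ → ℕ} {e : Tops P → ℕ → ℕ → P}

/-- a double edge has two common children -/
lemma RowB.dd (h : NJ P r j) (B : RowB P j t m x c β) (hm : 1 ≤ m) (c0 : c 0 = 1) :
    dcv (x 0) (x 1) = 2 := by
  have h3 := B.dcv_x h.g.H (k := 0) (l := 1) (by omega) hm
  rw [if_pos rfl, c0] at h3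
  omega

/-- the values of a late row with at least four sites -/
lemma late6_vals (h : NJ P r 6) (C : ∀ t : Tops P, Cp.Comp 6 (t : P) (lo t) (hi t) (e t))
    (hS : ∀ t : Tops P, Shape 6 (lo t) (hi t)) (t : Tops P) {a : ℕ} (g0 : 3 ≤ a) (g1 : a ≤ 6)
    (g2 : ∀ k, k < a → lo t k = 0 ∧ hi t k = 0) (g3 : lo t a = 0 ∧ hi t a = 1)
    (g4 : ((1 ≤ 6 - a ∧ 6 - a ≤ a) ∧ word (lo t) (hi t) a (6 - a) = Qw (6 - a)) ∨
      word (lo t) (hi t) a (6 - a) ∈ lateW a)
    (hw : lo t 6 + 3 ≤ hi t 6) :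
    (∀ z, z ≤ (t : P) → lev z ≠ 7) ∨
    (lo t 4 = 0 ∧ hi t 4 = 1 ∧ lo t 5 = 0 ∧ hi t 5 = 2 ∧ lo t 6 = 0 ∧ hi t 6 = 3 ∧
      (∀ z, ¬ Pend z (e t 6 3)) ∧ (∀ z, z ⋖ e t 6 0 → z ⋖ e t 6 3 → False) ∧
      (∀ z, ¬ Pend z (e t 6 1))) := by
  classical
  have Ct := C t
  have hstep : ∀ k, k < a + (6 - a) → lo t k ≤ lo t (k + 1) ∧ lo t (k + 1) ≤ lo t k + 1 := by
    intro k hk
    have := Ct.lo_step k (by omega)
    omega
  have hstep' : ∀ k, k < a + (6 - a) → hi t k ≤ hi t (k + 1) ∧ hi t (k + 1) ≤ hi t k + 1 := by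
    intro k hk
    have := Ct.hi_step k (by omega)
    omega
  have key := late_wide g3 hstep hstep' g4 (by rw [show a + (6 - a) = 6 by omega]; omega)
  have ha : a = 3 := by
    have hl : (word (lo t) (hi t) a (6 - a)).length = 6 - a := by
      unfold word
      rw [List.length_map, List.length_range]
    rcases key with w | w | w | w | w <;> rw [w] at hl <;>
      simp only [List.length_cons, List.length_nil] at hl <;> omega
  subst ha
  rcases J6.late6 h C hS t (g2 2 (by omega)).2 (by omega) with ⟨-, q⟩ | ⟨⟨n, R⟩, q1, q2, q3⟩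
  · exact Or.inl q
  · right
    obtain ⟨v5, v6, hv⟩ := R.vals
    have hn : n = 14 := by omega
    subst hn
    have l5 : lo t 5 = 0 := by omega
    have l6 : lo t 6 = 0 := by omega
    have s1 := Ct.lo_step 4 (by omega)
    have s2 := Ct.lo_step 3 (by omega)
    have s3 := Ct.hi_step 4 (by omega)
    have s4 := Ct.hi_step 3 (by omega)
    have hh4 : hi t 4 = 1 := by
      have := R.hhi 4 (by norm_num)
      rw [this]
      rfl
    norm_num at s1 s2
    exact ⟨by omega, hh4, l5, v5, l6, v6, q1, q2 l6, q3 (by omega)⟩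

end all

end Pool.Agent.GaussPoset.EK
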