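import Pool.Agent.W_448j6_h22.KbN

/-!
MP_448cb3_co, G2, case B, `j = 6`: the rows with at least four sites, `w32` free.
-/

namespace Pool.Agent.GaussPoset.EK

set_option linter.unusedSectionVars false

open Finset Win St Polynomial Wd Win.W4

universe u

variable {P : Type u} [Fintype P] [PartialOrder P] [DecidableEq P] {r i j n : ℕ}

variable {m m' : ℕ} {x x' : ℕ → P} {c c' : ℕ → ℤ} {β β' : ℤ} {t : Tops P}

variable {K : Finset P} {psi : P → P} {Y V : P → P} {w v : P}

section all

variable {lo hi : Tops P → ℕ → ℕ} {e : Tops P → ℕ → ℕ → P}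

/-- the new pair of a rotated row -/
lemma RowB.new (h : NJ P r j) (B : RowB P j t m x c β) (hm : 2 ≤ m) (hβ : β = 1) :
    ∃ y, lev y = j + 1 ∧ y ≤ (t : P) ∧ y ⋖ x 0 ∧ y ⋖ x m := by
  classical
  have h1 := B.dcv_x h.g.H (k := 0) (l := m) (by omega) le_rfl
  rw [if_neg (by omega), if_pos ⟨rfl, rfl⟩, hβ] at h1
  have h2 : 0 < dcv (x 0) (x m) := by omega
  unfold dcv at h2
  obtain ⟨y, hy⟩ := card_pos.1 h2
  rw [mem_filter] at hy
  have hl := lev_cov h.g.H hy.2.1
  have hx := B.row.lev_x 0 (by omega)
  refine ⟨y, by omega, ?_, hy.2.1, hy.2.2⟩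
  have hxt : x 0 ≤ (t : P) := by
    rw [← B.row.kap 0 (by omega)]
    exact le_topOf (x 0)
  exact hy.2.1.le.trans hxt

/-- THE ROTATED ROWS OF THE LEVEL 6 -/
theorem r6 (h : NJ P r 6) (C : ∀ t : Tops P, Cp.Comp 6 (t : P) (lo t) (hi t) (e t))
    (hS : ∀ t : Tops P, Shape 6 (lo t) (hi t)) (B : RowB P 6 t m x c β) (hm : 3 ≤ m)
    (hβ : β = 1) :
    m = 3 ∧ pen (x 1) = ∅ ∧ ∀ z ∈ UE 6 (cext (6 + 1) (topOf : P → Tops P) t) x 2,
      ch 6 (cext (6 + 1) (topOf : P → Tops P) t) z ≤ 0 := by
  classical
  have H := h.g.H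
  have Ct := C t
  have W := NJ.prow h (by omega) B (by omega)
  obtain ⟨y, hy1, hy2, hy3, hy4⟩ := B.new h (by omega) hβ
  obtain ⟨hlen, hor⟩ := B.orient h (by omega) (C t)
  have hne : x 0 ≠ x m := fun q => by
    have := B.row.inj 0 m (by omega) le_rfl q
    omega
  rcases hS t with g1 | ⟨g1, S'⟩ | ⟨g1, S⟩ | ⟨g1, g2, g3⟩ | ⟨g1, g2⟩ | ⟨a, g0, g1, g2, g3, hN, g4⟩
  · exfalso
    have := g1 6 le_rfl
    omega
  · exfalso
    have h3 := rect_no_rotation h.g (by omega) h.no C (NJ_level_one h (by omega) C hS) (t := t)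
      (z := y) (x := x 0) (x' := x m) (by omega) hy1 hy2 hy3 hy4 hne
    rw [B.ucv_x 0 m (by omega) le_rfl, if_neg (by omega)] at h3
    omega
  · have e3 := S.hi 3 (by omega)
    have e4 := S.hi 4 (by omega)
    have e5 := S.hi 5 (by omega)
    have e6 := S.hi 6 (by omega)
    norm_num at e3 e4 e5 e6
    have hm3 : m = 3 := by omega
    subst hm3
    have l6 : lo t 6 = 0 := by omega
    have s1 := Ct.lo_step 5 (by omega)
    have s2 := Ct.lo_step 4 (by omega)
    have s3 := Ct.lo_step 3 (by omega)
    norm_num at s1 s2 s3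
    have l5 : lo t 5 = 0 := by omega
    have l4 : lo t 4 = 0 := by omega
    have l3 : lo t 3 = 0 := by omega
    rcases hor with hor | hor
    · refine ⟨rfl, ?_, ?_⟩
      · rw [hor 1 (by omega), l6]
        exact stair_pen6 h Ct S l3 (by omega) (by omega) (by omega)
      · intro z hz
        obtain ⟨hzC, hzP, -⟩ := mem_UE.1 hz
        obtain ⟨a, b, hb, b1, b2, a1, a2, h1, -⟩ := UE_coord (n := 4) h B (by omega) Ct
          (k := 2) (by omega) hz
        norm_num at a1 a2 h1
        have hb2 : b = 2 := by omega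
        subst hb2
        have h2 := W.ch_PU hzP hzC
        have h3 : (uc z).filter (fun g => (dc g).card = 1) = ∅ := by
          rw [filter_eq_empty_iff]
          intro g hg hg1
          have lz : lev z = 4 := by rw [hb]; exact Ct.lev_e 4 2 (by omega) (by omega) (by omega)
          have zt : z ≤ (t : P) := by rw [hb]; exact Ct.le_t 4 2 (by omega) (by omega) (by omega)
          have lg := lev_uc H hg
          have hgt : g ≤ (t : P) := Cp.up_le H h.g.good t.2 zt (by omega) (mem_uc.1 hg).le
          obtain ⟨q, q1, q2, q3⟩ := Ct.surj g hgt (by omega)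
          have lg' : lev g = 3 := by omega
          rw [lg'] at q1 q2 q3
          subst q3
          subst hb
          have c1 := (Ct.cov 3 2 q (by omega) (by omega) (by omega) q1 q2).1 (mem_uc.1 hg)
          have c2 := (Ct.single_down H (k := 3) (by omega) q1 q2).1 hg1
          norm_num at c2
          omega
        rw [h3, card_empty] at h2
        norm_num at h2
        exact h2
    · refine ⟨rfl, ?_, ?_⟩
      · rw [hor 1 (by omega), e6]
        exact stair_pen6 h Ct S l3 (by omega) (by omega) (by omega)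
      · intro z hz
        exfalso
        obtain ⟨a, b, hb, b1, b2, a1, a2, h1, h5⟩ := UE_coord (n := 4) h B (by omega) Ct
          (k := 2) (by omega) hz
        norm_num at a1 a2 h1 h5
        have ha2 : a = 2 := by omega
        subst ha2
        rw [hor 2 (by omega), hor 3 (by omega), e6] at h5
        rcases h5 with ⟨h5, -⟩ | ⟨h5, -⟩
        · have := Ct.inj 6 _ _ le_rfl (by omega) (by omega) (by omega) (by omega) h5
          omega
        · have := Ct.inj 6 _ _ le_rfl (by omega) (by omega) (by omega) (by omega) h5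
          omega
  · omega
  · exact absurd g2 (NJ_no_six h C hS t)
  · exfalso
    rcases late6_vals h C hS t g0 g1 g2 g3 g4 (by omega) with q | ⟨-, -, -, -, l6, e6, -, q, -⟩
    · exact q y hy2 hy1
    · have hm3 : m = 3 := by omega
      subst hm3
      rcases hor with hor | hor
      · rw [hor 0 (by omega), l6] at hy3
        rw [hor 3 (by omega), l6] at hy4
        exact q y hy3 hy4
      · rw [hor 0 (by omega), e6] at hy3
        rw [hor 3 (by omega), e6] at hy4
        exact q y hy4 hy3

/-- THE ROWS WITH A DOUBLE EDGE OF THE LEVEL 6 -/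
theorem dl6 (h : NJ P r 6) (C : ∀ t : Tops P, Cp.Comp 6 (t : P) (lo t) (hi t) (e t))
    (hS : ∀ t : Tops P, Shape 6 (lo t) (hi t)) (R : Red P 6 K psi) (B : RowB P 6 t m x c β)
    (hm : 3 ≤ m) (hβ : β = 0) (c0 : c 0 = 1) (c1 : c 1 = -1)
    (c2 : ∀ k, 2 ≤ k → k < m → c k = 0) :
    2 * ((pen (x 2)).card : ℤ) ≤ W4.Tv 6 (cext (6 + 1) (topOf : P → Tops P) t) := by
  classical
  have H := h.g.H
  have Ct := C t
  have W := NJ.prow h (by omega) B (by omega)
  obtain ⟨w, v, D⟩ := NJ.dlg h (by omega) R B hm hβ c0 c1 c2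
  obtain ⟨hlen, hor⟩ := B.orient h (by omega) (C t)
  have hne : x 0 ≠ x 1 := fun q => by
    have := B.row.inj 0 1 (by omega) (by omega) q
    omega
  have hdd := B.dd h (by omega) c0
  have hxt : ∀ l, l ≤ m → x l ≤ (t : P) := by
    intro l hl
    rw [← B.row.kap l hl]
    exact le_topOf (x l)
  rcases hS t with g1 | ⟨g1, S'⟩ | ⟨g1, S⟩ | ⟨g1, g2, g3⟩ | ⟨g1, g2⟩ | ⟨a, g0, g1, g2, g3, hN, g4⟩
  · exfalso
    have := g1 6 le_rfl
    omega
  · -- rectangle
    have hcl : (uc (x 0)).card = 2 := by
      rcases W.uc_le (k := 0) (by omega) with h1 | h1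
      · exfalso
        have h3 := NJ_rect_S_end h (by omega) C hS (t := t) (x := x 0) (x' := x 1) (by omega)
          (B.row.lev_x 0 (by omega)) (hxt 0 (by omega)) h1 hne
        rw [hdd] at h3
        omega
      · exact h1
    have hUE : ∀ k, k < m → UE 6 (cext (6 + 1) (topOf : P → Tops P) t) x k = ∅ := fun k hk =>
      rect_UE (n := 4) h B (by omega) Ct S' hk
    have hp2 : pen (x 2) = ∅ := rect_pen2 (n := 5) h (by omega) Ct S' (B.row.lev_x 2 (by omega))
      (hxt 2 (by omega)) (W.uc_inner (by omega) (by omega))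
    rcases Nat.lt_or_ge m 4 with hm4 | hm4
    · obtain rfl : m = 3 := by omega
      refine D.T_ge3 rfl ?_ (Or.inl ⟨hUE 2 (by omega), hp2⟩)
      rcases W.uc_le (k := 3) le_rfl with h1 | h1
      · have := NJ.pen_last h (by omega) B (c2 2 le_rfl (by omega))
        omega
      · rw [rect_pen2 (n := 5) h (by omega) Ct S' (B.row.lev_x 3 le_rfl) (hxt 3 le_rfl) h1,
          card_empty]
        omega
    · rw [hp2, card_empty]
      have := D.T_ge4 hm4 hcl (by
        unfold NE
        rw [hUE (m - 1) (by omega), card_empty]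
        push_cast
        omega)
      push_cast
      linarith
  · -- stair
    have e3 := S.hi 3 (by omega)
    have e4 := S.hi 4 (by omega)
    have e5 := S.hi 5 (by omega)
    have e6 := S.hi 6 (by omega)
    norm_num at e3 e4 e5 e6
    have hm3 : m = 3 := by omega
    subst hm3
    have l6 : lo t 6 = 0 := by omega
    have s1 := Ct.lo_step 5 (by omega)
    have s2 := Ct.lo_step 4 (by omega)
    have s3 := Ct.lo_step 3 (by omega)
    norm_num at s1 s2 s3
    have l5 : lo t 5 = 0 := by omega
    have l4 : lo t 4 = 0 := by omega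
    have l3 : lo t 3 = 0 := by omega
    have hcl : ∀ s, s ≤ 3 → s = 0 ∨ s = 3 → (uc (e t 6 s)).card = 1 := by
      intro s hs hs'
      have h1 := Ct.double_up H h.g.good t.2 (k := 5) (s := s) (by omega)
        (by norm_num; omega) (by norm_num; omega)
      norm_num at h1
      rcases uc_card_cases H (x := e t 6 s) (by
        rw [Ct.lev_e 6 s le_rfl (by omega) (by omega)]; omega) with h2 | h2
      · exact h2
      · exfalso
        have := h1.1 h2
        omega
    rcases hor with hor | hor
    · have h3 : (uc (x 3)).card = 1 := by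
        rw [hor 3 le_rfl, l6]
        exact hcl 3 le_rfl (Or.inr rfl)
      have p3 : pen (x 3) = ∅ := by
        rw [hor 3 le_rfl, l6]
        exact stair_pen6 h Ct S l3 (by omega) (by omega) (by omega)
      have p2 : pen (x 2) = ∅ := by
        rw [hor 2 (by omega), l6]
        exact stair_pen6 h Ct S l3 (by omega) (by omega) (by omega)
      exact D.T_ge3 rfl (by rw [h3, p3, card_empty]; omega)
        (Or.inr ⟨by rw [h3, p3, card_empty], Or.inr p2⟩)
    · have h3 : (uc (x 3)).card = 1 := by
        rw [hor 3 le_rfl, e6]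
        exact hcl 0 (by omega) (Or.inl rfl)
      have p3 := NJ.pen_last h (by omega) B (c2 2 le_rfl (by omega))
      have p2 : pen (x 2) = ∅ := by
        rw [hor 2 (by omega), e6]
        exact stair_pen6 h Ct S l3 (by omega) (by omega) (by omega)
      have hUE : UE 6 (cext (6 + 1) (topOf : P → Tops P) t) x 2 = ∅ := by
        rw [eq_empty_iff_forall_notMem]
        intro z hz
        obtain ⟨a, b, hb, b1, b2, a1, a2, h1, h5⟩ := UE_coord (n := 4) h B (by omega) Ct
          (k := 2) (by omega) hz
        norm_num at a1 a2 h1 h5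
        have ha2 : a = 2 := by omega
        subst ha2
        rw [hor 2 (by omega), hor 3 (by omega), e6] at h5
        rcases h5 with ⟨h5, -⟩ | ⟨h5, -⟩
        · have := Ct.inj 6 _ _ le_rfl (by omega) (by omega) (by omega) (by omega) h5
          omega
        · have := Ct.inj 6 _ _ le_rfl (by omega) (by omega) (by omega) (by omega) h5
          omega
      exact D.T_ge3 rfl (by omega) (Or.inl ⟨hUE, p2⟩)
  · omega
  · exact absurd g2 (NJ_no_six h C hS t)
  · -- late
    rcases late6_vals h C hS t g0 g1 g2 g3 g4 (by omega) with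
      q | ⟨l4, e4, l5, e5, l6, e6, q1, -, q2⟩
    · exfalso
      have wt : topOf w = t := mem_cext.1 D.Q.wC w le_rfl (by have := D.Q.lw0; omega)
      have := le_topOf w
      rw [wt] at this
      exact q w this D.Q.lw0
    · have hm3 : m = 3 := by omega
      subst hm3
      have hp : ∀ y : P, (∀ z : P, ¬ Pend z y) → pen y = ∅ := by
        intro y hy
        rw [eq_empty_iff_forall_notMem]
        exact fun z hz => hy z (pend_of hz)
      have hcl : ∀ s, s ≤ 3 → s = 0 ∨ s = 3 → (uc (e t 6 s)).card = 1 := by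
        intro s hs hs'
        have h1 := Ct.double_up H h.g.good t.2 (k := 5) (s := s) (by omega)
          (by norm_num; omega) (by norm_num; omega)
        norm_num at h1
        rcases uc_card_cases H (x := e t 6 s) (by
          rw [Ct.lev_e 6 s le_rfl (by omega) (by omega)]; omega) with h2 | h2
        · exact h2
        · exfalso
          have := h1.1 h2
          omega
      have hUE : UE 6 (cext (6 + 1) (topOf : P → Tops P) t) x 2 = ∅ := by
        rw [eq_empty_iff_forall_notMem]
        intro z hz
        obtain ⟨a, b, hb, b1, b2, a1, a2, h1, h5⟩ := UE_coord (n := 4) h B (by omega) Ct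
          (k := 2) (by omega) hz
        norm_num at a1 a2 h1
        omega
      rcases hor with hor | hor
      · have h3 : (uc (x 3)).card = 1 := by
          rw [hor 3 le_rfl, l6]
          exact hcl 3 le_rfl (Or.inr rfl)
        have p3 : pen (x 3) = ∅ := by
          rw [hor 3 le_rfl, l6]
          exact hp _ q1
        exact D.T_ge3 rfl (by rw [h3, p3, card_empty]; omega)
          (Or.inr ⟨by rw [h3, p3, card_empty], Or.inl hUE⟩)
      · have h3 : (uc (x 3)).card = 1 := by
          rw [hor 3 le_rfl, e6]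
          exact hcl 0 (by omega) (Or.inl rfl)
        have p3 := NJ.pen_last h (by omega) B (c2 2 le_rfl (by omega))
        have p2 : pen (x 2) = ∅ := by
          rw [hor 2 (by omega), e6]
          exact hp _ q2
        exact D.T_ge3 rfl (by omega) (Or.inl ⟨hUE, p2⟩)

end all

end Pool.Agent.GaussPoset.EK
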