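import Pool.Agent.W_448j6_h22.KbO

/-!
MP_448cb3_co, G2, case B, `j = 6`: no element (C), from the bound for the triangle.
-/

namespace Pool.Agent.GaussPoset.EK

set_option linter.unusedSectionVars false

open Finset Win St Polynomial Wd Win.W4

universe u

variable {P : Type u} [Fintype P] [PartialOrder P] [DecidableEq P] {r i j n : ℕ}

variable {m m' : ℕ} {x x' : ℕ → P} {c c' : ℕ → ℤ} {β β' : ℤ} {t : Tops P}

variable {K : Finset P} {psi : P → P} {Y V : P → P} {w v : P}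

/-- the value of a triangle over the site opposite to an edge -/
lemma tri_sa (h : NJ P r j) (R : Red P j K psi) (B : RowB P j t 2 x c β) {p q s : ℕ} (hp : p ≤ 2)
    (hq : q ≤ 2) (hs : s ≤ 2) (hpq : p < q) (hps : p ≠ s) (hqs : q ≠ s) :
    sa j (topOf : P → Tops P) K {x s} t = Df j {x p, x q} := by
  classical
  have H := h.g.H
  have W := B.row
  rw [sa_eq, ← fib_K R.mat R.sub]
  refine sum_congr ?_ fun _ _ => rfl
  ext k
  rw [mem_filter, mem_filter]
  constructor
  · rintro ⟨hk, hkt, hd⟩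
    refine ⟨hk, ?_⟩
    obtain ⟨p', q', f1, f2, f3, f4⟩ := W.pair R H h.split hk hkt
    rw [f3, disjoint_singleton_right, mem_insert, mem_singleton] at hd
    have h1 : s ≠ p' := fun q => hd (Or.inl (by rw [q]))
    have h2 : s ≠ q' := fun q => hd (Or.inr (by rw [q]))
    have h3 : p' = p ∧ q' = q := by omega
    rw [f3, h3.1, h3.2]
  · rintro ⟨hk, hns⟩
    refine ⟨hk, ?_, ?_⟩
    · have h1 := (kap_ns' H h.split (R.sub hk) (v := x p) (by rw [hns]; simp)).1
      rw [← h1]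
      exact W.kap p hp
    · rw [hns, disjoint_singleton_right, mem_insert, mem_singleton]
      rintro (h1 | h1)
      · exact hps (W.inj _ _ hs hp h1).symm
      · exact hqs (W.inj _ _ hs hq h1).symm

section own

variable (h : NJ P r j) (hj : 2 ≤ j) (R : Red P j K psi) (hY : YV j Y V)

include h hj R hY

/-- the triangle: the share -/
theorem NJ.own_tri (B : RowB P j t 2 x c β) (hβ : β = 2) (c0 : c 0 = -1) (c1 : c 1 = -1)
    (hT : 6 ≤ TT j t) : PA j K Y V t + PB j K Y V t ≤ TT j t := by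
  classical
  have a1 : PA j K Y V t = 0 := NJ.PA_zero h hj R hY fun y hy ht => by
    have := (B.bad h hj hy ht).1
    omega
  have s0 : sa j (topOf : P → Tops P) K {x 0} t = -1 := by
    rw [tri_sa h R B (p := 1) (q := 2) (s := 0) (by omega) le_rfl (by omega) (by omega)
      (by omega) (by omega), B.row.df 1 2 (by omega) le_rfl, if_pos rfl, c1]
  have s1 : sa j (topOf : P → Tops P) K {x 1} t = 2 := by
    rw [tri_sa h R B (p := 0) (q := 2) (s := 1) (by omega) le_rfl (by omega) (by omega)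
      (by omega) (by omega), B.row.df 0 2 (by omega) le_rfl, if_neg (by omega),
      if_pos ⟨rfl, rfl⟩, hβ]
  have s2 : sa j (topOf : P → Tops P) K {x 2} t = -1 := by
    rw [tri_sa h R B (p := 0) (q := 1) (s := 2) (by omega) (by omega) (by omega) (by omega)
      (by omega) (by omega), B.row.df 0 1 (by omega) (by omega), if_pos rfl, c0]
  have a2 := NJ.PB_le h hj R hY B (q0 := 1) (b := 2) (by norm_num) fun q hq hq1 => by
    have hq3 : q = 0 ∨ q = 1 ∨ q = 2 := by omega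
    rcases hq3 with rfl | rfl | rfl
    · rw [s0] at hq1
      norm_num at hq1
    · exact ⟨rfl, s1⟩
    · rw [s2] at hq1
      norm_num at hq1
  have h1 := B.lost 1 (by omega) (by omega) c0 c1
  rw [h1] at a2
  norm_num at a2
  linarith

end own

/-- closing the row to a cycle -/
lemma exists_cyc (x : ℕ → P) : ∃ x' : ℕ → P, (∀ k, k ≤ 3 → x' k = x k) ∧ x' 4 = x' 0 := by
  refine ⟨fun k => if k = 4 then x 0 else x k, fun k hk => ?_, ?_⟩
  · show (if k = 4 then x 0 else x k) = x k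
    rw [if_neg (by omega)]
  · show (if 4 = 4 then x 0 else x 4) = (if 0 = 4 then x 0 else x 0)
    rw [if_pos rfl, if_neg (by omega)]

lemma UE_cyc {C : Finset P} (hx : ∀ k, k ≤ 3 → x' k = x k) : UE j C x' 2 = UE j C x 2 := by
  have hed : ed x' 2 = ed x 2 := by
    unfold ed
    rw [hx 2 (by omega), hx (2 + 1) (by omega)]
  unfold UE
  rw [hed]

section six

variable {lo hi : Tops P → ℕ → ℕ} {e : Tops P → ℕ → ℕ → P}

/-- two double edges at the level 6 are impossible -/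
lemma no_pat6 (h : NJ P r 6) (C : ∀ t : Tops P, Cp.Comp 6 (t : P) (lo t) (hi t) (e t))
    (hS : ∀ t : Tops P, Shape 6 (lo t) (hi t)) (B : RowB P 6 t m x c β) (hp : Pat6 m c β) :
    False := by
  classical
  have H := h.g.H
  have Ct := C t
  obtain ⟨hm, hβ, c0, c1, c2, c3, -⟩ := hp
  obtain ⟨hlen, hor⟩ := B.orient h (by omega) (C t)
  have hh := Ct.hi_le (k := 6) le_rfl
  have hxt : ∀ l, l ≤ m → x l ≤ (t : P) := by
    intro l hl
    rw [← B.row.kap l hl]
    exact le_topOf (x l)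
  rcases hS t with g1 | ⟨g1, S'⟩ | ⟨g1, S⟩ | ⟨g1, g2, g3⟩ | ⟨g1, g2⟩ | ⟨a, g0, g1, g2, g3, hN, g4⟩
  · have := g1 6 le_rfl
    omega
  · -- the ends are closed
    have key : ∀ {x : ℕ → P} {c : ℕ → ℤ}, RowB P 6 t m x c β → c 0 = 1 → (uc (x 0)).card = 2 := by
      intro x c B c0
      have W := NJ.prow h (by omega) B (by omega)
      rcases W.uc_le (k := 0) (by omega) with h1 | h1
      · exfalso
        have hne : x 0 ≠ x 1 := fun q => by
          have := B.row.inj 0 1 (by omega) (by omega) q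
          omega
        have h3 := NJ_rect_S_end h (by omega) C hS (t := t) (x := x 0) (x' := x 1) (by omega)
          (B.row.lev_x 0 (by omega)) (by
            rw [← B.row.kap 0 (by omega)]
            exact le_topOf (x 0)) h1 hne
        rw [B.dd h (by omega) c0] at h3
        omega
      · exact h1
    have k0 := key B c0
    have k1 := key B.rev (by
      show c (m - 1 - 0) = 1
      rw [Nat.sub_zero]
      exact c3)
    simp only [Nat.sub_zero] at k1
    have hd : ∀ s, lo t 6 ≤ s → s ≤ hi t 6 → (uc (e t 6 s)).card = 2 → lo t 5 < s ∧ s ≤ hi t 5 :=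
      fun s q1 q2 => (Ct.double_up H h.g.good t.2 (k := 5) (by omega) q1 q2).1
    have hh5 := Ct.hi_le (k := 5) (by omega)
    have e1 := Ct.lo_step 5 (by omega)
    have e2 := Ct.hi_step 5 (by omega)
    norm_num at e1 e2
    rcases hor with hor | hor
    · rw [hor 0 (by omega)] at k0
      rw [hor m le_rfl] at k1
      have f0 := hd _ (by omega) (by omega) k0
      have f1 := hd _ (by omega) (by omega) k1
      omega
    · rw [hor 0 (by omega)] at k0
      rw [hor m le_rfl] at k1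
      have f0 := hd _ (by omega) (by omega) k0
      have f1 := hd _ (by omega) (by omega) k1
      omega
  · have := S.hi 6 (by omega)
    norm_num at this
    omega
  · omega
  · exact absurd g2 (NJ_no_six h C hS t)
  · rcases late6_vals h C hS t g0 g1 g2 g3 g4 (by omega) with q | ⟨-, -, -, -, l6, e6, -⟩
    · obtain ⟨K, psi, R⟩ := exists_red P 6
      obtain ⟨w, hw1, hw2, hw3⟩ := R.exL (S := {x 0, x 1}) (by
        rw [B.row.df 0 1 (by omega) (by omega), if_pos rfl, c0])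
      have hl := (mem_dbL.1 hw2).1
      have h1 : w ⋖ x 0 := mem_uc.1 (by rw [hw3]; simp)
      exact q w (h1.le.trans (hxt 0 (by omega))) hl
    · omega

/-- every part pays its share -/
theorem own6 (h : NJ P r 6) (C : ∀ t : Tops P, Cp.Comp 6 (t : P) (lo t) (hi t) (e t))
    (hS : ∀ t : Tops P, Shape 6 (lo t) (hi t)) (R : Red P 6 K psi) (hY : YV 6 Y V)
    (hTri : ∀ (t : Tops P) (x : ℕ → P) (c : ℕ → ℤ), RowB P 6 t 2 x c 2 → c 0 = -1 → c 1 = -1 →
      6 ≤ TT 6 t) (t : Tops P) : PA 6 K Y V t + PB 6 K Y V t ≤ TT 6 t := by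
  have hj : 2 ≤ 6 := by omega
  obtain ⟨m, x, c, β, B⟩ := NJ.rowB h hj t
  -- the two oriented patterns
  have keyR : ∀ {x : ℕ → P} {c : ℕ → ℤ}, RowB P 6 t m x c β → 2 ≤ m → β = 1 → c 0 = -1 →
      (∀ k, 1 ≤ k → k < m → c k = 0) → PA 6 K Y V t + PB 6 K Y V t ≤ TT 6 t := by
    intro x c B hm hβ c0 c1
    rcases Nat.lt_or_ge m 3 with hm3 | hm3
    · obtain rfl : m = 2 := by omega
      exact NJ.own_r2 h hj R hY B hβ c0 (c1 1 le_rfl (by omega))
    · obtain ⟨hm', hp, hU⟩ := r6 h C hS B hm3 hβ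
      subst hm'
      obtain ⟨x', hx, hx4⟩ := exists_cyc x
      have B' := B.congr hx
      refine NJ.own_r3 h hj R hY B' hβ c0 (c1 1 le_rfl (by omega)) (c1 2 (by omega) (by omega)) hx4
        (by rw [hx 1 (by omega)]; exact hp) ?_
      rw [UE_cyc hx]
      exact hU
  have keyD : ∀ {x : ℕ → P} {c : ℕ → ℤ}, RowB P 6 t m x c β → 2 ≤ m → β = 0 → c 0 = 1 →
      c 1 = -1 → (∀ k, 2 ≤ k → k < m → c k = 0) →
      PA 6 K Y V t + PB 6 K Y V t ≤ TT 6 t := by
    intro x c B hm hβ c0 c1 c2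
    rcases Nat.lt_or_ge m 3 with hm3 | hm3
    · obtain rfl : m = 2 := by omega
      exact NJ.own_dl2 h hj R hY B hβ c0 c1
    · exact NJ.own_dl h hj R hY B hm3 hβ c0 c1 c2 (dl6 h C hS R B hm3 hβ c0 c1 c2)
  rcases B.pat with ⟨p1, p2⟩ | ⟨p0, p1, p2, p3⟩ | ⟨p0, p1, p2, p3⟩ | ⟨p0, p1, p2, p3, p4⟩ |
    ⟨p0, p1, p2, p3, p4⟩ | p1 | ⟨p0, p1, p2, p3⟩ | p1
  · exact NJ.own_nat h hj R hY B p2 p1
  · exact keyR B p0 p1 p2 p3
  · refine keyR B.rev p0 p1 ?_ fun k k1 k2 => ?_
    · show c (m - 1 - 0) = -1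
      rwa [Nat.sub_zero]
    · exact p3 (m - 1 - k) (by omega)
  · exact keyD B p0 p1 p2 p3 p4
  · refine keyD B.rev p0 p1 ?_ ?_ fun k k1 k2 => ?_
    · show c (m - 1 - 0) = 1
      rwa [Nat.sub_zero]
    · show c (m - 1 - 1) = -1
      rwa [show m - 1 - 1 = m - 2 by omega]
    · exact p4 (m - 1 - k) (by omega)
  · exact (no_pat6 h C hS B p1).elim
  · subst p0
    have hT := hTri t x c (by rw [← p1]; exact B) p2 p3
    exact NJ.own_tri h hj R hY B p1 p2 p3 hT
  · exact (B.not8 p1).elim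

/-- NO ELEMENT (C) OF THE LEVEL 7, from the bound for the triangles -/
theorem no_cc_of_tri (h : NJ P r 6) (C : ∀ t : Tops P, Cp.Comp 6 (t : P) (lo t) (hi t) (e t))
    (hS : ∀ t : Tops P, Shape 6 (lo t) (hi t))
    (hTri : ∀ (t : Tops P) (x : ℕ → P) (c : ℕ → ℤ), RowB P 6 t 2 x c 2 → c 0 = -1 → c 1 = -1 →
      6 ≤ TT 6 t)
    (t : Tops P) {z : P} (S : StairShape 6 (lo t) (hi t)) (l6 : lo t 6 = 0)
    (z3 : z ⋖ e t 6 3) (z0 : z ⋖ e t 6 0) : False := by
  classical
  have hj : 2 ≤ 6 := by omega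
  obtain ⟨K, psi, R⟩ := exists_red P 6
  obtain ⟨Y, V, hY⟩ := exists_YV P 6
  obtain ⟨d1, d2⟩ := NJ.distr h hj R hY (own6 h C hS R hY hTri)
  obtain ⟨m, x, c, β, B⟩ := NJ.rowB h hj t
  obtain ⟨hlen, hor⟩ := B.orient h hj (C t)
  have e6 := S.hi 6 le_rfl
  norm_num at e6
  obtain rfl : m = 3 := by omega
  have hpos : 0 < dcv (x 0) (x 3) := by
    unfold dcv
    rw [card_pos]
    refine ⟨z, ?_⟩
    rw [mem_filter]
    rcases hor with hor | hor
    · rw [hor 0 (by omega), hor 3 le_rfl, l6]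
      exact ⟨mem_univ _, z0, z3⟩
    · rw [hor 0 (by omega), hor 3 le_rfl, e6]
      exact ⟨mem_univ _, z3, z0⟩
  have h1 := B.dcv_x h.g.H (k := 0) (l := 3) (by omega) le_rfl
  rw [if_neg (by omega), if_pos ⟨rfl, rfl⟩] at h1
  have keyR : ∀ {x : ℕ → P} {c : ℕ → ℤ}, RowB P 6 t 3 x c β → β = 1 → c 0 = -1 →
      (∀ k, 1 ≤ k → k < 3 → c k = 0) → False := by
    intro x c B hβ c0 c1
    obtain ⟨-, hp, hU⟩ := r6 h C hS B le_rfl hβ
    obtain ⟨x', hx, hx4⟩ := exists_cyc x
    have B' := B.congr hx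
    refine NJ.r3_false h hj R hY B' hβ c0 (c1 1 le_rfl (by omega)) (c1 2 (by omega) (by omega)) hx4
      (by rw [hx 1 (by omega)]; exact hp) ?_ (d1 t) d2
    rw [UE_cyc hx]
    exact hU
  rcases B.pat with ⟨p1, p2⟩ | ⟨p0, p1, p2, p3⟩ | ⟨p0, p1, p2, p3⟩ | ⟨p0, p1, p2, p3, p4⟩ |
    ⟨p0, p1, p2, p3, p4⟩ | p1 | ⟨p0, p1, p2, p3⟩ | p1
  · omega
  · exact keyR B p1 p2 p3
  · refine keyR B.rev p1 ?_ fun k k1 k2 => ?_
    · show c (3 - 1 - 0) = -1
      exact p2
    · exact p3 (3 - 1 - k) (by omega)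
  · omega
  · omega
  · exact no_pat6 h C hS B p1
  · omega
  · exact B.not8 p1

end six

end Pool.Agent.GaussPoset.EK
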