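import Pool.Agent.W_448j6_h22.KbA

/-!
MP_448cb3_co, G2, case B, window `j`: the triangle (three sites, two lower doubles over the two
outer sites, no lower double over the two edges): the frame.
-/

namespace Pool.Agent.GaussPoset.Win.W4

set_option linter.unusedSectionVars false

open Finset
open Pool.Agent.GaussPoset.Win.SO (LowD UppD val_gen)

universe u

variable {P : Type u} [Fintype P] [PartialOrder P] [DecidableEq P] {r i : ℕ}
variable {e : P → ℕ} {C : Finset P} {x0 x1 x2 v1 v2 w w' p : P}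

/-- the triangle -/
structure Tri (r i : ℕ) (C : Finset P) (x0 x1 x2 v1 v2 w w' p : P) : Prop where
  H : Gr P r
  hi : 1 ≤ i
  hi2 : i + 1 ≤ r
  hC : Part (i + 1) C
  l0 : lev x0 = i
  l1 : lev x1 = i
  l2 : lev x2 = i
  hst : st i C = {x0, x1, x2}
  n01 : x0 ≠ x1
  n02 : x0 ≠ x2
  n12 : x1 ≠ x2
  u0 : uc x0 = {v1}
  u1 : uc x1 = {v1, v2}
  u2 : uc x2 = {v2}
  hv1 : dc v1 = {x0, x1}
  hv2 : dc v2 = {x1, x2}
  d0 : dc x0 = {w, w'}
  d1 : dc x1 = {p}
  d2 : dc x2 = {w, w'}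
  hw : uc w = {x0, x2}
  hw' : uc w' = {x0, x2}
  hp : uc p = {x1}
  nw : w ≠ w'

namespace Tri

variable (T : Tri r i C x0 x1 x2 v1 v2 w w' p)
include T

/-- the other orientation -/
lemma rev : Tri r i C x2 x1 x0 v2 v1 w w' p where
  H := T.H
  hi := T.hi
  hi2 := T.hi2
  hC := T.hC
  l0 := T.l2
  l1 := T.l1
  l2 := T.l0
  hst := by
    rw [T.hst]
    ext z
    simp only [mem_insert, mem_singleton]
    tauto
  n01 := T.n12.symm
  n02 := T.n02.symm
  n12 := T.n01.symm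
  u0 := T.u2
  u1 := by rw [T.u1, pair_comm]
  u2 := T.u0
  hv1 := by rw [T.hv2, pair_comm]
  hv2 := by rw [T.hv1, pair_comm]
  d0 := T.d2
  d1 := T.d1
  d2 := T.d0
  hw := by rw [T.hw, pair_comm]
  hw' := by rw [T.hw', pair_comm]
  hp := T.hp
  nw := T.nw

/-- the doubles exchanged -/
lemma swap : Tri r i C x0 x1 x2 v1 v2 w' w p where
  H := T.H
  hi := T.hi
  hi2 := T.hi2
  hC := T.hC
  l0 := T.l0
  l1 := T.l1
  l2 := T.l2
  hst := T.hst
  n01 := T.n01
  n02 := T.n02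
  n12 := T.n12
  u0 := T.u0
  u1 := T.u1
  u2 := T.u2
  hv1 := T.hv1
  hv2 := T.hv2
  d0 := by rw [T.d0, pair_comm]
  d1 := T.d1
  d2 := by rw [T.d2, pair_comm]
  hw := T.hw'
  hw' := T.hw
  hp := T.hp
  nw := T.nw.symm

lemma hir : i ≤ r := by have := T.hi2; omega

lemma part : Part i C := ⟨fun h1 h2 => T.hC.up h1 h2, fun h1 h2 h3 => T.hC.dn h1 (by omega) h3⟩

lemma c_w0 : w ⋖ x0 := mem_uc.1 (by rw [T.hw]; simp)
lemma c_w2 : w ⋖ x2 := mem_uc.1 (by rw [T.hw]; simp)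
lemma c_w0' : w' ⋖ x0 := mem_uc.1 (by rw [T.hw']; simp)
lemma c_w2' : w' ⋖ x2 := mem_uc.1 (by rw [T.hw']; simp)
lemma c_p : p ⋖ x1 := mem_uc.1 (by rw [T.hp]; simp)
lemma c_01 : x0 ⋖ v1 := mem_uc.1 (by rw [T.u0]; simp)
lemma c_11 : x1 ⋖ v1 := mem_uc.1 (by rw [T.u1]; simp)
lemma c_12 : x1 ⋖ v2 := mem_uc.1 (by rw [T.u1]; simp)
lemma c_22 : x2 ⋖ v2 := mem_uc.1 (by rw [T.u2]; simp)

lemma lw : lev w = i + 1 := by
  have := lev_cov T.H T.c_w0
  have := T.l0
  omega
lemma lw' : lev w' = i + 1 := T.swap.lw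
lemma lp : lev p = i + 1 := by
  have := lev_cov T.H T.c_p
  have := T.l1
  omega
lemma lv1 : lev v1 + 1 = i := by
  have := lev_cov T.H T.c_01
  have := T.l0
  omega
lemma lv2 : lev v2 + 1 = i := T.rev.lv1

lemma nv : v1 ≠ v2 := by
  rintro h
  have h1 : x0 ∈ dc v2 := by rw [← h]; exact mem_dc.2 T.c_01
  rw [T.hv2, mem_insert, mem_singleton] at h1
  rcases h1 with h1 | h1
  · exact T.n01 h1
  · exact T.n02 h1

lemma nwp : w ≠ p := by
  rintro h
  have h1 : x0 ∈ uc p := by rw [← h]; exact mem_uc.2 T.c_w0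
  rw [T.hp, mem_singleton] at h1
  exact T.n01 h1

lemma nwp' : w' ≠ p := T.swap.nwp

/-- elements of different levels are different -/
lemma ne_lev {a b : P} (h : lev a ≠ lev b) : a ≠ b := fun h1 => h (by rw [h1])

lemma mC0 : x0 ∈ C := (mem_st.1 (show x0 ∈ st i C by rw [T.hst]; simp)).1
lemma mC1 : x1 ∈ C := (mem_st.1 (show x1 ∈ st i C by rw [T.hst]; simp)).1
lemma mC2 : x2 ∈ C := (mem_st.1 (show x2 ∈ st i C by rw [T.hst]; simp)).1
lemma mV1 : v1 ∈ C := T.hC.up T.mC0 T.c_01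
lemma mV2 : v2 ∈ C := T.hC.up T.mC2 T.c_22
lemma mW : w ∈ C := T.hC.dn T.mC0 (by have := T.l0; omega) T.c_w0
lemma mW' : w' ∈ C := T.swap.mW
lemma mP : p ∈ C := T.hC.dn T.mC1 (by have := T.l1; omega) T.c_p

lemma card_st : (st i C).card = 3 := by
  rw [T.hst, card_insert_of_notMem, card_pair T.n12]
  rw [mem_insert, mem_singleton]
  push Not
  exact ⟨T.n01, T.n02⟩

/-- the near elements and the sites -/
lemma cases_C {z : P} (hz : z ∈ C) : z = x0 ∨ z = x1 ∨ z = x2 ∨ z = v1 ∨ z = v2 ∨ z = w ∨ z = w' ∨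
    z = p ∨ i + 2 ≤ lev z ∨ lev z + 2 ≤ i := by
  have hsite : ∀ y ∈ C, lev y = i → y = x0 ∨ y = x1 ∨ y = x2 := by
    intro y hy hl
    have h1 : y ∈ st i C := mem_st.2 ⟨hy, hl⟩
    rw [T.hst] at h1
    simpa using h1
  have hl : lev z = i ∨ lev z = i + 1 ∨ lev z + 1 = i ∨ i + 2 ≤ lev z ∨ lev z + 2 ≤ i := by omega
  rcases hl with hl | hl | hl | hl | hl
  · rcases hsite z hz hl with h | h | h <;> tauto
  · obtain ⟨y, hy⟩ := uc_nonempty T.H (x := z) (by omega)
    have h1 := lev_uc T.H hy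
    have hyz : z ∈ dc y := mem_dc.2 (mem_uc.1 hy)
    rcases hsite y (T.hC.up hz (mem_uc.1 hy)) (by omega) with rfl | rfl | rfl
    · rw [T.d0] at hyz
      simp only [mem_insert, mem_singleton] at hyz
      tauto
    · rw [T.d1] at hyz
      simp only [mem_singleton] at hyz
      tauto
    · rw [T.d2] at hyz
      simp only [mem_insert, mem_singleton] at hyz
      tauto
  · obtain ⟨y, hy⟩ := dc_nonempty T.H (x := z) (by have := T.hi2; omega)
    have hyz : z ∈ uc y := mem_uc.2 (mem_dc.1 hy)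
    have h1 := lev_cov T.H (mem_dc.1 hy)
    rcases hsite y (T.hC.dn hz (by omega) (mem_dc.1 hy)) (by omega) with rfl | rfl | rfl
    · rw [T.u0] at hyz
      simp only [mem_singleton] at hyz
      tauto
    · rw [T.u1] at hyz
      simp only [mem_insert, mem_singleton] at hyz
      tauto
    · rw [T.u2] at hyz
      simp only [mem_singleton] at hyz
      tauto
  · tauto
  · tauto

/-! ### killed and guarded elements -/

lemma FD0 : FD e x0 ↔ e x0 < e w ∨ e x0 < e w' := by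
  constructor
  · rintro ⟨z, hz, hlt⟩
    have h1 : z ∈ dc x0 := mem_dc.2 hz
    rw [T.d0, mem_insert, mem_singleton] at h1
    rcases h1 with rfl | rfl
    · exact Or.inl hlt
    · exact Or.inr hlt
  · rintro (h | h)
    · exact ⟨w, T.c_w0, h⟩
    · exact ⟨w', T.c_w0', h⟩

lemma FD1 : FD e x1 ↔ e x1 < e p := by
  constructor
  · rintro ⟨z, hz, hlt⟩
    have h1 : z ∈ dc x1 := mem_dc.2 hz
    rw [T.d1, mem_singleton] at h1
    rw [h1] at hlt
    exact hlt
  · intro h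
    exact ⟨p, T.c_p, h⟩

lemma FD2 : FD e x2 ↔ e x2 < e w ∨ e x2 < e w' := T.rev.FD0

lemma FU0 : FU e x0 ↔ e x0 < e v1 := by
  constructor
  · rintro ⟨z, hz, hlt⟩
    have h1 : z ∈ uc x0 := mem_uc.2 hz
    rw [T.u0, mem_singleton] at h1
    rw [h1] at hlt
    exact hlt
  · intro h
    exact ⟨v1, T.c_01, h⟩

lemma FU1 : FU e x1 ↔ e x1 < e v1 ∨ e x1 < e v2 := by
  constructor
  · rintro ⟨z, hz, hlt⟩
    have h1 : z ∈ uc x1 := mem_uc.2 hz
    rw [T.u1, mem_insert, mem_singleton] at h1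
    rcases h1 with rfl | rfl
    · exact Or.inl hlt
    · exact Or.inr hlt
  · rintro (h | h)
    · exact ⟨v1, T.c_11, h⟩
    · exact ⟨v2, T.c_12, h⟩

lemma FU2 : FU e x2 ↔ e x2 < e v2 := T.rev.FU0

lemma GUw : GU e w ↔ e w ≤ e x0 ∨ e w ≤ e x2 := by
  constructor
  · rintro ⟨z, hz, hlt⟩
    have h1 : z ∈ uc w := mem_uc.2 hz
    rw [T.hw, mem_insert, mem_singleton] at h1
    rcases h1 with rfl | rfl
    · exact Or.inl hlt
    · exact Or.inr hlt
  · rintro (h | h)
    · exact ⟨x0, T.c_w0, h⟩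
    · exact ⟨x2, T.c_w2, h⟩

lemma GUw' : GU e w' ↔ e w' ≤ e x0 ∨ e w' ≤ e x2 := T.swap.GUw

lemma GUp : GU e p ↔ e p ≤ e x1 := by
  constructor
  · rintro ⟨z, hz, hlt⟩
    have h1 : z ∈ uc p := mem_uc.2 hz
    rw [T.hp, mem_singleton] at h1
    rw [h1] at hlt
    exact hlt
  · intro h
    exact ⟨x1, T.c_p, h⟩

lemma GD1 : GD e v1 ↔ e v1 ≤ e x0 ∨ e v1 ≤ e x1 := by
  constructor
  · rintro ⟨z, hz, hlt⟩
    have h1 : z ∈ dc v1 := mem_dc.2 hz
    rw [T.hv1, mem_insert, mem_singleton] at h1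
    rcases h1 with rfl | rfl
    · exact Or.inl hlt
    · exact Or.inr hlt
  · rintro (h | h)
    · exact ⟨x0, T.c_01, h⟩
    · exact ⟨x1, T.c_11, h⟩

lemma GD2 : GD e v2 ↔ e v2 ≤ e x1 ∨ e v2 ≤ e x2 := by
  rw [T.rev.GD1]
  tauto

/-- the killed sites -/
lemma card_AL (hs : Spt C e) : (AL i e).card = (if e x0 < e w ∨ e x0 < e w' then 1 else 0) +
    (if e x1 < e p then 1 else 0) + (if e x2 < e w ∨ e x2 < e w' then 1 else 0) := by
  classical
  have h1 : AL i e = ({x0, x1, x2} : Finset P).filter (fun v => FD e v) := by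
    ext z
    rw [mem_filter, ← T.hst]
    constructor
    · intro h
      exact ⟨AL_sub T.part hs h, ((NormD_mem_AL _ _ _).1 h).2⟩
    · rintro ⟨h2, h3⟩
      exact (NormD_mem_AL _ _ _).2 ⟨(mem_st.1 h2).2, h3⟩
  rw [h1, card_filter, sum_insert (by simp [T.n01, T.n02]), sum_pair T.n12]
  simp only [T.FD0, T.FD1, T.FD2]
  ring

lemma card_AU (hs : Spt C e) : (AU i e).card = (if e x0 < e v1 then 1 else 0) +
    (if e x1 < e v1 ∨ e x1 < e v2 then 1 else 0) + (if e x2 < e v2 then 1 else 0) := by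
  classical
  have h1 : AU i e = ({x0, x1, x2} : Finset P).filter (fun v => FU e v) := by
    ext z
    rw [mem_filter, ← T.hst]
    constructor
    · intro h
      exact ⟨AU_sub T.H T.part hs h, ((NormD_mem_AU _ _ _).1 h).2⟩
    · rintro ⟨h2, h3⟩
      exact (NormD_mem_AU _ _ _).2 ⟨(mem_st.1 h2).2, h3⟩
  rw [h1, card_filter, sum_insert (by simp [T.n01, T.n02]), sum_pair T.n12]
  simp only [T.FU0, T.FU1, T.FU2]
  ring

/-- no site is killed from both sides -/
lemma disj (h : Disjoint (AL i e) (AU i e)) :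
    ((e x0 < e w ∨ e x0 < e w') → e v1 ≤ e x0) ∧
    (e x1 < e p → e v1 ≤ e x1 ∧ e v2 ≤ e x1) ∧
    ((e x2 < e w ∨ e x2 < e w') → e v2 ≤ e x2) := by
  have key : ∀ s : P, lev s = i → FD e s → ¬ FU e s := fun s hl h1 h2 =>
    disjoint_left.1 h ((NormD_mem_AL _ _ _).2 ⟨hl, h1⟩) ((NormD_mem_AU _ _ _).2 ⟨hl, h2⟩)
  refine ⟨fun h1 => ?_, fun h1 => ?_, fun h1 => ?_⟩
  · have := key x0 T.l0 (T.FD0.2 h1)
    rw [T.FU0] at this
    omega
  · have := key x1 T.l1 (T.FD1.2 h1)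
    rw [T.FU1] at this
    omega
  · have := key x2 T.l2 (T.FD2.2 h1)
    rw [T.FU2] at this
    omega

/-- the energy of the near elements and the sites -/
lemma sum8 : ∑ z ∈ ({x0, x1, x2, v1, v2, w, w', p} : Finset P), e z =
    e x0 + e x1 + e x2 + e v1 + e v2 + e w + e w' + e p := by
  have hi := T.hi
  have l0 := T.l0
  have l1 := T.l1
  have l2 := T.l2
  have lw := T.lw
  have lw' := T.lw'
  have lp := T.lp
  have lv1 := T.lv1
  have lv2 := T.lv2
  have q : ∀ {a b : P}, lev a ≠ lev b → a ≠ b := fun h h1 => h (by rw [h1])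
  rw [sum_insert, sum_insert, sum_insert, sum_insert, sum_insert, sum_insert, sum_pair T.nwp']
  · ring
  · simp only [mem_insert, mem_singleton]
    push Not
    exact ⟨T.nw, T.nwp⟩
  · simp only [mem_insert, mem_singleton]
    push Not
    exact ⟨q (by omega), q (by omega), q (by omega)⟩
  · simp only [mem_insert, mem_singleton]
    push Not
    exact ⟨T.nv, q (by omega), q (by omega), q (by omega)⟩
  · simp only [mem_insert, mem_singleton]
    push Not
    exact ⟨q (by omega), q (by omega), q (by omega), q (by omega), q (by omega)⟩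
  · simp only [mem_insert, mem_singleton]
    push Not
    exact ⟨T.n12, q (by omega), q (by omega), q (by omega), q (by omega), q (by omega)⟩
  · simp only [mem_insert, mem_singleton]
    push Not
    exact ⟨T.n01, T.n02, q (by omega), q (by omega), q (by omega), q (by omega), q (by omega)⟩

/-- the energy with far elements -/
lemma energy {n : ℕ} (hE : ∑ z, e z = n) :
    e x0 + e x1 + e x2 + e v1 + e v2 + e w + e w' + e p ≤ n ∧
    ∀ g : P, (i + 2 ≤ lev g ∨ lev g + 2 ≤ i) →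
      e g + (e x0 + e x1 + e x2 + e v1 + e v2 + e w + e w' + e p) ≤ n := by
  have l0 := T.l0
  have l1 := T.l1
  have l2 := T.l2
  have lw := T.lw
  have lw' := T.lw'
  have lp := T.lp
  have lv1 := T.lv1
  have lv2 := T.lv2
  rw [← T.sum8, ← hE]
  refine ⟨sum_le_sum_of_subset (subset_univ _), fun g hg => ?_⟩
  rw [← sum_insert]
  · exact sum_le_sum_of_subset (subset_univ _)
  · simp only [mem_insert, mem_singleton]
    rintro (h | h | h | h | h | h | h | h) <;> rw [h] at hg <;> omega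

end Tri

end Pool.Agent.GaussPoset.Win.W4
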