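import Pool.Agent.W_448j6_h22.KcA

/-!
MP_448cb3_co, G2, case B, window `j`: configurations of energy at most four: sides without free
elements, values.
-/

namespace Pool.Agent.GaussPoset.Win.W4

set_option linter.unusedSectionVars false

open Finset
open Pool.Agent.GaussPoset.Win.SO (LowD UppD val_gen coef_units)

universe u

variable {P : Type u} [Fintype P] [PartialOrder P] [DecidableEq P] {r i : ℕ}
variable {e : P → ℕ} {C : Finset P} {x0 x1 x2 v1 v2 w w' p : P}

/-! ### sides -/

/-- above an excited lower element all lower covers are excited -/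
lemma lab_up (H : Gr P r) (hA : AdmL i e) {z y : P} (hzy : z ⋖ y) (hl : i < lev y)
    (hz : 1 ≤ e z) : 1 ≤ e y := by
  by_contra h0
  have h1 : e y = 0 := by omega
  obtain ⟨s, hs⟩ := uc_nonempty H (x := y) (by omega)
  exact hA y hl ⟨⟨z, hzy, by omega⟩, s, mem_uc.1 hs, by rw [h1]; exact Nat.zero_le _⟩

/-- below an excited upper element all upper elements are excited -/
lemma lab_dn (H : Gr P r) (hir : i ≤ r) (hA : AdmU i e) {z y : P} (hzy : z ⋖ y) (hl : lev z < i)
    (hy : 1 ≤ e y) : 1 ≤ e z := by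
  by_contra h0
  have h1 : e z = 0 := by omega
  obtain ⟨s, hs⟩ := dc_nonempty H (x := z) (by omega)
  exact hA z hl ⟨⟨y, hzy, by omega⟩, s, mem_dc.1 hs, by rw [h1]; exact Nat.zero_le _⟩

lemma sum_three {a b c : P} (hab : a ≠ b) (hac : a ≠ c) (hbc : b ≠ c) :
    e a + e b + e c ≤ ∑ z, e z := by
  have h1 : ∑ z ∈ ({a, b, c} : Finset P), e z = e a + e b + e c := by
    rw [sum_insert, sum_pair hbc, add_assoc]
    rw [mem_insert, mem_singleton]
    push Not
    exact ⟨hab, hac⟩
  rw [← h1]
  exact sum_le_sum_of_subset (subset_univ _)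

/-- no free lower element: all lower elements are unkilled and guarded -/
lemma low_zero (H : Gr P r) (hA : AdmL i e) (hp : pL i e = 0) (hE : ∑ z, e z ≤ 4) {z : P}
    (hz : i < lev z) : ¬ FD e z ∧ GU e z := by
  classical
  have key : ∀ y : P, i < lev y → ¬ FD e y → GU e y := by
    intro y hy h1
    by_contra h2
    unfold pL at hp
    rw [card_eq_zero, filter_eq_empty_iff] at hp
    exact hp (mem_univ y) ⟨hy, h1, h2⟩
  have h1 : ¬ FD e z := by
    rintro ⟨z', hz', hlt⟩
    have h2 : 1 ≤ e z := lab_up H hA hz' hz (by omega)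
    have l1 := lev_cov H hz'
    have h3 : ¬ FD e z' := by
      rintro ⟨z'', hz'', hlt'⟩
      have l2 := lev_cov H hz''
      have h4 := sum_three (e := e) (a := z) (b := z') (c := z'') (by rintro rfl; omega)
        (by rintro rfl; omega) (by rintro rfl; omega)
      omega
    obtain ⟨u, hu, hle⟩ := key z' (by omega) h3
    have l2 := lev_cov H hu
    have h4 := sum_three (e := e) (a := z) (b := z') (c := u) (by rintro rfl; omega)
      (by rintro rfl; omega) (by rintro rfl; omega)
    omega
  exact ⟨h1, key z hz h1⟩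

/-- no free upper element -/
lemma upp_zero (H : Gr P r) (hir : i ≤ r) (hA : AdmU i e) (hp : pU i e = 0) (hE : ∑ z, e z ≤ 4)
    {z : P} (hz : lev z < i) : ¬ FU e z ∧ GD e z := by
  classical
  have key : ∀ y : P, lev y < i → ¬ FU e y → GD e y := by
    intro y hy h1
    by_contra h2
    unfold pU at hp
    rw [card_eq_zero, filter_eq_empty_iff] at hp
    exact hp (mem_univ y) ⟨hy, h1, h2⟩
  have h1 : ¬ FU e z := by
    rintro ⟨z', hz', hlt⟩
    have h2 : 1 ≤ e z := lab_dn H hir hA hz' hz (by omega)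
    have l1 := lev_cov H hz'
    have h3 : ¬ FU e z' := by
      rintro ⟨z'', hz'', hlt'⟩
      have l2 := lev_cov H hz''
      have h4 := sum_three (e := e) (a := z) (b := z') (c := z'') (by rintro rfl; omega)
        (by rintro rfl; omega) (by rintro rfl; omega)
      omega
    obtain ⟨u, hu, hle⟩ := key z' (by omega) h3
    have l2 := lev_cov H hu
    have h4 := sum_three (e := e) (a := z) (b := z') (c := u) (by rintro rfl; omega)
      (by rintro rfl; omega) (by rintro rfl; omega)
    omega
  exact ⟨h1, key z hz h1⟩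

lemma aL_zero (h : ∀ z : P, i < lev z → ¬ FD e z) : aL i e = 0 := by
  classical
  unfold aL
  rw [card_eq_zero, filter_eq_empty_iff]
  rintro z - ⟨h1, h2⟩
  exact h z h1 h2

lemma aU_zero (h : ∀ z : P, lev z < i → ¬ FU e z) : aU i e = 0 := by
  classical
  unfold aU
  rw [card_eq_zero, filter_eq_empty_iff]
  rintro z - ⟨h1, h2⟩
  exact h z h1 h2

/-- two free lower elements -/
lemma two_low {a b : P} (hab : a ≠ b) (ha : i < lev a ∧ ¬ FD e a ∧ ¬ GU e a)
    (hb : i < lev b ∧ ¬ FD e b ∧ ¬ GU e b) : 2 ≤ pL i e := by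
  classical
  unfold pL
  have h1 : ({a, b} : Finset P) ⊆ univ.filter (fun z : P => i < lev z ∧ ¬ FD e z ∧ ¬ GU e z) := by
    intro z hz
    rw [mem_insert, mem_singleton] at hz
    rw [mem_filter]
    rcases hz with rfl | rfl
    · exact ⟨mem_univ _, ha⟩
    · exact ⟨mem_univ _, hb⟩
  have h2 := card_le_card h1
  rwa [card_pair hab] at h2

/-- two free upper elements -/
lemma two_upp {a b : P} (hab : a ≠ b) (ha : lev a < i ∧ ¬ FU e a ∧ ¬ GD e a)
    (hb : lev b < i ∧ ¬ FU e b ∧ ¬ GD e b) : 2 ≤ pU i e := by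
  classical
  unfold pU
  have h1 : ({a, b} : Finset P) ⊆ univ.filter (fun z : P => lev z < i ∧ ¬ FU e z ∧ ¬ GD e z) := by
    intro z hz
    rw [mem_insert, mem_singleton] at hz
    rw [mem_filter]
    rcases hz with rfl | rfl
    · exact ⟨mem_univ _, ha⟩
    · exact ⟨mem_univ _, hb⟩
  have h2 := card_le_card h1
  rwa [card_pair hab] at h2

/-! ### values -/

/-- the second value of a configuration -/
noncomputable def vl (i : ℕ) (C : Finset P) (e : P → ℕ) : ℤ :=
  PowerSeries.coeff (st i C).card (dd ^ 2 * tC i C e : A)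

/-- the values, three sites -/
lemma vl_cases (H : Gr P r) (hC : Part i C) (hs : Spt C e) (hb : (st i C).card = 3) :
    vl i C e = 0 ∨
    (AdmL i e ∧ AdmU i e ∧ Disjoint (AL i e) (AU i e) ∧
      (AL i e).card + (AU i e).card = pL i e + pU i e + 2 ∧
      vl i C e = (-1) ^ (aL i e + (AL i e).card + (aU i e + pU i e))) ∨
    (AdmL i e ∧ AdmU i e ∧ Disjoint (AL i e) (AU i e) ∧
      (AL i e).card + (AU i e).card = 3 ∧ pL i e = 0 ∧ pU i e = 0) := by
  classical
  unfold vl
  by_cases hd : Disjoint (AL i e) (AU i e)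
  · by_cases hA : AdmL i e ∧ AdmU i e
    · have s1 : AL i e ∪ AU i e ⊆ st i C := union_subset (AL_sub hC hs) (AU_sub H hC hs)
      have s2 := card_le_card s1
      rw [card_union_of_disjoint hd, hb] at s2
      obtain ⟨s, hs'⟩ : ∃ s, s = 3 - (AL i e).card - (AU i e).card := ⟨_, rfl⟩
      obtain ⟨k, hk⟩ : ∃ k, k = 2 + (pL i e + pU i e) + s := ⟨_, rfl⟩
      have ht : dd ^ 2 * tC i C e = dd ^ k *
          (xx ^ (aL i e + (AL i e).card) * xi ^ (aU i e + pU i e)) := by
        unfold tC cw
        rw [if_pos hd, if_pos hA, hb, hk, ← hs']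
        ring
      rw [ht, hb]
      rcases Nat.lt_trichotomy k 3 with h1 | h1 | h1
      · right; right
        exact ⟨hA.1, hA.2, hd, by omega, by omega, by omega⟩
      · right; left
        refine ⟨hA.1, hA.2, hd, by omega, ?_⟩
        rw [h1]
        exact coef_units _ _ _
      · left
        exact I2.coeff_zero_of_dvd (a := k) (dvd_mul_right _ _) h1
    · left
      have ht : tC i C e = 0 := by
        unfold tC cw
        rw [if_pos hd, if_neg hA, zero_mul]
      rw [ht, mul_zero, map_zero]
  · left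
    have ht : tC i C e = 0 := by
      unfold tC
      rw [if_neg hd]
    rw [ht, mul_zero, map_zero]

/-- the energy of a configuration of the part -/
lemma energy_C {n : ℕ} (he : e ∈ C.piAntidiag n) : Spt C e ∧ ∑ z, e z = n := by
  rw [mem_piAntidiag] at he
  have hs : Spt C e := by
    intro x hx
    by_contra h1
    exact hx (he.2 x h1)
  refine ⟨hs, ?_⟩
  rw [← he.1]
  symm
  exact sum_subset (subset_univ C) fun x _ hx => hs x hx

namespace Tri

variable (T : Tri r i C x0 x1 x2 v1 v2 w w' p)
include T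

/-- all killed sites without a free element are impossible -/
lemma no_three (hs : Spt C e) (hE : ∑ z, e z = 4) (hAL : AdmL i e) (hAU : AdmU i e)
    (hd : Disjoint (AL i e) (AU i e)) (h3 : (AL i e).card + (AU i e).card = 3)
    (pl : pL i e = 0) (pu : pU i e = 0) : False := by
  have g1 := (low_zero T.H hAL pl hE.le (z := w) (by have := T.lw; omega)).2
  have g2 := (low_zero T.H hAL pl hE.le (z := w') (by have := T.lw'; omega)).2
  have g3 := (low_zero T.H hAL pl hE.le (z := p) (by have := T.lp; omega)).2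
  have g4 := (upp_zero T.H T.hir hAU pu hE.le (z := v1) (by have := T.lv1; omega)).2
  have g5 := (upp_zero T.H T.hir hAU pu hE.le (z := v2) (by have := T.lv2; omega)).2
  rw [T.GUw] at g1
  rw [T.GUw'] at g2
  rw [T.GUp] at g3
  rw [T.GD1] at g4
  rw [T.GD2] at g5
  obtain ⟨d1, d2, d3⟩ := T.disj hd
  obtain ⟨en, -⟩ := T.energy hE
  rw [T.card_AL hs, T.card_AU hs] at h3
  split_ifs at h3 <;> omega

end Tri

end Pool.Agent.GaussPoset.Win.W4
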