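import Pool.Agent.W_448j6_h22.KcB

/-!
MP_448cb3_co, G2, case B, window `j`: the triangle: the classification of the configurations of energy
four with positive value.
-/

namespace Pool.Agent.GaussPoset.Win.W4

set_option linter.unusedSectionVars false

open Finset
open Pool.Agent.GaussPoset.Win.SO (LowD UppD val_gen coef_units)

universe u

variable {P : Type u} [Fintype P] [PartialOrder P] [DecidableEq P] {r i : ℕ}
variable {e : P → ℕ} {C : Finset P} {x0 x1 x2 v1 v2 w w' p : P}

namespace Tri

variable (T : Tri r i C x0 x1 x2 v1 v2 w w' p)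
include T

/-- the energy with two far elements -/
lemma energy2 {n : ℕ} (hE : ∑ z, e z = n) {g g' : P} (hg : i + 2 ≤ lev g ∨ lev g + 2 ≤ i)
    (hg' : i + 2 ≤ lev g' ∨ lev g' + 2 ≤ i) (hne : g ≠ g') :
    e g + (e g' + (e x0 + e x1 + e x2 + e v1 + e v2 + e w + e w' + e p)) ≤ n := by
  have l0 := T.l0
  have l1 := T.l1
  have l2 := T.l2
  have lw := T.lw
  have lw' := T.lw'
  have lp := T.lp
  have lv1 := T.lv1
  have lv2 := T.lv2
  have h1 : g' ∉ ({x0, x1, x2, v1, v2, w, w', p} : Finset P) := by
    simp only [mem_insert, mem_singleton]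
    rintro (h | h | h | h | h | h | h | h) <;> rw [h] at hg' <;> omega
  have h2 : g ∉ insert g' ({x0, x1, x2, v1, v2, w, w', p} : Finset P) := by
    simp only [mem_insert, mem_singleton]
    rintro (h | h | h | h | h | h | h | h | h)
    · exact hne h
    all_goals
      rw [h] at hg
      omega
  rw [← T.sum8, ← hE, ← sum_insert h1, ← sum_insert h2]
  exact sum_le_sum_of_subset (subset_univ _)

/-- an excited far element if the near elements have less energy -/
lemma exists_far (hs : Spt C e) {n : ℕ} (hE : ∑ z, e z = n)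
    (h : e x0 + e x1 + e x2 + e v1 + e v2 + e w + e w' + e p < n) :
    ∃ g ∈ C, (i + 2 ≤ lev g ∨ lev g + 2 ≤ i) ∧ 1 ≤ e g := by
  by_contra hcon
  push Not at hcon
  have h1 : ∑ z ∈ ({x0, x1, x2, v1, v2, w, w', p} : Finset P), e z = ∑ z, e z := by
    refine sum_subset (subset_univ _) fun z _ hz => ?_
    by_cases hC : z ∈ C
    · simp only [mem_insert, mem_singleton] at hz
      have h2 := T.cases_C hC
      have h3 : i + 2 ≤ lev z ∨ lev z + 2 ≤ i := by tauto
      have := hcon z hC h3
      omega
    · exact hs z hC
  rw [T.sum8, hE] at h1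
  omega

/-- all the killed sites from below, one free lower element, no free upper element: an even number of
killed lower elements -/
lemma aL_two (hs : Spt C e) (hE : ∑ z, e z = 4) (hAL : AdmL i e) (hp : pL i e = 1)
    (h0 : e x0 < e w) (h1 : e x1 < e p) (h2 : e x2 < e w) : aL i e = 2 := by
  classical
  have H := T.H
  obtain ⟨en, en1⟩ := T.energy hE
  have lw := T.lw
  have lw' := T.lw'
  have lp := T.lp
  have lv1 := T.lv1
  have lv2 := T.lv2
  have l0 := T.l0
  have l1 := T.l1
  have l2 := T.l2
  have gw : ¬ GU e w := by rw [T.GUw]; omega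
  have gp : ¬ GU e p := by rw [T.GUp]; omega
  have hfd : FD e w ∨ FD e p := by
    by_contra h3
    push Not at h3
    have := two_low (e := e) (i := i) T.nwp ⟨by omega, h3.1, gw⟩ ⟨by omega, h3.2, gp⟩
    omega
  -- the far element
  obtain ⟨z, hz2, lz⟩ : ∃ z : P, 2 ≤ e z ∧ lev z = i + 2 := by
    rcases hfd with ⟨z, hz, hlt⟩ | ⟨z, hz, hlt⟩
    · have := lev_cov H hz
      exact ⟨z, by omega, by omega⟩
    · have := lev_cov H hz
      exact ⟨z, by omega, by omega⟩
  have en2 := en1 z (Or.inl (by omega))
  have far0 : ∀ g : P, (i + 2 ≤ lev g ∨ lev g + 2 ≤ i) → g ≠ z → e g = 0 := by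
    intro g hg hne
    have := T.energy2 hE hg (Or.inl (by omega : i + 2 ≤ lev z)) hne
    omega
  have hall : ∀ g : P, 2 ≤ e g → g = z := by
    intro g hg
    have hC : g ∈ C := by
      by_contra h3
      rw [hs g h3] at hg
      omega
    by_contra hne
    rcases T.cases_C hC with h | h | h | h | h | h | h | h | h | h
    · rw [h] at hg; omega
    · rw [h] at hg; omega
    · rw [h] at hg; omega
    · rw [h] at hg; omega
    · rw [h] at hg; omega
    · rw [h] at hg; omega
    · rw [h] at hg; omega
    · rw [h] at hg; omega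
    · rw [far0 g (Or.inl h) hne] at hg; omega
    · rw [far0 g (Or.inr h) hne] at hg; omega
  have fz : ¬ FD e z := by
    rintro ⟨z', hz', hlt⟩
    have := lev_cov H hz'
    have h3 := hall z' (by omega)
    rw [h3] at hlt
    omega
  have gz : ¬ GU e z := by
    rintro ⟨u, hu, hle⟩
    have := lev_cov H hu
    have h3 := hall u (by omega)
    rw [h3] at this
    omega
  have hww : ∀ y : P, i < lev y → e y = 1 → FD e y → z ⋖ y := by
    rintro y - hy ⟨z', hz', hlt⟩
    have := hall z' (by omega)
    rwa [this] at hz'
  have zw : FD e w := by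
    by_contra h3
    have := two_low (e := e) (i := i) (a := w) (b := z) (by rintro rfl; omega)
      ⟨by omega, h3, gw⟩ ⟨by omega, fz, gz⟩
    omega
  have zp : FD e p := by
    by_contra h3
    have := two_low (e := e) (i := i) (a := p) (b := z) (by rintro rfl; omega)
      ⟨by omega, h3, gp⟩ ⟨by omega, fz, gz⟩
    omega
  have cw := hww w (by omega) (by omega) zw
  have cp := hww p (by omega) (by omega) zp
  have huz : ({w, p} : Finset P) = uc z := by
    apply eq_of_subset_of_card_le
    · intro s hs
      rw [mem_insert, mem_singleton] at hs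
      rcases hs with rfl | rfl
      · exact mem_uc.2 cw
      · exact mem_uc.2 cp
    · rw [card_pair T.nwp]
      exact uc_card_le H z
  unfold aL
  have : univ.filter (fun z : P => i < lev z ∧ FD e z) = {w, p} := by
    ext s
    rw [mem_filter]
    constructor
    · rintro ⟨-, h3, z', hz', hlt⟩
      have l3 := lev_cov H hz'
      have h4 : z' = z := by
        by_contra hne
        rw [far0 z' (Or.inl (by omega)) hne] at hlt
        omega
      rw [huz, ← h4]
      exact mem_uc.2 hz'
    · intro h3
      rw [mem_insert, mem_singleton] at h3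
      rcases h3 with rfl | rfl
      · exact ⟨mem_univ _, by omega, zw⟩
      · exact ⟨mem_univ _, by omega, zp⟩
  rw [this, card_pair T.nwp]

/-- all the sites killed from above, one free upper element: an even number of killed upper
elements -/
lemma aU_even (hs : Spt C e) (hE : ∑ z, e z = 4) (hAU : AdmU i e) (hp : pU i e = 1)
    (h0 : e x0 < e v1) (h2 : e x2 < e v2) : aU i e = 0 ∨ aU i e = 2 := by
  classical
  have H := T.H
  have hir := T.hir
  obtain ⟨en, en1⟩ := T.energy hE
  have lw := T.lw
  have lw' := T.lw'
  have lp := T.lp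
  have lv1 := T.lv1
  have lv2 := T.lv2
  have l0 := T.l0
  have l1 := T.l1
  have l2 := T.l2
  by_cases hfu : ∀ z : P, lev z < i → ¬ FU e z
  · exact Or.inl (aU_zero hfu)
  right
  push Not at hfu
  obtain ⟨u, hu, u', huu, hlt⟩ := hfu
  have lu := lev_cov H huu
  have hu1 : 1 ≤ e u := lab_dn H hir hAU huu hu (by omega)
  have en2 := en1 u' (Or.inr (by omega))
  have far0 : ∀ g : P, (i + 2 ≤ lev g ∨ lev g + 2 ≤ i) → g ≠ u' → e g = 0 := by
    intro g hg hne
    have := T.energy2 hE hg (Or.inr (by omega : lev u' + 2 ≤ i)) hne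
    omega
  have hall : ∀ g : P, 2 ≤ e g → g = u' := by
    intro g hg
    have hC : g ∈ C := by
      by_contra h3
      rw [hs g h3] at hg
      omega
    by_contra hne
    rcases T.cases_C hC with h | h | h | h | h | h | h | h | h | h
    · rw [h] at hg; omega
    · rw [h] at hg; omega
    · rw [h] at hg; omega
    · rw [h] at hg; omega
    · rw [h] at hg; omega
    · rw [h] at hg; omega
    · rw [h] at hg; omega
    · rw [h] at hg; omega
    · rw [far0 g (Or.inl h) hne] at hg; omega
    · rw [far0 g (Or.inr h) hne] at hg; omega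
  have fz : ¬ FU e u' := by
    rintro ⟨z', hz', hlt'⟩
    have := lev_cov H hz'
    have h3 := hall z' (by omega)
    rw [h3] at hlt'
    omega
  have gz : ¬ GD e u' := by
    rintro ⟨z', hz', hle⟩
    have := lev_cov H hz'
    have h3 := hall z' (by omega)
    rw [h3] at this
    omega
  have g1 : ¬ GD e v1 := by rw [T.GD1]; omega
  have g2 : ¬ GD e v2 := by rw [T.GD2]; omega
  have f1 : FU e v1 := by
    by_contra h3
    have := two_upp (e := e) (i := i) (a := v1) (b := u') (by rintro rfl; omega)
      ⟨by omega, h3, g1⟩ ⟨by omega, fz, gz⟩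
    omega
  have f2 : FU e v2 := by
    by_contra h3
    have := two_upp (e := e) (i := i) (a := v2) (b := u') (by rintro rfl; omega)
      ⟨by omega, h3, g2⟩ ⟨by omega, fz, gz⟩
    omega
  have hvv : ∀ y : P, e y = 1 → FU e y → y ⋖ u' := by
    rintro y hy ⟨z', hz', hlt'⟩
    have := hall z' (by omega)
    rwa [this] at hz'
  have c1 := hvv v1 (by omega) f1
  have c2 := hvv v2 (by omega) f2
  have hdu : ({v1, v2} : Finset P) = dc u' := by
    apply eq_of_subset_of_card_le
    · intro s hs
      rw [mem_insert, mem_singleton] at hs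
      rcases hs with rfl | rfl
      · exact mem_dc.2 c1
      · exact mem_dc.2 c2
    · rw [card_pair T.nv]
      exact dc_card_le H u'
  unfold aU
  have : univ.filter (fun z : P => lev z < i ∧ FU e z) = {v1, v2} := by
    ext s
    rw [mem_filter]
    constructor
    · rintro ⟨-, h3, z', hz', hlt'⟩
      have l3 := lev_cov H hz'
      have h4 : z' = u' := by
        by_contra hne
        rw [far0 z' (Or.inr (by omega)) hne] at hlt'
        omega
      rw [hdu, ← h4]
      exact mem_dc.2 hz'
    · intro h3
      rw [mem_insert, mem_singleton] at h3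
      rcases h3 with rfl | rfl
      · exact ⟨mem_univ _, by omega, f1⟩
      · exact ⟨mem_univ _, by omega, f2⟩
  rw [this, card_pair T.nv]

end Tri

end Pool.Agent.GaussPoset.Win.W4
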