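import Pool.Agent.W_448j6_h22.KcC

/-!
MP_448cb3_co, G2, case B, window `j`: the triangle: the finite check of the values of energy at most
four.
-/

namespace Pool.Agent.GaussPoset.Win.W4

set_option linter.unusedSectionVars false

/-- the number of sites killed from below -/
def tnL (x0 x1 x2 w w' p : ℕ) : ℕ := (if x0 < w ∨ x0 < w' then 1 else 0) +
  (if x1 < p then 1 else 0) + (if x2 < w ∨ x2 < w' then 1 else 0)

/-- the number of sites killed from above -/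
def tnU (x0 x1 x2 v1 v2 : ℕ) : ℕ := (if x0 < v1 then 1 else 0) +
  (if x1 < v1 ∨ x1 < v2 then 1 else 0) + (if x2 < v2 then 1 else 0)

/-- no site is killed from both sides -/
def tdj (x0 x1 x2 v1 v2 w w' p : ℕ) : Bool :=
  decide ((x0 < w ∨ x0 < w') → v1 ≤ x0) && decide (x1 < p → v1 ≤ x1 ∧ v2 ≤ x1) &&
    decide ((x2 < w ∨ x2 < w') → v2 ≤ x2)

/-- the guards of the lower elements -/
def tgL (x0 x1 x2 w w' p : ℕ) : Bool :=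
  decide (w ≤ x0 ∨ w ≤ x2) && decide (w' ≤ x0 ∨ w' ≤ x2) && decide (p ≤ x1)

/-- the guards of the upper elements -/
def tgU (x0 x1 x2 v1 v2 : ℕ) : Bool :=
  decide (v1 ≤ x0 ∨ v1 ≤ x1) && decide (v2 ≤ x1 ∨ v2 ≤ x2)

/-- the code of the values -/
def tcd (x0 x1 x2 v1 v2 w w' p : ℕ) : List ℕ := [x0, x1, x2, v1, v2, w, w', p]

/-- the ten lists of values -/
def tens : List (List ℕ) :=
  [[0, 2, 0, 1, 1, 0, 0, 0], [0, 1, 0, 1, 1, 0, 0, 1],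
    [1, 0, 0, 1, 0, 2, 0, 0], [1, 0, 0, 1, 0, 0, 2, 0], [0, 0, 1, 0, 1, 2, 0, 0],
    [0, 0, 1, 0, 1, 0, 2, 0], [1, 0, 0, 2, 0, 1, 0, 0], [1, 0, 0, 2, 0, 0, 1, 0],
    [0, 0, 1, 0, 2, 1, 0, 0], [0, 0, 1, 0, 2, 0, 1, 0]]

def tb0 (x0 x1 x2 v1 v2 w w' p : ℕ) : Bool :=
  ! (tdj x0 x1 x2 v1 v2 w w' p && tgL x0 x1 x2 w w' p && tgU x0 x1 x2 v1 v2 &&
    decide (tnL x0 x1 x2 w w' p + tnU x0 x1 x2 v1 v2 = 2) &&
    decide (tnL x0 x1 x2 w w' p % 2 = 0)) ||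
  (decide (tcd x0 x1 x2 v1 v2 w w' p ∈ tens) ||
    decide (tcd x0 x1 x2 v1 v2 w w' p = [0, 1, 0, 1, 1, 0, 0, 0]))

def tb1 (x0 x1 x2 v1 v2 w w' p : ℕ) : Bool :=
  ! (tdj x0 x1 x2 v1 v2 w w' p && tgU x0 x1 x2 v1 v2 &&
    decide (tnL x0 x1 x2 w w' p + tnU x0 x1 x2 v1 v2 = 3)) ||
  (decide (tcd x0 x1 x2 v1 v2 w w' p ∈ tens) ||
    decide (tnL x0 x1 x2 w w' p = 3 ∧ x1 < p ∧
      ((x0 < w ∧ x2 < w) ∨ (x0 < w' ∧ x2 < w'))))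

def tb2 (x0 x1 x2 v1 v2 w w' p : ℕ) : Bool :=
  ! (tdj x0 x1 x2 v1 v2 w w' p && tgL x0 x1 x2 w w' p &&
    decide (tnL x0 x1 x2 w w' p + tnU x0 x1 x2 v1 v2 = 3)) ||
  (decide (tcd x0 x1 x2 v1 v2 w w' p ∈ tens) ||
    decide (tnL x0 x1 x2 w w' p = 0 ∧ x0 < v1 ∧ x2 < v2))

/-- a check of all lists of eight numbers of sum at most four -/
def tall (f : ℕ → ℕ → ℕ → ℕ → ℕ → ℕ → ℕ → ℕ → Bool) : Bool :=
  (List.range 5).all fun x0 => (List.range (5 - x0)).all fun x1 =>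
  (List.range (5 - x0 - x1)).all fun x2 => (List.range (5 - x0 - x1 - x2)).all fun v1 =>
  (List.range (5 - x0 - x1 - x2 - v1)).all fun v2 =>
  (List.range (5 - x0 - x1 - x2 - v1 - v2)).all fun w =>
  (List.range (5 - x0 - x1 - x2 - v1 - v2 - w)).all fun w' =>
  (List.range (5 - x0 - x1 - x2 - v1 - v2 - w - w')).all fun p =>
  f x0 x1 x2 v1 v2 w w' p

lemma tall_use {f : ℕ → ℕ → ℕ → ℕ → ℕ → ℕ → ℕ → ℕ → Bool} (h : tall f = true)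
    {x0 x1 x2 v1 v2 w w' p : ℕ} (hs : x0 + x1 + x2 + v1 + v2 + w + w' + p ≤ 4) :
    f x0 x1 x2 v1 v2 w w' p = true := by
  unfold tall at h
  rw [List.all_eq_true] at h
  have h1 := h x0 (List.mem_range.2 (by omega))
  rw [List.all_eq_true] at h1
  have h2 := h1 x1 (List.mem_range.2 (by omega))
  rw [List.all_eq_true] at h2
  have h3 := h2 x2 (List.mem_range.2 (by omega))
  rw [List.all_eq_true] at h3
  have h4 := h3 v1 (List.mem_range.2 (by omega))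
  rw [List.all_eq_true] at h4
  have h5 := h4 v2 (List.mem_range.2 (by omega))
  rw [List.all_eq_true] at h5
  have h6 := h5 w (List.mem_range.2 (by omega))
  rw [List.all_eq_true] at h6
  have h7 := h6 w' (List.mem_range.2 (by omega))
  rw [List.all_eq_true] at h7
  exact h7 p (List.mem_range.2 (by omega))

lemma tb0_all : tall tb0 = true := by decide +kernel

lemma tb1_all : tall tb1 = true := by decide +kernel

lemma tb2_all : tall tb2 = true := by decide +kernel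

lemma tkey0 {x0 x1 x2 v1 v2 w w' p : ℕ} (hs : x0 + x1 + x2 + v1 + v2 + w + w' + p ≤ 4)
    (hd : ((x0 < w ∨ x0 < w') → v1 ≤ x0) ∧ (x1 < p → v1 ≤ x1 ∧ v2 ≤ x1) ∧
      ((x2 < w ∨ x2 < w') → v2 ≤ x2)) (g1 : w ≤ x0 ∨ w ≤ x2) (g2 : w' ≤ x0 ∨ w' ≤ x2)
    (g3 : p ≤ x1) (g4 : v1 ≤ x0 ∨ v1 ≤ x1) (g5 : v2 ≤ x1 ∨ v2 ≤ x2)
    (hc : tnL x0 x1 x2 w w' p + tnU x0 x1 x2 v1 v2 = 2)
    (hp : tnL x0 x1 x2 w w' p % 2 = 0) :
    tcd x0 x1 x2 v1 v2 w w' p ∈ tens ∨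
      tcd x0 x1 x2 v1 v2 w w' p = [0, 1, 0, 1, 1, 0, 0, 0] := by
  have h := tall_use tb0_all hs
  unfold tb0 tdj tgL tgU at h
  simp only [Bool.or_eq_true, Bool.not_eq_true', Bool.and_eq_false_iff, decide_eq_false_iff_not,
    decide_eq_true_eq] at h
  tauto

lemma tkey1 {x0 x1 x2 v1 v2 w w' p : ℕ} (hs : x0 + x1 + x2 + v1 + v2 + w + w' + p ≤ 4)
    (hd : ((x0 < w ∨ x0 < w') → v1 ≤ x0) ∧ (x1 < p → v1 ≤ x1 ∧ v2 ≤ x1) ∧
      ((x2 < w ∨ x2 < w') → v2 ≤ x2)) (g4 : v1 ≤ x0 ∨ v1 ≤ x1) (g5 : v2 ≤ x1 ∨ v2 ≤ x2)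
    (hc : tnL x0 x1 x2 w w' p + tnU x0 x1 x2 v1 v2 = 3) :
    tcd x0 x1 x2 v1 v2 w w' p ∈ tens ∨ (tnL x0 x1 x2 w w' p = 3 ∧ x1 < p ∧
      ((x0 < w ∧ x2 < w) ∨ (x0 < w' ∧ x2 < w'))) := by
  have h := tall_use tb1_all hs
  unfold tb1 tdj tgU at h
  simp only [Bool.or_eq_true, Bool.not_eq_true', Bool.and_eq_false_iff, decide_eq_false_iff_not,
    decide_eq_true_eq] at h
  tauto

lemma tkey2 {x0 x1 x2 v1 v2 w w' p : ℕ} (hs : x0 + x1 + x2 + v1 + v2 + w + w' + p ≤ 4)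
    (hd : ((x0 < w ∨ x0 < w') → v1 ≤ x0) ∧ (x1 < p → v1 ≤ x1 ∧ v2 ≤ x1) ∧
      ((x2 < w ∨ x2 < w') → v2 ≤ x2)) (g1 : w ≤ x0 ∨ w ≤ x2) (g2 : w' ≤ x0 ∨ w' ≤ x2)
    (g3 : p ≤ x1)
    (hc : tnL x0 x1 x2 w w' p + tnU x0 x1 x2 v1 v2 = 3) :
    tcd x0 x1 x2 v1 v2 w w' p ∈ tens ∨
      (tnL x0 x1 x2 w w' p = 0 ∧ x0 < v1 ∧ x2 < v2) := by
  have h := tall_use tb2_all hs
  unfold tb2 tdj tgL at h
  simp only [Bool.or_eq_true, Bool.not_eq_true', Bool.and_eq_false_iff, decide_eq_false_iff_not,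
    decide_eq_true_eq] at h
  tauto

lemma tens_sum : ∀ l ∈ tens, l.sum = 4 := by decide

lemma tens_card : tens.toFinset.card = 10 := by decide +kernel

end Pool.Agent.GaussPoset.Win.W4
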