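import Pool.Agent.W_448j6_h22.KcD

/-!
MP_448cb3_co, G2, case B, window `j`: the triangle: the configurations of energy four with positive
value.
-/

namespace Pool.Agent.GaussPoset.Win.W4

set_option linter.unusedSectionVars false

open Finset
open Pool.Agent.GaussPoset.Win.SO (LowD UppD val_gen coef_units)

universe u

variable {P : Type u} [Fintype P] [PartialOrder P] [DecidableEq P] {r i : ℕ}
variable {e : P → ℕ} {C : Finset P} {x0 x1 x2 v1 v2 w w' p : P}

lemma even_of_pos {n : ℕ} (h : 0 < (-1 : ℤ) ^ n) : n % 2 = 0 := by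
  rcases Nat.even_or_odd n with h1 | h1
  · exact Nat.even_iff.1 h1
  · rw [h1.neg_one_pow] at h
    omega

/-- the values of the near elements -/
def tup (e : P → ℕ) (x0 x1 x2 v1 v2 w w' p : P) : List ℕ :=
  tcd (e x0) (e x1) (e x2) (e v1) (e v2) (e w) (e w') (e p)

namespace Tri

variable (T : Tri r i C x0 x1 x2 v1 v2 w w' p)
include T

/-- the case of a far excited element -/
lemma far_case (hs : Spt C e) (hE : ∑ z, e z = 4) (hAL : AdmL i e) (hAU : AdmU i e)
    (h : e x0 = 0 ∧ e x1 = 1 ∧ e x2 = 0 ∧ e v1 = 1 ∧ e v2 = 1 ∧ e w = 0 ∧ e w' = 0 ∧ e p = 0) :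
    ∃ g ∈ uc v1 ∪ uc v2, e g = 1 ∧ ∀ z : P, z ≠ g → z ≠ x1 → z ≠ v1 → z ≠ v2 → e z = 0 := by
  have H := T.H
  have lw := T.lw
  have lw' := T.lw'
  have lp := T.lp
  have lv1 := T.lv1
  have lv2 := T.lv2
  have l0 := T.l0
  have l1 := T.l1
  have l2 := T.l2
  obtain ⟨g, hgC, hgf, hg1⟩ := T.exists_far hs hE (by omega)
  obtain ⟨en, en1⟩ := T.energy hE
  have hg2 := en1 g hgf
  have hfar : ∀ z : P, (i + 2 ≤ lev z ∨ lev z + 2 ≤ i) → z ≠ g → e z = 0 := by
    intro z hz hne
    have := T.energy2 hE hz hgf hne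
    omega
  have hall : ∀ z : P, z ≠ g → z ≠ x1 → z ≠ v1 → z ≠ v2 → e z = 0 := by
    intro z h1 h2 h3 h4
    by_cases hC : z ∈ C
    · rcases T.cases_C hC with h5 | h5 | h5 | h5 | h5 | h5 | h5 | h5 | h5 | h5
      · rw [h5]; omega
      · exact absurd h5 h2
      · rw [h5]; omega
      · exact absurd h5 h3
      · exact absurd h5 h4
      · rw [h5]; omega
      · rw [h5]; omega
      · rw [h5]; omega
      · exact hfar z (Or.inl h5) h1
      · exact hfar z (Or.inr h5) h1
    · exact hs z hC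
  refine ⟨g, ?_, by omega, hall⟩
  rcases hgf with hgl | hgu
  · exfalso
    obtain ⟨u, hu⟩ := uc_nonempty H (x := g) (by omega)
    have hl := lev_uc H hu
    have h1 := lab_up H hAL (mem_uc.1 hu) (by omega) hg1
    have h2 := hall u (by rintro rfl; omega) (by rintro rfl; omega) (by rintro rfl; omega)
      (by rintro rfl; omega)
    omega
  · obtain ⟨u, hu⟩ := dc_nonempty H (x := g) (by have := T.hi2; omega)
    have hl := lev_cov H (mem_dc.1 hu)
    have h1 := lab_dn H T.hir hAU (mem_dc.1 hu) (by omega) hg1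
    rw [mem_union]
    by_contra hcon
    push Not at hcon
    have h2 := hall u (by rintro rfl; omega) (by rintro rfl; omega)
      (by rintro rfl; exact hcon.1 (mem_uc.2 (mem_dc.1 hu)))
      (by rintro rfl; exact hcon.2 (mem_uc.2 (mem_dc.1 hu)))
    omega

/-- the configurations of energy four with positive value -/
lemma pos_cases (he : e ∈ C.piAntidiag 4) (hv : 0 < vl i C e) :
    (tup e x0 x1 x2 v1 v2 w w' p ∈ tens ∧ ∀ g : P, (i + 2 ≤ lev g ∨ lev g + 2 ≤ i) → e g = 0) ∨
    (e x1 = 1 ∧ e v1 = 1 ∧ e v2 = 1 ∧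
      ∃ g ∈ uc v1 ∪ uc v2, e g = 1 ∧ ∀ z : P, z ≠ g → z ≠ x1 → z ≠ v1 → z ≠ v2 → e z = 0) := by
  obtain ⟨hs, hE⟩ := energy_C he
  obtain ⟨en, en1⟩ := T.energy hE
  have lw := T.lw
  have lw' := T.lw'
  have lp := T.lp
  have lv1 := T.lv1
  have lv2 := T.lv2
  rcases vl_cases T.H T.part hs T.card_st with h | ⟨hAL, hAU, hd, hc, hv'⟩ |
    ⟨hAL, hAU, hd, hc, pl, pu⟩
  · omega
  swap
  · exact (T.no_three hs hE hAL hAU hd hc pl pu).elim
  rw [hv'] at hv
  have hpar := even_of_pos hv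
  have hdj := T.disj hd
  have hcL : (AL i e).card = tnL (e x0) (e x1) (e x2) (e w) (e w') (e p) := T.card_AL hs
  have hcU : (AU i e).card = tnU (e x0) (e x1) (e x2) (e v1) (e v2) := T.card_AU hs
  have hle : (AL i e).card + (AU i e).card ≤ 3 := by
    have s1 : AL i e ∪ AU i e ⊆ st i C :=
      union_subset (AL_sub T.part hs) (AU_sub T.H T.part hs)
    have s2 := card_le_card s1
    rwa [card_union_of_disjoint hd, T.card_st] at s2
  have fin : tup e x0 x1 x2 v1 v2 w w' p ∈ tens →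
      (tup e x0 x1 x2 v1 v2 w w' p ∈ tens ∧
        ∀ g : P, (i + 2 ≤ lev g ∨ lev g + 2 ≤ i) → e g = 0) := by
    intro h9
    refine ⟨h9, fun g hg => ?_⟩
    have h8 := tens_sum _ h9
    have := en1 g hg
    unfold tup tcd at h8
    simp only [List.sum_cons, List.sum_nil] at h8
    omega
  have hcase : (pL i e = 0 ∧ pU i e = 0) ∨ (pL i e = 1 ∧ pU i e = 0) ∨
      (pL i e = 0 ∧ pU i e = 1) := by omega
  rcases hcase with ⟨pl, pu⟩ | ⟨pl, pu⟩ | ⟨pl, pu⟩
  · have hL := fun (z : P) (hz : i < lev z) => low_zero T.H hAL pl hE.le hz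
    have hU := fun (z : P) (hz : lev z < i) => upp_zero T.H T.hir hAU pu hE.le hz
    have g1 := (hL w (by omega)).2
    have g2 := (hL w' (by omega)).2
    have g3 := (hL p (by omega)).2
    have g4 := (hU v1 (by omega)).2
    have g5 := (hU v2 (by omega)).2
    rw [T.GUw] at g1
    rw [T.GUw'] at g2
    rw [T.GUp] at g3
    rw [T.GD1] at g4
    rw [T.GD2] at g5
    have aL0 := aL_zero (i := i) (e := e) fun z hz => (hL z hz).1
    have aU0 := aU_zero (i := i) (e := e) fun z hz => (hU z hz).1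
    rw [aL0, aU0, pu] at hpar
    rw [pl, pu] at hc
    rcases tkey0 en hdj g1 g2 g3 g4 g5 (by omega) (by omega) with h | h
    · exact Or.inl (fin h)
    · right
      unfold tcd at h
      simp only [List.cons.injEq] at h
      obtain ⟨h0, h1, h2, h3, h4, h5, h6, h7, -⟩ := h
      exact ⟨h1, h3, h4, T.far_case hs hE hAL hAU ⟨h0, h1, h2, h3, h4, h5, h6, h7⟩⟩
  · have hU := fun (z : P) (hz : lev z < i) => upp_zero T.H T.hir hAU pu hE.le hz
    have g4 := (hU v1 (by omega)).2
    have g5 := (hU v2 (by omega)).2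
    rw [T.GD1] at g4
    rw [T.GD2] at g5
    have aU0 := aU_zero (i := i) (e := e) fun z hz => (hU z hz).1
    rw [aU0, pu] at hpar
    rw [pl, pu] at hc
    rcases tkey1 en hdj g4 g5 (by omega) with h | ⟨h1, h2, h3⟩
    · exact Or.inl (fin h)
    · exfalso
      rcases h3 with ⟨h3, h4⟩ | ⟨h3, h4⟩
      · have := T.aL_two hs hE hAL pl h3 h2 h4
        omega
      · have := T.swap.aL_two hs hE hAL pl h3 h2 h4
        omega
  · have hL := fun (z : P) (hz : i < lev z) => low_zero T.H hAL pl hE.le hz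
    have g1 := (hL w (by omega)).2
    have g2 := (hL w' (by omega)).2
    have g3 := (hL p (by omega)).2
    rw [T.GUw] at g1
    rw [T.GUw'] at g2
    rw [T.GUp] at g3
    have aL0 := aL_zero (i := i) (e := e) fun z hz => (hL z hz).1
    rw [aL0, pu] at hpar
    rw [pl, pu] at hc
    rcases tkey2 en hdj g1 g2 g3 (by omega) with h | ⟨h1, h2, h3⟩
    · exact Or.inl (fin h)
    · exfalso
      have := T.aU_even hs hE hAU pu h2 h3
      omega

end Tri

end Pool.Agent.GaussPoset.Win.W4
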