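import Pool.Agent.W_448j6_h22.KcE

/-!
MP_448cb3_co, G2, case B, window `j`: the triangle: six configurations of energy four with value
minus one, the coefficient (4,2).
-/

namespace Pool.Agent.GaussPoset.Win.W4

set_option linter.unusedSectionVars false

open Finset
open Pool.Agent.GaussPoset.Win.SO (LowD UppD val_gen coef_units)

universe u

variable {P : Type u} [Fintype P] [PartialOrder P] [DecidableEq P] {r i : ℕ}
variable {e : P → ℕ} {C : Finset P} {x0 x1 x2 v1 v2 w w' p : P}

/-- the configuration with given values at the near elements -/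
def cfg (x0 x1 x2 v1 v2 w w' p : P) (l : List ℕ) : P → ℕ := fun z =>
  if z = x0 then l.getD 0 0 else if z = x1 then l.getD 1 0 else if z = x2 then l.getD 2 0 else
  if z = v1 then l.getD 3 0 else if z = v2 then l.getD 4 0 else if z = w then l.getD 5 0 else
  if z = w' then l.getD 6 0 else if z = p then l.getD 7 0 else 0

/-- six lists with value minus one -/
def negs : List (List ℕ) :=
  [[0, 1, 0, 1, 2, 0, 0, 0], [0, 1, 0, 2, 1, 0, 0, 0], [2, 0, 0, 1, 0, 1, 0, 0],
    [2, 0, 0, 1, 0, 0, 1, 0], [0, 0, 2, 0, 1, 1, 0, 0], [0, 0, 2, 0, 1, 0, 1, 0]]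

lemma negs_card : negs.toFinset.card = 6 := by decide +kernel

lemma vl_le_one (H : Gr P r) (hC : Part i C) (hs : Spt C e) (hb : (st i C).card = 3)
    (hn : ¬ (AdmL i e ∧ AdmU i e ∧ Disjoint (AL i e) (AU i e) ∧
      (AL i e).card + (AU i e).card = 3 ∧ pL i e = 0 ∧ pU i e = 0)) : vl i C e ≤ 1 := by
  rcases vl_cases H hC hs hb with h | ⟨-, -, -, -, h⟩ | h
  · omega
  · rw [h]
    rcases neg_one_pow_eq_or ℤ (aL i e + (AL i e).card + (aU i e + pU i e)) with h1 | h1 <;>
      rw [h1] <;> norm_num
  · exact absurd h hn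

namespace Tri

variable (T : Tri r i C x0 x1 x2 v1 v2 w w' p)
include T

/-- the first kind -/
lemma neg_one (h1 : e x1 = 1) (h2 : e v1 = 1) (h3 : e v2 = 2)
    (h0 : ∀ z, z ≠ x1 → z ≠ v1 → z ≠ v2 → e z = 0) : vl i C e = -1 := by
  classical
  have H := T.H
  have lw := T.lw
  have lw' := T.lw'
  have lp := T.lp
  have lv1 := T.lv1
  have lv2 := T.lv2
  have l0 := T.l0
  have l1 := T.l1
  have l2 := T.l2
  have n01 := T.n01
  have n02 := T.n02
  have n12 := T.n12
  have nv := T.nv
  have hs : Spt C e := by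
    intro z hz
    exact h0 z (fun h => hz (h ▸ T.mC1)) (fun h => hz (h ▸ T.mV1)) (fun h => hz (h ▸ T.mV2))
  have hx0 : e x0 = 0 := h0 x0 n01 (by rintro rfl; omega) (by rintro rfl; omega)
  have hx2 : e x2 = 0 := h0 x2 n12.symm (by rintro rfl; omega) (by rintro rfl; omega)
  have D : LowD i e (∅ : Finset P) ∅ ∅ := SO.low_none H fun z hz =>
    h0 z (by rintro rfl; omega) (by rintro rfl; omega) (by rintro rfl; omega)
  have D' : UppD i e (∅ : Finset P) {v2} {x0, x1, x2} := by
    refine ⟨?_, ?_, ?_, ?_, ?_, ?_⟩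
    · intro z hz
      constructor
      · rintro ⟨y, hy, hlt⟩
        have := lev_cov H hy
        rw [h0 y (by rintro rfl; omega) (by rintro rfl; omega) (by rintro rfl; omega)] at hlt
        omega
      · intro h'
        exact absurd h' (notMem_empty _)
    · intro z hz
      constructor
      · rintro ⟨y, hy, hlt⟩
        have hl := lev_cov H hy
        by_cases g1 : y = v1
        · rw [g1] at hy
          have : z ∈ dc v1 := mem_dc.2 hy
          rw [T.hv1] at this
          simp only [mem_insert, mem_singleton] at this ⊢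
          tauto
        by_cases g2 : y = v2
        · rw [g2] at hy
          have : z ∈ dc v2 := mem_dc.2 hy
          rw [T.hv2] at this
          simp only [mem_insert, mem_singleton] at this ⊢
          tauto
        rw [h0 y (by rintro rfl; omega) g1 g2] at hlt
        omega
      · intro h'
        rw [mem_insert, mem_insert, mem_singleton] at h'
        rcases h' with rfl | rfl | rfl
        · exact ⟨v1, T.c_01, by omega⟩
        · exact ⟨v2, T.c_12, by omega⟩
        · exact ⟨v2, T.c_22, by omega⟩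
    · intro z hz
      constructor
      · rintro ⟨y, hy, hle⟩
        have hl := lev_cov H hy
        refine ⟨notMem_empty _, ?_⟩
        intro h'
        rw [mem_singleton] at h'
        rw [h'] at hy hle
        have : y ∈ dc v2 := mem_dc.2 hy
        rw [T.hv2, mem_insert, mem_singleton] at this
        rcases this with rfl | rfl <;> omega
      · rintro ⟨-, h'⟩
        rw [mem_singleton] at h'
        by_cases g1 : z = v1
        · rw [g1]
          exact ⟨x1, T.c_11, by omega⟩
        · obtain ⟨y, hy⟩ := dc_nonempty H (x := z) (by have := T.hi2; omega)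
          refine ⟨y, mem_dc.1 hy, ?_⟩
          rw [h0 z (by rintro rfl; omega) g1 h']
          exact Nat.zero_le _
    · intro z hz
      exact absurd hz (notMem_empty _)
    · intro z hz
      rw [mem_singleton] at hz
      rw [hz]
      exact ⟨by omega, notMem_empty _⟩
    · intro z hz
      rw [mem_insert, mem_insert, mem_singleton] at hz
      rcases hz with rfl | rfl | rfl <;> assumption
  have c3 : ({x0, x1, x2} : Finset P).card = 3 := by
    rw [← T.hst]
    exact T.card_st
  have key := (val_gen H T.hC hs D D' (disjoint_empty_left _) (k := 2)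
    (by rw [c3, card_singleton, card_empty])).2
  unfold vl
  rw [key, card_singleton, card_empty]
  norm_num

/-- the second kind -/
lemma neg_two (h1 : e x0 = 2) (h2 : e v1 = 1) (h3 : e w = 1)
    (h0 : ∀ z, z ≠ x0 → z ≠ v1 → z ≠ w → e z = 0) : vl i C e = -1 := by
  classical
  have H := T.H
  have lw := T.lw
  have lw' := T.lw'
  have lp := T.lp
  have lv1 := T.lv1
  have lv2 := T.lv2
  have l0 := T.l0
  have l1 := T.l1
  have l2 := T.l2
  have n01 := T.n01
  have n02 := T.n02
  have n12 := T.n12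
  have nv := T.nv
  have hs : Spt C e := by
    intro z hz
    exact h0 z (fun h => hz (h ▸ T.mC0)) (fun h => hz (h ▸ T.mV1)) (fun h => hz (h ▸ T.mW))
  have hx1 : e x1 = 0 := h0 x1 n01.symm (by rintro rfl; omega) (by rintro rfl; omega)
  have hx2 : e x2 = 0 := h0 x2 n02.symm (by rintro rfl; omega) (by rintro rfl; omega)
  have D : LowD i e (∅ : Finset P) ∅ {x2} := by
    refine ⟨?_, ?_, ?_, ?_, ?_, ?_⟩
    · intro z hz
      constructor
      · rintro ⟨y, hy, hlt⟩
        have := lev_cov H hy
        rw [h0 y (by rintro rfl; omega) (by rintro rfl; omega) (by rintro rfl; omega)] at hlt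
        omega
      · intro h'
        exact absurd h' (notMem_empty _)
    · intro z hz
      rw [mem_singleton]
      constructor
      · rintro ⟨y, hy, hlt⟩
        have hl := lev_cov H hy
        by_cases g1 : y = w
        · rw [g1] at hy hlt
          have : z ∈ uc w := mem_uc.2 hy
          rw [T.hw, mem_insert, mem_singleton] at this
          rcases this with h | h
          · rw [h] at hlt
            omega
          · exact h
        rw [h0 y (by rintro rfl; omega) (by rintro rfl; omega) g1] at hlt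
        omega
      · rintro rfl
        exact ⟨w, T.c_w2, by omega⟩
    · intro z hz
      constructor
      · intro _
        exact ⟨notMem_empty _, notMem_empty _⟩
      · intro _
        by_cases g1 : z = w
        · rw [g1]
          exact ⟨x0, T.c_w0, by omega⟩
        · obtain ⟨y, hy⟩ := uc_nonempty H (x := z) (by omega)
          refine ⟨y, mem_uc.1 hy, ?_⟩
          rw [h0 z (by rintro rfl; omega) (by rintro rfl; omega) g1]
          exact Nat.zero_le _
    · intro z hz
      exact absurd hz (notMem_empty _)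
    · intro z hz
      exact absurd hz (notMem_empty _)
    · intro z hz
      rw [mem_singleton] at hz
      rw [hz]
      exact l2
  have D' : UppD i e (∅ : Finset P) ∅ {x1} := by
    refine ⟨?_, ?_, ?_, ?_, ?_, ?_⟩
    · intro z hz
      constructor
      · rintro ⟨y, hy, hlt⟩
        have := lev_cov H hy
        rw [h0 y (by rintro rfl; omega) (by rintro rfl; omega) (by rintro rfl; omega)] at hlt
        omega
      · intro h'
        exact absurd h' (notMem_empty _)
    · intro z hz
      rw [mem_singleton]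
      constructor
      · rintro ⟨y, hy, hlt⟩
        have hl := lev_cov H hy
        by_cases g1 : y = v1
        · rw [g1] at hy hlt
          have : z ∈ dc v1 := mem_dc.2 hy
          rw [T.hv1, mem_insert, mem_singleton] at this
          rcases this with h | h
          · rw [h] at hlt
            omega
          · exact h
        rw [h0 y (by rintro rfl; omega) g1 (by rintro rfl; omega)] at hlt
        omega
      · rintro rfl
        exact ⟨v1, T.c_11, by omega⟩
    · intro z hz
      constructor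
      · intro _
        exact ⟨notMem_empty _, notMem_empty _⟩
      · intro _
        by_cases g1 : z = v1
        · rw [g1]
          exact ⟨x0, T.c_01, by omega⟩
        · obtain ⟨y, hy⟩ := dc_nonempty H (x := z) (by have := T.hi2; omega)
          refine ⟨y, mem_dc.1 hy, ?_⟩
          rw [h0 z (by rintro rfl; omega) g1 (by rintro rfl; omega)]
          exact Nat.zero_le _
    · intro z hz
      exact absurd hz (notMem_empty _)
    · intro z hz
      exact absurd hz (notMem_empty _)
    · intro z hz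
      rw [mem_singleton] at hz
      rw [hz]
      exact l1
  have key := (val_gen H T.hC hs D D' (by rw [disjoint_singleton]; exact n12.symm) (k := 2)
    (by rw [card_singleton, card_singleton, card_empty])).2
  unfold vl
  rw [key, card_singleton, card_empty]
  norm_num

/-- the values of the configuration of a list -/
lemma cfg_vals (l : List ℕ) : cfg x0 x1 x2 v1 v2 w w' p l x0 = l.getD 0 0 ∧
    cfg x0 x1 x2 v1 v2 w w' p l x1 = l.getD 1 0 ∧ cfg x0 x1 x2 v1 v2 w w' p l x2 = l.getD 2 0 ∧
    cfg x0 x1 x2 v1 v2 w w' p l v1 = l.getD 3 0 ∧ cfg x0 x1 x2 v1 v2 w w' p l v2 = l.getD 4 0 ∧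
    cfg x0 x1 x2 v1 v2 w w' p l w = l.getD 5 0 ∧ cfg x0 x1 x2 v1 v2 w w' p l w' = l.getD 6 0 ∧
    cfg x0 x1 x2 v1 v2 w w' p l p = l.getD 7 0 := by
  have lw := T.lw
  have lw' := T.lw'
  have lp := T.lp
  have lv1 := T.lv1
  have lv2 := T.lv2
  have l0 := T.l0
  have l1 := T.l1
  have l2 := T.l2
  have q : ∀ {a b : P}, lev a ≠ lev b → a ≠ b := fun h h1 => h (by rw [h1])
  have a1 : x1 ≠ x0 := T.n01.symm
  have a2 : x2 ≠ x0 := T.n02.symm
  have a3 : x2 ≠ x1 := T.n12.symm
  have b1 : v1 ≠ x0 := q (by omega)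
  have b2 : v1 ≠ x1 := q (by omega)
  have b3 : v1 ≠ x2 := q (by omega)
  have c1 : v2 ≠ x0 := q (by omega)
  have c2 : v2 ≠ x1 := q (by omega)
  have c3 : v2 ≠ x2 := q (by omega)
  have c4 : v2 ≠ v1 := T.nv.symm
  have d1 : w ≠ x0 := q (by omega)
  have d2 : w ≠ x1 := q (by omega)
  have d3 : w ≠ x2 := q (by omega)
  have d4 : w ≠ v1 := q (by omega)
  have d5 : w ≠ v2 := q (by omega)
  have e1 : w' ≠ x0 := q (by omega)
  have e2 : w' ≠ x1 := q (by omega)
  have e3 : w' ≠ x2 := q (by omega)
  have e4 : w' ≠ v1 := q (by omega)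
  have e5 : w' ≠ v2 := q (by omega)
  have e6 : w' ≠ w := T.nw.symm
  have f1 : p ≠ x0 := q (by omega)
  have f2 : p ≠ x1 := q (by omega)
  have f3 : p ≠ x2 := q (by omega)
  have f4 : p ≠ v1 := q (by omega)
  have f5 : p ≠ v2 := q (by omega)
  have f6 : p ≠ w := T.nwp.symm
  have f7 : p ≠ w' := T.nwp'.symm
  unfold cfg
  refine ⟨?_, ?_, ?_, ?_, ?_, ?_, ?_, ?_⟩
  · rw [if_pos rfl]
  · rw [if_neg a1, if_pos rfl]
  · rw [if_neg a2, if_neg a3, if_pos rfl]
  · rw [if_neg b1, if_neg b2, if_neg b3, if_pos rfl]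
  · rw [if_neg c1, if_neg c2, if_neg c3, if_neg c4, if_pos rfl]
  · rw [if_neg d1, if_neg d2, if_neg d3, if_neg d4, if_neg d5, if_pos rfl]
  · rw [if_neg e1, if_neg e2, if_neg e3, if_neg e4, if_neg e5, if_neg e6, if_pos rfl]
  · rw [if_neg f1, if_neg f2, if_neg f3, if_neg f4, if_neg f5, if_neg f6, if_neg f7, if_pos rfl]

omit T in
lemma cfg_zero (l : List ℕ) {z : P} (h : z ∉ ({x0, x1, x2, v1, v2, w, w', p} : Finset P)) :
    cfg x0 x1 x2 v1 v2 w w' p l z = 0 := by
  simp only [mem_insert, mem_singleton, not_or] at h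
  obtain ⟨h1, h2, h3, h4, h5, h6, h7, h8⟩ := h
  unfold cfg
  rw [if_neg h1, if_neg h2, if_neg h3, if_neg h4, if_neg h5, if_neg h6, if_neg h7, if_neg h8]

lemma mem8 {z : P} (h : z ∈ ({x0, x1, x2, v1, v2, w, w', p} : Finset P)) : z ∈ C := by
  simp only [mem_insert, mem_singleton] at h
  rcases h with rfl | rfl | rfl | rfl | rfl | rfl | rfl | rfl
  · exact T.mC0
  · exact T.mC1
  · exact T.mC2
  · exact T.mV1
  · exact T.mV2
  · exact T.mW
  · exact T.mW'
  · exact T.mP

/-- the configuration of a list is a configuration of the part -/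
lemma cfg_mem {l : List ℕ} {n : ℕ}
    (hl : l.getD 0 0 + l.getD 1 0 + l.getD 2 0 + l.getD 3 0 + l.getD 4 0 + l.getD 5 0 +
      l.getD 6 0 + l.getD 7 0 = n) :
    cfg x0 x1 x2 v1 v2 w w' p l ∈ C.piAntidiag n := by
  obtain ⟨h0, h1, h2, h3, h4, h5, h6, h7⟩ := T.cfg_vals l
  rw [mem_piAntidiag]
  constructor
  · have s1 : ({x0, x1, x2, v1, v2, w, w', p} : Finset P) ⊆ C := fun z hz => T.mem8 hz
    rw [← sum_subset s1 fun z _ hz => cfg_zero l hz, T.sum8, h0, h1, h2, h3, h4, h5, h6, h7, hl]
  · intro z hz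
    by_contra hC
    exact hz (cfg_zero l fun h => hC (T.mem8 h))

lemma tup_cfg {l : List ℕ} (hl : l.length = 8) :
    tup (cfg x0 x1 x2 v1 v2 w w' p l) x0 x1 x2 v1 v2 w w' p = l := by
  obtain ⟨h0, h1, h2, h3, h4, h5, h6, h7⟩ := T.cfg_vals l
  unfold tup tcd
  rw [h0, h1, h2, h3, h4, h5, h6, h7]
  rcases l with _ | ⟨a, l⟩
  · simp at hl
  rcases l with _ | ⟨b, l⟩
  · simp at hl
  rcases l with _ | ⟨c, l⟩
  · simp at hl
  rcases l with _ | ⟨d, l⟩
  · simp at hl
  rcases l with _ | ⟨e, l⟩
  · simp at hl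
  rcases l with _ | ⟨f, l⟩
  · simp at hl
  rcases l with _ | ⟨g, l⟩
  · simp at hl
  rcases l with _ | ⟨k, l⟩
  · simp at hl
  have : l = [] := by
    have h : l.length = 0 := by
      simp only [List.length_cons] at hl
      omega
    exact List.length_eq_zero_iff.1 h
  rw [this]
  rfl

/-- the six values -/
lemma vl_neg {l : List ℕ} (hl : l ∈ negs) : vl i C (cfg x0 x1 x2 v1 v2 w w' p l) = -1 := by
  obtain ⟨h0, h1, h2, h3, h4, h5, h6, h7⟩ := T.cfg_vals l
  have hz : ∀ z, z ∉ ({x0, x1, x2, v1, v2, w, w', p} : Finset P) →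
      cfg x0 x1 x2 v1 v2 w w' p l z = 0 := fun z hz => cfg_zero l hz
  have key : ∀ z, z ≠ x0 ∧ z ≠ x1 ∧ z ≠ x2 ∧ z ≠ v1 ∧ z ≠ v2 ∧ z ≠ w ∧ z ≠ w' ∧ z ≠ p →
      cfg x0 x1 x2 v1 v2 w w' p l z = 0 := by
    intro z h
    refine hz z ?_
    simp only [mem_insert, mem_singleton]
    tauto
  unfold negs at hl
  simp only [List.mem_cons, List.not_mem_nil, or_false] at hl
  rcases hl with hl | hl | hl | hl | hl | hl
  · rw [hl] at h0 h1 h2 h3 h4 h5 h6 h7 key ⊢
    refine T.neg_one h1 h3 h4 fun z g1 g2 g3 => ?_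
    by_cases k1 : z = x0
    · rw [k1]; exact h0
    by_cases k2 : z = x2
    · rw [k2]; exact h2
    by_cases k3 : z = w
    · rw [k3]; exact h5
    by_cases k4 : z = w'
    · rw [k4]; exact h6
    by_cases k5 : z = p
    · rw [k5]; exact h7
    exact key z ⟨k1, g1, k2, g2, g3, k3, k4, k5⟩
  · rw [hl] at h0 h1 h2 h3 h4 h5 h6 h7 key ⊢
    refine T.rev.neg_one h1 h4 h3 fun z g1 g2 g3 => ?_
    by_cases k1 : z = x0
    · rw [k1]; exact h0
    by_cases k2 : z = x2
    · rw [k2]; exact h2
    by_cases k3 : z = w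
    · rw [k3]; exact h5
    by_cases k4 : z = w'
    · rw [k4]; exact h6
    by_cases k5 : z = p
    · rw [k5]; exact h7
    exact key z ⟨k1, g1, k2, g3, g2, k3, k4, k5⟩
  · rw [hl] at h0 h1 h2 h3 h4 h5 h6 h7 key ⊢
    refine T.neg_two h0 h3 h5 fun z g1 g2 g3 => ?_
    by_cases k1 : z = x1
    · rw [k1]; exact h1
    by_cases k2 : z = x2
    · rw [k2]; exact h2
    by_cases k3 : z = v2
    · rw [k3]; exact h4
    by_cases k4 : z = w'
    · rw [k4]; exact h6
    by_cases k5 : z = p
    · rw [k5]; exact h7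
    exact key z ⟨g1, k1, k2, g2, k3, g3, k4, k5⟩
  · rw [hl] at h0 h1 h2 h3 h4 h5 h6 h7 key ⊢
    refine T.swap.neg_two h0 h3 h6 fun z g1 g2 g3 => ?_
    by_cases k1 : z = x1
    · rw [k1]; exact h1
    by_cases k2 : z = x2
    · rw [k2]; exact h2
    by_cases k3 : z = v2
    · rw [k3]; exact h4
    by_cases k4 : z = w
    · rw [k4]; exact h5
    by_cases k5 : z = p
    · rw [k5]; exact h7
    exact key z ⟨g1, k1, k2, g2, k3, k4, g3, k5⟩
  · rw [hl] at h0 h1 h2 h3 h4 h5 h6 h7 key ⊢
    refine T.rev.neg_two h2 h4 h5 fun z g1 g2 g3 => ?_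
    by_cases k1 : z = x1
    · rw [k1]; exact h1
    by_cases k2 : z = x0
    · rw [k2]; exact h0
    by_cases k3 : z = v1
    · rw [k3]; exact h3
    by_cases k4 : z = w'
    · rw [k4]; exact h6
    by_cases k5 : z = p
    · rw [k5]; exact h7
    exact key z ⟨k2, k1, g1, k3, g2, g3, k4, k5⟩
  · rw [hl] at h0 h1 h2 h3 h4 h5 h6 h7 key ⊢
    refine T.rev.swap.neg_two h2 h4 h6 fun z g1 g2 g3 => ?_
    by_cases k1 : z = x1
    · rw [k1]; exact h1
    by_cases k2 : z = x0
    · rw [k2]; exact h0
    by_cases k3 : z = v1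
    · rw [k3]; exact h3
    by_cases k4 : z = w
    · rw [k4]; exact h5
    by_cases k5 : z = p
    · rw [k5]; exact h7
    exact key z ⟨k2, k1, g1, k3, g2, k4, g3, k5⟩

end Tri

end Pool.Agent.GaussPoset.Win.W4
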