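import Pool.Agent.W_448j6_h22.KcF
import Pool.Agent.W_448j6_h22.KbE

/-!
MP_448cb3_co, G2, case B, window `j`: the triangle: the bound of the coefficient (4,2).
-/

namespace Pool.Agent.GaussPoset.Win.W4

set_option linter.unusedSectionVars false

open Finset
open Pool.Agent.GaussPoset.Win.SO (LowD UppD val_gen coef_units)

universe u

variable {P : Type u} [Fintype P] [PartialOrder P] [DecidableEq P] {r i : ℕ}
variable {e : P → ℕ} {C : Finset P} {x0 x1 x2 v1 v2 w w' p : P}

namespace Tri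

variable (T : Tri r i C x0 x1 x2 v1 v2 w w' p)
include T

/-- at most fourteen configurations of positive value -/
lemma card_pos : ((C.piAntidiag 4).filter (fun e => 0 < vl i C e)).card ≤ 14 := by
  classical
  obtain ⟨S1, hS1⟩ : ∃ S : Finset (P → ℕ), S = (C.piAntidiag 4).filter
    (fun e => tup e x0 x1 x2 v1 v2 w w' p ∈ tens ∧
      ∀ g : P, (i + 2 ≤ lev g ∨ lev g + 2 ≤ i) → e g = 0) := ⟨_, rfl⟩
  obtain ⟨S2, hS2⟩ : ∃ S : Finset (P → ℕ), S = (uc v1 ∪ uc v2).image
    (fun g z => if z = g ∨ z = x1 ∨ z = v1 ∨ z = v2 then 1 else 0) := ⟨_, rfl⟩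
  have hsub : (C.piAntidiag 4).filter (fun e => 0 < vl i C e) ⊆ S1 ∪ S2 := by
    intro e he
    rw [mem_filter] at he
    rw [mem_union]
    rcases T.pos_cases he.1 he.2 with h | ⟨h1, h2, h3, g, hg, hg1, h0⟩
    · left
      rw [hS1, mem_filter]
      exact ⟨he.1, h⟩
    · right
      rw [hS2, mem_image]
      refine ⟨g, hg, ?_⟩
      funext z
      by_cases k : z = g ∨ z = x1 ∨ z = v1 ∨ z = v2
      · rw [if_pos k]
        rcases k with rfl | rfl | rfl | rfl <;> omega
      · rw [if_neg k]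
        push Not at k
        exact (h0 z k.1 k.2.1 k.2.2.1 k.2.2.2).symm
  have c1 : S1.card ≤ 10 := by
    rw [← tens_card]
    refine card_le_card_of_injOn (fun e => tup e x0 x1 x2 v1 v2 w w' p) ?_ ?_
    · intro e he
      rw [hS1, mem_coe, mem_filter] at he
      exact mem_coe.2 (List.mem_toFinset.2 he.2.1)
    · intro e he e' he' hee
      rw [hS1, mem_coe, mem_filter] at he he'
      obtain ⟨s1, -⟩ := energy_C he.1
      obtain ⟨s2, -⟩ := energy_C he'.1
      simp only [tup, tcd, List.cons.injEq] at hee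
      obtain ⟨g0, g1, g2, g3, g4, g5, g6, g7, -⟩ := hee
      funext z
      by_cases hC : z ∈ C
      · rcases T.cases_C hC with h5 | h5 | h5 | h5 | h5 | h5 | h5 | h5 | h5 | h5
        · rw [h5]; exact g0
        · rw [h5]; exact g1
        · rw [h5]; exact g2
        · rw [h5]; exact g3
        · rw [h5]; exact g4
        · rw [h5]; exact g5
        · rw [h5]; exact g6
        · rw [h5]; exact g7
        · rw [he.2.2 z (Or.inl h5), he'.2.2 z (Or.inl h5)]
        · rw [he.2.2 z (Or.inr h5), he'.2.2 z (Or.inr h5)]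
      · rw [s1 z hC, s2 z hC]
  have c2 : S2.card ≤ 4 := by
    rw [hS2]
    have h1 := card_image_le (s := uc v1 ∪ uc v2)
      (f := fun g z => if z = g ∨ z = x1 ∨ z = v1 ∨ z = v2 then 1 else 0)
    have h2 := card_union_le (uc v1) (uc v2)
    have h3 := uc_card_le T.H v1
    have h4 := uc_card_le T.H v2
    omega
  have h1 := card_le_card hsub
  have h2 := card_union_le S1 S2
  omega

/-- THE SUM of the values -/
theorem sum_vl : ∑ e ∈ C.piAntidiag 4, vl i C e ≤ 8 := by
  classical
  obtain ⟨N, hN⟩ : ∃ S : Finset (P → ℕ), S = negs.toFinset.image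
    (fun l => cfg x0 x1 x2 v1 v2 w w' p l) := ⟨_, rfl⟩
  have hlen : ∀ l ∈ negs, l.length = 8 := by decide
  have hsum : ∀ l ∈ negs, l.getD 0 0 + l.getD 1 0 + l.getD 2 0 + l.getD 3 0 + l.getD 4 0 +
      l.getD 5 0 + l.getD 6 0 + l.getD 7 0 = 4 := by decide
  have hNA : N ⊆ C.piAntidiag 4 := by
    intro e he
    rw [hN, mem_image] at he
    obtain ⟨l, hl, rfl⟩ := he
    exact T.cfg_mem (hsum l (List.mem_toFinset.1 hl))
  have hNc : N.card = 6 := by
    rw [hN, card_image_of_injOn, negs_card]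
    intro l hl l' hl' hll
    have h1 := T.tup_cfg (hlen l (List.mem_toFinset.1 (mem_coe.1 hl)))
    have h2 := T.tup_cfg (hlen l' (List.mem_toFinset.1 (mem_coe.1 hl')))
    simp only at hll
    rw [← h1, ← h2, hll]
  have hNv : ∀ e ∈ N, vl i C e = -1 := by
    intro e he
    rw [hN, mem_image] at he
    obtain ⟨l, hl, rfl⟩ := he
    exact T.vl_neg (List.mem_toFinset.1 hl)
  have hpt : ∀ e ∈ C.piAntidiag 4,
      vl i C e ≤ (if 0 < vl i C e then 1 else 0) - (if e ∈ N then 1 else 0) := by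
    intro e he
    obtain ⟨hs, hE⟩ := energy_C he
    by_cases h1 : e ∈ N
    · rw [hNv e h1, if_pos h1]
      norm_num
    · rw [if_neg h1, sub_zero]
      by_cases h2 : 0 < vl i C e
      · rw [if_pos h2]
        exact vl_le_one T.H T.part hs T.card_st fun ⟨a1, a2, a3, a4, a5, a6⟩ =>
          T.no_three hs hE a1 a2 a3 a4 a5 a6
      · rw [if_neg h2]
        omega
  have h1 := sum_le_sum hpt
  rw [sum_sub_distrib, sum_boole, sum_boole] at h1
  have h2 : (C.piAntidiag 4).filter (fun e => e ∈ N) = N := by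
    ext e
    rw [mem_filter]
    exact ⟨fun h => h.2, fun h => ⟨hNA h, h⟩⟩
  rw [h2, hNc] at h1
  have h3 := T.card_pos
  have h4 : (((C.piAntidiag 4).filter (fun e => 0 < vl i C e)).card : ℤ) ≤ 14 := by
    exact_mod_cast h3
  push_cast at h1
  linarith

/-- the coefficient (4,2) -/
theorem be4 : I2.be 4 (st i C).card (ZS i C) ≤ 8 := by
  have h1 : I2.be 4 (st i C).card (ZS i C) = ∑ e ∈ C.piAntidiag 4, vl i C e := by
    unfold I2.be
    rw [coeff_ZS]
    unfold ZC
    rw [mul_sum, map_sum]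
    rfl
  rw [h1]
  exact T.sum_vl

end Tri

end Pool.Agent.GaussPoset.Win.W4
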