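import Pool.Agent.W_448j6_h22.KcG

/-!
MP_448cb3_co, G2, case B, window `j`: the triangle: the coefficient (1,0).
-/

namespace Pool.Agent.GaussPoset.Win.W4

set_option linter.unusedSectionVars false

open Finset
open Pool.Agent.GaussPoset.Win.SO (LowD UppD val_gen coef_units)

universe u

variable {P : Type u} [Fintype P] [PartialOrder P] [DecidableEq P] {r i : ℕ}
variable {e : P → ℕ} {C : Finset P} {x0 x1 x2 v1 v2 w w' p : P}

/-- the configurations of energy one -/
lemma piA_one (C : Finset P) : C.piAntidiag 1 = C.image (fun x => (Pi.single x 1 : P → ℕ)) := by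
  classical
  ext l
  rw [mem_piAntidiag, mem_image]
  constructor
  · rintro ⟨h5, h6⟩
    obtain ⟨v, hvN, hv⟩ : ∃ v ∈ C, l v ≠ 0 := by
      by_contra hcon
      push Not at hcon
      rw [Finset.sum_eq_zero (fun v hv => hcon v hv)] at h5
      omega
    have h7 := Finset.add_sum_erase C l hvN
    rw [h5] at h7
    refine ⟨v, hvN, ?_⟩
    funext w
    by_cases hwv : w = v
    · rw [hwv, Pi.single_eq_same]
      omega
    · rw [Pi.single_eq_of_ne hwv]
      by_cases hw : w ∈ C
      · have h8 : ∑ w ∈ C.erase v, l w = 0 := by omega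
        have h9 := (Finset.sum_eq_zero_iff.1 h8) w (mem_erase.2 ⟨hwv, hw⟩)
        exact h9.symm
      · by_contra h9
        exact hw (h6 w fun h => h9 h.symm)
  · rintro ⟨x, hx, rfl⟩
    constructor
    · rw [sum_pi_single', if_pos hx]
    · intro z hz
      by_contra hC
      apply hz
      rw [Pi.single_apply, if_neg]
      rintro rfl
      exact hC hx

namespace Tri

variable (T : Tri r i C x0 x1 x2 v1 v2 w w' p)
include T

/-- a label one on the pendant -/
lemma single_p : lc (st i C).card 0 (tC i C (Pi.single p 1)) = -1 := by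
  have H := T.H
  have lp := T.lp
  have l1 := T.l1
  have h0 : ∀ z, z ≠ p → (Pi.single p 1 : P → ℕ) z = 0 := fun z hz => Pi.single_eq_of_ne hz 1
  have h1 : (Pi.single p 1 : P → ℕ) p = 1 := Pi.single_eq_same p 1
  obtain ⟨e, he⟩ : ∃ e : P → ℕ, e = Pi.single p 1 := ⟨_, rfl⟩
  rw [← he] at h0 h1 ⊢
  have hs : Spt C e := by
    intro z hz
    exact h0 z (fun h => hz (h ▸ T.mP))
  have hx1 : e x1 = 0 := h0 x1 (by rintro rfl; omega)
  have D : LowD i e (∅ : Finset P) {p} {x1} := by
    refine ⟨?_, ?_, ?_, ?_, ?_, ?_⟩
    · intro z hz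
      constructor
      · rintro ⟨y, hy, hlt⟩
        have := lev_cov H hy
        rw [h0 y (by rintro rfl; omega)] at hlt
        omega
      · intro h'
        exact absurd h' (notMem_empty _)
    · intro z hz
      rw [mem_singleton]
      constructor
      · rintro ⟨y, hy, hlt⟩
        have hl := lev_cov H hy
        by_cases g1 : y = p
        · rw [g1] at hy hlt
          have : z ∈ uc p := mem_uc.2 hy
          rw [T.hp, mem_singleton] at this
          exact this
        rw [h0 y g1] at hlt
        omega
      · rintro rfl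
        exact ⟨p, T.c_p, by omega⟩
    · intro z hz
      constructor
      · rintro ⟨y, hy, hle⟩
        have hl := lev_cov H hy
        refine ⟨notMem_empty _, ?_⟩
        rw [mem_singleton]
        rintro rfl
        have : y ∈ uc z := mem_uc.2 hy
        rw [T.hp, mem_singleton] at this
        rw [this] at hle
        omega
      · rintro ⟨-, h'⟩
        rw [mem_singleton] at h'
        obtain ⟨y, hy⟩ := uc_nonempty H (x := z) (by omega)
        refine ⟨y, mem_uc.1 hy, ?_⟩
        rw [h0 z h']
        exact Nat.zero_le _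
    · intro z hz
      exact absurd hz (notMem_empty _)
    · intro z hz
      rw [mem_singleton] at hz
      rw [hz]
      exact ⟨by omega, notMem_empty _⟩
    · intro z hz
      rw [mem_singleton] at hz
      rw [hz]
      exact l1
  have D' : UppD i e (∅ : Finset P) ∅ ∅ := SO.upp_none H T.hir fun z hz =>
    h0 z (by rintro rfl; omega)
  have key := (val_gen H T.hC hs D D' (disjoint_empty_right _) (k := 0)
    (by rw [card_singleton, card_singleton, card_empty])).2
  unfold lc
  rw [key, card_singleton, card_empty]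
  norm_num

/-- a label one on a far element -/
lemma single_far {g : P} (hg : i + 2 ≤ lev g ∨ lev g + 2 ≤ i) :
    lc (st i C).card 0 (tC i C (Pi.single g 1)) = 0 := by
  have H := T.H
  have h0 : ∀ z, z ≠ g → (Pi.single g 1 : P → ℕ) z = 0 := fun z hz => Pi.single_eq_of_ne hz 1
  have h1 : (Pi.single g 1 : P → ℕ) g = 1 := Pi.single_eq_same g 1
  obtain ⟨e, he⟩ : ∃ e : P → ℕ, e = Pi.single g 1 := ⟨_, rfl⟩
  rw [← he] at h0 h1 ⊢
  have hA : ¬ (AdmL i e ∧ AdmU i e) := by
    rintro ⟨hL, hU⟩
    rcases hg with hg | hg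
    · obtain ⟨u, hu⟩ := uc_nonempty H (x := g) (by omega)
      have hl := lev_uc H hu
      have h2 := lab_up H hL (mem_uc.1 hu) (by omega) (by omega)
      rw [h0 u (by rintro rfl; omega)] at h2
      omega
    · obtain ⟨u, hu⟩ := dc_nonempty H (x := g) (by have := T.hi2; omega)
      have hl := lev_cov H (mem_dc.1 hu)
      have h2 := lab_dn H T.hir hU (mem_dc.1 hu) (by omega) (by omega)
      rw [h0 u (by rintro rfl; omega)] at h2
      omega
  have ht : tC i C e = 0 := by
    unfold tC cw
    rw [if_neg hA, zero_mul]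
    exact ite_self _
  unfold lc
  rw [ht, mul_zero, map_zero]

/-- a label one on a site -/
lemma single_site {s : P} (hl : lev s = i) :
    lc (st i C).card 0 (tC i C (Pi.single s 1)) = 1 := by
  have hS : Sc i (Pi.single s 1 : P → ℕ) := by
    intro x hx
    rw [Pi.single_apply, if_neg]
    rintro rfl
    exact hx hl
  exact (hS.val (C := C) T.H T.hi T.hi2).2.2.2.2.2

/-- THE COEFFICIENT (1,0) -/
theorem c1 : I2.c1 (st i C).card (ZS i C) = -4 := by
  classical
  have h0 : I2.c1 (st i C).card (ZS i C) = lc (st i C).card 0 (ZC i C 1) := by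
    unfold I2.c1 lc
    rw [coeff_ZS, pow_zero, one_mul]
  have h1 : lc (st i C).card 0 (ZC i C 1) =
      ∑ x ∈ C, lc (st i C).card 0 (tC i C (Pi.single x 1)) := by
    have h2 : ZC i C 1 = ∑ x ∈ C, tC i C (Pi.single x 1) := by
      unfold ZC
      rw [piA_one, sum_image]
      intro x _ y _ hxy
      have := congrFun (show (Pi.single x 1 : P → ℕ) = Pi.single y 1 from hxy) x
      rw [Pi.single_eq_same, Pi.single_apply] at this
      by_contra hne
      rw [if_neg hne] at this
      omega
    rw [h2]
    unfold lc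
    rw [mul_sum, map_sum]
  have hi := T.hi
  have l0 := T.l0
  have l1 := T.l1
  have l2 := T.l2
  have lw := T.lw
  have lw' := T.lw'
  have lp := T.lp
  have lv1 := T.lv1
  have lv2 := T.lv2
  have q : ∀ {a b : P}, lev a ≠ lev b → a ≠ b := fun h h1 => h (by rw [h1])
  have s1 : ({x0, x1, x2, v1, v2, w, w', p} : Finset P) ⊆ C := fun z hz => T.mem8 hz
  have h3 : ∑ x ∈ ({x0, x1, x2, v1, v2, w, w', p} : Finset P),
      lc (st i C).card 0 (tC i C (Pi.single x 1)) =
      ∑ x ∈ C, lc (st i C).card 0 (tC i C (Pi.single x 1)) := by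
    refine sum_subset s1 fun z hC hz => ?_
    simp only [mem_insert, mem_singleton] at hz
    have h2 := T.cases_C hC
    exact T.single_far (by tauto)
  have cw2 : (nz i w).card = 2 := by rw [nz_low lw, T.hw, card_pair T.n02]
  have cw2' : (nz i w').card = 2 := by rw [nz_low lw', T.hw', card_pair T.n02]
  have cv1 : (nz i v1).card = 2 := by rw [nz_upp lv1, T.hv1, card_pair T.n01]
  have cv2 : (nz i v2).card = 2 := by rw [nz_upp lv2, T.hv2, card_pair T.n12]
  have e1 := single_dbl T.H T.hi T.hi2 T.hC (mem_near.2 (Or.inl lw)) T.mW cw2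
  have e2 := single_dbl T.H T.hi T.hi2 T.hC (mem_near.2 (Or.inl lw')) T.mW' cw2'
  have e3 := single_dbl T.H T.hi T.hi2 T.hC (mem_near.2 (Or.inr lv1)) T.mV1 cv1
  have e4 := single_dbl T.H T.hi T.hi2 T.hC (mem_near.2 (Or.inr lv2)) T.mV2 cv2
  rw [if_pos lw] at e1
  rw [if_pos lw'] at e2
  rw [if_neg (by omega)] at e3
  rw [if_neg (by omega)] at e4
  rw [h0, h1, ← h3, sum_insert, sum_insert, sum_insert, sum_insert, sum_insert, sum_insert,
    sum_pair T.nwp', e1, e2, e3, e4, T.single_site l0, T.single_site l1, T.single_site l2,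
    T.single_p]
  · norm_num
  · simp only [mem_insert, mem_singleton]
    push Not
    exact ⟨T.nw, T.nwp⟩
  · simp only [mem_insert, mem_singleton]
    push Not
    exact ⟨q (by omega), q (by omega), q (by omega)⟩
  · simp only [mem_insert, mem_singleton]
    push Not
    exact ⟨T.nv, q (by omega), q (by omega), q (by omega)⟩
  · simp only [mem_insert, mem_singleton]
    push Not
    exact ⟨q (by omega), q (by omega), q (by omega), q (by omega), q (by omega)⟩
  · simp only [mem_insert, mem_singleton]
    push Not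
    exact ⟨T.n12, q (by omega), q (by omega), q (by omega), q (by omega), q (by omega)⟩
  · simp only [mem_insert, mem_singleton]
    push Not
    exact ⟨T.n01, T.n02, q (by omega), q (by omega), q (by omega), q (by omega), q (by omega)⟩

end Tri

end Pool.Agent.GaussPoset.Win.W4
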