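import Pool.Agent.W_448j6_h22.KcH
import Pool.Agent.W_448w4_h10.ME

/-!
MP_448cb3_co, G2, case B, window `j`: the triangle: the coefficient (3,2).
-/

namespace Pool.Agent.GaussPoset.EK

set_option linter.unusedSectionVars false

open Finset Win I2

universe u

variable {P : Type u} [Fintype P] [PartialOrder P] [DecidableEq P] {r i : ℕ}
variable {K : Finset P} {psi : P → P}

/-- an upper double whose sites have no lower double is in `K` -/
lemma Red.memU (R : Red P i K psi) {y : P} (hy : y ∈ dbU P i)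
    (h0 : CoreC_L i (dc y) = ∅) : y ∈ K := by
  have h1 : y ∈ CoreC_U i (dc y) := mem_CoreC_U.2 ⟨hy, rfl⟩
  have h2 := R.nU (dc y)
  unfold Df at h2
  rw [h0, card_empty] at h2
  have h3 : (K ∩ CoreC_U i (dc y)) = CoreC_U i (dc y) := by
    refine eq_of_subset_of_card_le inter_subset_right ?_
    have : (0 : ℤ) ≤ ((CoreC_U i (dc y)).card : ℤ) := Nat.cast_nonneg _
    push_cast at h2
    have h4 : ((K ∩ CoreC_U i (dc y)).card : ℤ) = ((CoreC_U i (dc y)).card : ℤ) := by
      rw [h2]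
      rw [max_eq_left (by linarith)]
      ring
    have h5 : (K ∩ CoreC_U i (dc y)).card = (CoreC_U i (dc y)).card := by exact_mod_cast h4
    omega
  rw [← h3] at h1
  exact (mem_inter.1 h1).1

/-- a lower double whose sites have no upper double is in `K` -/
lemma Red.memL (R : Red P i K psi) {y : P} (hy : y ∈ dbL P i)
    (h0 : CoreC_U i (uc y) = ∅) : y ∈ K := by
  have h1 : y ∈ CoreC_L i (uc y) := mem_CoreC_L.2 ⟨hy, rfl⟩
  have h2 := R.nL (uc y)
  unfold Df at h2
  rw [h0, card_empty] at h2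
  have h3 : (K ∩ CoreC_L i (uc y)) = CoreC_L i (uc y) := by
    refine eq_of_subset_of_card_le inter_subset_right ?_
    have : (0 : ℤ) ≤ ((CoreC_L i (uc y)).card : ℤ) := Nat.cast_nonneg _
    push_cast at h2
    have h4 : ((K ∩ CoreC_L i (uc y)).card : ℤ) = ((CoreC_L i (uc y)).card : ℤ) := by
      rw [h2]
      rw [max_eq_left (by linarith)]
      ring
    have h5 : (K ∩ CoreC_L i (uc y)).card = (CoreC_L i (uc y)).card := by exact_mod_cast h4
    omega
  rw [← h3] at h1
  exact (mem_inter.1 h1).1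

end Pool.Agent.GaussPoset.EK

namespace Pool.Agent.GaussPoset.Win.W4

set_option linter.unusedSectionVars false

open Finset I2 K2

universe u

variable {P : Type u} [Fintype P] [PartialOrder P] [DecidableEq P] {r i : ℕ}
variable {e : P → ℕ} {C : Finset P} {x0 x1 x2 v1 v2 w w' p : P}
variable {K : Finset P} {psi : P → P}

lemma card_int {a b c : P} (hac : a ≠ c) :
    ((({a, b} : Finset P) ∩ {b, c}).card = 1) := by
  have : (({a, b} : Finset P) ∩ {b, c}) = {b} := by
    ext z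
    simp only [mem_inter, mem_insert, mem_singleton]
    constructor
    · rintro ⟨h1 | h1, h2 | h2⟩
      · exact h2
      · exact absurd (h1.symm.trans h2) hac
      · exact h1
      · exact h1
    · intro h
      exact ⟨Or.inr h, Or.inl h⟩
  rw [this, card_singleton]

namespace Tri

section K

variable (T : Tri r i C x0 x1 x2 v1 v2 w w' p) (R : EK.Red P i K psi)
include T

lemma dw : w ∈ dbL P i := I2.mem_dbL'.2 ⟨T.lw, by rw [T.hw, card_pair T.n02]⟩
lemma dw' : w' ∈ dbL P i := T.swap.dw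
lemma dv1 : v1 ∈ dbU P i := I2.mem_dbU'.2 ⟨T.lv1, by rw [T.hv1, card_pair T.n01]⟩
lemma dv2 : v2 ∈ dbU P i := T.rev.dv1

lemma nsw : ns i w = {x0, x2} := by rw [ns_L T.dw, T.hw]
lemma nsw' : ns i w' = {x0, x2} := T.swap.nsw
lemma nsv1 : ns i v1 = {x0, x1} := by rw [ns_U T.dv1, T.hv1]
lemma nsv2 : ns i v2 = {x1, x2} := by rw [ns_U T.dv2, T.hv2]

include R

lemma Kw : w ∈ K := by
  refine R.memL T.dw ?_
  rw [eq_empty_iff_forall_notMem]
  intro y hy
  obtain ⟨h1, h2⟩ := mem_CoreC_U.1 hy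
  rw [T.hw] at h2
  have h3 : x0 ∈ dc y := by rw [h2]; simp
  have h4 : y ∈ uc x0 := mem_uc.2 (mem_dc.1 h3)
  rw [T.u0, mem_singleton] at h4
  rw [h4, T.hv1] at h2
  have h5 : x1 ∈ ({x0, x2} : Finset P) := by rw [← h2]; simp
  rw [mem_insert, mem_singleton] at h5
  rcases h5 with h5 | h5
  · exact T.n01 h5.symm
  · exact T.n12 h5

lemma Kw' : w' ∈ K := T.swap.Kw R

lemma Kv1 : v1 ∈ K := by
  refine R.memU T.dv1 ?_
  rw [eq_empty_iff_forall_notMem]
  intro y hy
  obtain ⟨h1, h2⟩ := mem_CoreC_L.1 hy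
  rw [T.hv1] at h2
  have h3 : x1 ∈ uc y := by rw [h2]; simp
  have h4 : y ∈ dc x1 := mem_dc.2 (mem_uc.1 h3)
  rw [T.d1, mem_singleton] at h4
  rw [h4, T.hp] at h2
  have h5 : x0 ∈ ({x1} : Finset P) := by rw [h2]; simp
  rw [mem_singleton] at h5
  exact T.n01 h5

lemma Kv2 : v2 ∈ K := T.rev.Kv1 R

/-- the unmatched doubles -/
lemma KD_eq : KD i K C = {v1, v2, w, w'} := by
  have l0 := T.l0
  have l1 := T.l1
  have l2 := T.l2
  have lw := T.lw
  have lw' := T.lw'
  have lp := T.lp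
  have lv1 := T.lv1
  have lv2 := T.lv2
  ext k
  rw [K2.mem_KD]
  constructor
  · rintro ⟨-, hC, hd⟩
    have hpn : k ≠ p := by
      rintro rfl
      rcases mem_union.1 hd with h | h
      · have := (mem_dbL'.1 h).2
        rw [T.hp, card_singleton] at this
        omega
      · have := (mem_dbU'.1 h).1
        omega
    have hlev : lev k = i + 1 ∨ lev k + 1 = i := by
      rcases mem_union.1 hd with h | h
      · exact Or.inl (mem_dbL'.1 h).1
      · exact Or.inr (mem_dbU'.1 h).1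
    simp only [mem_insert, mem_singleton]
    rcases T.cases_C hC with h5 | h5 | h5 | h5 | h5 | h5 | h5 | h5 | h5 | h5
    · rw [h5] at hlev; omega
    · rw [h5] at hlev; omega
    · rw [h5] at hlev; omega
    · exact Or.inl h5
    · exact Or.inr (Or.inl h5)
    · exact Or.inr (Or.inr (Or.inl h5))
    · exact Or.inr (Or.inr (Or.inr h5))
    · exact absurd h5 hpn
    · omega
    · omega
  · intro h
    simp only [mem_insert, mem_singleton] at h
    rcases h with rfl | rfl | rfl | rfl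
    · exact ⟨T.Kv1 R, T.mV1, mem_union_right _ T.dv1⟩
    · exact ⟨T.Kv2 R, T.mV2, mem_union_right _ T.dv2⟩
    · exact ⟨T.Kw R, T.mW, mem_union_left _ T.dw⟩
    · exact ⟨T.Kw' R, T.mW', mem_union_left _ T.dw'⟩

/-- the pairs with one common site -/
lemma c1_eq (H : Gr P r) : K2.c1 i K C = -3 := by
  classical
  have lw := T.lw
  have lw' := T.lw'
  have lv1 := T.lv1
  have lv2 := T.lv2
  have hC := T.hC
  obtain ⟨D, hD⟩ : ∃ D, D = KD i K C := ⟨_, rfl⟩
  have mD : ∀ k ∈ D, k ∈ K ∧ k ∈ C ∧ k ∈ dbL P i ∪ dbU P i ∧ (ns i k).card = 2 ∧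
      ns i k ⊆ st i C := by
    intro k hk
    rw [hD, K2.mem_KD] at hk
    exact ⟨hk.1, hk.2.1, hk.2.2, ns_card hk.2.2, K2.ns_sub hC H hk.2.2 hk.2.1⟩
  have e1 : ∑ q ∈ D.offDiag.filter (fun q => (ns i q.1 ∩ ns i q.2).card = 1),
      sgn i q.1 * sgn i q.2 = 2 * K2.c1 i K C := by
    unfold K2.c1 I1
    rw [two_pairs, ← hD]
    refine Finset.sum_congr ?_ fun _ _ => rfl
    ext q
    rw [mem_filter, mem_filter, mem_offDiag]
    refine and_congr_right fun h => ?_
    have : cm i C {q.1, q.2} = ns i q.1 ∩ ns i q.2 := by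
      ext x
      unfold cm
      rw [mem_filter, mem_inter]
      constructor
      · rintro ⟨-, h4⟩
        exact ⟨h4 _ (by simp), h4 _ (by simp)⟩
      · rintro ⟨h4, h5⟩
        refine ⟨(mD _ h.1).2.2.2.2 h4, ?_⟩
        intro t ht
        rw [mem_insert, mem_singleton] at ht
        rcases ht with rfl | rfl <;> assumption
    rw [this]
  have e2 : ∑ q ∈ D.offDiag.filter (fun q => (ns i q.1 ∩ ns i q.2).card = 1),
      sgn i q.1 * sgn i q.2 = ∑ k ∈ D, ∑ k' ∈ D,
        (if k ≠ k' ∧ (ns i k ∩ ns i k').card = 1 then sgn i k * sgn i k' else 0) := by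
    rw [← Finset.sum_product', ← Finset.sum_filter]
    refine Finset.sum_congr ?_ fun _ _ => rfl
    ext q
    rw [mem_filter, mem_filter, mem_offDiag, mem_product]
    tauto
  have qne : ∀ {a b : P}, lev a ≠ lev b → a ≠ b := fun h h1 => h (by rw [h1])
  have n1 : v1 ≠ v2 := T.nv
  have n2 : v1 ≠ w := qne (by omega)
  have n3 : v1 ≠ w' := qne (by omega)
  have n4 : v2 ≠ w := qne (by omega)
  have n5 : v2 ≠ w' := qne (by omega)
  have n6 : w ≠ w' := T.nw
  have s1 : sgn i v1 = -1 := EK.sgn_upp T.dv1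
  have s2 : sgn i v2 = -1 := EK.sgn_upp T.dv2
  have s3 : sgn i w = 1 := EK.sgn_low T.dw
  have s4 : sgn i w' = 1 := EK.sgn_low T.dw'
  have c12 : (ns i v1 ∩ ns i v2).card = 1 := by
    rw [T.nsv1, T.nsv2]
    exact card_int T.n02
  have c1w : (ns i v1 ∩ ns i w).card = 1 := by
    rw [T.nsv1, T.nsw, pair_comm]
    exact card_int T.n12
  have c1w' : (ns i v1 ∩ ns i w').card = 1 := by
    rw [T.nsv1, T.nsw', pair_comm]
    exact card_int T.n12
  have c2w : (ns i v2 ∩ ns i w).card = 1 := by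
    rw [T.nsv2, T.nsw, pair_comm x0 x2]
    exact card_int T.n01.symm
  have c2w' : (ns i v2 ∩ ns i w').card = 1 := by
    rw [T.nsv2, T.nsw', pair_comm x0 x2]
    exact card_int T.n01.symm
  have cww : (ns i w ∩ ns i w').card = 2 := by
    rw [T.nsw, T.nsw', inter_self, card_pair T.n02]
  have c21 := c12
  rw [inter_comm] at c21
  have cw1 := c1w
  rw [inter_comm] at cw1
  have cw1' := c1w'
  rw [inter_comm] at cw1'
  have cw2 := c2w
  rw [inter_comm] at cw2
  have cw2' := c2w'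
  rw [inter_comm] at cw2'
  have cww' := cww
  rw [inter_comm] at cww'
  have hsum : ∀ f : P → ℤ, ∑ k ∈ ({v1, v2, w, w'} : Finset P), f k = f v1 + f v2 + f w + f w' := by
    intro f
    rw [sum_insert, sum_insert, sum_pair n6]
    · ring
    · simp only [mem_insert, mem_singleton]
      push Not
      exact ⟨n4, n5⟩
    · simp only [mem_insert, mem_singleton]
      push Not
      exact ⟨n1, n2, n3⟩
  have e3 : ∑ k ∈ D, ∑ k' ∈ D,
      (if k ≠ k' ∧ (ns i k ∩ ns i k').card = 1 then sgn i k * sgn i k' else 0) = -6 := by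
    rw [hD, T.KD_eq R, hsum, hsum, hsum, hsum, hsum, s1, s2, s3, s4]
    rw [if_neg (by simp), if_pos ⟨n1, c12⟩, if_pos ⟨n2, c1w⟩, if_pos ⟨n3, c1w'⟩,
      if_pos ⟨n1.symm, c21⟩, if_neg (by simp), if_pos ⟨n4, c2w⟩, if_pos ⟨n5, c2w'⟩,
      if_pos ⟨n2.symm, cw1⟩, if_pos ⟨n4.symm, cw2⟩, if_neg (by simp),
      if_neg (by rw [cww]; omega),
      if_pos ⟨n3.symm, cw1'⟩, if_pos ⟨n5.symm, cw2'⟩, if_neg (by rw [cww']; omega),
      if_neg (by simp)]
    norm_num
  rw [e2, e3] at e1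
  linarith

/-- no contribution of the private children -/
lemma c2_eq (H : Gr P r) : K2.c2 i K C = 0 := by
  classical
  have hC := T.hC
  have meet : ∀ S U : Finset P, S.card = 2 → U.card = 2 → S ⊆ st i C → U ⊆ st i C →
      1 ≤ (S ∩ U).card := by
    intro S U h1 h2 h3 h4
    have h5 := card_union_add_card_inter S U
    have h6 := card_le_card (union_subset h3 h4)
    rw [T.card_st] at h6
    omega
  unfold K2.c2
  rw [Finset.sum_eq_zero]
  rintro ⟨⟨z, y⟩, k⟩ ht
  exfalso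
  rw [mem_I2'] at ht
  obtain ⟨g1, g2, g3, g4⟩ := ht
  have hyC := Pvt.mem_C hC g2 g1
  obtain ⟨-, k1, k2⟩ := K2.mem_KD.1 g3
  have m1 := meet (ns i y) (ns i k) (ns_card g2.mem) (ns_card k2)
    (K2.ns_sub hC H g2.mem hyC) (K2.ns_sub hC H k2 k1)
  rw [disjoint_iff_inter_eq_empty.1 g4, card_empty] at m1
  omega

end K

/-- THE COEFFICIENT (3,2) -/
theorem w3_eq {ι : Type*} [DecidableEq ι] {κ : P → ι} {a : ι}
    (T : Tri r i (cext (i + 1) κ a) x0 x1 x2 v1 v2 w w' p) (hq : NoQ P (i + 2))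
    (hg : ∀ m, m + 1 = i → Good P m) (hκ : Split (i + 1) κ) (R : EK.Red P i K psi) :
    wv i (cext (i + 1) κ a) = -3 := by
  have hb : bb i (i + 1) κ a = 3 := T.card_st
  have h1 := w3_VV T.H T.hir hq hg hκ R.mat a
    (star_small T.H T.hir hκ R (Or.inl (by exact T.card_st.le))) (by rw [hb]; norm_num)
  rw [T.c1_eq R T.H, T.c2_eq R T.H] at h1
  unfold wv
  exact h1

/-- THE BOUND for the triangle -/
theorem Tv_ge {ι : Type*} [DecidableEq ι] {κ : P → ι} {a : ι}
    (T : Tri r i (cext (i + 1) κ a) x0 x1 x2 v1 v2 w w' p) (hq : NoQ P (i + 2))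
    (hg : ∀ m, m + 1 = i → Good P m) (hκ : Split (i + 1) κ) (R : EK.Red P i K psi) :
    6 ≤ Tv i (cext (i + 1) κ a) := by
  have h1 := T.w3_eq hq hg hκ R
  have h2 := T.c1
  have h3 := T.be4
  unfold Tv Lv I2.Q4
  have h4 : I2.w3 (st i (cext (i + 1) κ a)).card (ZS i (cext (i + 1) κ a)) = -3 := h1
  rw [h1, h2, h4]
  nlinarith [h3, sq_nonneg (2 * I2.al 2 (st i (cext (i + 1) κ a)).card
    (ZS i (cext (i + 1) κ a)) + 1)]

end Tri

end Pool.Agent.GaussPoset.Win.W4
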