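import Pool.Agent.W_448j6_h22.KcI
import Pool.Agent.W_448j6_h22.KbP

/-!
MP_448cb3_co, G2, case B, window `j`: the frame of the triangle, the bound of its functional; no
element (C) at `j = 6`.
-/

namespace Pool.Agent.GaussPoset.EK

set_option linter.unusedSectionVars false

open Finset Win St Polynomial Wd Win.W4
open Pool.Agent.GaussPoset.Win.SO (PN vp)

universe u

variable {P : Type u} [Fintype P] [PartialOrder P] [DecidableEq P] {r i j : ℕ}

variable {m : ℕ} {x : ℕ → P} {c : ℕ → ℤ} {β : ℤ} {t : Tops P}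

variable {K : Finset P} {psi : P → P}

/-- the frame of the triangle -/
theorem NJ.tri (h : NJ P r j) (hj : 2 ≤ j) (B : RowB P j t 2 x c 2) (c0 : c 0 = -1)
    (c1 : c 1 = -1) : ∃ v1 v2 w w' p,
      W4.Tri r j (cext (j + 1) (topOf : P → Tops P) t) (x 0) (x 1) (x 2) v1 v2 w w' p := by
  classical
  have H := h.g.H
  have W := NJ.prow h hj B (by omega)
  have h01 := B.dcv_x H (k := 0) (l := 1) (by omega) (by omega)
  have h12 := B.dcv_x H (k := 1) (l := 2) (by omega) (by omega)
  have h02 := B.dcv_x H (k := 0) (l := 2) (by omega) (by omega)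
  rw [if_pos rfl, c0] at h01
  rw [if_pos rfl, c1] at h12
  rw [if_neg (by omega), if_pos ⟨rfl, rfl⟩] at h02
  have u01 := B.ucv_x 0 1 (by omega) (by omega)
  have u12 := B.ucv_x 1 2 (by omega) (by omega)
  have u02 := B.ucv_x 0 2 (by omega) (by omega)
  rw [if_pos rfl] at u01 u12
  rw [if_neg (by omega)] at u02
  obtain ⟨e0, e2⟩ := B.ends (by norm_num)
  have lost := B.lost 1 (by omega) (by omega) c0 c1
  have n01 : x 0 ≠ x 1 := fun q => by
    have := W.inj 0 1 (by omega) (by omega) q
    omega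
  have n12 : x 1 ≠ x 2 := fun q => by
    have := W.inj 1 2 (by omega) (by omega) q
    omega
  have n02 : x 0 ≠ x 2 := fun q => by
    have := W.inj 0 2 (by omega) (by omega) q
    omega
  -- the upper doubles
  obtain ⟨v1, hv1⟩ : ∃ v, v ∈ univ.filter (fun y => x 0 ⋖ y ∧ x 1 ⋖ y) := by
    apply card_pos.1
    unfold ucv at u01
    omega
  obtain ⟨v2, hv2⟩ : ∃ v, v ∈ univ.filter (fun y => x 1 ⋖ y ∧ x 2 ⋖ y) := by
    apply card_pos.1
    unfold ucv at u12
    omega
  rw [mem_filter] at hv1 hv2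
  obtain ⟨-, a1, a2⟩ := hv1
  obtain ⟨-, b1, b2⟩ := hv2
  have nv : v1 ≠ v2 := by
    rintro rfl
    have : v1 ∈ univ.filter (fun y => x 0 ⋖ y ∧ x 2 ⋖ y) := mem_filter.2 ⟨mem_univ _, a1, b2⟩
    have h1 := card_pos.2 ⟨v1, this⟩
    unfold ucv at u02
    omega
  have hu0 : uc (x 0) = {v1} := by
    obtain ⟨y, hy⟩ := card_eq_one.1 e0
    have : v1 ∈ uc (x 0) := mem_uc.2 a1
    rw [hy, mem_singleton] at this
    rw [hy, this]
  have hu2 : uc (x 2) = {v2} := by
    obtain ⟨y, hy⟩ := card_eq_one.1 e2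
    have : v2 ∈ uc (x 2) := mem_uc.2 b2
    rw [hy, mem_singleton] at this
    rw [hy, this]
  have hu1 : uc (x 1) = {v1, v2} := by
    symm
    apply eq_of_subset_of_card_le
    · intro y hy
      rw [mem_insert, mem_singleton] at hy
      rcases hy with rfl | rfl
      · exact mem_uc.2 a2
      · exact mem_uc.2 b1
    · rw [card_pair nv]
      exact uc_card_le H (x 1)
  have hd1 : dc v1 = {x 0, x 1} := by
    symm
    apply eq_of_subset_of_card_le
    · intro y hy
      rw [mem_insert, mem_singleton] at hy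
      rcases hy with rfl | rfl
      · exact mem_dc.2 a1
      · exact mem_dc.2 a2
    · rw [card_pair n01]
      exact dc_card_le H v1
  have hd2 : dc v2 = {x 1, x 2} := by
    symm
    apply eq_of_subset_of_card_le
    · intro y hy
      rw [mem_insert, mem_singleton] at hy
      rcases hy with rfl | rfl
      · exact mem_dc.2 b1
      · exact mem_dc.2 b2
    · rw [card_pair n12]
      exact dc_card_le H v2
  -- the lower doubles
  obtain ⟨w, w', nw, hww⟩ : ∃ w w', w ≠ w' ∧ univ.filter (fun y => y ⋖ x 0 ∧ y ⋖ x 2) = {w, w'} := by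
    apply card_eq_two.1
    unfold dcv at h02
    omega
  have hw : w ⋖ x 0 ∧ w ⋖ x 2 := by
    have : w ∈ univ.filter (fun y => y ⋖ x 0 ∧ y ⋖ x 2) := by rw [hww]; simp
    exact (mem_filter.1 this).2
  have hw' : w' ⋖ x 0 ∧ w' ⋖ x 2 := by
    have : w' ∈ univ.filter (fun y => y ⋖ x 0 ∧ y ⋖ x 2) := by rw [hww]; simp
    exact (mem_filter.1 this).2
  have hc0 : dc (x 0) = {w, w'} := by
    symm
    apply eq_of_subset_of_card_le
    · intro y hy
      rw [mem_insert, mem_singleton] at hy
      rcases hy with rfl | rfl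
      · exact mem_dc.2 hw.1
      · exact mem_dc.2 hw'.1
    · rw [card_pair nw]
      exact dc_card_le H (x 0)
  have hc2 : dc (x 2) = {w, w'} := by
    symm
    apply eq_of_subset_of_card_le
    · intro y hy
      rw [mem_insert, mem_singleton] at hy
      rcases hy with rfl | rfl
      · exact mem_dc.2 hw.2
      · exact mem_dc.2 hw'.2
    · rw [card_pair nw]
      exact dc_card_le H (x 2)
  have huw : uc w = {x 0, x 2} := by
    symm
    apply eq_of_subset_of_card_le
    · intro y hy
      rw [mem_insert, mem_singleton] at hy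
      rcases hy with rfl | rfl
      · exact mem_uc.2 hw.1
      · exact mem_uc.2 hw.2
    · rw [card_pair n02]
      exact uc_card_le H w
  have huw' : uc w' = {x 0, x 2} := by
    symm
    apply eq_of_subset_of_card_le
    · intro y hy
      rw [mem_insert, mem_singleton] at hy
      rcases hy with rfl | rfl
      · exact mem_uc.2 hw'.1
      · exact mem_uc.2 hw'.2
    · rw [card_pair n02]
      exact uc_card_le H w'
  -- the pendant
  obtain ⟨p, hp⟩ := card_eq_one.1 lost
  have hup : uc p = {x 1} := by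
    have hpm : p ∈ pen (x 1) := by rw [hp]; exact mem_singleton_self _
    obtain ⟨q1, q2⟩ := mem_pen.1 hpm
    obtain ⟨y, hy⟩ := card_eq_one.1 q2
    have := mem_uc.2 q1
    rw [hy, mem_singleton] at this
    rw [hy, this]
  have hlj : ∀ k, k ≤ 2 → lev (x k) = j := fun k hk => W.lev_x k hk
  have hdp : dc (x 1) = {p} := by
    ext z
    rw [mem_singleton]
    constructor
    · intro hz
      have hz1 := mem_dc.1 hz
      have hle : x 1 ∈ uc z := mem_uc.2 hz1
      have hc := uc_card_le H z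
      have hpos := card_pos.2 ⟨x 1, hle⟩
      rcases Nat.lt_or_ge (uc z).card 2 with h1 | h1
      · obtain ⟨y, hy⟩ := card_eq_one.1 (by omega : (uc z).card = 1)
        rw [hy, mem_singleton] at hle
        rw [← hle] at hy
        have h3 : z ∈ pen (x 1) := mem_pen.2 ⟨hz1, by rw [hy, card_singleton]⟩
        rwa [hp, mem_singleton] at h3
      · exfalso
        obtain ⟨y, hy, hyn⟩ := exists_mem_ne (by omega : 1 < (uc z).card) (x 1)
        have hzC : z ∈ cext (j + 1) (topOf : P → Tops P) t :=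
          W.hC.dn (W.mem 1 (by omega)) (by rw [hlj 1 (by omega)]; omega) hz1
        have hyC := W.hC.up hzC (mem_uc.1 hy)
        have l1 := lev_cov H hz1
        have l2 := lev_uc H hy
        have l3 := hlj 1 (by omega)
        obtain ⟨k, hk, rfl⟩ := W.surj y hyC (by omega)
        have hk3 : k = 0 ∨ k = 1 ∨ k = 2 := by omega
        rcases hk3 with rfl | rfl | rfl
        · have : z ∈ univ.filter (fun y => y ⋖ x 0 ∧ y ⋖ x 1) :=
            mem_filter.2 ⟨mem_univ _, mem_uc.1 hy, hz1⟩
          have h1 := card_pos.2 ⟨z, this⟩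
          unfold dcv at h01
          omega
        · exact hyn rfl
        · have : z ∈ univ.filter (fun y => y ⋖ x 1 ∧ y ⋖ x 2) :=
            mem_filter.2 ⟨mem_univ _, hz1, mem_uc.1 hy⟩
          have h1 := card_pos.2 ⟨z, this⟩
          unfold dcv at h12
          omega
    · rintro rfl
      exact mem_dc.2 (mem_uc.1 (by rw [hup]; simp))
  refine ⟨v1, v2, w, w', p, ?_⟩
  exact {
    H := H
    hi := W.hi
    hi2 := W.hi2
    hC := W.hC
    l0 := hlj 0 (by omega)
    l1 := hlj 1 (by omega)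
    l2 := hlj 2 (by omega)
    hst := by
      ext v
      rw [mem_st]
      simp only [mem_insert, mem_singleton]
      constructor
      · rintro ⟨h1, h2⟩
        obtain ⟨k, hk, rfl⟩ := W.surj v h1 h2
        have hk3 : k = 0 ∨ k = 1 ∨ k = 2 := by omega
        rcases hk3 with rfl | rfl | rfl <;> tauto
      · rintro (rfl | rfl | rfl)
        · exact ⟨W.mem 0 (by omega), hlj 0 (by omega)⟩
        · exact ⟨W.mem 1 (by omega), hlj 1 (by omega)⟩
        · exact ⟨W.mem 2 (by omega), hlj 2 (by omega)⟩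
    n01 := n01
    n02 := n02
    n12 := n12
    u0 := hu0
    u1 := hu1
    u2 := hu2
    hv1 := hd1
    hv2 := hd2
    d0 := hc0
    d1 := hdp
    d2 := hc2
    hw := huw
    hw' := huw'
    hp := hup
    nw := nw }

/-- THE BOUND OF THE TRIANGLE -/
theorem NJ.tri_bound (h : NJ P r j) (hj : 2 ≤ j) (B : RowB P j t 2 x c 2) (c0 : c 0 = -1)
    (c1 : c 1 = -1) : 6 ≤ TT j t := by
  obtain ⟨K, psi, R⟩ := exists_red P j
  obtain ⟨v1, v2, w, w', p, T⟩ := NJ.tri h hj B c0 c1
  rw [NJ.TT_small h hj R (Or.inl T.card_st.le)]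
  exact T.Tv_ge (NJ.noQ h hj) (fun m hm => h.g.good m (by omega)) h.split R

/-- NO ELEMENT (C) OF THE LEVEL 7 -/
theorem no_cc_six {lo hi : Tops P → ℕ → ℕ} {e : Tops P → ℕ → ℕ → P}
    (h : NJ P r 6) (C : ∀ t : Tops P, Cp.Comp 6 (t : P) (lo t) (hi t) (e t))
    (hS : ∀ t : Tops P, Shape 6 (lo t) (hi t)) (t : Tops P) {z : P}
    (S : StairShape 6 (lo t) (hi t)) (l6 : lo t 6 = 0)
    (z3 : z ⋖ e t 6 3) (z0 : z ⋖ e t 6 0) : False :=
  no_cc_of_tri h C hS (fun _ _ _ B c0 c1 => NJ.tri_bound h (by omega) B c0 c1) t S l6 z3 z0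

end Pool.Agent.GaussPoset.EK
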