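import Pool.Agent.W_448j6_h22.KcJ

/-!
MP_448cb3_co, G2, case B, `j = 6`: no element (C), in the form of the final assembly.
-/

namespace Pool.Agent.GaussPoset.EK

set_option linter.unusedSectionVars false

open Finset Win St Polynomial Wd Win.W4

universe u

/-- NO ELEMENT (C) OF THE LEVEL 7, in the form of the final assembly -/
theorem hcc3_nj (P : Type u) [Fintype P] [PartialOrder P] [DecidableEq P] :
    ∀ r, NJ P r (2 * 3) → ∀ (lo hi : Tops P → ℕ → ℕ) (e : Tops P → ℕ → ℕ → P),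
    (∀ t : Tops P, Cp.Comp (2 * 3) (t : P) (lo t) (hi t) (e t)) →
    (∀ t : Tops P, Shape (2 * 3) (lo t) (hi t)) →
    ∀ (t : Tops P) (z : P), StairShape (2 * 3) (lo t) (hi t) → lo t (2 * 3) = 0 →
      z ⋖ e t (2 * 3) 3 → z ⋖ e t (2 * 3) 0 → False :=
  fun _ h _ _ _ C hS t _ S h0 h1 h2 => no_cc_six h C hS t S h0 h1 h2

end Pool.Agent.GaussPoset.EK
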