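import Pool.Agent.W_448j6_h22.KcI

/-!
MP_448cb3_co, G2, case B, window `j`: the triangle: more configurations of value minus one, the
coefficient (4,2) is at most two.
-/

namespace Pool.Agent.GaussPoset.Win.W4

set_option linter.unusedSectionVars false

open Finset
open Pool.Agent.GaussPoset.Win.SO (LowD UppD val_gen coef_units)

universe u

variable {P : Type u} [Fintype P] [PartialOrder P] [DecidableEq P] {r i : ℕ}
variable {e : P → ℕ} {C : Finset P} {x0 x1 x2 v1 v2 w w' p u : P}

/-- eight lists with value minus one -/
def negs8 : List (List ℕ) :=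
  [[0, 1, 0, 1, 2, 0, 0, 0], [0, 1, 0, 2, 1, 0, 0, 0], [2, 0, 0, 1, 0, 1, 0, 0],
    [2, 0, 0, 1, 0, 0, 1, 0], [0, 0, 2, 0, 1, 1, 0, 0], [0, 0, 2, 0, 1, 0, 1, 0],
    [1, 0, 0, 1, 0, 1, 1, 0], [0, 0, 1, 0, 1, 1, 1, 0]]

lemma negs8_card : negs8.toFinset.card = 8 := by decide +kernel

/-- a general lower labelling: the labels one on some lower elements, guarded, one killed site -/
lemma low_guard (H : Gr P r) {L : Finset P} {s s' : P} (hL : ∀ z ∈ L, lev z = i + 1)
    (hL1 : ∀ z ∈ L, uc z = {s, s'} ∧ e z = 1) (hne : L.Nonempty) (hs : lev s = i)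
    (hs' : lev s' = i) (h1 : 1 ≤ e s) (h2 : e s' = 0)
    (h0 : ∀ z, i < lev z → z ∉ L → e z = 0) : LowD i e (∅ : Finset P) ∅ {s'} := by
  have lab : ∀ z, i < lev z → e z ≤ 1 := by
    intro z hz
    by_cases h : z ∈ L
    · exact (hL1 z h).2.le
    · rw [h0 z hz h]; exact Nat.zero_le _
  have ss' : s ≠ s' := by rintro rfl; omega
  refine ⟨?_, ?_, ?_, ?_, ?_, ?_⟩
  · intro z hz
    constructor
    · rintro ⟨y, hy, hlt⟩
      have := lev_cov H hy
      rw [h0 y (by omega) (fun h => by have := hL y h; omega)] at hlt
      omega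
    · intro h'
      exact absurd h' (notMem_empty _)
  · intro z hz
    rw [mem_singleton]
    constructor
    · rintro ⟨y, hy, hlt⟩
      have hl := lev_cov H hy
      by_cases g1 : y ∈ L
      · have : z ∈ uc y := mem_uc.2 hy
        rw [(hL1 y g1).1, mem_insert, mem_singleton] at this
        rcases this with h | h
        · have := (hL1 y g1).2
          rw [h] at hlt
          omega
        · exact h
      · rw [h0 y (by omega) g1] at hlt
        omega
    · rintro rfl
      obtain ⟨y, hy⟩ := hne
      exact ⟨y, mem_uc.1 (by rw [(hL1 y hy).1]; simp), by rw [(hL1 y hy).2]; omega⟩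
  · intro z hz
    constructor
    · intro _
      exact ⟨notMem_empty _, notMem_empty _⟩
    · intro _
      by_cases g1 : z ∈ L
      · exact ⟨s, mem_uc.1 (by rw [(hL1 z g1).1]; simp), by rw [(hL1 z g1).2]; exact h1⟩
      · obtain ⟨y, hy⟩ := uc_nonempty H (x := z) (by omega)
        refine ⟨y, mem_uc.1 hy, ?_⟩
        rw [h0 z hz g1]
        exact Nat.zero_le _
  · intro z hz
    exact absurd hz (notMem_empty _)
  · intro z hz
    exact absurd hz (notMem_empty _)
  · intro z hz
    rw [mem_singleton] at hz
    rw [hz]
    exact hs'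

/-- an upper labelling: labels one on `v` and on a set of elements over `v` only, guarded -/
lemma upp_guard (H : Gr P r) (hir : i ≤ r) {v s s' : P} {U : Finset P} (hv : lev v + 1 = i)
    (hdv : dc v = {s, s'}) (hev : e v = 1) (h1 : 1 ≤ e s) (h2 : e s' = 0)
    (hU : ∀ z ∈ U, lev z + 2 = i ∧ dc z = {v} ∧ e z = 1)
    (h0 : ∀ z, lev z < i → z ≠ v → z ∉ U → e z = 0) : UppD i e (∅ : Finset P) ∅ {s'} := by
  have hls : lev s = i := by
    have : s ∈ dc v := by rw [hdv]; simp
    have := lev_cov H (mem_dc.1 this)
    omega
  have hls' : lev s' = i := by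
    have : s' ∈ dc v := by rw [hdv]; simp
    have := lev_cov H (mem_dc.1 this)
    omega
  refine ⟨?_, ?_, ?_, ?_, ?_, ?_⟩
  · intro z hz
    constructor
    · rintro ⟨y, hy, hlt⟩
      have hl := lev_cov H hy
      exfalso
      by_cases g1 : y ∈ U
      · obtain ⟨-, g3, g4⟩ := hU y g1
        have : z ∈ dc y := mem_dc.2 hy
        rw [g3, mem_singleton] at this
        rw [this] at hlt
        omega
      · by_cases g2 : y = v
        · rw [g2] at hl
          omega
        · rw [h0 y (by omega) g2 g1] at hlt
          omega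
    · intro h'
      exact absurd h' (notMem_empty _)
  · intro z hz
    rw [mem_singleton]
    constructor
    · rintro ⟨y, hy, hlt⟩
      have hl := lev_cov H hy
      by_cases g2 : y = v
      · rw [g2] at hy hlt
        have : z ∈ dc v := mem_dc.2 hy
        rw [hdv, mem_insert, mem_singleton] at this
        rcases this with h | h
        · rw [h] at hlt
          omega
        · exact h
      · rw [h0 y (by omega) g2 (fun h => by have := (hU y h).1; omega)] at hlt
        omega
    · rintro rfl
      exact ⟨v, mem_dc.1 (by rw [hdv]; simp), by omega⟩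
  · intro z hz
    constructor
    · intro _
      exact ⟨notMem_empty _, notMem_empty _⟩
    · intro _
      by_cases g1 : z ∈ U
      · obtain ⟨-, g3, g4⟩ := hU z g1
        exact ⟨v, mem_dc.1 (by rw [g3]; simp), by omega⟩
      by_cases g2 : z = v
      · rw [g2]
        exact ⟨s, mem_dc.1 (by rw [hdv]; simp), by omega⟩
      · obtain ⟨y, hy⟩ := dc_nonempty H (x := z) (by omega)
        refine ⟨y, mem_dc.1 hy, ?_⟩
        rw [h0 z hz g2 g1]
        exact Nat.zero_le _
  · intro z hz
    exact absurd hz (notMem_empty _)
  · intro z hz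
    exact absurd hz (notMem_empty _)
  · intro z hz
    rw [mem_singleton] at hz
    rw [hz]
    exact hls'

namespace Tri

variable (T : Tri r i C x0 x1 x2 v1 v2 w w' p)
include T

/-- the third kind: two lower doubles -/
lemma neg_three (h1 : e x0 = 1) (h2 : e v1 = 1) (h3 : e w = 1) (h4 : e w' = 1)
    (h0 : ∀ z, z ≠ x0 → z ≠ v1 → z ≠ w → z ≠ w' → e z = 0) : vl i C e = -1 := by
  classical
  have H := T.H
  have lw := T.lw
  have lw' := T.lw'
  have lv1 := T.lv1
  have l0 := T.l0
  have l1 := T.l1
  have l2 := T.l2
  have hs : Spt C e := by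
    intro z hz
    exact h0 z (fun h => hz (h ▸ T.mC0)) (fun h => hz (h ▸ T.mV1)) (fun h => hz (h ▸ T.mW))
      (fun h => hz (h ▸ T.mW'))
  have hx1 : e x1 = 0 := h0 x1 T.n01.symm (by rintro rfl; omega) (by rintro rfl; omega)
    (by rintro rfl; omega)
  have hx2 : e x2 = 0 := h0 x2 T.n02.symm (by rintro rfl; omega) (by rintro rfl; omega)
    (by rintro rfl; omega)
  have D : LowD i e (∅ : Finset P) ∅ {x2} := by
    refine low_guard (L := {w, w'}) (s := x0) H ?_ ?_ ⟨w, by simp⟩ l0 l2 h1.ge hx2 ?_
    · intro z hz
      rw [mem_insert, mem_singleton] at hz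
      rcases hz with rfl | rfl <;> assumption
    · intro z hz
      rw [mem_insert, mem_singleton] at hz
      rcases hz with rfl | rfl
      · exact ⟨T.hw, h3⟩
      · exact ⟨T.hw', h4⟩
    · intro z hz hn
      rw [mem_insert, mem_singleton] at hn
      push Not at hn
      exact h0 z (by rintro rfl; omega) (by rintro rfl; omega) hn.1 hn.2
  have D' : UppD i e (∅ : Finset P) ∅ {x1} := by
    refine upp_guard (U := ∅) (s := x0) H T.hir lv1 T.hv1 h2 h1.ge hx1 ?_ ?_
    · intro z hz
      exact absurd hz (notMem_empty _)
    · intro z hz hn _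
      exact h0 z (by rintro rfl; omega) hn (by rintro rfl; omega) (by rintro rfl; omega)
  have key := (val_gen H T.hC hs D D' (by rw [disjoint_singleton]; exact T.n12.symm) (k := 2)
    (by rw [card_singleton, card_singleton, card_empty])).2
  unfold vl
  rw [key, card_singleton, card_empty]
  norm_num

/-- the fourth kind: an upper element over one of the doubles only -/
lemma neg_four (hu : dc u = {v1}) (h1 : e x0 = 1) (h2 : e v1 = 1) (h3 : e w = 1) (h4 : e u = 1)
    (h0 : ∀ z, z ≠ x0 → z ≠ v1 → z ≠ w → z ≠ u → e z = 0) : vl i C e = -1 := by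
  classical
  have H := T.H
  have lw := T.lw
  have lv1 := T.lv1
  have l0 := T.l0
  have l1 := T.l1
  have l2 := T.l2
  have hvu : v1 ⋖ u := mem_dc.1 (by rw [hu]; simp)
  have lu := lev_cov H hvu
  have hs : Spt C e := by
    intro z hz
    exact h0 z (fun h => hz (h ▸ T.mC0)) (fun h => hz (h ▸ T.mV1)) (fun h => hz (h ▸ T.mW))
      (fun h => hz (h ▸ T.hC.up T.mV1 hvu))
  have hx1 : e x1 = 0 := h0 x1 T.n01.symm (by rintro rfl; omega) (by rintro rfl; omega)
    (by rintro rfl; omega)
  have hx2 : e x2 = 0 := h0 x2 T.n02.symm (by rintro rfl; omega) (by rintro rfl; omega)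
    (by rintro rfl; omega)
  have D : LowD i e (∅ : Finset P) ∅ {x2} := by
    refine low_guard (L := {w}) (s := x0) H ?_ ?_ ⟨w, by simp⟩ l0 l2 h1.ge hx2 ?_
    · intro z hz
      rw [mem_singleton] at hz
      rw [hz]
      exact lw
    · intro z hz
      rw [mem_singleton] at hz
      rw [hz]
      exact ⟨T.hw, h3⟩
    · intro z hz hn
      rw [mem_singleton] at hn
      exact h0 z (by rintro rfl; omega) (by rintro rfl; omega) hn (by rintro rfl; omega)
  have D' : UppD i e (∅ : Finset P) ∅ {x1} := by
    refine upp_guard (U := {u}) (s := x0) H T.hir lv1 T.hv1 h2 h1.ge hx1 ?_ ?_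
    · intro z hz
      rw [mem_singleton] at hz
      rw [hz]
      exact ⟨by omega, hu, h4⟩
    · intro z hz hn hn'
      rw [mem_singleton] at hn'
      exact h0 z (by rintro rfl; omega) hn (by rintro rfl; omega) hn'
  have key := (val_gen H T.hC hs D D' (by rw [disjoint_singleton]; exact T.n12.symm) (k := 2)
    (by rw [card_singleton, card_singleton, card_empty])).2
  unfold vl
  rw [key, card_singleton, card_empty]
  norm_num

/-- the fifth kind: an upper element over both doubles -/
lemma neg_five (hu : dc u = {v1, v2}) (h1 : e v1 = 1) (h2 : e v2 = 1) (h3 : e u = 2)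
    (h0 : ∀ z, z ≠ v1 → z ≠ v2 → z ≠ u → e z = 0) : vl i C e = -1 := by
  classical
  have H := T.H
  have lv1 := T.lv1
  have lv2 := T.lv2
  have l0 := T.l0
  have l1 := T.l1
  have l2 := T.l2
  have hvu : v1 ⋖ u := mem_dc.1 (by rw [hu]; simp)
  have hvu' : v2 ⋖ u := mem_dc.1 (by rw [hu]; simp)
  have lu := lev_cov H hvu
  have hs : Spt C e := by
    intro z hz
    exact h0 z (fun h => hz (h ▸ T.mV1)) (fun h => hz (h ▸ T.mV2))
      (fun h => hz (h ▸ T.hC.up T.mV1 hvu))
  have hsite : ∀ z, lev z = i → e z = 0 := fun z hz =>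
    h0 z (by rintro rfl; omega) (by rintro rfl; omega) (by rintro rfl; omega)
  have D : LowD i e (∅ : Finset P) ∅ ∅ := SO.low_none H fun z hz =>
    h0 z (by rintro rfl; omega) (by rintro rfl; omega) (by rintro rfl; omega)
  have D' : UppD i e ({v1, v2} : Finset P) {u} {x0, x1, x2} := by
    refine ⟨?_, ?_, ?_, ?_, ?_, ?_⟩
    · intro z hz
      constructor
      · rintro ⟨y, hy, hlt⟩
        have := lev_cov H hy
        by_cases g1 : y = u
        · rw [g1] at hy
          rw [← hu]
          exact mem_dc.2 hy
        · rw [h0 y (by rintro rfl; omega) (by rintro rfl; omega) g1] at hlt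
          omega
      · intro h'
        rw [mem_insert, mem_singleton] at h'
        rcases h' with rfl | rfl
        · exact ⟨u, hvu, by omega⟩
        · exact ⟨u, hvu', by omega⟩
    · intro z hz
      constructor
      · rintro ⟨y, hy, hlt⟩
        have hl := lev_cov H hy
        by_cases g1 : y = v1
        · rw [g1] at hy
          have : z ∈ dc v1 := mem_dc.2 hy
          rw [T.hv1] at this
          simp only [mem_insert, mem_singleton] at this ⊢
          tauto
        by_cases g2 : y = v2
        · rw [g2] at hy
          have : z ∈ dc v2 := mem_dc.2 hy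
          rw [T.hv2] at this
          simp only [mem_insert, mem_singleton] at this ⊢
          tauto
        rw [h0 y g1 g2 (by rintro rfl; omega)] at hlt
        omega
      · intro h'
        rw [mem_insert, mem_insert, mem_singleton] at h'
        have h5 := hsite z hz
        rcases h' with rfl | rfl | rfl
        · exact ⟨v1, T.c_01, by omega⟩
        · exact ⟨v2, T.c_12, by omega⟩
        · exact ⟨v2, T.c_22, by omega⟩
    · intro z hz
      constructor
      · rintro ⟨y, hy, hle⟩
        have hl := lev_cov H hy
        refine ⟨?_, ?_⟩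
        · intro h'
          rw [mem_insert, mem_singleton] at h'
          rcases h' with rfl | rfl
          · rw [hsite y (by omega)] at hle
            omega
          · rw [hsite y (by omega)] at hle
            omega
        · intro h'
          rw [mem_singleton] at h'
          rw [h'] at hy hle
          have : y ∈ dc u := mem_dc.2 hy
          rw [hu, mem_insert, mem_singleton] at this
          rcases this with rfl | rfl <;> omega
      · rintro ⟨h', h''⟩
        rw [mem_singleton] at h''
        rw [mem_insert, mem_singleton] at h'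
        push Not at h'
        obtain ⟨y, hy⟩ := dc_nonempty H (x := z) (by have := T.hi2; omega)
        refine ⟨y, mem_dc.1 hy, ?_⟩
        rw [h0 z h'.1 h'.2 h'']
        exact Nat.zero_le _
    · intro z hz
      rw [mem_insert, mem_singleton] at hz
      rcases hz with rfl | rfl <;> omega
    · intro z hz
      rw [mem_singleton] at hz
      rw [hz]
      refine ⟨by omega, ?_⟩
      rw [mem_insert, mem_singleton]
      rintro (rfl | rfl) <;> omega
    · intro z hz
      rw [mem_insert, mem_insert, mem_singleton] at hz
      rcases hz with rfl | rfl | rfl <;> assumption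
  have c3 : ({x0, x1, x2} : Finset P).card = 3 := by
    rw [← T.hst]
    exact T.card_st
  have key := (val_gen H T.hC hs D D' (disjoint_empty_left _) (k := 2)
    (by rw [c3, card_singleton, card_empty])).2
  unfold vl
  rw [key, card_singleton, card_empty, card_pair T.nv]
  norm_num

end Tri

end Pool.Agent.GaussPoset.Win.W4
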